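import Pool.Agent.P.MP_1639c2_lc.W.Core
import Pool.Agent.Lib.NP.Bin2

/-! The algorithm, as a function of the oracle and the instance. -/

namespace Pool.Agent.P.MP_1639c2_lc.W

open Finset Pool.Agent.Lib.NP

/-- A list of copies (bit masks of bases). -/
abbrev Cp := List (List Bool)

def Par.N (P : Par) : ℕ := P.u ^ 75
def Par.Kk (P : Par) : ℕ := P.u ^ 56
def Par.L (P : Par) : ℕ := P.u ^ 55
def Par.R (P : Par) : ℕ := P.u ^ 54

def bs (n : ℕ) (B : List Bool) : Finset ℕ := (range n).filter (fun i => bit B i = true)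
def cs (n : ℕ) (Bs : Cp) (k : ℕ) : Finset ℕ := bs n (Bs.getD k [])
/-- Remove `i`, insert `j`. -/
def sw (n : ℕ) (B : List Bool) (i j : ℕ) : List Bool :=
  (List.range n).map fun v => if v = j then true else if v = i then false else bit B v
/-- The table of the valid exchanges. -/
def arcs (O : List Bool → Bool) (n N : ℕ) (Bs : Cp) : List Cp :=
  (List.range N).map fun k => (List.range n).map fun i => (List.range n).map fun j =>
    bit (Bs.getD k []) i && !bit (Bs.getD k []) j && O (sw n (Bs.getD k []) i j)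
def ar (A : List Cp) (k i j : ℕ) : Bool := bit ((A.getD k []).getD i []) j
def put (N : ℕ) (Bs : Cp) (k : ℕ) (B : List Bool) : Cp :=
  (List.range N).map fun s => if s = k then B else Bs.getD s []
def nrm (n N : ℕ) (Bs : Cp) : Cp :=
  (List.range N).map fun k => (List.range n).map fun i => bit (Bs.getD k []) i
def cnt (N : ℕ) (Bs : Cp) (i : ℕ) : ℕ :=
  ((range N).filter (fun k => bit (Bs.getD k []) i = true)).card
def xq (N : ℕ) (Bs : Cp) (i : ℕ) : ℚ := (cnt N Bs i : ℚ) / (N : ℚ)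
def alv (n N : ℕ) (Bs : Cp) : Finset ℕ :=
  (range n).filter (fun i => 0 < cnt N Bs i ∧ cnt N Bs i < N)

def cq (c : List ℤ) (i : ℕ) : ℚ := ((c.getD i 0 : ℤ) : ℚ)
def costx (n : ℕ) (c : List ℤ) (x : ℕ → ℚ) : ℚ := ∑ i ∈ range n, cq c i * x i
def costB (n : ℕ) (c : List ℤ) (B : List Bool) : ℚ := ∑ i ∈ bs n B, cq c i
def lo (bd : List (ℤ × ℤ)) (j : ℕ) : ℚ := (((bd.getD j (0, 0)).1 : ℤ) : ℚ)
def hi (bd : List (ℤ × ℤ)) (j : ℕ) : ℚ := (((bd.getD j (0, 0)).2 : ℤ) : ℚ)

/-- The greedy algorithm. -/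
def greedy (O : List Bool → Bool) (n : ℕ) : List Bool :=
  (List.range n).foldl (fun B i => if O (sw n B i i) = true then sw n B i i else B) []

/-! ### First phase: approximate solution of the linear programme -/

def FL (P : Par) (c : List ℤ) (bd : List (ℤ × ℤ)) (g : ℚ) (x : ℕ → ℚ) : ℚ :=
  costx P.n c x / g + 4 * ∑ j ∈ range P.m,
    (max (lo bd j - P.aa (range P.n) x j) 0 ^ 2 + max (P.aa (range P.n) x j - hi bd j) 0 ^ 2)

def cands (n N : ℕ) (A : List Cp) (Bs : Cp) : List Cp :=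
  (List.range N).flatMap fun k => (List.range n).flatMap fun i =>
    ((List.range n).filter fun j => ar A k i j).map fun j => put N Bs k (sw n (Bs.getD k []) i j)

def lpStep (P : Par) (c : List ℤ) (bd : List (ℤ × ℤ)) (g : ℚ) (A : List Cp) (Bs : Cp) : Cp :=
  nrm P.n P.N (amin (fun Cs => FL P c bd g (xq P.N Cs)) Bs (cands P.n P.N A Bs))

def lp (O : List Bool → Bool) (P : Par) (c : List ℤ) (bd : List (ℤ × ℤ)) (g : ℚ) (b : ℕ) : Cp :=
  (fun Bs => lpStep P c bd g (arcs O P.n P.N Bs) Bs)^[2 * P.u * P.N * (b + 10 * P.u)]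
    (List.replicate P.N (greedy O P.n))

/-! ### Second phase: rounding -/

/-- Elements with a small minority side. -/
def kc (P : Par) (Bs : Cp) : List (ℕ × Bool) :=
  (List.range P.n).flatMap fun i =>
    (if 0 < cnt P.N Bs i ∧ cnt P.N Bs i < P.Kk then [(i, true)] else []) ++
      (if cnt P.N Bs i < P.N ∧ P.N < cnt P.N Bs i + P.Kk then [(i, false)] else [])

/-- The cheapest copy whose bit `i` differs from `b`. -/
def cheap (P : Par) (c : List ℤ) (Bs : Cp) (i : ℕ) (b : Bool) : ℕ :=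
  amin (fun k => costB P.n c (Bs.getD k []))
    (((List.range P.N).filter fun k => bit (Bs.getD k []) i != b).headD 0)
    ((List.range P.N).filter fun k => bit (Bs.getD k []) i != b)

def kill (P : Par) (c : List ℤ) (Bs : Cp) (i : ℕ) (b : Bool) : Cp :=
  (List.range P.N).map fun k =>
    if bit (Bs.getD k []) i = b then Bs.getD (cheap P c Bs i b) [] else Bs.getD k []

def acnt (N : ℕ) (A : List Cp) (i j : ℕ) : ℕ :=
  ((range N).filter (fun k => ar A k i j = true)).card

def rob (P : Par) (A : List Cp) (i j : ℕ) : Bool :=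
  decide (P.L ≤ acnt P.N A i j) && decide (P.L ≤ acnt P.N A j i)

def mis (P : Par) (A : List Cp) (S : Finset ℕ) : List ℕ :=
  (List.range P.n).foldl
    (fun D i => if i ∈ S ∧ (D.all fun d => !rob P A i d) = true then i :: D else D) []

def II (P : Par) (A : List Cp) (S : Finset ℕ) : Finset ℕ :=
  if S.card ≤ 2 * (mis P A S).length then S.filter (fun i => i ∈ mis P A S)
  else S.filter (fun i => i ∉ mis P A S)

def pp (P : Par) (A : List Cp) (S : Finset ℕ) (i : ℕ) : ℕ :=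
  ((List.range P.n).filter fun j => decide (j ∉ II P A S) && rob P A i j).headD 0

/-- Row sums at the start of the second phase. -/
def yz (P : Par) (Bs0 : Cp) (j : ℕ) : ℚ := P.aa (range P.n) (xq P.N Bs0) j

def xi0 (P : Par) (Bs0 : Cp) (A : List Cp) (Bs : Cp) : ℕ → ℤ :=
  neg (2 * P.n) (pol (P.Sf (alv P.n P.N Bs) (xq P.N Bs) (yz P Bs0)
    (P.qv (alv P.n P.N Bs) (xq P.N Bs) (yz P Bs0)) (II P A (alv P.n P.N Bs))
    (pp P A (alv P.n P.N Bs)))) (P.u ^ 107) P.R

def d0 (P : Par) (Bs0 : Cp) (A : List Cp) (Bs : Cp) : ℕ → ℚ :=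
  dv (II P A (alv P.n P.N Bs)) (pp P A (alv P.n P.N Bs)) (fun p => (xi0 P Bs0 A Bs p : ℚ))

def sg (P : Par) (c : List ℤ) (g : ℚ) (Bs0 : Cp) (A : List Cp) (Bs : Cp) : ℚ :=
  P.L1 (alv P.n P.N Bs) (xq P.N Bs) (yz P Bs0) (P.qv (alv P.n P.N Bs) (xq P.N Bs) (yz P Bs0))
    (d0 P Bs0 A Bs) + (P.u : ℚ) ^ 6 * (costx P.n c (d0 P Bs0 A Bs) / g)

def tt (P : Par) (c : List ℤ) (g : ℚ) (Bs0 : Cp) (A : List Cp) (Bs : Cp) (p : ℕ) : ℤ :=
  if sg P c g Bs0 A Bs ≤ 0 then xi0 P Bs0 A Bs p else -xi0 P Bs0 A Bs p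

/-- The list of exchanges that realises the integral vector `t`. -/
def planOf (n R : ℕ) (I : Finset ℕ) (pi : ℕ → ℕ) (t : ℕ → ℤ) : List (ℕ × ℕ) :=
  ((List.range n).filter fun p => decide (p ∈ I)).flatMap fun p =>
    List.replicate (min R (t p).natAbs) (if 0 ≤ t p then (p, pi p) else (pi p, p))

def plan (P : Par) (c : List ℤ) (g : ℚ) (Bs0 : Cp) (A : List Cp) (Bs : Cp) : List (ℕ × ℕ) :=
  planOf P.n P.R (II P A (alv P.n P.N Bs)) (pp P A (alv P.n P.N Bs)) (tt P c g Bs0 A Bs)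

/-- Perform the exchange `a` in the first copy that admits it. -/
def apA (n N : ℕ) (A : List Cp) (Bs : Cp) (a : ℕ × ℕ) : Cp :=
  nrm n N (put N Bs (((List.range N).map fun k => ar A k a.1 a.2).idxOf true)
    (sw n (Bs.getD (((List.range N).map fun k => ar A k a.1 a.2).idxOf true) []) a.1 a.2))

def exec (O : List Bool → Bool) (n N : ℕ) (l : List (ℕ × ℕ)) (Bs : Cp) : Cp :=
  l.foldl (fun Cs a => apA n N (arcs O n N Cs) Cs a) Bs

def rdStep (O : List Bool → Bool) (P : Par) (c : List ℤ) (g : ℚ) (Bs0 Bs : Cp) : Cp :=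
  exec O P.n P.N (if (kc P Bs).isEmpty = true then plan P c g Bs0 (arcs O P.n P.N Bs) Bs else [])
    (nrm P.n P.N (if (kc P Bs).isEmpty = true then Bs else
      kill P c Bs ((kc P Bs).headD (0, true)).1 ((kc P Bs).headD (0, true)).2))

def rd (O : List Bool → Bool) (P : Par) (c : List ℤ) (g : ℚ) (Bs0 : Cp) : Cp :=
  (rdStep O P c g Bs0)^[P.u ^ 71] Bs0

def run (O : List Bool → Bool) (P : Par) (c : List ℤ) (bd : List (ℤ × ℤ)) (g : ℚ) (b : ℕ) :
    List Bool :=
  (List.range P.n).map fun i => bit ((rd O P c g (lp O P c bd g b)).getD 0 []) i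

/-! ### The whole algorithm -/

def isq (t : ℕ) : ℕ := (List.range t).countP fun s => decide ((s + 1) ^ 2 ≤ t)

def Par.V (P : Par) : ℕ := isq P.T + isq (1024 * P.D) + 3

def okB (P : Par) (bd : List (ℤ × ℤ)) (B : List Bool) : Bool :=
  (List.range P.m).all fun j =>
    decide (lo bd j - (P.V : ℚ) ≤ ((P.row (bs P.n B) j).card : ℚ)) &&
      decide (((P.row (bs P.n B) j).card : ℚ) ≤ hi bd j + (P.V : ℚ))

def deg (n : ℕ) (H : List (List Bool)) : ℕ :=
  ((List.range n).map fun i => H.countP fun e => bit e i).foldl max 0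

def par (I : Inst) : Par where
  n := I.1.length
  D := deg I.1.length (I.2.map (·.1))
  r := blen (toBN (deg I.1.length (I.2.map (·.1)))) + 3
  u := I.1.length + I.2.length +
    (192 * (blen (toBN (deg I.1.length (I.2.map (·.1)))) + 3) + 6) + 16
  H := I.2.map (·.1)

def outs (O : List Bool → Bool) (I : Inst) : List (List Bool) :=
  ((List.range (sz I.1 + 1)).map fun s =>
    run O (par I) I.1 (I.2.map (·.2)) (2 ^ s) (sz I.1)).filter (okB (par I) (I.2.map (·.2)))

def alg (O : List Bool → Bool) (I : Inst) : List Bool :=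
  amin (costB I.1.length I.1) ((outs O I).headD []) (outs O I)

/-! ### Notions for the analysis -/

/-- `O` is an independence oracle for the matroid `M` on `{0, ..., n-1}`. -/
structure Orc (M : Matroid ℕ) (n : ℕ) (O : List Bool → Bool) : Prop where
  gr : M.E = Set.Iio n
  ind : ∀ b, O b = true ↔ M.Indep (mask b : Set ℕ)

/-- All copies are bases. -/
def Bas (M : Matroid ℕ) (n N : ℕ) (Bs : Cp) : Prop := ∀ k < N, M.IsBase (cs n Bs k : Set ℕ)

/-- A valid exchange. -/
def Arc (M : Matroid ℕ) (B : Finset ℕ) (i j : ℕ) : Prop :=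
  i ∈ B ∧ j ∉ B ∧ M.IsBase ((insert j (B.erase i) : Finset ℕ) : Set ℕ)

/-- Real form of a rational vector. -/
def rc (x : ℕ → ℚ) : ℕ → ℝ := fun i => (x i : ℝ)

end Pool.Agent.P.MP_1639c2_lc.W
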