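import Pool.Agent.P.MP_1639c2_lc.W.CorePT
import Pool.Agent.P.MP_1639c2_lc.W.Alg

/-! The oracle free parts of the algorithm run in polynomial time. -/

namespace Pool.Agent.P.MP_1639c2_lc.W

open Finset Pool.Agent.Lib.NP

variable {α : Type} [Enc α] {P : α → Par} {n N i j k : α → ℕ} {B : α → List Bool}
  {Bs Bs0 : α → Cp} {A : α → List Cp} {c : α → List ℤ} {bd : α → List (ℤ × ℤ)} {g : α → ℚ}

@[fun_prop] theorem pt_N (hP : PT P) : PT fun a => (P a).N := (pt_u hP).pow 75

@[fun_prop] theorem algPT1_Kk (hP : PT P) : PT fun a => (P a).Kk := (pt_u hP).pow 56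

@[fun_prop] theorem algPT1_L (hP : PT P) : PT fun a => (P a).L := (pt_u hP).pow 55

@[fun_prop] theorem algPT1_R (hP : PT P) : PT fun a => (P a).R := (pt_u hP).pow 54

@[fun_prop] theorem pt_sw (hn : PT n) (hB : PT B) (hi : PT i) (hj : PT j) :
    PT fun a => sw (n a) (B a) (i a) (j a) := by
  unfold sw
  fun_prop

@[fun_prop] theorem pt_nrm (hn : PT n) (hN : PT N) (hB : PT Bs) :
    PT fun a => nrm (n a) (N a) (Bs a) := by
  unfold nrm
  fun_prop

theorem sz_sw (n : ℕ) (B : List Bool) (i j : ℕ) : sz (sw n B i j) = 3 * n := by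
  rw [PT.sz_bits, sw, List.length_map, List.length_range]

theorem algPT1_sz_map {β γ : Type} [Enc γ] (f : β → γ) (s : ℕ) (h : ∀ b, sz (f b) = s)
    (l : List β) : sz (l.map f) = l.length * (2 * s + 1) := by
  induction l with
  | nil => simp
  | cons b l ih =>
    rw [List.map_cons, sz_cons, ih, h, List.length_cons]
    ring

theorem sz_nrm (n N : ℕ) (Bs : Cp) : sz (nrm n N Bs) = N * (6 * n + 1) := by
  rw [nrm, algPT1_sz_map _ (3 * n) (fun k => by rw [PT.sz_bits, List.length_map, List.length_range]),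
    List.length_range]
  ring

@[fun_prop] theorem algPT1_bs (hn : PT n) (hB : PT B) : PT fun a => bs (n a) (B a) := by
  unfold bs
  fun_prop

@[fun_prop] theorem algPT1_ar (hA : PT A) (hk : PT k) (hi : PT i) (hj : PT j) :
    PT fun a => ar (A a) (k a) (i a) (j a) := by
  unfold ar
  fun_prop

@[fun_prop] theorem algPT1_put (hN : PT N) (hBs : PT Bs) (hk : PT k) (hB : PT B) :
    PT fun a => put (N a) (Bs a) (k a) (B a) := by
  unfold put
  fun_prop

@[fun_prop] theorem algPT1_cnt (hN : PT N) (hBs : PT Bs) (hi : PT i) :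
    PT fun a => cnt (N a) (Bs a) (i a) := by
  unfold cnt
  fun_prop

@[fun_prop] theorem algPT1_xq (hN : PT N) (hBs : PT Bs) (hi : PT i) :
    PT fun a => xq (N a) (Bs a) (i a) := by
  unfold xq
  fun_prop

@[fun_prop] theorem algPT1_alv (hn : PT n) (hN : PT N) (hBs : PT Bs) :
    PT fun a => alv (n a) (N a) (Bs a) := by
  unfold alv
  exact pt_ffilter (PT.decide_and (by fun_prop) (by fun_prop)) (by fun_prop)

@[fun_prop] theorem algPT1_cq (hc : PT c) (hi : PT i) : PT fun a => cq (c a) (i a) := by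
  unfold cq
  fun_prop

theorem algPT1_costx {x : α → ℕ → ℚ} (hn : PT n) (hc : PT c)
    (hx : PT fun z : α × ℕ => x z.1 z.2) : PT fun a => costx (n a) (c a) (x a) := by
  unfold costx
  exact pt_fsum (pt_qmul (by fun_prop) hx) (by fun_prop)

@[fun_prop] theorem pt_costB (hn : PT n) (hc : PT c) (hB : PT B) :
    PT fun a => costB (n a) (c a) (B a) := by
  unfold costB
  fun_prop

@[fun_prop] theorem algPT1_lo (hbd : PT bd) (hj : PT j) : PT fun a => lo (bd a) (j a) := by
  unfold lo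
  fun_prop

@[fun_prop] theorem algPT1_hi (hbd : PT bd) (hj : PT j) : PT fun a => hi (bd a) (j a) := by
  unfold hi
  fun_prop

theorem algPT1_FL {x : α → ℕ → ℚ} (hP : PT P) (hc : PT c) (hbd : PT bd) (hg : PT g)
    (hx : PT fun z : α × ℕ => x z.1 z.2) : PT fun a => FL (P a) (c a) (bd a) (g a) (x a) := by
  unfold FL
  have h1 : PT fun z : α × ℕ => (P z.1).aa (range (P z.1).n) (x z.1) z.2 :=
    pt_aa (P := fun z : α × ℕ => P z.1) (d := fun z : α × ℕ => x z.1) (by fun_prop) (by fun_prop)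
      (hx.comp (g := fun z : (α × ℕ) × ℕ => (z.1.1, z.2)) (by fun_prop)) (by fun_prop)
  refine pt_qadd (pt_qdiv (algPT1_costx (pt_n hP) hc hx) hg)
    (pt_qmul (PT.const _) (pt_fsum ?_ (by fun_prop)))
  exact pt_qadd (pt_qpow (pt_qmax (pt_qsub (by fun_prop) h1) (PT.const _)) (PT.const _))
    (pt_qpow (pt_qmax (pt_qsub h1 (by fun_prop)) (PT.const _)) (PT.const _))

@[fun_prop] theorem algPT1_cands (hn : PT n) (hN : PT N) (hA : PT A) (hBs : PT Bs) :
    PT fun a => cands (n a) (N a) (A a) (Bs a) := by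
  unfold cands
  fun_prop

@[fun_prop] theorem pt_lpStep (hP : PT P) (hc : PT c) (hbd : PT bd) (hg : PT g) (hA : PT A)
    (hB : PT Bs) : PT fun a => lpStep (P a) (c a) (bd a) (g a) (A a) (Bs a) := by
  unfold lpStep
  refine pt_nrm (pt_n hP) (pt_N hP) (pt_amin ?_ hB (by fun_prop))
  exact algPT1_FL (P := fun z : α × Cp => P z.1) (x := fun z : α × Cp => xq (P z.1).N z.2)
    (by fun_prop) (by fun_prop) (by fun_prop) (by fun_prop) (by fun_prop)

@[fun_prop] theorem pt_kc (hP : PT P) (hB : PT Bs) : PT fun a => kc (P a) (Bs a) := by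
  unfold kc
  refine PT.flatMap (PT.append ?_ ?_) (by fun_prop)
  · exact PT.ite (PT.decide_and (by fun_prop) (by fun_prop)) (by fun_prop) (by fun_prop)
  · exact PT.ite (PT.decide_and (by fun_prop) (by fun_prop)) (by fun_prop) (by fun_prop)

@[fun_prop] theorem algPT1_cheap {b : α → Bool} (hP : PT P) (hc : PT c) (hB : PT Bs) (hi : PT i)
    (hb : PT b) : PT fun a => cheap (P a) (c a) (Bs a) (i a) (b a) := by
  unfold cheap
  exact pt_amin (by fun_prop) (by fun_prop) (by fun_prop)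

@[fun_prop] theorem pt_kill {b : α → Bool} (hP : PT P) (hc : PT c) (hB : PT Bs) (hi : PT i)
    (hb : PT b) : PT fun a => kill (P a) (c a) (Bs a) (i a) (b a) := by
  unfold kill
  fun_prop

@[fun_prop] theorem algPT1_acnt (hN : PT N) (hA : PT A) (hi : PT i) (hj : PT j) :
    PT fun a => acnt (N a) (A a) (i a) (j a) := by
  unfold acnt
  fun_prop

@[fun_prop] theorem algPT1_rob (hP : PT P) (hA : PT A) (hi : PT i) (hj : PT j) :
    PT fun a => rob (P a) (A a) (i a) (j a) := by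
  unfold rob
  fun_prop

@[fun_prop] theorem algPT1_mis {S : α → Finset ℕ} (hP : PT P) (hA : PT A) (hS : PT S) :
    PT fun a => mis (P a) (A a) (S a) := by
  unfold mis
  refine PT.foldl_add (f := fun a (D : List ℕ) (i : ℕ) =>
    if i ∈ S a ∧ (D.all fun d => !rob (P a) (A a) i d) = true then i :: D else D)
    (PT.ite (PT.decide_and (by fun_prop) (by fun_prop)) (by fun_prop) (by fun_prop))
    (by fun_prop) (PT.const _) (2 * Polynomial.X + 1) fun a s b => ?_
  split_ifs
  · simp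
    omega
  · simp

@[fun_prop] theorem algPT1_II {S : α → Finset ℕ} (hP : PT P) (hA : PT A) (hS : PT S) :
    PT fun a => II (P a) (A a) (S a) := by
  unfold II
  exact PT.ite (by fun_prop) (pt_ffilter (by fun_prop) hS) (pt_ffilter (pt_dnot (by fun_prop)) hS)

@[fun_prop] theorem algPT1_pp {S : α → Finset ℕ} (hP : PT P) (hA : PT A) (hS : PT S) (hi : PT i) :
    PT fun a => pp (P a) (A a) (S a) (i a) := by
  unfold pp
  exact PT.headD (PT.filter (PT.and (pt_dnot (by fun_prop)) (by fun_prop)) (by fun_prop))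
    (PT.const _)

@[fun_prop] theorem algPT1_yz (hP : PT P) (h0 : PT Bs0) (hj : PT j) :
    PT fun a => yz (P a) (Bs0 a) (j a) := by
  unfold yz
  exact pt_aa hP (by fun_prop) (by fun_prop) hj

theorem algPT1_qv (hP : PT P) (h0 : PT Bs0) (hB : PT Bs) (hi : PT i) :
    PT fun a => (P a).qv (alv (P a).n (P a).N (Bs a)) (xq (P a).N (Bs a)) (yz (P a) (Bs0 a))
      (i a) :=
  pt_qv hP (by fun_prop) (by fun_prop) (by fun_prop) hi

@[fun_prop] theorem algPT1_xi0 (hP : PT P) (h0 : PT Bs0) (hA : PT A) (hB : PT Bs) (hi : PT i) :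
    PT fun a => xi0 (P a) (Bs0 a) (A a) (Bs a) (i a) := by
  unfold xi0
  refine pt_neg (by fun_prop) ?_ ((pt_u hP).pow 107) (algPT1_R hP) hi
  exact pt_polSf (P := fun z : α × ℕ × ℕ => P z.1)
    (S := fun z : α × ℕ × ℕ => alv (P z.1).n (P z.1).N (Bs z.1))
    (x := fun z : α × ℕ × ℕ => xq (P z.1).N (Bs z.1))
    (y0 := fun z : α × ℕ × ℕ => yz (P z.1) (Bs0 z.1))
    (q := fun z : α × ℕ × ℕ => (P z.1).qv (alv (P z.1).n (P z.1).N (Bs z.1))
      (xq (P z.1).N (Bs z.1)) (yz (P z.1) (Bs0 z.1)))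
    (I := fun z : α × ℕ × ℕ => II (P z.1) (A z.1) (alv (P z.1).n (P z.1).N (Bs z.1)))
    (pi := fun z : α × ℕ × ℕ => pp (P z.1) (A z.1) (alv (P z.1).n (P z.1).N (Bs z.1)))
    (by fun_prop) (by fun_prop) (by fun_prop) (by fun_prop)
    (algPT1_qv (P := fun z : (α × ℕ × ℕ) × ℕ => P z.1.1) (by fun_prop) (by fun_prop) (by fun_prop)
      (by fun_prop))
    (by fun_prop) (by fun_prop) (by fun_prop) (by fun_prop)

@[fun_prop] theorem algPT1_d0 (hP : PT P) (h0 : PT Bs0) (hA : PT A) (hB : PT Bs) (hi : PT i) :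
    PT fun a => d0 (P a) (Bs0 a) (A a) (Bs a) (i a) := by
  unfold d0
  exact pt_dv (by fun_prop) (by fun_prop) (by fun_prop) hi

@[fun_prop] theorem algPT1_sg (hP : PT P) (hc : PT c) (hg : PT g) (h0 : PT Bs0) (hA : PT A)
    (hB : PT Bs) : PT fun a => sg (P a) (c a) (g a) (Bs0 a) (A a) (Bs a) := by
  unfold sg
  refine pt_qadd (pt_L1 hP (by fun_prop) (by fun_prop) (by fun_prop)
    (algPT1_qv (P := fun z : α × ℕ => P z.1) (by fun_prop) (by fun_prop) (by fun_prop)
      (by fun_prop)) (by fun_prop)) ?_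
  exact pt_qmul (pt_qpow (pt_natCast (pt_u hP)) (PT.const _))
    (pt_qdiv (algPT1_costx (pt_n hP) hc (by fun_prop)) hg)

@[fun_prop] theorem algPT1_tt (hP : PT P) (hc : PT c) (hg : PT g) (h0 : PT Bs0) (hA : PT A)
    (hB : PT Bs) (hi : PT i) : PT fun a => tt (P a) (c a) (g a) (Bs0 a) (A a) (Bs a) (i a) := by
  unfold tt
  exact PT.ite (pt_qle (algPT1_sg hP hc hg h0 hA hB) (PT.const _)) (algPT1_xi0 hP h0 hA hB hi)
    (pt_zneg (algPT1_xi0 hP h0 hA hB hi))

theorem algPT1_planOf {I : α → Finset ℕ} {pi : α → ℕ → ℕ} {t : α → ℕ → ℤ} (hn : PT n) (hN : PT N)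
    (hI : PT I) (hpi : PT fun z : α × ℕ => pi z.1 z.2) (ht : PT fun z : α × ℕ => t z.1 z.2) :
    PT fun a => planOf (n a) (N a) (I a) (pi a) (t a) := by
  unfold planOf
  refine PT.flatMap (PT.replicate (pt_minAbs (by fun_prop) ht) ?_) (by fun_prop)
  exact PT.ite (pt_zle (PT.const _) ht) (PT.mk (by fun_prop) hpi) (PT.mk hpi (by fun_prop))

@[fun_prop] theorem pt_plan (hP : PT P) (hc : PT c) (hg : PT g) (h0 : PT Bs0) (hA : PT A)
    (hB : PT Bs) : PT fun a => plan (P a) (c a) (g a) (Bs0 a) (A a) (Bs a) := by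
  unfold plan
  exact algPT1_planOf (pt_n hP) (algPT1_R hP) (by fun_prop) (by fun_prop) (by fun_prop)

@[fun_prop] theorem pt_apA {e : α → ℕ × ℕ} (hn : PT n) (hN : PT N) (hA : PT A) (hB : PT Bs)
    (he : PT e) : PT fun a => apA (n a) (N a) (A a) (Bs a) (e a) := by
  unfold apA
  fun_prop

@[fun_prop] theorem algPT1_isq (hn : PT n) : PT fun a => isq (n a) := by
  unfold isq
  fun_prop

@[fun_prop] theorem algPT1_V (hP : PT P) : PT fun a => (P a).V := by
  unfold Par.V
  fun_prop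

@[fun_prop] theorem pt_okB (hP : PT P) (hbd : PT bd) (hB : PT B) :
    PT fun a => okB (P a) (bd a) (B a) := by
  unfold okB
  fun_prop

@[fun_prop] theorem algPT1_deg (hn : PT n) (hH : PT Bs) : PT fun a => deg (n a) (Bs a) := by
  unfold deg
  refine PT.foldl_add (f := fun _ (s b : ℕ) => max s b) (by fun_prop) (by fun_prop) (PT.const _)
    Polynomial.X fun a s b => ?_
  simp only [sz_nat, Polynomial.eval_X]
  omega

@[fun_prop] theorem pt_par {I : α → Inst} (hI : PT I) : PT fun a => par (I a) := by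
  unfold par
  exact pt_mkPar (by fun_prop) (by fun_prop) (by fun_prop) (by fun_prop) (by fun_prop)

end Pool.Agent.P.MP_1639c2_lc.W
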