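import Pool.Agent.P.MP_1639c2_lc.W.Stmt
import Pool.Agent.Lib.NP.Bin2

/-! Polynomial time relative to an oracle, with closure rules. -/

namespace Pool.Agent.P.MP_1639c2_lc.W

open Pool.Agent.Lib.NP

/-- `F O a` is computed from polynomially many adaptive queries to `O`. -/
def OPT {α β : Type} [Enc α] [Enc β] (F : (List Bool → Bool) → α → β) : Prop :=
  ∃ (q : α × List Bool → List Bool) (out : α × List Bool → β) (p : Polynomial ℕ),
    PT q ∧ PT out ∧ ∀ O a k, p.eval (sz a) ≤ k → out (a, transcript q O a k) = F O a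

section

variable {α β : Type}

theorem opt_length (q : α × List Bool → List Bool) (O : List Bool → Bool) (a : α) (k : ℕ) :
    (transcript q O a k).length = k := by
  induction k with
  | zero => rfl
  | succ k ih => simp [transcript, ih]

theorem opt_shift (q : α × List Bool → List Bool) (q' : β × List Bool → List Bool)
    (O : List Bool → Bool) (a : α) (b : β) (m J : ℕ)
    (h : ∀ u : List Bool, u.length < J → q (a, transcript q O a m ++ u) = q' (b, u)) :
    ∀ j ≤ J, transcript q O a (m + j) = transcript q O a m ++ transcript q' O b j := by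
  intro j
  induction j with
  | zero => intro _; simp [transcript]
  | succ j ih =>
    intro hj
    have e := ih (by omega)
    rw [← Nat.add_assoc, transcript, e, h _ (by rw [opt_length]; omega), transcript,
      List.append_assoc]

theorem opt_ext (q : α × List Bool → List Bool) (O : List Bool → Bool) (a : α) (m j : ℕ) :
    ∃ u, transcript q O a (m + j) = transcript q O a m ++ u := by
  induction j with
  | zero => exact ⟨[], by simp⟩
  | succ j ih =>
    obtain ⟨u, hu⟩ := ih
    refine ⟨u ++ [O (q (a, transcript q O a (m + j)))], ?_⟩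
    rw [← Nat.add_assoc, transcript, ← List.append_assoc, ← hu]

theorem opt_foldl_inv {σ : Type} (g : σ → β → σ) (P : σ → Prop) (h : ∀ s b, P s → P (g s b))
    (L : List β) : ∀ s, P s → P (L.foldl g s) := by
  induction L with
  | nil => intro s hs; exact hs
  | cons b L ih => intro s hs; exact ih _ (h s b hs)

theorem opt_sz [Enc α] [Enc β] {f : α → β} (hf : PT f) : PT (fun a => sz (f a)) :=
  PT.length (PT.enc' hf)

theorem opt_sz_map {γ : Type} [Enc γ] (f : β → γ) (M : ℕ) (L : List β)
    (h : ∀ b ∈ L, sz (f b) ≤ M) : sz (L.map f) ≤ L.length * (2 * M + 1) := by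
  induction L with
  | nil => simp
  | cons b L ih =>
    have h1 := h b (by simp)
    have h2 := ih (fun c hc => h c (by simp [hc]))
    simp only [List.map_cons, sz_cons, List.length_cons]
    nlinarith

theorem opt_foldl_snoc {γ : Type} (f : β → γ) (L : List β) :
    ∀ s : List γ, L.foldl (fun s b => s ++ [f b]) s = s ++ L.map f := by
  induction L with
  | nil => intro s; simp
  | cons b L ih => intro s; simp [ih]

end

namespace OPT

variable {α β γ σ : Type} [Enc α] [Enc β] [Enc γ] [Enc σ]

theorem congr {F G : (List Bool → Bool) → α → β} (h : OPT F) (e : ∀ O a, F O a = G O a) :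
    OPT G := by
  obtain ⟨q, out, p, hq, ho, H⟩ := h
  exact ⟨q, out, p, hq, ho, fun O a k hk => (H O a k hk).trans (e O a)⟩

theorem pure {f : α → β} (hf : PT f) : OPT (fun _ a => f a) :=
  ⟨fun _ => [], fun z => f z.1, 0, PT.const _, hf.comp (PT.fst PT.id'), fun _ _ _ _ => rfl⟩

theorem query {q : α → List Bool} (hq : PT q) : OPT (fun O a => O (q a)) := by
  refine ⟨fun z => q z.1, fun z => z.2.headD false, 1, hq.comp (PT.fst PT.id'),
    PT.headD (PT.snd PT.id') (PT.const _), fun O a k hk => ?_⟩
  have hk' : 1 ≤ k := by simpa using hk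
  obtain ⟨j, rfl⟩ := Nat.exists_eq_add_of_le hk'
  obtain ⟨u, hu⟩ := opt_ext (fun z : α × List Bool => q z.1) O a 1 j
  rw [hu]
  simp [transcript]

theorem size {F : (List Bool → Bool) → α → β} (h : OPT F) :
    ∃ r : Polynomial ℕ, ∀ O a, sz (F O a) ≤ r.eval (sz a) := by
  obtain ⟨q, out, p, -, ho, H⟩ := h
  obtain ⟨r, hr⟩ := ho.size
  refine ⟨r.comp (2 * Polynomial.X + 1 + 3 * p), fun O a => ?_⟩
  rw [← H O a _ le_rfl]
  refine (hr _).trans (le_of_eq ?_)
  simp [PT.sz_bits, opt_length]

theorem opt_pre {G : (List Bool → Bool) → β → γ} {f : α → β} (hG : OPT G) (hf : PT f) :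
    OPT (fun O a => G O (f a)) := by
  obtain ⟨q, out, p, hq, ho, H⟩ := hG
  obtain ⟨r, hr⟩ := hf.size
  have hm : PT (fun z : α × List Bool => (f z.1, z.2)) :=
    PT.mk (hf.comp (PT.fst PT.id')) (PT.snd PT.id')
  refine ⟨fun z => q (f z.1, z.2), fun z => out (f z.1, z.2), p.comp r, hq.comp hm, ho.comp hm,
    fun O a k hk => ?_⟩
  have e := opt_shift (fun z : α × List Bool => q (f z.1, z.2)) q O a (f a) 0 k
    (fun u _ => by simp [transcript]) k le_rfl
  simp only [Nat.zero_add, transcript, List.nil_append] at e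
  simp only [e]
  refine H O (f a) k (le_trans (eval_mono p (hr a)) ?_)
  simpa using hk

theorem opt_bind {F : (List Bool → Bool) → α → β} {G : (List Bool → Bool) → α × β → γ}
    (hF : OPT F) (hG : OPT G) : OPT (fun O a => G O (a, F O a)) := by
  obtain ⟨r, hr⟩ := hF.size
  obtain ⟨q1, o1, p1, hq1, ho1, H1⟩ := hF
  obtain ⟨q2, o2, p2, hq2, ho2, H2⟩ := hG
  have hk1 : PT (fun z : α × List Bool => p1.eval (sz z.1)) :=
    PT.polyEval (opt_sz (PT.fst PT.id')) p1
  have hm : PT (fun z : α × List Bool =>
      ((z.1, o1 (z.1, z.2.take (p1.eval (sz z.1)))), z.2.drop (p1.eval (sz z.1)))) :=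
    PT.mk (PT.mk (PT.fst PT.id')
      (ho1.comp (PT.mk (PT.fst PT.id') (PT.take hk1 (PT.snd PT.id')))))
      (PT.drop hk1 (PT.snd PT.id'))
  set q : α × List Bool → List Bool := fun z =>
    if z.2.length < p1.eval (sz z.1) then q1 z else
      q2 ((z.1, o1 (z.1, z.2.take (p1.eval (sz z.1)))), z.2.drop (p1.eval (sz z.1))) with hqd
  refine ⟨q, fun z =>
    o2 ((z.1, o1 (z.1, z.2.take (p1.eval (sz z.1)))), z.2.drop (p1.eval (sz z.1))),
    p1 + p2.comp (2 * Polynomial.X + 1 + r),
    PT.ite (PT.decide_lt (PT.length (PT.snd PT.id')) hk1) hq1 (hq2.comp hm), ho2.comp hm,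
    fun O a k hk => ?_⟩
  simp only [Polynomial.eval_add, Polynomial.eval_comp, Polynomial.eval_mul, Polynomial.eval_ofNat,
    Polynomial.eval_X, Polynomial.eval_one] at hk
  set K := p1.eval (sz a) with hK
  have e1 : transcript q O a K = transcript q1 O a K := by
    have e := opt_shift q q1 O a a 0 K
      (fun u hu => by simp only [hqd, transcript, List.nil_append, ← hK, if_pos hu]) K le_rfl
    simpa only [Nat.zero_add, transcript, List.nil_append] using e
  have hl : (transcript q1 O a K).length = K := opt_length _ _ _ _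
  have ht : ∀ u : List Bool, (transcript q1 O a K ++ u).take K = transcript q1 O a K :=
    fun u => List.take_left' hl
  have hd : ∀ u : List Bool, (transcript q1 O a K ++ u).drop K = u :=
    fun u => List.drop_left' hl
  have hF : o1 (a, transcript q1 O a K) = F O a := H1 O a K le_rfl
  obtain ⟨j, rfl⟩ := Nat.exists_eq_add_of_le (le_trans (Nat.le_add_right _ _) hk)
  have e2 := opt_shift q q2 O a (a, F O a) K j (fun u _ => by
    rw [e1]
    have : ¬ (transcript q1 O a K ++ u).length < K := by
      rw [List.length_append, hl]; omega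
    simp only [hqd, ← hK, if_neg this, ht, hd, hF]) j le_rfl
  rw [e1] at e2
  simp only [e2, ← hK, ht, hd, hF]
  refine H2 O (a, F O a) j (le_trans (eval_mono p2 ?_) (Nat.le_of_add_le_add_left hk))
  have := hr O a
  simp only [sz_prod]
  omega

theorem comp {F : (List Bool → Bool) → α → β} {G : (List Bool → Bool) → β → γ}
    (hG : OPT G) (hF : OPT F) : OPT (fun O a => G O (F O a)) :=
  opt_bind (G := fun O (z : α × β) => G O z.2) hF (opt_pre hG (PT.snd PT.id'))

theorem pre {G : (List Bool → Bool) → β → γ} {f : α → β} (hG : OPT G) (hf : PT f) :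
    OPT (fun O a => G O (f a)) := opt_pre hG hf

theorem post {F : (List Bool → Bool) → α → β} {g : α × β → γ} (hF : OPT F) (hg : PT g) :
    OPT (fun O a => g (a, F O a)) :=
  opt_bind (G := fun _ z => g z) hF (pure hg)

theorem bind {F : (List Bool → Bool) → α → β} {G : (List Bool → Bool) → α × β → γ}
    (hF : OPT F) (hG : OPT G) : OPT (fun O a => G O (a, F O a)) :=
  opt_bind hF hG

theorem foldl {f : (List Bool → Bool) → α → σ → β → σ} {l : α → List β} {s0 : α → σ}
    (hf : OPT (fun O (z : α × σ × β) => f O z.1 z.2.1 z.2.2)) (hl : PT l) (h0 : PT s0)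
    (r : Polynomial ℕ)
    (hr : ∀ O a i, sz (((l a).take i).foldl (f O a) (s0 a)) ≤ r.eval (sz a)) :
    OPT (fun O a => (l a).foldl (f O a) (s0 a)) := by
  obtain ⟨qf, out, p, hq, ho, H⟩ := hf
  obtain ⟨rl, hrl⟩ := hl.size
  set P : Polynomial ℕ := p.comp (2 * Polynomial.X + 1 + (2 * r + 1 + rl)) + 1 with hP
  set K : α → ℕ := fun a => P.eval (sz a) with hK
  have hKpt : PT K := PT.polyEval (opt_sz PT.id') P
  set clip : α → σ → σ := fun a s => if sz s ≤ r.eval (sz a) then s else s0 a with hclip
  set g : α → σ × List Bool → β → σ × List Bool := fun a st b =>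
    (clip a (out ((a, st.1, b), st.2.take (K a))), st.2.drop (K a)) with hg
  set R : (α × List Bool) × ℕ → σ × List Bool := fun z =>
    ((l z.1.1).take z.2).foldl (g z.1.1) (s0 z.1.1, z.1.2) with hR
  have hs0 : ∀ a, sz (s0 a) ≤ r.eval (sz a) := fun a => by
    simpa using hr (fun _ => true) a 0
  have hclipsz : ∀ a s, sz (clip a s) ≤ r.eval (sz a) := fun a s => by
    simp only [hclip]
    split_ifs with h
    · exact h
    · exact hs0 a
  have hclipPT : PT (fun z : α × σ => clip z.1 z.2) :=
    PT.ite (PT.decide_le (opt_sz (PT.snd PT.id')) (PT.polyEval (opt_sz (PT.fst PT.id')) r))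
      (PT.snd PT.id') (h0.comp (PT.fst PT.id'))
  have hRpt : PT R := by
    have ha : PT (fun z : ((α × List Bool) × ℕ) × (σ × List Bool) × β => z.1.1.1) :=
      PT.fst (PT.fst (PT.fst PT.id'))
    have hst : PT (fun z : ((α × List Bool) × ℕ) × (σ × List Bool) × β => z.2.1) :=
      PT.fst (PT.snd PT.id')
    have hb : PT (fun z : ((α × List Bool) × ℕ) × (σ × List Bool) × β => z.2.2) :=
      PT.snd (PT.snd PT.id')
    refine PT.foldl (f := fun (z : (α × List Bool) × ℕ) st b => g z.1.1 st b)
      (l := fun z => (l z.1.1).take z.2) (s0 := fun z => (s0 z.1.1, z.1.2)) ?_ ?_ ?_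
      (2 * r + 1 + Polynomial.X) ?_
    · exact PT.mk (hclipPT.comp (PT.mk ha (ho.comp (PT.mk (PT.mk ha (PT.mk (PT.fst hst) hb))
        (PT.take (hKpt.comp ha) (PT.snd hst)))))) (PT.drop (hKpt.comp ha) (PT.snd hst))
    · exact PT.take (PT.snd PT.id') (hl.comp (PT.fst (PT.fst PT.id')))
    · exact PT.mk (h0.comp (PT.fst (PT.fst PT.id'))) (PT.snd (PT.fst PT.id'))
    · rintro ⟨⟨a, tr⟩, n⟩ i
      have key := opt_foldl_inv (g a)
        (fun st : σ × List Bool => sz st.1 ≤ r.eval (sz a) ∧ sz st.2 ≤ sz tr)
        (fun st b hst => ⟨hclipsz _ _, (PT.sz_drop_le _ _).trans hst.2⟩)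
        (((l a).take n).take i) (s0 a, tr) ⟨hs0 a, le_rfl⟩
      revert key
      generalize (((l a).take n).take i).foldl (g a) (s0 a, tr) = st
      rintro ⟨h1, h2⟩
      obtain ⟨s, t⟩ := st
      have h3 : r.eval (sz a) ≤ r.eval (sz ((a, tr), n)) :=
        eval_mono r (by simp only [sz_prod]; omega)
      simp only [Polynomial.eval_add, Polynomial.eval_mul, Polynomial.eval_ofNat,
        Polynomial.eval_X, Polynomial.eval_one]
      simp only [sz_prod] at h1 h2 h3 ⊢
      omega
  set q : α × List Bool → List Bool := fun z =>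
    (((l z.1).drop (z.2.length / K z.1)).take 1).flatMap
      (fun b => qf ((z.1, (R (z, z.2.length / K z.1)).1, b), (R (z, z.2.length / K z.1)).2))
    with hqd
  have hi : PT (fun z : α × List Bool => z.2.length / K z.1) :=
    PT.div (PT.length (PT.snd PT.id')) (hKpt.comp (PT.fst PT.id'))
  have hqpt : PT q := by
    have hRz : PT (fun z : (α × List Bool) × β => R (z.1, z.1.2.length / K z.1.1)) :=
      (hRpt.comp (PT.mk PT.id' hi)).comp (PT.fst PT.id')
    refine PT.flatMap (f := fun (z : α × List Bool) b =>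
      qf ((z.1, (R (z, z.2.length / K z.1)).1, b), (R (z, z.2.length / K z.1)).2)) ?_ ?_
    · exact hq.comp (PT.mk (PT.mk (PT.fst (PT.fst PT.id')) (PT.mk (PT.fst hRz) (PT.snd PT.id')))
        (PT.snd hRz))
    · exact PT.take (PT.const 1) (PT.drop hi (hl.comp (PT.fst PT.id')))
  refine ⟨q, fun z => (R (z, (l z.1).length)).1, rl * P, hqpt,
    PT.fst (hRpt.comp (PT.mk PT.id' (PT.length (hl.comp (PT.fst PT.id'))))), fun O a k hk => ?_⟩
  have hKpos : 0 < K a := by simp [hK, hP]
  have hqe : ∀ t : List Bool, q (a, t) = (((l a).drop (t.length / K a)).take 1).flatMap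
      (fun b => qf ((a, (R ((a, t), t.length / K a)).1, b), (R ((a, t), t.length / K a)).2)) :=
    fun _ => rfl
  have inv : ∀ i ≤ (l a).length, ∀ u : List Bool,
      R ((a, transcript q O a (i * K a) ++ u), i) =
        (((l a).take i).foldl (f O a) (s0 a), u) := by
    intro i
    induction i with
    | zero => intro _ u; simp [hR, transcript]
    | succ i ih =>
      intro hi' u
      have hlt : i < (l a).length := hi'
      have ih' := ih hlt.le
      set b := (l a)[i] with hb
      set S := ((l a).take i).foldl (f O a) (s0 a) with hS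
      have htk : (l a).take (i + 1) = (l a).take i ++ [b] := List.take_succ_eq_append_getElem hlt
      have e := opt_shift q qf O a (a, S, b) (i * K a) (K a) (fun v hv => by
        have hdiv : (transcript q O a (i * K a) ++ v).length / K a = i := by
          rw [List.length_append, opt_length, Nat.add_comm, Nat.add_mul_div_right _ _ hKpos,
            Nat.div_eq_of_lt hv, Nat.zero_add]
        have hone : ((l a).drop i).take 1 = [b] := by
          rw [List.drop_eq_getElem_cons hlt]; rfl
        rw [hqe, hdiv, hone, ih']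
        simp only [List.flatMap_cons, List.flatMap_nil, List.append_nil])
        (K a) le_rfl
      have hlen : (transcript qf O (a, S, b) (K a)).length = K a := opt_length _ _ _ _
      have hSsz : sz S ≤ r.eval (sz a) := hr O a i
      have hbsz : sz b ≤ rl.eval (sz a) :=
        (sz_le_of_mem (List.getElem_mem hlt)).trans (hrl a)
      have hout : out ((a, S, b), transcript qf O (a, S, b) (K a)) = f O a S b := by
        refine H O (a, S, b) (K a) ?_
        have : p.eval (sz (a, S, b)) ≤
            p.eval (2 * sz a + 1 + (2 * r.eval (sz a) + 1 + rl.eval (sz a))) :=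
          eval_mono p (by simp only [sz_prod]; omega)
        refine this.trans ?_
        simp [hK, hP]
      have hnext : f O a S b = ((l a).take (i + 1)).foldl (f O a) (s0 a) := by
        rw [htk, List.foldl_append]; rfl
      have hcl : clip a (f O a S b) = f O a S b := by
        have := hr O a (i + 1)
        rw [← hnext] at this
        simp only [hclip, if_pos this]
      have hstep : R ((a, transcript q O a ((i + 1) * K a) ++ u), i + 1) =
          g a (R ((a, transcript q O a ((i + 1) * K a) ++ u), i)) b := by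
        simp only [hR, htk, List.foldl_append, List.foldl_cons, List.foldl_nil]
      rw [hstep, Nat.succ_mul, e, List.append_assoc, ih', ← hnext]
      simp only [hg, List.take_left' hlen, List.drop_left' hlen, hout, hcl]
  have hk' : (l a).length * K a ≤ k := by
    refine le_trans ?_ hk
    rw [Polynomial.eval_mul]
    exact Nat.mul_le_mul_right _ ((length_le_sz _).trans (hrl a))
  obtain ⟨j, rfl⟩ := Nat.exists_eq_add_of_le hk'
  obtain ⟨u, hu⟩ := opt_ext q O a ((l a).length * K a) j
  simp only [hu, inv _ le_rfl u, List.take_length]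

theorem iterate {f : (List Bool → Bool) → α → σ → σ} {n : α → ℕ} {s0 : α → σ}
    (hf : OPT (fun O (z : α × σ) => f O z.1 z.2)) (hn : PT n) (h0 : PT s0)
    (r : Polynomial ℕ) (hr : ∀ O a i, sz ((f O a)^[i] (s0 a)) ≤ r.eval (sz a)) :
    OPT (fun O a => (f O a)^[n a] (s0 a)) := by
  have key : ∀ O a (L : List Unit),
      L.foldl (fun s (_ : Unit) => f O a s) (s0 a) = (f O a)^[L.length] (s0 a) :=
    fun O a L => List.foldl_const _ _ _
  have h := foldl (f := fun O a s (_ : Unit) => f O a s)
    (l := fun a => List.replicate (n a) ()) (s0 := s0)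
    (opt_pre (f := fun z : α × σ × Unit => (z.1, z.2.1)) hf
      (PT.mk (PT.fst PT.id') (PT.fst (PT.snd PT.id'))))
    (PT.replicate hn (PT.const ())) h0 r (fun O a i => by rw [key]; exact hr O a _)
  exact h.congr (fun O a => by rw [key, List.length_replicate])

theorem map {f : (List Bool → Bool) → α → β → γ} {l : α → List β}
    (hf : OPT (fun O (z : α × β) => f O z.1 z.2)) (hl : PT l) :
    OPT (fun O a => (l a).map (f O a)) := by
  obtain ⟨r, hr⟩ := hf.size
  obtain ⟨rl, hrl⟩ := hl.size
  have h1 : OPT (fun O (z : α × List γ × β) => f O z.1 z.2.2) :=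
    opt_pre (f := fun z : α × List γ × β => (z.1, z.2.2)) hf
      (PT.mk (PT.fst PT.id') (PT.snd (PT.snd PT.id')))
  have h2 : OPT (fun O (z : α × List γ × β) => z.2.1 ++ [f O z.1 z.2.2]) :=
    post (g := fun w : (α × List γ × β) × γ => w.1.2.1 ++ [w.2]) h1
      (PT.append (PT.fst (PT.snd (PT.fst PT.id'))) (PT.cons (PT.snd PT.id') (PT.const [])))
  have h := foldl (f := fun O a (s : List γ) b => s ++ [f O a b]) (l := l) (s0 := fun _ => [])
    h2 hl (PT.const []) (rl * (2 * r.comp (2 * Polynomial.X + 1 + rl) + 1)) (fun O a i => by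
      rw [opt_foldl_snoc, List.nil_append]
      refine (opt_sz_map (f O a) (r.eval (2 * sz a + 1 + rl.eval (sz a))) _ ?_).trans ?_
      · intro b hb
        have hb' : sz b ≤ rl.eval (sz a) :=
          (sz_le_of_mem (List.mem_of_mem_take hb)).trans (hrl a)
        refine (hr O (a, b)).trans (eval_mono r ?_)
        simp only [sz_prod]; omega
      · simp only [Polynomial.eval_add, Polynomial.eval_comp, Polynomial.eval_mul,
          Polynomial.eval_ofNat, Polynomial.eval_X, Polynomial.eval_one]
        exact Nat.mul_le_mul_right _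
          ((length_le_sz _).trans ((PT.sz_take_le _ _).trans (hrl a))))
  exact h.congr (fun O a => by rw [opt_foldl_snoc, List.nil_append])

end OPT

end Pool.Agent.P.MP_1639c2_lc.W
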