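import Pool.Agent.P.MP_1639c2_lc.W.AlgPT1
import Pool.Agent.P.MP_1639c2_lc.W.OPT

/-! The algorithm runs in polynomial time relative to the oracle. -/

namespace Pool.Agent.P.MP_1639c2_lc.W

open Finset Pool.Agent.Lib.NP

section Aux

variable {α : Type} [Enc α] {P : α → Par} {n N b : α → ℕ} {Bs Bs0 : α → Cp}
  {c : α → List ℤ} {bd : α → List (ℤ × ℤ)} {g : α → ℚ}

theorem algPT2_inv {σ β : Type} (Q : σ → Prop) {f : σ → β → σ} (hf : ∀ s b, Q s → Q (f s b))
    (l : List β) : ∀ s, Q s → Q (l.foldl f s) := by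
  induction l with
  | nil => exact fun _ h => h
  | cons b l ih => exact fun s h => ih _ (hf s b h)

theorem algPT2_it {σ : Type} (Q : σ → Prop) {f : σ → σ} (hf : ∀ s, Q (f s)) {s : σ} (h : Q s)
    (i : ℕ) : Q (f^[i] s) := by
  cases i with
  | zero => exact h
  | succ i => rw [Function.iterate_succ_apply']; exact hf _

theorem algPT2_bound {k : α → ℕ} (hk : PT k) : ∃ r : Polynomial ℕ, ∀ a, k a ≤ r.eval (sz a) := by
  obtain ⟨r, hr⟩ := hk.size
  exact ⟨r, fun a => by simpa using hr a⟩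

theorem algPT2_arcs (hn : PT n) (hN : PT N) (hB : PT Bs) :
    OPT fun O a => arcs O (n a) (N a) (Bs a) := by
  have h1 : OPT fun O (z : ((α × ℕ) × ℕ) × ℕ) =>
      (bit ((Bs z.1.1.1).getD z.1.1.2 []) z.1.2 && !bit ((Bs z.1.1.1).getD z.1.1.2 []) z.2 &&
        O (sw (n z.1.1.1) ((Bs z.1.1.1).getD z.1.1.2 []) z.1.2 z.2)) :=
    (OPT.query (q := fun z : ((α × ℕ) × ℕ) × ℕ =>
      sw (n z.1.1.1) ((Bs z.1.1.1).getD z.1.1.2 []) z.1.2 z.2) (by fun_prop)).post
      (g := fun w => bit ((Bs w.1.1.1.1).getD w.1.1.1.2 []) w.1.1.2 &&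
        !bit ((Bs w.1.1.1.1).getD w.1.1.1.2 []) w.1.2 && w.2) (by fun_prop)
  have h2 := OPT.map (f := fun O (z : (α × ℕ) × ℕ) j =>
      (bit ((Bs z.1.1).getD z.1.2 []) z.2 && !bit ((Bs z.1.1).getD z.1.2 []) j &&
        O (sw (n z.1.1) ((Bs z.1.1).getD z.1.2 []) z.2 j)))
    (l := fun z => List.range (n z.1.1)) h1 (by fun_prop)
  have h3 := OPT.map (f := fun O (z : α × ℕ) i => (List.range (n z.1)).map fun j =>
      (bit ((Bs z.1).getD z.2 []) i && !bit ((Bs z.1).getD z.2 []) j &&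
        O (sw (n z.1) ((Bs z.1).getD z.2 []) i j)))
    (l := fun z => List.range (n z.1)) h2 (by fun_prop)
  exact OPT.map (f := fun O (a : α) k => (List.range (n a)).map fun i =>
      (List.range (n a)).map fun j =>
      (bit ((Bs a).getD k []) i && !bit ((Bs a).getD k []) j &&
        O (sw (n a) ((Bs a).getD k []) i j)))
    (l := fun a => List.range (N a)) h3 (by fun_prop)

theorem algPT2_greedy (hn : PT n) : OPT fun O a => greedy O (n a) := by
  obtain ⟨r, hr⟩ := algPT2_bound (k := fun a => 3 * n a) (by fun_prop)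
  refine OPT.foldl (f := fun O a B i => if O (sw (n a) B i i) = true then sw (n a) B i i else B)
    (l := fun a => List.range (n a)) (s0 := fun _ => []) ?_ (by fun_prop) (by fun_prop) r
    fun O a i => le_trans ?_ (hr a)
  · exact (OPT.query (q := fun z : α × List Bool × ℕ => sw (n z.1) z.2.1 z.2.2 z.2.2)
      (by fun_prop)).post (g := fun w => if w.2 = true then
        sw (n w.1.1) w.1.2.1 w.1.2.2 w.1.2.2 else w.1.2.1) (by fun_prop)
  · refine algPT2_inv (fun B : List Bool => sz B ≤ 3 * n a) (fun B i h => ?_) _ _ (by simp)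
    split_ifs
    · exact (sz_sw _ _ _ _).le
    · exact h

theorem algPT2_lpIt {t : α → ℕ} (hP : PT P) (hc : PT c) (hbd : PT bd) (hg : PT g) (ht : PT t)
    (h0 : PT Bs0) : OPT fun O a => (fun Bs => lpStep (P a) (c a) (bd a) (g a)
      (arcs O (P a).n (P a).N Bs) Bs)^[t a] (Bs0 a) := by
  obtain ⟨r, hr⟩ := algPT2_bound (k := fun a => (P a).N * (6 * (P a).n + 1) + sz (Bs0 a))
    (by fun_prop)
  refine OPT.iterate (f := fun O a Bs => lpStep (P a) (c a) (bd a) (g a)
    (arcs O (P a).n (P a).N Bs) Bs) ?_ ht h0 r fun O a i => le_trans ?_ (hr a)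
  · have h1 : OPT fun O (z : α × Cp) => arcs O (P z.1).n (P z.1).N z.2 :=
      algPT2_arcs (by fun_prop) (by fun_prop) (by fun_prop)
    have h2 : PT fun w : (α × Cp) × List Cp =>
        lpStep (P w.1.1) (c w.1.1) (bd w.1.1) (g w.1.1) w.2 w.1.2 := by fun_prop
    exact h1.post h2
  · exact algPT2_it (fun B : Cp => sz B ≤ (P a).N * (6 * (P a).n + 1) + sz (Bs0 a))
      (fun B => (sz_nrm _ _ _).le.trans (Nat.le_add_right _ _)) (Nat.le_add_left _ _) i

theorem algPT2_lp (hP : PT P) (hc : PT c) (hbd : PT bd) (hg : PT g) (hb : PT b) :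
    OPT fun O a => lp O (P a) (c a) (bd a) (g a) (b a) :=
  (algPT2_greedy (n := fun a => (P a).n) (by fun_prop)).bind
    (algPT2_lpIt (P := fun z : α × List Bool => P z.1) (c := fun z => c z.1)
      (bd := fun z => bd z.1) (g := fun z => g z.1)
      (t := fun z => 2 * (P z.1).u * (P z.1).N * (b z.1 + 10 * (P z.1).u))
      (Bs0 := fun z => List.replicate (P z.1).N z.2) (by fun_prop) (by fun_prop) (by fun_prop)
      (by fun_prop) (by fun_prop) (by fun_prop))

theorem algPT2_sz (O : List Bool → Bool) (n N K : ℕ) (l : List (ℕ × ℕ)) {Bs : Cp}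
    (h : sz Bs ≤ N * (6 * n + 1) + K) : sz (exec O n N l Bs) ≤ N * (6 * n + 1) + K :=
  algPT2_inv (fun B : Cp => sz B ≤ N * (6 * n + 1) + K)
    (fun _ _ _ => (sz_nrm _ _ _).le.trans (Nat.le_add_right _ _)) l Bs h

theorem algPT2_exec {l : α → List (ℕ × ℕ)} (hn : PT n) (hN : PT N) (hl : PT l) (hB : PT Bs) :
    OPT fun O a => exec O (n a) (N a) (l a) (Bs a) := by
  obtain ⟨r, hr⟩ := algPT2_bound (k := fun a => N a * (6 * n a + 1) + sz (Bs a)) (by fun_prop)
  refine OPT.foldl (f := fun O a Cs e => apA (n a) (N a) (arcs O (n a) (N a) Cs) Cs e) ?_ hl hB r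
    fun O a i => (algPT2_sz O _ _ _ _ (Nat.le_add_left _ _)).trans (hr a)
  have h1 : OPT fun O (z : α × Cp × ℕ × ℕ) => arcs O (n z.1) (N z.1) z.2.1 :=
    algPT2_arcs (by fun_prop) (by fun_prop) (by fun_prop)
  have h2 : PT fun w : (α × Cp × ℕ × ℕ) × List Cp =>
      apA (n w.1.1) (N w.1.1) w.2 w.1.2.1 w.1.2.2 := by fun_prop
  exact h1.post h2

theorem algPT2_rdStep (hP : PT P) (hc : PT c) (hg : PT g) (h0 : PT Bs0) (hB : PT Bs) :
    OPT fun O a => rdStep O (P a) (c a) (g a) (Bs0 a) (Bs a) :=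
  (algPT2_arcs (n := fun a => (P a).n) (N := fun a => (P a).N) (by fun_prop) (by fun_prop) hB).bind
    (algPT2_exec (n := fun z : α × List Cp => (P z.1).n) (N := fun z => (P z.1).N)
      (l := fun z => if (kc (P z.1) (Bs z.1)).isEmpty = true then
        plan (P z.1) (c z.1) (g z.1) (Bs0 z.1) z.2 (Bs z.1) else [])
      (Bs := fun z => nrm (P z.1).n (P z.1).N (if (kc (P z.1) (Bs z.1)).isEmpty = true then Bs z.1
        else kill (P z.1) (c z.1) (Bs z.1) ((kc (P z.1) (Bs z.1)).headD (0, true)).1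
          ((kc (P z.1) (Bs z.1)).headD (0, true)).2))
      (by fun_prop) (by fun_prop) (by fun_prop) (by fun_prop))

theorem algPT2_rd (hP : PT P) (hc : PT c) (hg : PT g) (h0 : PT Bs0) :
    OPT fun O a => rd O (P a) (c a) (g a) (Bs0 a) := by
  obtain ⟨r, hr⟩ := algPT2_bound (k := fun a => (P a).N * (6 * (P a).n + 1) + sz (Bs0 a))
    (by fun_prop)
  refine OPT.iterate (f := fun O a => rdStep O (P a) (c a) (g a) (Bs0 a))
    (n := fun a => (P a).u ^ 71) ?_ (by fun_prop) h0 r fun O a i => le_trans ?_ (hr a)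
  · exact algPT2_rdStep (P := fun z : α × Cp => P z.1) (c := fun z => c z.1) (g := fun z => g z.1)
      (Bs0 := fun z => Bs0 z.1) (Bs := fun z => z.2) (by fun_prop) (by fun_prop) (by fun_prop)
      (by fun_prop) (by fun_prop)
  · exact algPT2_it (fun B : Cp => sz B ≤ (P a).N * (6 * (P a).n + 1) + sz (Bs0 a))
      (fun B => algPT2_sz O _ _ _ _ ((sz_nrm _ _ _).le.trans (Nat.le_add_right _ _)))
      (Nat.le_add_left _ _) i

theorem algPT2_run (hP : PT P) (hc : PT c) (hbd : PT bd) (hg : PT g) (hb : PT b) :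
    OPT fun O a => run O (P a) (c a) (bd a) (g a) (b a) := by
  have h1 : OPT fun O (z : α × Cp) => rd O (P z.1) (c z.1) (g z.1) z.2 :=
    algPT2_rd (by fun_prop) (by fun_prop) (by fun_prop) (by fun_prop)
  have h2 : OPT fun O a => rd O (P a) (c a) (g a) (lp O (P a) (c a) (bd a) (g a) (b a)) :=
    (algPT2_lp hP hc hbd hg hb).bind h1
  have h3 : PT fun w : α × Cp => (List.range (P w.1).n).map fun i => bit (w.2.getD 0 []) i := by
    fun_prop
  exact h2.post h3

theorem algPT2_outs : OPT outs := by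
  have h1 : OPT fun O (z : Inst × ℕ) =>
      run O (par z.1) z.1.1 (z.1.2.map (·.2)) (2 ^ z.2) (sz z.1.1) :=
    algPT2_run (by fun_prop) (by fun_prop) (by fun_prop) (by fun_prop) (by fun_prop)
  have h2 : OPT fun O (I : Inst) => (List.range (sz I.1 + 1)).map fun s =>
      run O (par I) I.1 (I.2.map (·.2)) (2 ^ s) (sz I.1) :=
    OPT.map (f := fun O (I : Inst) s => run O (par I) I.1 (I.2.map (·.2)) (2 ^ s) (sz I.1)) h1
      (by fun_prop)
  have h3 : PT fun w : Inst × List (List Bool) =>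
      w.2.filter (okB (par w.1) (w.1.2.map (·.2))) := by fun_prop
  exact h2.post h3

end Aux

theorem opt_alg : OPT alg := by
  have h : PT fun w : Inst × List (List Bool) =>
      amin (costB w.1.1.length w.1.1) (w.2.headD []) w.2 := by fun_prop
  exact algPT2_outs.post h

end Pool.Agent.P.MP_1639c2_lc.W
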