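import Pool.Agent.P.MP_1639c2_lc.W.Core

/-! The minimiser `amin`. -/

namespace Pool.Agent.P.MP_1639c2_lc.W

variable {β : Type}

theorem amin_cons (f : β → ℚ) (d b : β) (l : List β) :
    amin f d (b :: l) = amin f (if f b < f d then b else d) l := rfl

theorem amin_mem (f : β → ℚ) (l : List β) : ∀ d, amin f d l = d ∨ amin f d l ∈ l := by
  induction l with
  | nil => intro d; exact Or.inl rfl
  | cons b l ih =>
    intro d
    rw [amin_cons]
    rcases ih (if f b < f d then b else d) with h | h
    · rw [h]
      split_ifs
      · exact Or.inr List.mem_cons_self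
      · exact Or.inl rfl
    · exact Or.inr (List.mem_cons_of_mem _ h)

theorem amin_le_def (f : β → ℚ) (l : List β) : ∀ d, f (amin f d l) ≤ f d := by
  induction l with
  | nil => intro d; exact le_rfl
  | cons b l ih =>
    intro d
    rw [amin_cons]
    refine (ih _).trans ?_
    split_ifs with h
    · exact h.le
    · exact le_rfl

theorem amin_le (f : β → ℚ) (l : List β) : ∀ d, ∀ b ∈ l, f (amin f d l) ≤ f b := by
  induction l with
  | nil => intro d b hb; simp at hb
  | cons e l ih =>
    intro d b hb
    rw [amin_cons]
    rcases List.mem_cons.1 hb with rfl | hb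
    · refine (amin_le_def f l _).trans ?_
      split_ifs with h
      · exact le_rfl
      · exact not_lt.1 h
    · exact ih _ b hb

end Pool.Agent.P.MP_1639c2_lc.W
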