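import Pool.Agent.P.MP_1639c2_lc.W.Pot1

/-! Crude bounds for the second order form. -/

namespace Pool.Agent.P.MP_1639c2_lc.W

open Finset

namespace Par

variable {P : Par} {S : Finset ℕ} {x y0 q : ℕ → ℝ} {V : ℝ}

theorem bound_r (hP : P.WF) : (P.r : ℝ) ≤ P.u := by
  have h1 := hP.ku
  unfold kap at h1
  exact_mod_cast (by omega : P.r ≤ P.u)

theorem bound_card (hP : P.WF) {J : Finset ℕ} (hJ : J ⊆ range P.n) : (J.card : ℝ) ≤ P.u := by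
  have h1 := card_le_card hJ
  rw [card_range] at h1
  exact_mod_cast h1.trans hP.nu

theorem bound_ee (S : Finset ℕ) (d : ℕ → ℝ) (j : ℕ) : P.ee S d j ≤ ∑ i ∈ S, d i ^ 2 :=
  sum_le_sum_of_subset_of_nonneg (filter_subset _ _) fun _ _ _ => sq_nonneg _

theorem bound_aa (hP : P.WF) (hS : S ⊆ range P.n) (d : ℕ → ℝ) (j : ℕ) :
    P.aa S d j ^ 2 ≤ P.u * ∑ i ∈ S, d i ^ 2 :=
  (sq_sum_le_card_mul_sum_sq (s := P.row S j) (f := d)).trans
    (mul_le_mul (bound_card hP ((filter_subset _ _).trans hS)) (bound_ee S d j)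
      (sum_nonneg fun _ _ => sq_nonneg _) (Nat.cast_nonneg _))

theorem bound_hh (hP : P.WF) (h : P.Ok S x y0 V) (d : ℕ → ℝ) (j : ℕ) :
    P.hh S x d j ^ 2 ≤ P.u * ∑ i ∈ S, d i ^ 2 := by
  refine (bound_aa hP h.sub (fun i => (1 - 2 * x i) * d i) j).trans
    (mul_le_mul_of_nonneg_left (sum_le_sum fun i hi => ?_) (Nat.cast_nonneg _))
  obtain ⟨h1, h2⟩ := h.unit i hi
  rw [mul_pow]
  exact mul_le_of_le_one_left (sq_nonneg _) (by nlinarith)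

theorem Ok.om_nonneg (h : P.Ok S x y0 V) (q : ℕ → ℝ) (j : ℕ) : 0 ≤ P.om S x y0 q j :=
  mul_nonneg (div_nonneg (mul_nonneg (Nat.cast_nonneg _) (phi_nonneg h.unit j))
    (zero_le_one.trans (one_le_zz h.unit j))) (sq_nonneg _)

theorem Ok.om_sum (hP : P.WF) (h : P.Ok S x y0 V) (hq : ∑ i ∈ S, q i ^ 2 ≤ (P.u : ℝ) ^ 15) :
    ∑ j ∈ P.med S, P.om S x y0 q j ≤ (P.u : ℝ) ^ 16 := by
  calc ∑ j ∈ P.med S, P.om S x y0 q j
      ≤ ∑ j ∈ P.med S, P.r * (P.phi S x y0 j * P.aa S q j ^ 2) := by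
        refine sum_le_sum fun j _ => ?_
        rw [← mul_assoc]
        exact mul_le_mul_of_nonneg_right (div_le_self
          (mul_nonneg (Nat.cast_nonneg _) (phi_nonneg h.unit j)) (one_le_zz h.unit j)) (sq_nonneg _)
    _ ≤ P.u * (P.u : ℝ) ^ 15 := by
        rw [← mul_sum]
        exact mul_le_mul (bound_r hP) ((h.phi_sum_le hP q).trans hq)
          (sum_nonneg fun j _ => mul_nonneg (phi_nonneg h.unit j) (sq_nonneg _)) (Nat.cast_nonneg _)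
    _ = _ := by ring

theorem Ok.v1_sq (hP : P.WF) (h : P.Ok S x y0 V) (q d : ℕ → ℝ) :
    ∑ i ∈ S, P.v1 S x y0 q d i ^ 2 ≤
      P.r * ∑ j ∈ P.med S, P.om S x y0 q j * (8 * P.aa S d j ^ 2 + 2 * P.hh S x d j ^ 2) := by
  have h1 := h.comb_le hP fun j => P.r / P.zz S x y0 j * P.aa S q j * P.ll S x y0 d j
  have e : ∀ j, P.phi S x y0 j * (P.r / P.zz S x y0 j * P.aa S q j * P.ll S x y0 d j) =
      P.cf S x y0 j * P.aa S q j * P.ll S x y0 d j := fun j => by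
    unfold cf
    ring
  simp only [e] at h1
  refine h1.trans ?_
  rw [mul_sum]
  refine sum_le_sum fun j _ => ?_
  have hz : 0 < P.zz S x y0 j := zero_lt_one.trans_le (one_le_zz h.unit j)
  have h2 : P.ll S x y0 d j ^ 2 / P.zz S x y0 j ≤ 8 * P.aa S d j ^ 2 + 2 * P.hh S x d j ^ 2 := by
    rw [div_le_iff₀ hz]
    refine le_trans ?_ (mul_le_mul_of_nonneg_left (zz_ge h.unit j) (by positivity))
    unfold ll
    nlinarith [sq_nonneg (2 * P.yy x y0 j * P.aa S d j - P.kap * P.hh S x d j),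
      sq_nonneg (P.aa S d j * P.kap), sq_nonneg (P.hh S x d j * P.yy x y0 j)]
  refine le_trans (le_of_eq ?_) (mul_le_mul_of_nonneg_left
    (mul_le_mul_of_nonneg_left h2 (h.om_nonneg q j)) (Nat.cast_nonneg _))
  unfold om cf
  ring

theorem Ok.v1_sq_le (hP : P.WF) (h : P.Ok S x y0 V) (hq : ∑ i ∈ S, q i ^ 2 ≤ (P.u : ℝ) ^ 15)
    (d : ℕ → ℝ) :
    ∑ i ∈ S, P.v1 S x y0 q d i ^ 2 ≤ 10 * (P.u : ℝ) ^ 18 * ∑ i ∈ S, d i ^ 2 := by
  have hE : 0 ≤ ∑ i ∈ S, d i ^ 2 := sum_nonneg fun _ _ => sq_nonneg _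
  calc _ ≤ _ := h.v1_sq hP q d
    _ ≤ P.r * ∑ j ∈ P.med S, P.om S x y0 q j * (10 * (P.u * ∑ i ∈ S, d i ^ 2)) := by
        refine mul_le_mul_of_nonneg_left (sum_le_sum fun j _ =>
          mul_le_mul_of_nonneg_left ?_ (h.om_nonneg q j)) (Nat.cast_nonneg _)
        linarith [bound_aa hP h.sub d j, bound_hh hP h d j]
    _ ≤ P.u * ((P.u : ℝ) ^ 16 * (10 * (P.u * ∑ i ∈ S, d i ^ 2))) := by
        rw [← sum_mul]
        exact mul_le_mul (bound_r hP) (mul_le_mul_of_nonneg_right (h.om_sum hP hq) (by positivity))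
          (mul_nonneg (sum_nonneg fun j _ => h.om_nonneg q j) (by positivity)) (Nat.cast_nonneg _)
    _ = _ := by ring

theorem dv_abs_sum (S I : Finset ℕ) (pi : ℕ → ℕ) (xi : ℕ → ℝ) :
    ∑ i ∈ S, |dv I pi xi i| ≤ 2 * ∑ p ∈ I, |xi p| := by
  have h1 : ∑ i ∈ S, |∑ p ∈ I, (if pi p = i then xi p else 0)| ≤ ∑ p ∈ I, |xi p| := by
    refine (sum_le_sum fun i _ => abs_sum_le_sum_abs _ _).trans ?_
    rw [sum_comm]
    refine sum_le_sum fun p _ => ?_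
    simp only [apply_ite abs, abs_zero, sum_ite_eq]
    split_ifs
    · exact le_rfl
    · exact abs_nonneg _
  have h2 : ∑ i ∈ S, |if i ∈ I then xi i else 0| ≤ ∑ p ∈ I, |xi p| := by
    simp only [apply_ite abs, abs_zero, sum_ite_mem]
    exact sum_le_sum_of_subset_of_nonneg inter_subset_right fun _ _ _ => abs_nonneg _
  refine (sum_le_sum fun i _ => abs_sub _ _).trans ?_
  rw [sum_add_distrib]
  linarith

theorem bound_S2 (hP : P.WF) (h : P.Ok S x y0 V) (hq : ∑ i ∈ S, q i ^ 2 ≤ (P.u : ℝ) ^ 15)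
    (d w : ℕ → ℝ) : |P.S2 S x y0 q d w| ≤
      264 * ((P.u : ℝ) ^ 25 * ∑ i ∈ S, d i ^ 2) + 50 * ((P.u : ℝ) ^ 7 * ∑ i ∈ S, w i ^ 2) := by
  have hU : (1 : ℝ) ≤ P.u := by exact_mod_cast (by have := hP.u16; omega : 1 ≤ P.u)
  have hE : 0 ≤ ∑ i ∈ S, d i ^ 2 := sum_nonneg fun _ _ => sq_nonneg _
  have hW : 0 ≤ ∑ i ∈ S, w i ^ 2 := sum_nonneg fun _ _ => sq_nonneg _
  have hr := bound_r hP
  have hr0 : (0 : ℝ) ≤ P.r := Nat.cast_nonneg _
  have hk : (P.kap : ℝ) ≤ P.u := by exact_mod_cast hP.ku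
  have hk2 : (2 : ℝ) ≤ P.kap := by exact_mod_cast (by unfold kap; omega : 2 ≤ P.kap)
  have t1 : |∑ j ∈ P.med S, P.om S x y0 q j * ((1 + 16 * (P.r : ℝ)) * P.aa S d j ^ 2 +
      4 * (P.r : ℝ) * P.hh S x d j ^ 2 - ((P.kap : ℝ) - 2) * P.ee S d j)| ≤
      (P.u : ℝ) ^ 16 * (22 * (P.u * (P.u * ∑ i ∈ S, d i ^ 2))) := by
    refine (abs_sum_le_sum_abs _ _).trans (le_trans ?_
      (mul_le_mul_of_nonneg_right (h.om_sum hP hq) (by positivity)))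
    rw [sum_mul]
    refine sum_le_sum fun j _ => ?_
    rw [abs_mul, abs_of_nonneg (h.om_nonneg q j)]
    refine mul_le_mul_of_nonneg_left ?_ (h.om_nonneg q j)
    have a1 : (1 + 16 * (P.r : ℝ)) * P.aa S d j ^ 2 ≤ 17 * P.u * (P.u * ∑ i ∈ S, d i ^ 2) :=
      mul_le_mul (by linarith) (bound_aa hP h.sub d j) (sq_nonneg _) (by positivity)
    have a2 : 4 * (P.r : ℝ) * P.hh S x d j ^ 2 ≤ 4 * P.u * (P.u * ∑ i ∈ S, d i ^ 2) :=
      mul_le_mul (by linarith) (bound_hh hP h d j) (sq_nonneg _) (by positivity)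
    have a0 : 0 ≤ P.ee S d j := sum_nonneg fun _ _ => sq_nonneg _
    have a3 : ((P.kap : ℝ) - 2) * P.ee S d j ≤ P.u * (P.u * ∑ i ∈ S, d i ^ 2) :=
      mul_le_mul (by linarith) ((bound_ee S d j).trans (le_mul_of_one_le_left hE hU)) a0
        (by positivity)
    have b1 : 0 ≤ (1 + 16 * (P.r : ℝ)) * P.aa S d j ^ 2 := by positivity
    have b2 : 0 ≤ 4 * (P.r : ℝ) * P.hh S x d j ^ 2 := by positivity
    have b3 : 0 ≤ ((P.kap : ℝ) - 2) * P.ee S d j := mul_nonneg (by linarith) a0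
    rw [abs_le]
    constructor <;> linarith
  have t2 := h.Mq_le hP w
  have t2' : 0 ≤ P.Mq S x y0 w := Mq_nonneg h.unit w
  have t3 : ∑ i ∈ S, (P.v1 S x y0 q d i - (w i - P.Mv S x y0 w i)) ^ 2 ≤
      30 * ((P.u : ℝ) ^ 18 * ∑ i ∈ S, d i ^ 2) + 6 * ∑ i ∈ S, w i ^ 2 := by
    have a1 := h.v1_sq_le hP hq d
    have a2 : ∑ i ∈ S, P.Mv S x y0 w i ^ 2 ≤ ∑ i ∈ S, w i ^ 2 := by
      refine (h.Mv_sq_le hP w).trans (mul_le_of_le_one_left hW ?_)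
      have b1 : 0 ≤ 1 / (P.u : ℝ) ^ 7 := by positivity
      have b2 : 1 / (P.u : ℝ) ^ 7 ≤ 1 := div_le_one_of_le₀ (one_le_pow₀ hU) (by positivity)
      nlinarith
    have a3 : ∑ i ∈ S, (P.v1 S x y0 q d i - (w i - P.Mv S x y0 w i)) ^ 2 ≤
        ∑ i ∈ S, (3 * P.v1 S x y0 q d i ^ 2 + 3 * w i ^ 2 + 3 * P.Mv S x y0 w i ^ 2) :=
      sum_le_sum fun i _ => by
        nlinarith [sq_nonneg (P.v1 S x y0 q d i + w i), sq_nonneg (w i + P.Mv S x y0 w i),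
          sq_nonneg (P.v1 S x y0 q d i - P.Mv S x y0 w i)]
    rw [sum_add_distrib, sum_add_distrib, ← mul_sum, ← mul_sum, ← mul_sum] at a3
    linarith
  have t3' : 0 ≤ ∑ i ∈ S, (P.v1 S x y0 q d i - (w i - P.Mv S x y0 w i)) ^ 2 :=
    sum_nonneg fun _ _ => sq_nonneg _
  have t4 : ∑ j ∈ P.lrg S, P.aa S d j ^ 2 ≤ P.u * (P.u * ∑ i ∈ S, d i ^ 2) := by
    refine (sum_le_card_nsmul _ _ _ fun j _ => bound_aa hP h.sub d j).trans ?_
    rw [nsmul_eq_mul]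
    refine mul_le_mul_of_nonneg_right ?_ (by positivity)
    have a1 : (P.lrg S).card ≤ (range P.m).card := card_le_card (filter_subset _ _)
    rw [card_range] at a1
    exact_mod_cast a1.trans hP.mu
  have t4' : 0 ≤ ∑ j ∈ P.lrg S, P.aa S d j ^ 2 := sum_nonneg fun _ _ => sq_nonneg _
  have h7 : (0 : ℝ) ≤ (P.u : ℝ) ^ 7 := by positivity
  have c3 := mul_le_mul_of_nonneg_left t3 h7
  have c3' := mul_nonneg h7 t3'
  have c4 := mul_le_mul_of_nonneg_left t4 h7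
  have c4' := mul_nonneg h7 t4'
  have p : ∀ k : ℕ, k ≤ 25 → (P.u : ℝ) ^ k * ∑ i ∈ S, d i ^ 2 ≤ (P.u : ℝ) ^ 25 * ∑ i ∈ S, d i ^ 2 :=
    fun k hk => mul_le_mul_of_nonneg_right (pow_le_pow_right₀ hU hk) hE
  have p0 := p 0 (by norm_num)
  have p9 := p 9 (by norm_num)
  have p18 := p 18 (by norm_num)
  have p7 := le_mul_of_one_le_left hW (one_le_pow₀ (n := 7) hU)
  obtain ⟨t5, t6⟩ := abs_le.1 t1
  unfold S2
  rw [abs_le]
  constructor <;> linarith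

theorem Ok.bound (hP : P.WF) (h : P.Ok S x y0 V) (hq : ∑ i ∈ S, q i ^ 2 ≤ (P.u : ℝ) ^ 15)
    {I : Finset ℕ} (pi : ℕ → ℕ) (hI : I ⊆ S) (xi : ℕ → ℝ) :
    |P.Sf S x y0 q I pi xi| ≤ (P.u : ℝ) ^ 30 * ∑ p ∈ range (2 * P.n), xi p ^ 2 := by
  have hU : (16 : ℝ) ≤ P.u := by exact_mod_cast hP.u16
  have h1 := bound_S2 hP h hq (dv I pi xi) fun i => xi (P.n + i)
  have hA : 0 ≤ ∑ p ∈ range P.n, xi p ^ 2 := sum_nonneg fun _ _ => sq_nonneg _
  have hB : 0 ≤ ∑ p ∈ range P.n, xi (P.n + p) ^ 2 := sum_nonneg fun _ _ => sq_nonneg _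
  have h2 : ∑ i ∈ S, xi (P.n + i) ^ 2 ≤ ∑ p ∈ range P.n, xi (P.n + p) ^ 2 :=
    sum_le_sum_of_subset_of_nonneg h.sub fun _ _ _ => sq_nonneg _
  have h3 : (∑ p ∈ I, |xi p|) ^ 2 ≤ P.u * ∑ p ∈ range P.n, xi p ^ 2 := by
    refine sq_sum_le_card_mul_sum_sq.trans (mul_le_mul (bound_card hP (hI.trans h.sub)) ?_
      (sum_nonneg fun _ _ => sq_nonneg _) (Nat.cast_nonneg _))
    simp only [sq_abs]
    exact sum_le_sum_of_subset_of_nonneg (hI.trans h.sub) fun _ _ _ => sq_nonneg _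
  have h4 : ∑ i ∈ S, dv I pi xi i ^ 2 ≤ 4 * (P.u * ∑ p ∈ range P.n, xi p ^ 2) := by
    have a1 := sum_sq_le_sq_sum_of_nonneg (s := S) (f := fun i => |dv I pi xi i|)
      fun _ _ => abs_nonneg _
    simp only [sq_abs] at a1
    have a2 := pow_le_pow_left₀ (sum_nonneg fun _ _ => abs_nonneg _) (dv_abs_sum S I pi xi) 2
    linarith
  have h5 : (65536 : ℝ) ≤ (P.u : ℝ) ^ 4 := by
    have := pow_le_pow_left₀ (by norm_num) hU 4
    linarith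
  have h6 := mul_le_mul_of_nonneg_left h4 (by positivity : (0 : ℝ) ≤ (P.u : ℝ) ^ 25)
  have h7 := mul_le_mul (pow_le_pow_right₀ (by linarith : (1 : ℝ) ≤ P.u) (by norm_num : 7 ≤ 26)) h2
    (sum_nonneg fun _ _ => sq_nonneg _) (by positivity)
  have hA' := mul_nonneg (by positivity : (0 : ℝ) ≤ (P.u : ℝ) ^ 26) hA
  have hB' := mul_nonneg (by positivity : (0 : ℝ) ≤ (P.u : ℝ) ^ 26) hB
  have h8 := mul_le_mul_of_nonneg_right h5 hA'
  have h9 := mul_le_mul_of_nonneg_right h5 hB'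
  rw [two_mul, sum_range_add]
  unfold Sf
  linarith

end Par

end Pool.Agent.P.MP_1639c2_lc.W
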