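import Pool.Agent.P.MP_1639c2_lc.W.Stmt

/-! The potential function and the numerical routines. -/

namespace Pool.Agent.P.MP_1639c2_lc.W

open Finset

/-- Fixed data: number of elements, degree bound, exponent, size parameter, hyperedges. -/
structure Par where
  n : ℕ
  D : ℕ
  r : ℕ
  u : ℕ
  H : List (List Bool)

namespace Par

variable (P : Par)

def m : ℕ := P.H.length
def inc (j i : ℕ) : Bool := bit (P.H.getD j []) i
def kap : ℕ := 192 * P.r + 6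
def zb : ℕ := 1 + 4 * P.kap * P.D + P.kap ^ 2
def T : ℕ := 4 * P.zb
def row (S : Finset ℕ) (j : ℕ) : Finset ℕ := S.filter (fun i => P.inc j i = true)
/-- Medium rows. -/
def med (S : Finset ℕ) : Finset ℕ :=
  (range P.m).filter (fun j => 1024 * P.D < (P.row S j).card ^ 2 ∧ (P.row S j).card ≤ 16 * P.D)
/-- Large rows. -/
def lrg (S : Finset ℕ) : Finset ℕ :=
  (range P.m).filter (fun j => 1024 * P.D < (P.row S j).card ^ 2 ∧ 16 * P.D < (P.row S j).card)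

structure WF : Prop where
  u16 : 16 ≤ P.u
  nu : P.n ≤ P.u
  mu : P.m ≤ P.u
  ku : P.kap ≤ P.u
  r1 : 1 ≤ P.r
  rD : 8 * P.D ≤ 2 ^ P.r
  deg : ∀ i < P.n, ((range P.m).filter (fun j => P.inc j i = true)).card ≤ P.D

variable {K : Type} [Field K]

/-- Sum of a vector over the part of row `j` inside `S`. -/
def aa (S : Finset ℕ) (d : ℕ → K) (j : ℕ) : K := ∑ i ∈ P.row S j, d i
def yy (x y0 : ℕ → K) (j : ℕ) : K := P.aa (range P.n) x j - y0 j
def zz (S : Finset ℕ) (x y0 : ℕ → K) (j : ℕ) : K :=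
  P.yy x y0 j ^ 2 + (P.kap : K) * ∑ i ∈ P.row S j, x i * (1 - x i) + (P.kap : K) ^ 2
def phi (S : Finset ℕ) (x y0 : ℕ → K) (j : ℕ) : K := (P.zz S x y0 j / (P.T : K)) ^ P.r
def res (K : Type) [Field K] : K := (1 / 4) ^ P.r * (16 * (P.D : K))
/-- The nonnegative symmetric matrix of the potential. -/
def Mm (S : Finset ℕ) (x y0 : ℕ → K) (p q : ℕ) : K :=
  ∑ j ∈ P.med S, (if P.inc j p = true ∧ P.inc j q = true then P.phi S x y0 j else 0) +
    (if p = q then ∑ j ∈ P.lrg S, (if P.inc j p = true then P.res K else 0) else 0)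
def Mv (S : Finset ℕ) (x y0 v : ℕ → K) (p : ℕ) : K := ∑ q ∈ S, P.Mm S x y0 p q * v q
def Mq (S : Finset ℕ) (x y0 v : ℕ → K) : K := ∑ p ∈ S, v p * P.Mv S x y0 v p
def Ff (S : Finset ℕ) (x y0 v : ℕ → K) : K :=
  2 * ∑ p ∈ S, v p - ∑ p ∈ S, v p ^ 2 + P.Mq S x y0 v
def rest (S : Finset ℕ) (x y0 : ℕ → K) : K :=
  (P.u : K) ^ 7 * ∑ j ∈ P.lrg S, P.yy x y0 j ^ 2 + ∑ i ∈ S, x i * (1 - x i) + (S.card : K)

/-- The potential is at most `V`. -/
def Pot (S : Finset ℕ) (x y0 : ℕ → ℝ) (V : ℝ) : Prop :=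
  ∀ v : ℕ → ℝ, P.Ff S x y0 v + P.rest S x y0 ≤ V

structure Ok (S : Finset ℕ) (x y0 : ℕ → ℝ) (V : ℝ) : Prop where
  sub : S ⊆ range P.n
  unit : ∀ i ∈ S, 0 ≤ x i ∧ x i ≤ 1
  pot : P.Pot S x y0 V
  le : V ≤ (P.u : ℝ) ^ 7

def hh (S : Finset ℕ) (x d : ℕ → K) (j : ℕ) : K := ∑ i ∈ P.row S j, (1 - 2 * x i) * d i
def ee (S : Finset ℕ) (d : ℕ → K) (j : ℕ) : K := ∑ i ∈ P.row S j, d i ^ 2
def ll (S : Finset ℕ) (x y0 d : ℕ → K) (j : ℕ) : K :=
  2 * P.yy x y0 j * P.aa S d j + (P.kap : K) * P.hh S x d j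
def cf (S : Finset ℕ) (x y0 : ℕ → K) (j : ℕ) : K :=
  (P.r : K) * P.phi S x y0 j / P.zz S x y0 j
def om (S : Finset ℕ) (x y0 q : ℕ → K) (j : ℕ) : K := P.cf S x y0 j * P.aa S q j ^ 2
def v1 (S : Finset ℕ) (x y0 q d : ℕ → K) (i : ℕ) : K :=
  ∑ j ∈ P.med S, if P.inc j i = true then P.cf S x y0 j * P.aa S q j * P.ll S x y0 d j else 0
/-- Second order part of the change of the potential. -/
def S2 (S : Finset ℕ) (x y0 q d w : ℕ → K) : K :=
  ∑ j ∈ P.med S, P.om S x y0 q j * ((1 + 16 * (P.r : K)) * P.aa S d j ^ 2 +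
      4 * (P.r : K) * P.hh S x d j ^ 2 - ((P.kap : K) - 2) * P.ee S d j) +
    2 * (∑ i ∈ S, w i ^ 2 - P.Mq S x y0 w) +
    8 * (P.u : K) ^ 7 * ∑ i ∈ S, (P.v1 S x y0 q d i - (w i - P.Mv S x y0 w i)) ^ 2 +
    (P.u : K) ^ 7 * ∑ j ∈ P.lrg S, P.aa S d j ^ 2 - ∑ i ∈ S, d i ^ 2
/-- First order part of the change of the potential. -/
def L1 (S : Finset ℕ) (x y0 q d : ℕ → K) : K :=
  ∑ j ∈ P.med S, P.om S x y0 q j * P.ll S x y0 d j +
    2 * (P.u : K) ^ 7 * ∑ j ∈ P.lrg S, P.yy x y0 j * P.aa S d j + ∑ i ∈ S, (1 - 2 * x i) * d i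

end Par

variable {K : Type} [Field K]

/-- The direction given by moving `xi p` units from `p` to `pi p`, for `p` in `I`. -/
def dv (I : Finset ℕ) (pi : ℕ → ℕ) (xi : ℕ → K) (i : ℕ) : K :=
  ∑ p ∈ I, (if pi p = i then xi p else 0) - (if i ∈ I then xi i else 0)

/-- The second order form in the variables `xi p` (`p < 2 n`). -/
def Par.Sf (P : Par) (S : Finset ℕ) (x y0 q : ℕ → K) (I : Finset ℕ) (pi : ℕ → ℕ) (xi : ℕ → K) : K :=
  P.S2 S x y0 q (dv I pi xi) (fun i => xi (P.n + i))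

/-- Iteration of the affine map `v ↦ b + A v` in dimension `k`. -/
def itA (k : ℕ) (A : ℕ → ℕ → K) (b v : ℕ → K) : ℕ → ℕ → K
  | 0 => v
  | t + 1 => fun p => b p + ∑ q ∈ range k, A p q * itA k A b v t q

/-- Truncated Neumann series for the maximiser of `Ff`. -/
def Par.qv (P : Par) (S : Finset ℕ) (x y0 : ℕ → K) : ℕ → K :=
  itA P.n (fun p q => if q ∈ S then P.Mm S x y0 p q else 0) (fun _ => 1) (fun _ => 0) (40 * P.u ^ 8)

def un (i : ℕ) : ℕ → K := fun p => if p = i then 1 else 0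

/-- The matrix of a quadratic form, by polarisation. -/
def pol (f : (ℕ → K) → K) (p q : ℕ) : K :=
  (f (fun s => un p s + un q s) - f (un p) - f (un q)) / 2

def qf (k : ℕ) (A : ℕ → ℕ → K) (v : ℕ → K) : K :=
  ∑ p ∈ range k, ∑ q ∈ range k, A p q * v p * v q

/-- A minimiser of `f` among `d` and the members of `l`. -/
def amin {β : Type} (f : β → ℚ) (d : β) (l : List β) : β :=
  l.foldl (fun a b => if f b < f a then b else a) d

def lam (k : ℕ) (A : ℕ → ℕ → ℚ) : ℚ := ∑ p ∈ range k, ∑ q ∈ range k, |A p q|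

/-- Column `i` of the `t`-th power of `lam - A`. -/
def col (k : ℕ) (A : ℕ → ℕ → ℚ) (t i : ℕ) : ℕ → ℚ :=
  itA k (fun p q => (if p = q then lam k A else 0) - A p q) (fun _ => 0) (un i) t

def ray (k : ℕ) (A : ℕ → ℕ → ℚ) (v : ℕ → ℚ) : ℚ := qf k A v / ∑ p ∈ range k, v p ^ 2

def best (k : ℕ) (A : ℕ → ℕ → ℚ) (t : ℕ) : ℕ :=
  amin (fun i => ray k A (col k A t i)) 0 (List.range k)

def supn (k : ℕ) (v : ℕ → ℚ) : ℚ := |v (amin (fun p => -|v p|) 0 (List.range k))|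

/-- An integral direction of negative curvature, by the power method and rounding. -/
def neg (k : ℕ) (A : ℕ → ℕ → ℚ) (t R : ℕ) (p : ℕ) : ℤ :=
  ⌊(R : ℚ) * col k A t (best k A t) p / supn k (col k A t (best k A t))⌋

end Pool.Agent.P.MP_1639c2_lc.W
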