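import Pool.Agent.P.MP_1639c2_lc.W.ItPT

/-! The quantities of the potential are computable in polynomial time. -/

namespace Pool.Agent.P.MP_1639c2_lc.W

open Finset Pool.Agent.Lib.NP

instance : Enc Par := ⟨fun P => enc (P.n, P.D, P.r, P.u, P.H), fun P Q h => by
  have h1 := Enc.inj h
  cases P; cases Q
  simp only [Prod.mk.injEq] at h1
  simp [h1]⟩

variable {α : Type} [Enc α] {P : α → Par} {S I : α → Finset ℕ} {x y0 q d w xi : α → ℕ → ℚ}
  {pi : α → ℕ → ℕ} {i j p p' : α → ℕ}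

theorem corePT_to : PT fun P : Par => (P.n, P.D, P.r, P.u, P.H) := PT.of_enc_eq fun _ => rfl

theorem corePT_of : PT fun t : ℕ × ℕ × ℕ × ℕ × List (List Bool) =>
    (⟨t.1, t.2.1, t.2.2.1, t.2.2.2.1, t.2.2.2.2⟩ : Par) := PT.of_enc_eq fun _ => rfl

theorem pt_mkPar {n D r u : α → ℕ} {H : α → List (List Bool)} (hn : PT n) (hD : PT D) (hr : PT r)
    (hu : PT u) (hH : PT H) : PT fun a => (⟨n a, D a, r a, u a, H a⟩ : Par) :=
  corePT_of.comp (hn.mk (hD.mk (hr.mk (hu.mk hH))))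

@[fun_prop] theorem pt_n (hP : PT P) : PT fun a => (P a).n := (corePT_to.comp hP).fst
@[fun_prop] theorem pt_D (hP : PT P) : PT fun a => (P a).D := (corePT_to.comp hP).snd.fst
@[fun_prop] theorem pt_r (hP : PT P) : PT fun a => (P a).r := (corePT_to.comp hP).snd.snd.fst
@[fun_prop] theorem pt_u (hP : PT P) : PT fun a => (P a).u := (corePT_to.comp hP).snd.snd.snd.fst
@[fun_prop] theorem pt_H (hP : PT P) : PT fun a => (P a).H := (corePT_to.comp hP).snd.snd.snd.snd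
@[fun_prop] theorem pt_m (hP : PT P) : PT fun a => (P a).m := (pt_H hP).length
@[fun_prop] theorem pt_kap (hP : PT P) : PT fun a => (P a).kap := by
  unfold Par.kap; fun_prop
@[fun_prop] theorem pt_T (hP : PT P) : PT fun a => (P a).T := by
  unfold Par.T Par.zb; fun_prop
@[fun_prop] theorem pt_inc (hP : PT P) (hj : PT j) (hi : PT i) :
    PT fun a => (P a).inc (j a) (i a) := by
  unfold Par.inc; fun_prop
@[fun_prop] theorem pt_row (hP : PT P) (hS : PT S) (hj : PT j) :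
    PT fun a => (P a).row (S a) (j a) := by
  unfold Par.row
  exact pt_ffilter (by fun_prop) hS

@[fun_prop] theorem corePT_med (hP : PT P) (hS : PT S) : PT fun a => (P a).med (S a) := by
  unfold Par.med
  exact pt_ffilter (PT.decide_and (by fun_prop) (by fun_prop)) (by fun_prop)

@[fun_prop] theorem corePT_lrg (hP : PT P) (hS : PT S) : PT fun a => (P a).lrg (S a) := by
  unfold Par.lrg
  exact pt_ffilter (PT.decide_and (by fun_prop) (by fun_prop)) (by fun_prop)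

theorem corePT_app {β γ : Type} [Enc β] [Enc γ] {f : α → ℕ → γ} {g : β → α} {k : β → ℕ}
    (hf : PT fun z : α × ℕ => f z.1 z.2) (hg : PT g) (hk : PT k) : PT fun b => f (g b) (k b) :=
  hf.comp (hg.mk hk)

theorem corePT_up {β γ : Type} [Enc β] [Enc γ] {f : α → ℕ → γ}
    (hf : PT fun z : α × ℕ => f z.1 z.2) : PT fun z : (α × β) × ℕ => f z.1.1 z.2 :=
  corePT_app hf (by fun_prop) (by fun_prop)

theorem pt_aa (hP : PT P) (hS : PT S) (hd : PT fun z : α × ℕ => d z.1 z.2) (hj : PT j) :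
    PT fun a => (P a).aa (S a) (d a) (j a) := pt_fsum hd (pt_row hP hS hj)

theorem corePT_yy (hP : PT P) (hx : PT fun z : α × ℕ => x z.1 z.2)
    (hy : PT fun z : α × ℕ => y0 z.1 z.2) (hj : PT j) :
    PT fun a => (P a).yy (x a) (y0 a) (j a) :=
  pt_qsub (pt_aa hP (by fun_prop) hx hj) (corePT_app hy PT.id' hj)

theorem corePT_zz (hP : PT P) (hS : PT S) (hx : PT fun z : α × ℕ => x z.1 z.2)
    (hy : PT fun z : α × ℕ => y0 z.1 z.2) (hj : PT j) :
    PT fun a => (P a).zz (S a) (x a) (y0 a) (j a) :=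
  pt_qadd (pt_qadd (pt_qpow (corePT_yy hP hx hy hj) (PT.const _))
    (pt_qmul (by fun_prop) (pt_fsum (pt_qmul hx (pt_qsub (PT.const _) hx)) (pt_row hP hS hj))))
    (by fun_prop)

theorem corePT_phi (hP : PT P) (hS : PT S) (hx : PT fun z : α × ℕ => x z.1 z.2)
    (hy : PT fun z : α × ℕ => y0 z.1 z.2) (hj : PT j) :
    PT fun a => (P a).phi (S a) (x a) (y0 a) (j a) :=
  pt_qpow (pt_qdiv (corePT_zz hP hS hx hy hj) (by fun_prop)) (pt_r hP)

theorem corePT_res (hP : PT P) : PT fun a => (P a).res ℚ := by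
  unfold Par.res; fun_prop

theorem corePT_Mm (hP : PT P) (hS : PT S) (hx : PT fun z : α × ℕ => x z.1 z.2)
    (hy : PT fun z : α × ℕ => y0 z.1 z.2) (hp : PT p) (hp' : PT p') :
    PT fun a => (P a).Mm (S a) (x a) (y0 a) (p a) (p' a) := by
  unfold Par.Mm
  refine pt_qadd (pt_fsum (PT.ite (PT.decide_and (by fun_prop) (by fun_prop))
    (corePT_phi (by fun_prop) (by fun_prop) (corePT_up hx) (corePT_up hy) (by fun_prop))
    (PT.const _)) (by fun_prop)) (PT.ite (by fun_prop) (pt_fsum (PT.ite (by fun_prop)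
      (corePT_res (by fun_prop)) (PT.const _)) (by fun_prop)) (PT.const _))

theorem corePT_Mv (hP : PT P) (hS : PT S) (hx : PT fun z : α × ℕ => x z.1 z.2)
    (hy : PT fun z : α × ℕ => y0 z.1 z.2) (hw : PT fun z : α × ℕ => w z.1 z.2) (hp : PT p) :
    PT fun a => (P a).Mv (S a) (x a) (y0 a) (w a) (p a) :=
  pt_fsum (pt_qmul (corePT_Mm (by fun_prop) (by fun_prop) (corePT_up hx) (corePT_up hy)
    (by fun_prop) (by fun_prop)) hw) hS

theorem corePT_Mq (hP : PT P) (hS : PT S) (hx : PT fun z : α × ℕ => x z.1 z.2)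
    (hy : PT fun z : α × ℕ => y0 z.1 z.2) (hw : PT fun z : α × ℕ => w z.1 z.2) :
    PT fun a => (P a).Mq (S a) (x a) (y0 a) (w a) :=
  pt_fsum (pt_qmul hw (corePT_Mv (by fun_prop) (by fun_prop) (corePT_up hx) (corePT_up hy)
    (corePT_up hw) (by fun_prop))) hS

theorem corePT_hh (hP : PT P) (hS : PT S) (hx : PT fun z : α × ℕ => x z.1 z.2)
    (hd : PT fun z : α × ℕ => d z.1 z.2) (hj : PT j) :
    PT fun a => (P a).hh (S a) (x a) (d a) (j a) :=
  pt_fsum (pt_qmul (pt_qsub (PT.const _) (pt_qmul (PT.const _) hx)) hd) (pt_row hP hS hj)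

theorem corePT_ee (hP : PT P) (hS : PT S) (hd : PT fun z : α × ℕ => d z.1 z.2) (hj : PT j) :
    PT fun a => (P a).ee (S a) (d a) (j a) :=
  pt_fsum (pt_qpow hd (PT.const _)) (pt_row hP hS hj)

theorem corePT_ll (hP : PT P) (hS : PT S) (hx : PT fun z : α × ℕ => x z.1 z.2)
    (hy : PT fun z : α × ℕ => y0 z.1 z.2) (hd : PT fun z : α × ℕ => d z.1 z.2) (hj : PT j) :
    PT fun a => (P a).ll (S a) (x a) (y0 a) (d a) (j a) :=
  pt_qadd (pt_qmul (pt_qmul (PT.const _) (corePT_yy hP hx hy hj)) (pt_aa hP hS hd hj))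
    (pt_qmul (by fun_prop) (corePT_hh hP hS hx hd hj))

theorem corePT_cf (hP : PT P) (hS : PT S) (hx : PT fun z : α × ℕ => x z.1 z.2)
    (hy : PT fun z : α × ℕ => y0 z.1 z.2) (hj : PT j) :
    PT fun a => (P a).cf (S a) (x a) (y0 a) (j a) :=
  pt_qdiv (pt_qmul (by fun_prop) (corePT_phi hP hS hx hy hj)) (corePT_zz hP hS hx hy hj)

theorem corePT_om (hP : PT P) (hS : PT S) (hx : PT fun z : α × ℕ => x z.1 z.2)
    (hy : PT fun z : α × ℕ => y0 z.1 z.2) (hq : PT fun z : α × ℕ => q z.1 z.2) (hj : PT j) :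
    PT fun a => (P a).om (S a) (x a) (y0 a) (q a) (j a) :=
  pt_qmul (corePT_cf hP hS hx hy hj) (pt_qpow (pt_aa hP hS hq hj) (PT.const _))

theorem corePT_v1 (hP : PT P) (hS : PT S) (hx : PT fun z : α × ℕ => x z.1 z.2)
    (hy : PT fun z : α × ℕ => y0 z.1 z.2) (hq : PT fun z : α × ℕ => q z.1 z.2)
    (hd : PT fun z : α × ℕ => d z.1 z.2) (hi : PT i) :
    PT fun a => (P a).v1 (S a) (x a) (y0 a) (q a) (d a) (i a) :=
  pt_fsum (PT.ite (by fun_prop) (pt_qmul (pt_qmul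
    (corePT_cf (by fun_prop) (by fun_prop) (corePT_up hx) (corePT_up hy) (by fun_prop))
    (pt_aa (by fun_prop) (by fun_prop) (corePT_up hq) (by fun_prop)))
    (corePT_ll (by fun_prop) (by fun_prop) (corePT_up hx) (corePT_up hy) (corePT_up hd)
      (by fun_prop))) (PT.const _)) (corePT_med hP hS)

theorem corePT_S2 (hP : PT P) (hS : PT S) (hx : PT fun z : α × ℕ => x z.1 z.2)
    (hy : PT fun z : α × ℕ => y0 z.1 z.2) (hq : PT fun z : α × ℕ => q z.1 z.2)
    (hd : PT fun z : α × ℕ => d z.1 z.2) (hw : PT fun z : α × ℕ => w z.1 z.2) :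
    PT fun a => (P a).S2 (S a) (x a) (y0 a) (q a) (d a) (w a) := by
  have h1 : PT fun z : α × ℕ => (P z.1).aa (S z.1) (d z.1) z.2 :=
    pt_aa (by fun_prop) (by fun_prop) (corePT_up hd) (by fun_prop)
  have h2 : PT fun z : α × ℕ => (P z.1).hh (S z.1) (x z.1) (d z.1) z.2 :=
    corePT_hh (by fun_prop) (by fun_prop) (corePT_up hx) (corePT_up hd) (by fun_prop)
  have h3 : PT fun z : α × ℕ => (P z.1).ee (S z.1) (d z.1) z.2 :=
    corePT_ee (by fun_prop) (by fun_prop) (corePT_up hd) (by fun_prop)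
  have h4 : PT fun z : α × ℕ => (P z.1).om (S z.1) (x z.1) (y0 z.1) (q z.1) z.2 :=
    corePT_om (by fun_prop) (by fun_prop) (corePT_up hx) (corePT_up hy) (corePT_up hq) (by fun_prop)
  have h5 : PT fun z : α × ℕ => (P z.1).v1 (S z.1) (x z.1) (y0 z.1) (q z.1) (d z.1) z.2 :=
    corePT_v1 (by fun_prop) (by fun_prop) (corePT_up hx) (corePT_up hy) (corePT_up hq)
      (corePT_up hd) (by fun_prop)
  have h6 : PT fun z : α × ℕ => (P z.1).Mv (S z.1) (x z.1) (y0 z.1) (w z.1) z.2 :=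
    corePT_Mv (by fun_prop) (by fun_prop) (corePT_up hx) (corePT_up hy) (corePT_up hw) (by fun_prop)
  refine pt_qsub (pt_qadd (pt_qadd (pt_qadd
    (pt_fsum (pt_qmul h4 (pt_qsub (pt_qadd (pt_qmul (by fun_prop) (pt_qpow h1 (PT.const _)))
      (pt_qmul (by fun_prop) (pt_qpow h2 (PT.const _)))) (pt_qmul (by fun_prop) h3)))
      (corePT_med hP hS))
    (pt_qmul (PT.const _) (pt_qsub (pt_fsum (pt_qpow hw (PT.const _)) hS)
      (corePT_Mq hP hS hx hy hw))))
    (pt_qmul (by fun_prop) (pt_fsum (pt_qpow (pt_qsub h5 (pt_qsub hw h6)) (PT.const _)) hS)))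
    (pt_qmul (by fun_prop) (pt_fsum (pt_qpow h1 (PT.const _)) (corePT_lrg hP hS))))
    (pt_fsum (pt_qpow hd (PT.const _)) hS)

theorem pt_dv (hI : PT I) (hpi : PT fun z : α × ℕ => pi z.1 z.2)
    (hxi : PT fun z : α × ℕ => xi z.1 z.2) (hi : PT i) :
    PT fun a => dv (I a) (pi a) (xi a) (i a) :=
  pt_qsub (pt_fsum (PT.ite (PT.decide_eq hpi (by fun_prop)) hxi (PT.const _)) hI)
    (PT.ite (pt_fmem hi hI) (corePT_app hxi PT.id' hi) (PT.const _))

theorem pt_qv (hP : PT P) (hS : PT S) (hx : PT fun z : α × ℕ => x z.1 z.2)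
    (hy : PT fun z : α × ℕ => y0 z.1 z.2) (hi : PT i) :
    PT fun a => (P a).qv (S a) (x a) (y0 a) (i a) :=
  pt_itA (pt_n hP) (PT.ite (pt_fmem (by fun_prop) (by fun_prop))
    (corePT_Mm (by fun_prop) (by fun_prop) (corePT_up hx) (corePT_up hy) (by fun_prop)
      (by fun_prop)) (PT.const _)) (PT.const _) (PT.const _) (by fun_prop) hi

theorem pt_L1 (hP : PT P) (hS : PT S) (hx : PT fun z : α × ℕ => x z.1 z.2)
    (hy : PT fun z : α × ℕ => y0 z.1 z.2) (hq : PT fun z : α × ℕ => q z.1 z.2)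
    (hd : PT fun z : α × ℕ => d z.1 z.2) :
    PT fun a => (P a).L1 (S a) (x a) (y0 a) (q a) (d a) :=
  pt_qadd (pt_qadd (pt_fsum (pt_qmul
    (corePT_om (by fun_prop) (by fun_prop) (corePT_up hx) (corePT_up hy) (corePT_up hq)
      (by fun_prop))
    (corePT_ll (by fun_prop) (by fun_prop) (corePT_up hx) (corePT_up hy) (corePT_up hd)
      (by fun_prop))) (corePT_med hP hS))
    (pt_qmul (by fun_prop) (pt_fsum (pt_qmul
      (corePT_yy (by fun_prop) (corePT_up hx) (corePT_up hy) (by fun_prop))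
      (pt_aa (by fun_prop) (by fun_prop) (corePT_up hd) (by fun_prop))) (corePT_lrg hP hS))))
    (pt_fsum (pt_qmul (pt_qsub (PT.const _) (pt_qmul (PT.const _) hx)) hd) hS)

theorem corePT_Sf (hP : PT P) (hS : PT S) (hx : PT fun z : α × ℕ => x z.1 z.2)
    (hy : PT fun z : α × ℕ => y0 z.1 z.2) (hq : PT fun z : α × ℕ => q z.1 z.2) (hI : PT I)
    (hpi : PT fun z : α × ℕ => pi z.1 z.2) (hxi : PT fun z : α × ℕ => xi z.1 z.2) :
    PT fun a => (P a).Sf (S a) (x a) (y0 a) (q a) (I a) (pi a) (xi a) :=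
  corePT_S2 hP hS hx hy hq
    (pt_dv (by fun_prop) (corePT_up hpi) (corePT_up hxi) (by fun_prop))
    (corePT_app hxi (by fun_prop) (by fun_prop))

theorem corePT_un (hp : PT p) : PT fun z : α × ℕ => (un (p z.1) z.2 : ℚ) := by
  unfold un
  exact PT.ite (by fun_prop) (PT.const _) (PT.const _)

theorem pt_polSf (hP : PT P) (hS : PT S) (hx : PT fun z : α × ℕ => x z.1 z.2)
    (hy : PT fun z : α × ℕ => y0 z.1 z.2) (hq : PT fun z : α × ℕ => q z.1 z.2) (hI : PT I)
    (hpi : PT fun z : α × ℕ => pi z.1 z.2) (hp : PT p) (hp' : PT p') :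
    PT fun a => pol ((P a).Sf (S a) (x a) (y0 a) (q a) (I a) (pi a)) (p a) (p' a) :=
  pt_qdiv (pt_qsub (pt_qsub
    (corePT_Sf (xi := fun a s => un (p a) s + un (p' a) s) hP hS hx hy hq hI hpi
      (pt_qadd (corePT_un hp) (corePT_un hp')))
    (corePT_Sf (xi := fun a => un (p a)) hP hS hx hy hq hI hpi (corePT_un hp)))
    (corePT_Sf (xi := fun a => un (p' a)) hP hS hx hy hq hI hpi (corePT_un hp'))) (PT.const _)

end Pool.Agent.P.MP_1639c2_lc.W
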