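import Mathlib

/-! Two facts of linear algebra: selection by a trace bound, and spectral splitting. -/

namespace Pool.Agent.P.MP_1639c2_lc.W

open Finset

theorem lin_aux1 {A V : Type} [NormedAddCommGroup V] [InnerProductSpace ℝ V]
    [FiniteDimensional ℝ V] (W : Submodule ℝ V) (hW : 0 < Module.finrank ℝ W) (As : Finset A)
    (w : A → ℝ) (hw : ∀ a ∈ As, 0 ≤ w a) (x : A → V) : ∃ f ∈ W, ‖f‖ = 1 ∧
      (Module.finrank ℝ W : ℝ) * ∑ a ∈ As, w a * inner ℝ f (x a) ^ 2 ≤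
        ∑ a ∈ As, w a * ‖x a‖ ^ 2 := by
  have o := (stdOrthonormalBasis ℝ W).orthonormal.comp_linearIsometry W.subtypeₗᵢ
  obtain ⟨s, -, hs⟩ := exists_le_of_sum_le (s := univ) ⟨⟨0, hW⟩, mem_univ _⟩
    (f := fun s => (Module.finrank ℝ W : ℝ) *
      ∑ a ∈ As, w a * inner ℝ ((W.subtypeₗᵢ ∘ stdOrthonormalBasis ℝ W) s) (x a) ^ 2)
    (g := fun _ => ∑ a ∈ As, w a * ‖x a‖ ^ 2) (by
      rw [← mul_sum, sum_const, card_univ, Fintype.card_fin, nsmul_eq_mul, sum_comm]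
      refine mul_le_mul_of_nonneg_left (sum_le_sum fun a ha => ?_) (Nat.cast_nonneg _)
      rw [← mul_sum]
      refine mul_le_mul_of_nonneg_left ?_ (hw a ha)
      simpa only [Real.norm_eq_abs, sq_abs] using o.sum_inner_products_le (x a) (s := univ))
  exact ⟨_, (stdOrthonormalBasis ℝ W s).2, o.1 s, hs⟩

/-- Selection by a trace bound. -/
theorem sel {A C : Type} (S I : Finset ℕ) (E : ℕ → ℕ → ℝ)
    (inj : ∀ t : ℕ → ℝ, (∀ i ∈ S, ∑ p ∈ I, E i p * t p = 0) → ∀ p ∈ I, t p = 0)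
    (Cs : Finset C) (con : C → ℕ → ℝ) (hC : Cs.card < I.card)
    (As : Finset A) (w : A → ℝ) (hw : ∀ a ∈ As, 0 ≤ w a) (l : A → ℕ → ℝ)
    (pw : ℕ → ℝ) (hp : ∀ i ∈ S, 0 < pw i) :
    ∃ t : ℕ → ℝ, 0 < ∑ i ∈ S, (∑ p ∈ I, E i p * t p) ^ 2 ∧
      (∀ c ∈ Cs, ∑ i ∈ S, con c i * ∑ p ∈ I, E i p * t p = 0) ∧
      ((I.card : ℝ) - Cs.card) * ∑ a ∈ As, w a * (∑ i ∈ S, l a i * ∑ p ∈ I, E i p * t p) ^ 2 ≤
        (∑ a ∈ As, w a * ∑ i ∈ S, l a i ^ 2 / pw i) *
          ∑ i ∈ S, pw i * (∑ p ∈ I, E i p * t p) ^ 2 := by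
  obtain ⟨Y, hY⟩ : ∃ Y : (I → ℝ) →ₗ[ℝ] ℕ → ℝ, ∀ t i,
      Y t i = ∑ p ∈ I, E i p * Function.extend Subtype.val t 0 p :=
    ⟨LinearMap.pi fun i => ∑ p : I, E i p • LinearMap.proj p, fun t i => by
      rw [← sum_coe_sort I]
      simp⟩
  obtain ⟨T, hT⟩ : ∃ T : (I → ℝ) →ₗ[ℝ] EuclideanSpace ℝ S, ∀ t i, T t i = √(pw i) * Y t i :=
    ⟨(WithLp.linearEquiv 2 ℝ _).symm.toLinearMap ∘ₗ
      LinearMap.pi fun i : S => √(pw i) • (LinearMap.proj i.1 ∘ₗ Y), fun _ _ => rfl⟩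
  obtain ⟨G, hG⟩ : ∃ G : (I → ℝ) →ₗ[ℝ] Cs → ℝ, ∀ t c, G t c = ∑ i ∈ S, con c i * Y t i :=
    ⟨LinearMap.pi fun c : Cs => ∑ i ∈ S, con c i • (LinearMap.proj i ∘ₗ Y), fun t c => by simp⟩
  have iT : Function.Injective T := (injective_iff_map_eq_zero T).2 fun t ht => funext fun p => by
    have := inj (Function.extend Subtype.val t 0) (fun i hi => by
      have e := hT t ⟨i, hi⟩
      rw [ht, hY] at e
      exact (mul_eq_zero.1 e.symm).resolve_left (Real.sqrt_pos.2 (hp i hi)).ne') p p.2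
    rwa [Subtype.val_injective.extend_apply] at this
  have r1 := G.finrank_range_add_finrank_ker
  have r2 := (LinearMap.range G).finrank_le
  have r3 := (Submodule.equivMapOfInjective T iT (LinearMap.ker G)).finrank_eq
  rw [Module.finrank_fintype_fun_eq_card, Fintype.card_coe] at r1 r2
  obtain ⟨_, ⟨t, ht, rfl⟩, n, h⟩ := lin_aux1 ((LinearMap.ker G).map T) (by omega) As w hw
    fun a => WithLp.toLp 2 fun i : S => l a i / √(pw i)
  have n' : ∑ i ∈ S, pw i * Y t i ^ 2 = 1 := by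
    rw [← one_pow 2, ← n, EuclideanSpace.real_norm_sq_eq, ← sum_coe_sort]
    exact sum_congr rfl fun i _ => by rw [hT, mul_pow, Real.sq_sqrt (hp i i.2).le]
  refine ⟨Function.extend Subtype.val t 0, ?_⟩
  simp only [← hY]
  refine ⟨lt_of_not_ge fun k => ?_, fun c hc => (hG t ⟨c, hc⟩).symm.trans (congrFun ht _), ?_⟩
  · have := (sum_eq_zero_iff_of_nonneg fun i _ => sq_nonneg (Y t i)).1
      (k.antisymm (sum_nonneg fun i _ => sq_nonneg _))
    rw [sum_eq_zero fun i hi => by rw [this i hi, mul_zero]] at n'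
    exact zero_ne_one n'
  · rw [n', mul_one]
    refine le_trans (mul_le_mul ?_ (le_of_eq ?_) (sum_nonneg fun a ha =>
      mul_nonneg (hw a ha) (sq_nonneg _)) (Nat.cast_nonneg _)) (h.trans (le_of_eq ?_))
    · rw [sub_le_iff_le_add]
      exact_mod_cast (by omega)
    · refine sum_congr rfl fun a _ => congrArg (fun y => w a * y ^ 2) ?_
      rw [PiLp.inner_apply, ← sum_coe_sort]
      refine sum_congr rfl fun i _ => ?_
      have := (Real.sqrt_pos.2 (hp i i.2)).ne'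
      rw [hT, Real.inner_apply]
      field_simp
    · refine sum_congr rfl fun a _ => congrArg (fun y => w a * y) ?_
      rw [EuclideanSpace.real_norm_sq_eq, ← sum_coe_sort S]
      exact sum_congr rfl fun i _ => by rw [div_pow, Real.sq_sqrt (hp i i.2).le]

theorem lin_aux2 (S : Finset ℕ) (M : ℕ → ℕ → ℝ) (hs : ∀ p q, M p q = M q p) :
    ∃ (E : ℕ → ℕ → ℝ) (lam : ℕ → ℝ),
      (∀ p ∈ S, ∀ q ∈ S, ∑ i ∈ S, E i p * E i q = if p = q then 1 else 0) ∧
      (∀ i ∈ S, ∀ k ∈ S, ∑ p ∈ S, E i p * E k p = if i = k then 1 else 0) ∧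
      ∀ i ∈ S, ∀ p ∈ S, ∑ k ∈ S, M i k * E k p = lam p * E i p := by
  have hA : (Matrix.of fun i k : S => M i k).IsHermitian := Matrix.ext fun i k => hs k i
  refine ⟨fun i p => if h : i ∈ S ∧ p ∈ S then hA.eigenvectorUnitary.1 ⟨i, h.1⟩ ⟨p, h.2⟩ else 0,
    fun p => if h : p ∈ S then hA.eigenvalues ⟨p, h⟩ else 0, fun p hp q hq => ?_,
    fun i hi k hk => ?_, fun i hi p hp => ?_⟩
  · have := congrFun (congrFun hA.eigenvectorUnitary.2.1 ⟨p, hp⟩) ⟨q, hq⟩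
    rw [Matrix.mul_apply, Matrix.one_apply] at this
    rw [← sum_coe_sort]
    simpa only [hp, hq, coe_mem, and_self, dite_true, Subtype.mk.injEq, Matrix.star_apply,
      star_trivial] using this
  · have := congrFun (congrFun hA.eigenvectorUnitary.2.2 ⟨i, hi⟩) ⟨k, hk⟩
    rw [Matrix.mul_apply, Matrix.one_apply] at this
    rw [← sum_coe_sort]
    simpa only [hi, hk, coe_mem, and_self, dite_true, Subtype.mk.injEq, Matrix.star_apply,
      star_trivial] using this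
  · have := congrFun (hA.mulVec_eigenvectorBasis ⟨p, hp⟩) ⟨i, hi⟩
    rw [← sum_coe_sort]
    simp only [hi, hp, coe_mem, and_self, dite_true]
    exact this

/-- Spectral splitting at the level one half. -/
theorem spec (S : Finset ℕ) (M : ℕ → ℕ → ℝ) (hs : ∀ p q, M p q = M q p) :
    ∃ (J : Finset ℕ) (E : ℕ → ℕ → ℝ),
      (∀ t : ℕ → ℝ, ∑ i ∈ S, (∑ p ∈ J, E i p * t p) ^ 2 = ∑ p ∈ J, t p ^ 2) ∧
      (∀ t : ℕ → ℝ, (∑ p ∈ J, t p ^ 2) / 2 ≤
        ∑ i ∈ S, (∑ p ∈ J, E i p * t p) * ∑ k ∈ S, M i k * ∑ p ∈ J, E k p * t p) ∧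
      ∀ v : ℕ → ℝ, (∀ p ∈ J, ∑ i ∈ S, E i p * v i = 0) →
        ∃ w : ℕ → ℝ, (∀ i ∈ S, w i - ∑ k ∈ S, M i k * w k = v i) ∧
          ∑ i ∈ S, w i * v i ≤ 2 * ∑ i ∈ S, v i ^ 2 ∧
          ∑ i ∈ S, w i ^ 2 ≤ 4 * ∑ i ∈ S, v i ^ 2 := by
  obtain ⟨E, lam, o, c, e⟩ := lin_aux2 S M hs
  have key : ∀ J ⊆ S, ∀ a b : ℕ → ℝ, ∑ i ∈ S, (∑ p ∈ J, E i p * a p) * ∑ p ∈ J, E i p * b p =
      ∑ p ∈ J, a p * b p := by
    intro J hJ a b
    simp only [sum_mul_sum]
    rw [sum_comm]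
    refine sum_congr rfl fun p hp => ?_
    rw [sum_comm, sum_congr rfl (g := fun q => if p = q then a p * b q else 0) fun q hq => ?_,
      sum_ite_eq, if_pos hp]
    rw [sum_congr rfl fun i _ => mul_mul_mul_comm (E i p) (a p) (E i q) (b q), ← sum_mul,
      o p (hJ hp) q (hJ hq), ite_mul, one_mul, zero_mul]
  have act : ∀ J ⊆ S, ∀ a : ℕ → ℝ, ∀ i ∈ S, ∑ k ∈ S, M i k * ∑ p ∈ J, E k p * a p =
      ∑ p ∈ J, E i p * (lam p * a p) := by
    intro J hJ a i hi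
    simp only [mul_sum]
    rw [sum_comm]
    refine sum_congr rfl fun p hp => ?_
    simp only [← mul_assoc]
    rw [← sum_mul, e i hi p (hJ hp), mul_comm (lam p)]
  refine ⟨S.filter fun p => 1 / 2 < lam p, E, fun t => ?_, fun t => ?_, fun v hv => ?_⟩
  · simp only [sq]
    exact key _ (filter_subset _ _) t t
  · rw [sum_congr rfl fun i hi => congrArg _ (act _ (filter_subset _ _) t i hi),
      key _ (filter_subset _ _), sum_div]
    exact sum_le_sum fun p hp => by nlinarith [(mem_filter.1 hp).2, sq_nonneg (t p)]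
  · obtain ⟨d, hd⟩ : ∃ d : ℕ → ℝ, ∀ p, d p = ∑ i ∈ S, E i p * v i := ⟨_, fun _ => rfl⟩
    obtain ⟨J, hJ⟩ : ∃ J, J = S.filter fun p => ¬1 / 2 < lam p := ⟨_, rfl⟩
    have sub : J ⊆ S := hJ ▸ filter_subset _ _
    have l : ∀ p ∈ J, 1 / 2 ≤ 1 - lam p := fun p hp => by
      rw [hJ, mem_filter, not_lt] at hp
      linarith [hp.2]
    have ex : ∀ i ∈ S, v i = ∑ p ∈ J, E i p * d p := by
      intro i hi
      have : ∑ p ∈ S, E i p * d p = v i := by
        simp only [hd, mul_sum]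
        rw [sum_comm, sum_congr rfl (g := fun k => if i = k then v k else 0) fun k hk => ?_,
          sum_ite_eq, if_pos hi]
        simp only [← mul_assoc]
        rw [← sum_mul, c i hi k hk, ite_mul, one_mul, zero_mul]
      rw [← this, ← sum_filter_add_sum_filter_not S fun p => 1 / 2 < lam p, ← hJ,
        sum_eq_zero fun p hp => by rw [hd, hv p hp, mul_zero], zero_add]
    have nv : ∑ i ∈ S, v i ^ 2 = ∑ p ∈ J, d p * d p := by
      rw [← key J sub]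
      exact sum_congr rfl fun i hi => by rw [← ex i hi, sq]
    refine ⟨fun i => ∑ p ∈ J, E i p * (d p / (1 - lam p)), fun i hi => ?_, ?_, ?_⟩
    · rw [act J sub _ i hi, ex i hi, ← sum_sub_distrib]
      refine sum_congr rfl fun p hp => ?_
      have : 1 - lam p ≠ 0 := by linarith [l p hp]
      field_simp
    · rw [sum_congr rfl fun i hi => congrArg _ (ex i hi), key J sub, nv, mul_sum]
      refine sum_le_sum fun p hp => ?_
      rw [div_mul_eq_mul_div, div_le_iff₀ (by linarith [l p hp])]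
      nlinarith [l p hp, mul_self_nonneg (d p)]
    · simp only [sq] at nv ⊢
      rw [key J sub, nv, mul_sum]
      refine sum_le_sum fun p hp => ?_
      have := mul_self_le_mul_self (by norm_num) (l p hp)
      rw [div_mul_div_comm, div_le_iff₀ (by linarith)]
      nlinarith [mul_self_nonneg (d p)]

end Pool.Agent.P.MP_1639c2_lc.W
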