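import Pool.Agent.P.MP_1639c2_lc.W.Pot1
import Pool.Agent.P.MP_1639c2_lc.W.Lin

/-! Few large rows and few large eigenvalues. -/

namespace Pool.Agent.P.MP_1639c2_lc.W

open Finset

namespace Par

variable {P : Par} {S : Finset ℕ} {x y0 : ℕ → ℝ} {V : ℝ}

theorem count_card_sum_le (hP : P.WF) (hS : S ⊆ range P.n) (J : Finset ℕ) (hJ : J ⊆ range P.m) :
    ∑ j ∈ J, ((P.row S j).card : ℝ) ≤ P.D * S.card := by
  have := deg_sum hP hS J hJ (fun _ => 1) (fun _ _ => zero_le_one)
  simpa using this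

theorem lrg_card (hP : P.WF) (hS : S ⊆ range P.n) : 16 * (P.lrg S).card ≤ S.card := by
  have h1 := count_card_sum_le hP hS (P.lrg S) (filter_subset _ _)
  have h2 : ∑ _j ∈ P.lrg S, (16 * (P.D : ℝ) + 1) ≤ ∑ j ∈ P.lrg S, ((P.row S j).card : ℝ) := by
    refine sum_le_sum fun j hj => ?_
    have := (mem_filter.1 hj).2.2
    exact_mod_cast this
  rw [sum_const, nsmul_eq_mul] at h2
  have h3 : ((P.lrg S).card : ℝ) * (16 * P.D + 1) ≤ P.D * S.card := h2.trans h1
  have h4 : (P.lrg S).card * (16 * P.D + 1) ≤ P.D * S.card := by exact_mod_cast h3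
  rcases Nat.eq_zero_or_pos P.D with hD | hD
  · rw [hD] at h4
    omega
  · refine Nat.le_of_mul_le_mul_left ?_ hD
    nlinarith

theorem count_sum_ind_mul (P : Par) (S : Finset ℕ) (v : ℕ → ℝ) (j : ℕ) :
    ∑ i ∈ S, (if P.inc j i = true then (1 : ℝ) else 0) * v i = P.aa S v j := by
  unfold aa row
  rw [sum_filter]
  refine sum_congr rfl fun i _ => ?_
  split_ifs <;> simp

theorem count_safe_sum (hP : P.WF) (h : P.Ok S x y0 V) (A : Finset ℕ) (hA : A ⊆ P.med S)
    (hs : ∀ j ∈ A, P.phi S x y0 j * ((P.row S j).card : ℝ) ^ 2 ≤ 16) :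
    ∑ j ∈ A, P.phi S x y0 j * ((P.row S j).card : ℝ) ≤ S.card / 64 := by
  rcases Nat.eq_zero_or_pos P.D with hD | hD
  · have : A = ∅ := by
      refine eq_empty_of_forall_notMem fun j hj => ?_
      have h1 := (mem_filter.1 (hA hj)).2
      rw [hD] at h1
      have h2 : (P.row S j).card = 0 := by omega
      rw [h2] at h1
      simp at h1
    rw [this, sum_empty]
    positivity
  · have hD' : (0 : ℝ) < P.D := by exact_mod_cast hD
    have h1 := count_card_sum_le hP h.sub A (hA.trans (filter_subset _ _))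
    have h2 : ∑ j ∈ A, 64 * (P.D : ℝ) * (P.phi S x y0 j * ((P.row S j).card : ℝ)) ≤
        ∑ j ∈ A, ((P.row S j).card : ℝ) := by
      refine sum_le_sum fun j hj => ?_
      have h3 : 1024 * (P.D : ℝ) < ((P.row S j).card : ℝ) ^ 2 := by
        exact_mod_cast (mem_filter.1 (hA hj)).2.1
      have h4 := hs j hj
      have h5 : (0 : ℝ) ≤ ((P.row S j).card : ℝ) := by positivity
      have h6 : (0 : ℝ) < ((P.row S j).card : ℝ) := by
        rcases h5.eq_or_lt with h0 | h0
        · rw [← h0] at h3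
          nlinarith
        · exact h0
      refine le_of_mul_le_mul_right ?_ h6
      nlinarith
    rw [← mul_sum] at h2
    refine le_of_mul_le_mul_left ?_ (by positivity : (0 : ℝ) < 64 * P.D)
    nlinarith

theorem Ok.top_card (hP : P.WF) (h : P.Ok S x y0 V) (J : Finset ℕ) (E : ℕ → ℕ → ℝ)
    (h1 : ∀ t : ℕ → ℝ, ∑ i ∈ S, (∑ p ∈ J, E i p * t p) ^ 2 = ∑ p ∈ J, t p ^ 2)
    (h2 : ∀ t : ℕ → ℝ, (∑ p ∈ J, t p ^ 2) / 2 ≤ P.Mq S x y0 (fun i => ∑ p ∈ J, E i p * t p)) :
    8 * J.card ≤ S.card := by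
  classical
  set dang := (P.med S).filter
    (fun j => 16 ≤ P.phi S x y0 j * ((P.row S j).card : ℝ) ^ 2) with hdang
  set safe := (P.med S).filter
    (fun j => ¬ 16 ≤ P.phi S x y0 j * ((P.row S j).card : ℝ) ^ 2) with hsafe
  have hphi := phi_nonneg (P := P) (y0 := y0) h.unit
  have hd : 16 * (dang.card : ℝ) ≤ S.card := by
    have a1 := h.phi_sum_le hP (fun _ => 1)
    have a2 : ∀ j, P.aa S (fun _ => (1 : ℝ)) j = ((P.row S j).card : ℝ) := fun j => by
      simp [aa]
    simp only [a2, one_pow, sum_const, nsmul_eq_mul, mul_one] at a1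
    have a3 : ∑ _j ∈ dang, (16 : ℝ) ≤
        ∑ j ∈ dang, P.phi S x y0 j * ((P.row S j).card : ℝ) ^ 2 :=
      sum_le_sum fun j hj => (mem_filter.1 hj).2
    have a4 : ∑ j ∈ dang, P.phi S x y0 j * ((P.row S j).card : ℝ) ^ 2 ≤
        ∑ j ∈ P.med S, P.phi S x y0 j * ((P.row S j).card : ℝ) ^ 2 :=
      sum_le_sum_of_subset_of_nonneg (filter_subset _ _)
        fun j _ _ => mul_nonneg (hphi j) (sq_nonneg _)
    rw [sum_const, nsmul_eq_mul] at a3
    linarith
  have key : 8 * (J.card : ℝ) ≤ S.card := by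
    by_cases hJ : J.card ≤ dang.card
    · have : (J.card : ℝ) ≤ dang.card := by exact_mod_cast hJ
      have h0 : (0 : ℝ) ≤ J.card := by positivity
      linarith
    have inj : ∀ t : ℕ → ℝ, (∀ i ∈ S, ∑ p ∈ J, E i p * t p = 0) → ∀ p ∈ J, t p = 0 := by
      intro t ht p hp
      have b1 : ∑ p ∈ J, t p ^ 2 = 0 := by
        rw [← h1]
        exact sum_eq_zero fun i hi => by rw [ht i hi]; simp
      have b2 := (sum_eq_zero_iff_of_nonneg fun q _ => sq_nonneg (t q)).1 b1 p hp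
      simpa using b2
    obtain ⟨t, t1, t2, t3⟩ := sel S J E inj dang
      (fun j i => if P.inc j i = true then (1 : ℝ) else 0) (not_le.1 hJ) safe
      (P.phi S x y0) (fun a _ => hphi a)
      (fun j i => if P.inc j i = true then (1 : ℝ) else 0) (fun _ => 1) (fun _ _ => one_pos)
    set v : ℕ → ℝ := fun i => ∑ p ∈ J, E i p * t p with hv
    have t1' : 0 < ∑ i ∈ S, v i ^ 2 := t1
    have t2' : ∀ c ∈ dang, P.aa S v c = 0 := fun c hc => by
      rw [← count_sum_ind_mul]; exact t2 c hc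
    have c1 : ∀ j, ∑ i ∈ S, (if P.inc j i = true then (1 : ℝ) else 0) ^ 2 / 1 =
        ((P.row S j).card : ℝ) := fun j => by
      unfold row
      rw [card_filter]
      push_cast
      refine sum_congr rfl fun i _ => ?_
      split_ifs <;> simp
    have t3' : ((J.card : ℝ) - dang.card) * ∑ a ∈ safe, P.phi S x y0 a * P.aa S v a ^ 2 ≤
        (∑ a ∈ safe, P.phi S x y0 a * ((P.row S a).card : ℝ)) * ∑ i ∈ S, v i ^ 2 := by
      simp only [← count_sum_ind_mul, ← c1]
      simpa only [one_mul] using t3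
    have s1 := count_safe_sum hP h safe (filter_subset _ _)
      fun j hj => (not_le.1 (mem_filter.1 hj).2).le
    have m1 : (∑ i ∈ S, v i ^ 2) / 2 ≤ P.Mq S x y0 v := by
      have := h2 t
      rw [← h1] at this
      exact this
    have m2 := res_le hP h.sub (P.lrg S) (filter_subset _ _) v
    have m3 : ∑ j ∈ P.med S, P.phi S x y0 j * P.aa S v j ^ 2 =
        ∑ a ∈ safe, P.phi S x y0 a * P.aa S v a ^ 2 := by
      rw [← sum_filter_add_sum_filter_not (P.med S)
        (fun j => 16 ≤ P.phi S x y0 j * ((P.row S j).card : ℝ) ^ 2)]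
      have : ∑ a ∈ dang, P.phi S x y0 a * P.aa S v a ^ 2 = 0 :=
        sum_eq_zero fun a ha => by rw [t2' a ha]; simp
      rw [← hdang, ← hsafe, this, zero_add]
    rw [Mq_eq, m3] at m1
    have m4 : (∑ i ∈ S, v i ^ 2) / 4 ≤ ∑ a ∈ safe, P.phi S x y0 a * P.aa S v a ^ 2 := by
      linarith
    have m5 : (0 : ℝ) ≤ (J.card : ℝ) - dang.card := by
      have : (dang.card : ℝ) ≤ J.card := by exact_mod_cast (not_le.1 hJ).le
      linarith
    have m6 : ((J.card : ℝ) - dang.card) * ((∑ i ∈ S, v i ^ 2) / 4) ≤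
        S.card / 64 * ∑ i ∈ S, v i ^ 2 :=
      (mul_le_mul_of_nonneg_left m4 m5).trans
        (t3'.trans (mul_le_mul_of_nonneg_right s1 t1'.le))
    have m7 : ((J.card : ℝ) - dang.card) / 4 ≤ S.card / 64 := by
      refine le_of_mul_le_mul_right ?_ t1'
      linarith
    linarith
  exact_mod_cast key

end Par

end Pool.Agent.P.MP_1639c2_lc.W
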