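import Pool.Agent.P.MP_1639c2_lc.W.Moves1

/-! Execution of a list of exchanges. -/

namespace Pool.Agent.P.MP_1639c2_lc.W

open Finset

variable {M : Matroid ℕ} {n N : ℕ} {O : List Bool → Bool}

theorem exec_idx (f : ℕ → Bool) (N : ℕ) :
    (((List.range N).map f).idxOf true < N ∧ f (((List.range N).map f).idxOf true) = true) ∨
      (((List.range N).map f).idxOf true = N ∧ ∀ s < N, f s ≠ true) := by
  by_cases h : true ∈ (List.range N).map f
  · have h1 := List.idxOf_lt_length_of_mem h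
    have h2 := List.getElem_idxOf h1
    rw [List.getElem_map, List.getElem_range] at h2
    exact Or.inl ⟨by simpa using h1, h2⟩
  · refine Or.inr ⟨by simpa using List.idxOf_eq_length h, fun s hs e => h ?_⟩
    exact List.mem_map.mpr ⟨s, List.mem_range.mpr hs, e⟩

theorem exec_bas_apA (hO : Orc M n O) {Bs : Cp} (h : Bas M n N Bs) (a : ℕ × ℕ) :
    Bas M n N (apA n N (arcs O n N Bs) Bs a) := by
  refine bas_nrm ?_
  rcases exec_idx (fun k => ar (arcs O n N Bs) k a.1 a.2) N with ⟨h1, h2⟩ | ⟨h1, -⟩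
  · exact bas_put_sw h (ar_lt h2).2.2 ((ar_iff hO h h1).1 h2)
  · intro s hs
    rw [h1, cs_put _ _ _ hs, if_neg hs.ne]
    exact h s hs

theorem exec_acnt_apA (hO : Orc M n O) {Bs : Cp} (h : Bas M n N Bs) (a : ℕ × ℕ) (i j : ℕ) :
    acnt N (arcs O n N Bs) i j ≤ acnt N (arcs O n N (apA n N (arcs O n N Bs) Bs a)) i j + 1 := by
  refine le_trans (card_le_card fun s hs => ?_) (card_insert_le
    (((List.range N).map fun k => ar (arcs O n N Bs) k a.1 a.2).idxOf true) _)
  rw [mem_filter] at hs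
  have h1 := mem_range.mp hs.1
  refine mem_insert.mpr (or_iff_not_imp_left.mpr fun e => mem_filter.mpr ⟨hs.1, ?_⟩)
  rw [ar_iff hO (exec_bas_apA hO h a) h1, apA, cs_nrm _ h1, cs_put _ _ _ h1, if_neg e]
  exact (ar_iff hO h h1).1 hs.2

theorem exec_sum_filter (n : ℕ) {I : Finset ℕ} (hI : I ⊆ range n) (f : ℕ → ℕ) :
    (((List.range n).filter fun p => decide (p ∈ I)).map f).sum = ∑ p ∈ I, f p := by
  rw [← List.sum_toFinset f (List.nodup_range.filter _)]
  congr 1
  ext p
  simpa using fun h => mem_range.mp (hI h)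

theorem bas_exec (hO : Orc M n O) (l : List (ℕ × ℕ)) {Bs : Cp} (h : Bas M n N Bs) :
    Bas M n N (exec O n N l Bs) := by
  induction l generalizing Bs with
  | nil => exact h
  | cons a l ih => exact ih (exec_bas_apA hO h a)

theorem acnt_nrm (hO : Orc M n O) {Bs : Cp} (h : Bas M n N Bs) (i j : ℕ) :
    acnt N (arcs O n N (nrm n N Bs)) i j = acnt N (arcs O n N Bs) i j :=
  congrArg card (filter_congr fun k hk => by
    rw [ar_iff hO (bas_nrm h) (mem_range.mp hk), ar_iff hO h (mem_range.mp hk),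
      cs_nrm _ (mem_range.mp hk)])

theorem exec_cnt (hO : Orc M n O) (l : List (ℕ × ℕ)) {Bs : Cp} (h : Bas M n N Bs)
    (hl : ∀ a ∈ l, l.length ≤ acnt N (arcs O n N Bs) a.1 a.2) {v : ℕ} (hv : v < n) :
    (cnt N (exec O n N l Bs) v : ℤ) =
      cnt N Bs v + (l.countP fun a => decide (a.2 = v)) - (l.countP fun a => decide (a.1 = v)) := by
  induction l generalizing Bs with
  | nil => simp [exec]
  | cons a l ih =>
    have h1 := ih (exec_bas_apA hO h a) fun b hb => by
      have := hl b (List.mem_cons_of_mem _ hb)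
      have := exec_acnt_apA hO h a b.1 b.2
      simp only [List.length_cons] at *
      omega
    have h2 : (cnt N (apA n N (arcs O n N Bs) Bs a) v : ℤ) =
        cnt N Bs v + (if a.2 = v then 1 else 0) - (if a.1 = v then 1 else 0) := by
      rw [apA, cnt_nrm _ hv]
      rcases exec_idx (fun k => ar (arcs O n N Bs) k a.1 a.2) N with ⟨h1, h2⟩ | ⟨-, h2⟩
      · have h3 := (ar_iff hO h h1).1 h2
        exact cnt_put_sw h1 (ar_lt h2).2.2 hv h3.1 h3.2.1
      · obtain ⟨s, hs⟩ := card_pos.mp ((Nat.succ_pos _).trans_le (hl a List.mem_cons_self))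
        exact absurd (mem_filter.mp hs).2 (h2 s (mem_range.mp (mem_filter.mp hs).1))
    refine h1.trans ?_
    rw [h2, List.countP_cons, List.countP_cons]
    simp only [decide_eq_true_eq]
    push_cast
    ring

theorem planOf_length (n R : ℕ) (I : Finset ℕ) (pi : ℕ → ℕ) (t : ℕ → ℤ) :
    (planOf n R I pi t).length ≤ n * R := by
  rw [planOf, List.length_flatMap]
  refine (List.sum_le_card_nsmul _ R fun x hx => ?_).trans ?_
  · obtain ⟨p, -, rfl⟩ := List.mem_map.mp hx
    simp
  · rw [List.length_map, smul_eq_mul]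
    exact Nat.mul_le_mul_right _ ((List.length_filter_le _ _).trans List.length_range.le)

theorem planOf_mem {n R : ℕ} {I : Finset ℕ} {pi : ℕ → ℕ} {t : ℕ → ℤ} {a : ℕ × ℕ}
    (h : a ∈ planOf n R I pi t) : ∃ p ∈ I, a = (p, pi p) ∨ a = (pi p, p) := by
  obtain ⟨p, hp, ha⟩ := List.mem_flatMap.mp h
  refine ⟨p, by simpa using (List.mem_filter.mp hp).2, ?_⟩
  rw [List.eq_of_mem_replicate ha]
  split_ifs
  · exact Or.inl rfl
  · exact Or.inr rfl

theorem planOf_count {n R : ℕ} {I : Finset ℕ} (pi : ℕ → ℕ) {t : ℕ → ℤ} (hI : I ⊆ range n)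
    (ht : ∀ p ∈ I, |t p| ≤ R) (v : ℕ) :
    (((planOf n R I pi t).countP fun a => decide (a.2 = v) : ℕ) : ℚ) -
      (((planOf n R I pi t).countP fun a => decide (a.1 = v) : ℕ) : ℚ) =
        dv I pi (fun p => (t p : ℚ)) v := by
  have e : (if v ∈ I then (t v : ℚ) else 0) = ∑ p ∈ I, if p = v then (t p : ℚ) else 0 :=
    (sum_ite_eq' I v fun p => (t p : ℚ)).symm
  simp only [planOf, List.countP_flatMap, exec_sum_filter n hI, dv, e, Function.comp,
    List.countP_replicate, Nat.cast_sum, ← sum_sub_distrib]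
  refine sum_congr rfl fun p hp => ?_
  have h1 : min R (t p).natAbs = (t p).natAbs := by
    have := ht p hp
    rw [Int.abs_eq_natAbs] at this
    omega
  rw [h1]
  by_cases h2 : 0 ≤ t p
  · have h3 : (((t p).natAbs : ℕ) : ℚ) = t p := by
      rw [← Int.cast_natCast, Int.natAbs_of_nonneg h2]
    simp only [h2, if_true, decide_eq_true_eq]
    split_ifs <;> simp [h3]
  · have h3 : (((t p).natAbs : ℕ) : ℚ) = -t p := by
      rw [← Int.cast_natCast, Int.ofNat_natAbs_of_nonpos (by omega), Int.cast_neg]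
    simp only [h2, if_false, decide_eq_true_eq]
    split_ifs <;> simp [h3]

end Pool.Agent.P.MP_1639c2_lc.W
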