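import Pool.Agent.P.MP_1639c2_lc.W.Bound
import Pool.Agent.P.MP_1639c2_lc.W.Count

/-! There is a direction of negative curvature. -/

namespace Pool.Agent.P.MP_1639c2_lc.W

open Finset

/-- Linear forms given by coefficients on `S`. -/
def existLin (S : Finset ℕ) (F : (ℕ → ℝ) → ℝ) : Prop := ∃ c : ℕ → ℝ, ∀ d, ∑ i ∈ S, c i * d i = F d

theorem existLin.add {S : Finset ℕ} {F G : (ℕ → ℝ) → ℝ} (hF : existLin S F) (hG : existLin S G) :
    existLin S fun d => F d + G d := by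
  obtain ⟨c, hc⟩ := hF
  obtain ⟨c', hc'⟩ := hG
  exact ⟨fun i => c i + c' i, fun d => by simp only [add_mul, sum_add_distrib, hc, hc']⟩

theorem existLin.mul {S : Finset ℕ} {F : (ℕ → ℝ) → ℝ} (hF : existLin S F) (a : ℝ) :
    existLin S fun d => a * F d := by
  obtain ⟨c, hc⟩ := hF
  exact ⟨fun i => a * c i, fun d => by simp only [mul_assoc, ← mul_sum, hc]⟩

theorem existLin.sum {S : Finset ℕ} (T : Finset ℕ) {F : ℕ → (ℕ → ℝ) → ℝ}
    (hF : ∀ j, existLin S (F j)) : existLin S fun d => ∑ j ∈ T, F j d := by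
  choose c hc using hF
  refine ⟨fun i => ∑ j ∈ T, c j i, fun d => ?_⟩
  simp only [sum_mul]
  rw [sum_comm]
  exact sum_congr rfl fun j _ => hc j d

theorem exist_dv (I : Finset ℕ) (pi : ℕ → ℕ) (t : ℕ → ℝ) (i : ℕ) :
    ∑ p ∈ I, ((if pi p = i then 1 else 0) - if i = p then 1 else 0) * t p = dv I pi t i := by
  simp only [dv, sub_mul, sum_sub_distrib, ite_mul, one_mul, zero_mul, sum_ite_eq]

theorem exist_dv_mem {I : Finset ℕ} {pi : ℕ → ℕ} (h : ∀ p ∈ I, pi p ∉ I) (t : ℕ → ℝ) {i : ℕ}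
    (hi : i ∈ I) : dv I pi t i = -t i := by
  rw [dv, if_pos hi, sum_eq_zero fun p hp => if_neg fun e => h p hp (by rwa [e]), zero_sub]

namespace Par

variable {P : Par} {S : Finset ℕ} {x y0 q : ℕ → ℝ} {V : ℝ}

theorem exist_row (P : Par) (S : Finset ℕ) (c d : ℕ → ℝ) (j : ℕ) :
    ∑ i ∈ S, (if P.inc j i = true then c i else 0) * d i = ∑ i ∈ P.row S j, c i * d i := by
  simp only [row, sum_filter, ite_mul, zero_mul]

theorem exist_aa (P : Par) (S : Finset ℕ) (d : ℕ → ℝ) (j : ℕ) :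
    ∑ i ∈ S, (if P.inc j i = true then 1 else 0) * d i = P.aa S d j := by
  rw [exist_row P S (fun _ => 1)]
  simp only [one_mul, aa]

theorem exist_v1 (P : Par) (S : Finset ℕ) (x y0 q : ℕ → ℝ) (k : ℕ) :
    existLin S fun d => P.v1 S x y0 q d k := by
  refine existLin.sum _ fun j => ?_
  split_ifs
  · exact ((existLin.mul ⟨_, fun d => exist_aa P S d j⟩ _).add
      (existLin.mul ⟨_, fun d => exist_row P S (fun i => 1 - 2 * x i) d j⟩ _)).mul _
  · exact ⟨0, fun d => by simp⟩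

theorem exist_sel (hP : P.WF) (h : P.Ok S x y0 V) (q : ℕ → ℝ) {I : Finset ℕ} {pi : ℕ → ℕ}
    (hI : I ⊆ S) (hne : S.Nonempty) (hc : S.card ≤ 2 * I.card) (hpi : ∀ p ∈ I, pi p ∉ I)
    {J : Finset ℕ} (hJ : 8 * J.card ≤ S.card) {F : ℕ → (ℕ → ℝ) → ℝ} (hF : ∀ p, existLin S (F p)) :
    ∃ t : ℕ → ℝ, 0 < ∑ i ∈ S, dv I pi t i ^ 2 ∧ (∀ j ∈ P.lrg S, P.aa S (dv I pi t) j = 0) ∧
      (∀ p ∈ J, F p (dv I pi t) = 0) ∧
      ∑ j ∈ P.med S, P.om S x y0 q j * (1 + 48 * P.r) * P.aa S (dv I pi t) j ^ 2 +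
        ∑ j ∈ P.med S, 12 * P.r * P.om S x y0 q j * P.hh S x (dv I pi t) j ^ 2 ≤
      16 / 5 * ((1 + 60 * P.r) * ∑ j ∈ P.med S, P.om S x y0 q j * P.ee S (dv I pi t) j +
        5 / 32 * ∑ i ∈ S, dv I pi t i ^ 2) := by
  choose c hc' using hF
  have ho := h.om_nonneg q
  have hl := lrg_card hP h.sub
  have hs := hne.card_pos
  have hn : ∀ i, 0 ≤ ∑ j ∈ P.med S, if P.inc j i = true then P.om S x y0 q j else 0 := fun i =>
    sum_nonneg fun j _ => by split_ifs; exacts [ho j, le_rfl]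
  obtain ⟨t, h1, h2, h3⟩ := sel S I
    (fun i p => (if pi p = i then 1 else 0) - if i = p then 1 else 0)
    (fun t ht p hp => by
      have := ht p (hI hp)
      rwa [exist_dv, exist_dv_mem hpi t hp, neg_eq_zero] at this)
    ((P.lrg S).disjSum J) (Sum.elim (fun j i => if P.inc j i = true then 1 else 0) c)
    (by rw [card_disjSum]; omega) ((P.med S).disjSum (P.med S))
    (Sum.elim (fun j => P.om S x y0 q j * (1 + 48 * P.r)) fun j => 12 * P.r * P.om S x y0 q j)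
    (by
      rintro (j | j) _
      · exact mul_nonneg (ho j) (by positivity)
      · exact mul_nonneg (by positivity) (ho j))
    (Sum.elim (fun j i => if P.inc j i = true then 1 else 0)
      fun j i => if P.inc j i = true then 1 - 2 * x i else 0)
    (fun i => (1 + 60 * P.r) * (∑ j ∈ P.med S, if P.inc j i = true then P.om S x y0 q j else 0) +
      5 / 32) fun i _ => by have := hn i; positivity
  simp only [exist_dv, sum_disjSum, Sum.elim_inl, Sum.elim_inr, exist_aa, card_disjSum] at h1 h2 h3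
  refine ⟨t, h1, fun j hj => (exist_aa P S _ j).symm.trans (h2 _ (inl_mem_disjSum.2 hj)),
    fun p hp => (hc' p _).symm.trans (h2 _ (inr_mem_disjSum.2 hp)), ?_⟩
  simp only [exist_row P S (fun i => 1 - 2 * x i)] at h3
  have e1 : ∑ i ∈ S, ((1 + 60 * P.r) *
      (∑ j ∈ P.med S, if P.inc j i = true then P.om S x y0 q j else 0) + 5 / 32) *
        dv I pi t i ^ 2 = (1 + 60 * P.r) * ∑ j ∈ P.med S, P.om S x y0 q j * P.ee S (dv I pi t) j +
          5 / 32 * ∑ i ∈ S, dv I pi t i ^ 2 := by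
    simp only [add_mul _ (5 / 32 : ℝ), sum_add_distrib, mul_assoc, ← mul_sum]
    congr 2
    simp only [sum_mul]
    rw [sum_comm]
    refine sum_congr rfl fun j _ => ?_
    rw [exist_row P S (fun _ => P.om S x y0 q j), ← mul_sum, ee]
  rw [e1] at h3
  have e2 : 0 ≤ (1 + 60 * P.r) * ∑ j ∈ P.med S, P.om S x y0 q j * P.ee S (dv I pi t) j +
      5 / 32 * ∑ i ∈ S, dv I pi t i ^ 2 := by
    rw [← e1]
    exact sum_nonneg fun i _ => by have := hn i; positivity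
  have h4 := fun e => h3.trans (mul_le_mul_of_nonneg_right (c := (S.card : ℝ)) e e2)
  replace h3 := h4 ?_
  · have e3 : 0 ≤ ∑ j ∈ P.med S, P.om S x y0 q j * (1 + 48 * P.r) * P.aa S (dv I pi t) j ^ 2 +
        ∑ j ∈ P.med S, 12 * P.r * P.om S x y0 q j * P.hh S x (dv I pi t) j ^ 2 :=
      add_nonneg (sum_nonneg fun j _ => by have := ho j; positivity)
        (sum_nonneg fun j _ => by have := ho j; positivity)
    have e4 : 5 / 16 * (S.card : ℝ) ≤ I.card - (((P.lrg S).card + J.card : ℕ) : ℝ) := by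
      have a1 : (S.card : ℝ) ≤ 2 * I.card := by exact_mod_cast hc
      have a2 : (16 : ℝ) * (P.lrg S).card ≤ S.card := by exact_mod_cast hl
      have a3 : (8 : ℝ) * J.card ≤ S.card := by exact_mod_cast hJ
      push_cast
      linarith
    have e5 := (mul_le_mul_of_nonneg_right e4 e3).trans h3
    have e6 : (0 : ℝ) < S.card := by exact_mod_cast hs
    refine le_of_mul_le_mul_left ?_ (show 0 < 5 / 16 * (S.card : ℝ) by positivity)
    refine e5.trans (le_of_eq ?_)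
    ring
  · simp only [mul_sum]
    rw [sum_comm, sum_comm (s := P.med S), ← sum_add_distrib, card_eq_sum_ones, Nat.cast_sum]
    refine sum_le_sum fun i hi => ?_
    have a1 := hn i
    have a2 := h.unit i hi
    simp only [← mul_sum, ← mul_div_assoc]
    rw [← sum_div, ← sum_div, ← add_div, div_le_iff₀ (by positivity), Nat.cast_one, one_mul,
      ← sum_add_distrib, mul_sum]
    refine (sum_le_sum fun j _ => ?_).trans (le_add_of_nonneg_right (by norm_num))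
    split_ifs
    · have a3 : (1 - 2 * x i) ^ 2 ≤ 1 := by nlinarith
      have a4 := mul_le_mul_of_nonneg_left a3
        (mul_nonneg (show (0 : ℝ) ≤ 12 * P.r by positivity) (ho j))
      linarith
    · simp

theorem Ok.exist (hP : P.WF) (h : P.Ok S x y0 V) (hq : ∑ i ∈ S, q i ^ 2 ≤ (P.u : ℝ) ^ 15)
    {I : Finset ℕ} {pi : ℕ → ℕ} (hI : I ⊆ S) (hne : S.Nonempty) (hc : S.card ≤ 2 * I.card)
    (hpi : ∀ p ∈ I, pi p ∈ S ∧ pi p ∉ I) :
    ∃ xi : ℕ → ℝ, 0 < ∑ p ∈ range (2 * P.n), xi p ^ 2 ∧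
      P.Sf S x y0 q I pi xi ≤ -(1 / (P.u : ℝ) ^ 20) * ∑ p ∈ range (2 * P.n), xi p ^ 2 := by
  obtain ⟨J, E, s1, s2, s3⟩ := spec S (P.Mm S x y0) (Mm_symm P S x y0)
  have hpi' : ∀ p ∈ I, pi p ∉ I := fun p hp => (hpi p hp).2
  obtain ⟨t, t1, t2, t3, t4⟩ := exist_sel hP h q hI hne hc hpi' (h.top_card hP J E s1 s2)
    (F := fun p d => ∑ i ∈ S, E i p * P.v1 S x y0 q d i)
    fun p => existLin.sum S fun k => (exist_v1 P S x y0 q k).mul _
  obtain ⟨w, w1, w2, w3⟩ := s3 _ t3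
  have hn : ∀ p ∈ I, p < P.n := fun p hp => mem_range.1 (h.sub (hI hp))
  obtain ⟨xi, x1, x2⟩ : ∃ xi : ℕ → ℝ, (∀ p < P.n, xi p = if p ∈ I then t p else 0) ∧
      ∀ i, xi (P.n + i) = if i ∈ S then w i else 0 :=
    ⟨fun p => if p < P.n then (if p ∈ I then t p else 0) else
      if p - P.n ∈ S then w (p - P.n) else 0, fun p hp => if_pos hp, fun i => by simp⟩
  have e1 : dv I pi xi = dv I pi t := funext fun i => by
    unfold dv
    congr 1
    · exact sum_congr rfl fun p hp => by rw [x1 p (hn p hp), if_pos hp]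
    · split_ifs with hi
      · rw [x1 i (hn i hi), if_pos hi]
      · rfl
  have e2 : ∑ p ∈ range (2 * P.n), xi p ^ 2 = ∑ p ∈ I, t p ^ 2 + ∑ i ∈ S, w i ^ 2 := by
    rw [two_mul, sum_range_add, sum_congr rfl fun p hp => by rw [x1 p (mem_range.1 hp)]]
    simp only [x2, ite_pow, ne_eq, OfNat.ofNat_ne_zero, not_false_eq_true, zero_pow, sum_ite_mem,
      inter_eq_right.2 h.sub, inter_eq_right.2 (hI.trans h.sub)]
  have e3 : ∀ i, P.Mv S x y0 (fun i => xi (P.n + i)) i = P.Mv S x y0 w i := fun i =>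
    sum_congr rfl fun k hk => by simp only [x2, if_pos hk]
  have e4 : ∑ i ∈ S, xi (P.n + i) ^ 2 - P.Mq S x y0 (fun i => xi (P.n + i)) =
      ∑ i ∈ S, w i * P.v1 S x y0 q (dv I pi t) i := by
    rw [Mq, ← sum_sub_distrib]
    refine sum_congr rfl fun i hi => ?_
    rw [e3, x2, if_pos hi, ← w1 i hi, Mv]
    ring
  have e5 : ∑ i ∈ S, (P.v1 S x y0 q (dv I pi t) i -
      (xi (P.n + i) - P.Mv S x y0 (fun i => xi (P.n + i)) i)) ^ 2 = 0 :=
    sum_eq_zero fun i hi => by rw [e3, x2, if_pos hi, ← w1 i hi, Mv, sub_self, sq, mul_zero]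
  have e6 : ∑ j ∈ P.lrg S, P.aa S (dv I pi t) j ^ 2 = 0 :=
    sum_eq_zero fun j hj => by rw [t2 j hj, sq, mul_zero]
  have e7 : ∑ p ∈ I, t p ^ 2 ≤ ∑ i ∈ S, dv I pi t i ^ 2 :=
    (sum_congr rfl fun p hp => by rw [exist_dv_mem hpi' t hp, neg_sq]).trans_le
      (sum_le_sum_of_subset_of_nonneg hI fun _ _ _ => sq_nonneg _)
  have e8 : 0 < ∑ p ∈ I, t p ^ 2 := by
    refine (sum_nonneg fun _ _ => sq_nonneg _).lt_of_ne fun h0 => t1.ne' ?_
    have h1 := (sum_eq_zero_iff_of_nonneg fun _ _ => sq_nonneg _).1 h0.symm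
    refine sum_eq_zero fun i _ => ?_
    rw [← exist_dv, sum_eq_zero fun p hp => by rw [pow_eq_zero_iff two_ne_zero |>.1 (h1 p hp),
      mul_zero], sq, mul_zero]
  have e9 : 0 ≤ ∑ i ∈ S, w i ^ 2 := sum_nonneg fun _ _ => sq_nonneg _
  refine ⟨xi, by rw [e2]; linarith, ?_⟩
  have b1 := h.v1_sq hP q (dv I pi t)
  have b2 := h.v1_sq_le hP hq (dv I pi t)
  have b3 : 0 ≤ ∑ j ∈ P.med S, P.om S x y0 q j * P.ee S (dv I pi t) j :=
    sum_nonneg fun j _ => mul_nonneg (h.om_nonneg q j) (sum_nonneg fun _ _ => sq_nonneg _)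
  have b4 : ∑ j ∈ P.med S, P.om S x y0 q j * ((1 + 16 * (P.r : ℝ)) * P.aa S (dv I pi t) j ^ 2 +
      4 * (P.r : ℝ) * P.hh S x (dv I pi t) j ^ 2 - ((P.kap : ℝ) - 2) * P.ee S (dv I pi t) j) +
      4 * (P.r * ∑ j ∈ P.med S, P.om S x y0 q j *
        (8 * P.aa S (dv I pi t) j ^ 2 + 2 * P.hh S x (dv I pi t) j ^ 2)) =
      ∑ j ∈ P.med S, P.om S x y0 q j * (1 + 48 * P.r) * P.aa S (dv I pi t) j ^ 2 +
        ∑ j ∈ P.med S, 12 * P.r * P.om S x y0 q j * P.hh S x (dv I pi t) j ^ 2 -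
        (192 * P.r + 4) * ∑ j ∈ P.med S, P.om S x y0 q j * P.ee S (dv I pi t) j := by
    simp only [mul_sum, ← sum_add_distrib, ← sum_sub_distrib]
    refine sum_congr rfl fun j _ => ?_
    rw [kap]
    push_cast
    ring
  have hU : (16 : ℝ) ≤ P.u := by exact_mod_cast hP.u16
  have b5 : 2 * (1 + 40 * (P.u : ℝ) ^ 18) ≤ (P.u : ℝ) ^ 20 := by
    have a1 : (1 : ℝ) ≤ (P.u : ℝ) ^ 18 := one_le_pow₀ (by linarith)
    have a2 : (256 : ℝ) ≤ (P.u : ℝ) ^ 2 := by nlinarith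
    nlinarith
  have b6 : 1 / (P.u : ℝ) ^ 20 * (∑ p ∈ I, t p ^ 2 + ∑ i ∈ S, w i ^ 2) ≤
      (∑ i ∈ S, dv I pi t i ^ 2) / 2 := by
    rw [one_div, inv_mul_le_iff₀ (by positivity)]
    nlinarith [mul_le_mul_of_nonneg_right b5 t1.le]
  rw [Sf, S2, e1, e2, e4, e5, e6]
  linarith

end Par

end Pool.Agent.P.MP_1639c2_lc.W
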