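import Pool.Agent.P.MP_1639c2_lc.W.QPT

/-! Polynomial time operations on finite sets of naturals. -/

namespace Pool.Agent.P.MP_1639c2_lc.W

open Finset Pool.Agent.Lib.NP

instance : Enc (Finset ℕ) := ⟨fun s => enc (s.sort (· ≤ ·)), fun s t h => by
  have h1 := congrArg List.toFinset (Enc.inj h)
  simpa using h1⟩

variable {α β : Type} [Enc α] [Enc β]

theorem fpt_iff {S : α → Finset ℕ} : PT S ↔ PT fun a => (S a).sort (· ≤ ·) := Iff.rfl

theorem fpt_sort_filter (s : Finset ℕ) (p : ℕ → Prop) [DecidablePred p] :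
    (s.filter p).sort (· ≤ ·) = (s.sort (· ≤ ·)).filter fun i => decide (p i) := by
  refine List.Perm.eq_of_pairwise' (r := (· ≤ ·)) (Finset.pairwise_sort _ _)
    ((Finset.pairwise_sort _ _).filter _) ?_
  refine (List.perm_ext_iff_of_nodup (Finset.sort_nodup _ _)
    ((Finset.sort_nodup _ _).filter _)).2 fun i => ?_
  simp

theorem fpt_sum_sort (s : Finset ℕ) (f : ℕ → ℚ) :
    ((s.sort (· ≤ ·)).map f).sum = ∑ i ∈ s, f i := by
  rw [((Finset.sort_perm_toList s _).map f).sum_eq, Finset.sum_map_toList]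

@[fun_prop] theorem pt_frange {n : α → ℕ} (hn : PT n) : PT fun a => range (n a) :=
  fpt_iff.2 ((PT.range hn).congr fun a => (Finset.sort_range (n a)).symm)

@[fun_prop] theorem pt_ffilter {S : α → Finset ℕ} {p : α → ℕ → Prop} [∀ a, DecidablePred (p a)]
    (hp : PT fun z : α × ℕ => decide (p z.1 z.2)) (hS : PT S) :
    PT fun a => (S a).filter (p a) :=
  fpt_iff.2 ((PT.filter hp (fpt_iff.1 hS)).congr fun a => (fpt_sort_filter (S a) (p a)).symm)

@[fun_prop] theorem pt_fcard {S : α → Finset ℕ} (hS : PT S) : PT fun a => (S a).card :=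
  (PT.length (fpt_iff.1 hS)).congr fun _ => Finset.length_sort _

@[fun_prop] theorem pt_fsum {S : α → Finset ℕ} {f : α → ℕ → ℚ}
    (hf : PT fun z : α × ℕ => f z.1 z.2) (hS : PT S) : PT fun a => ∑ i ∈ S a, f a i :=
  (pt_qsum (PT.map hf (fpt_iff.1 hS))).congr fun a => fpt_sum_sort (S a) (f a)

@[fun_prop] theorem pt_fmem {S : α → Finset ℕ} {f : α → ℕ} [∀ a, Decidable (f a ∈ S a)]
    (hf : PT f) (hS : PT S) : PT fun a => decide (f a ∈ S a) :=
  (PT.decide_mem hf (fpt_iff.1 hS)).congr fun _ => decide_eq_decide.2 (Finset.mem_sort _)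

theorem pt_dnot {p : α → Prop} [DecidablePred p] [∀ a, Decidable (¬ p a)]
    (hp : PT fun a => decide (p a)) : PT fun a => decide (¬ p a) :=
  (PT.not hp).congr fun a => by by_cases h : p a <;> simp [h]

@[fun_prop] theorem pt_bit {B : α → List Bool} {i : α → ℕ} (hB : PT B) (hi : PT i) :
    PT fun a => bit (B a) (i a) :=
  PT.getD hB hi (PT.const false)

@[fun_prop] theorem pt_amin {f : α → β → ℚ} {d : α → β} {l : α → List β}
    (hf : PT fun z : α × β => f z.1 z.2) (hd : PT d) (hl : PT l) :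
    PT fun a => amin (f a) (d a) (l a) := by
  obtain ⟨q1, h1⟩ := hd.size
  obtain ⟨q2, h2⟩ := hl.size
  refine PT.foldl (f := fun a s b => if f a b < f a s then b else s) ?_ hl hd (q1 + q2)
    fun a i => ?_
  · have e1 : PT fun z : α × β × β => f z.1 z.2.2 :=
      hf.comp (g := fun z : α × β × β => (z.1, z.2.2)) (by fun_prop)
    have e2 : PT fun z : α × β × β => f z.1 z.2.1 :=
      hf.comp (g := fun z : α × β × β => (z.1, z.2.1)) (by fun_prop)
    exact PT.ite (pt_qlt e1 e2) (by fun_prop) (by fun_prop)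
  · rw [Polynomial.eval_add]
    show sz (amin (f a) (d a) ((l a).take i)) ≤ _
    rcases amin_mem (f a) ((l a).take i) (d a) with h | h
    · rw [h]
      exact (h1 a).trans (Nat.le_add_right _ _)
    · exact ((sz_le_of_mem (List.mem_of_mem_take h)).trans (h2 a)).trans (Nat.le_add_left _ _)

end Pool.Agent.P.MP_1639c2_lc.W
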