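import Pool.Agent.P.MP_1639c2_lc.W.Run

/-! Correctness of the whole algorithm. -/

namespace Pool.Agent.P.MP_1639c2_lc.W

open Finset Pool.Agent.Lib.NP

theorem mem_mask {B : List Bool} {i : ℕ} : i ∈ mask B ↔ bit B i = true := by
  simp only [mask, mem_filter, mem_range, and_iff_right_iff_imp]
  intro h
  by_contra hlt
  simp [bit, List.getElem?_eq_none (not_lt.1 hlt)] at h

theorem row_par (I : Inst) (Z : Finset ℕ) {j : ℕ} (hj : j < I.2.length) :
    (par I).row Z j = Z ∩ mask (I.2[j]).1 := by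
  ext i
  simp [Par.row, Par.inc, par, mem_mask, List.getD_eq_getElem?_getD, hj]

theorem lo_par (I : Inst) {j : ℕ} (hj : j < I.2.length) :
    lo (I.2.map (·.2)) j = ((I.2[j]).2.1 : ℚ) := by
  simp [lo, List.getD_eq_getElem?_getD, hj]

theorem hi_par (I : Inst) {j : ℕ} (hj : j < I.2.length) :
    hi (I.2.map (·.2)) j = ((I.2[j]).2.2 : ℚ) := by
  simp [hi, List.getD_eq_getElem?_getD, hj]

theorem m_par (I : Inst) : (par I).m = I.2.length := by simp [Par.m, par]

theorem alg_spec (I : Inst) {M : Matroid ℕ} {O : List Bool → Bool} (hO : Orc M I.1.length O)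
    {Z : Finset ℕ} (hZ : M.IsBase (Z : Set ℕ))
    (hf : ∀ e ∈ I.2, e.2.1 ≤ ((Z ∩ mask e.1).card : ℤ) ∧ ((Z ∩ mask e.1).card : ℤ) ≤ e.2.2) :
    M.IsBase (mask (alg O I) : Set ℕ) ∧
      ∑ v ∈ mask (alg O I), I.1.getD v 0 ≤ ∑ v ∈ Z, I.1.getD v 0 ∧
      ∀ e ∈ I.2, (e.2.1 : ℝ) - (par I).V ≤ ((mask (alg O I) ∩ mask e.1).card : ℝ) ∧
        ((mask (alg O I) ∩ mask e.1).card : ℝ) ≤ (e.2.2 : ℝ) + (par I).V := by
  have hP := par_WF I
  have hO' : Orc M (par I).n O := hO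
  have hf' : ∀ j < (par I).m, lo (I.2.map (·.2)) j ≤ (((par I).row Z j).card : ℚ) ∧
      (((par I).row Z j).card : ℚ) ≤ hi (I.2.map (·.2)) j := by
    intro j hj
    rw [m_par] at hj
    rw [row_par I Z hj, lo_par I hj, hi_par I hj]
    obtain ⟨h1, h2⟩ := hf _ (List.getElem_mem hj)
    exact ⟨by exact_mod_cast h1, by exact_mod_cast h2⟩
  obtain ⟨s, hs, hok, hc⟩ := run_good hP hO' I.1 (I.2.map (·.2)) (cost_bits I.1) hZ hf'
  have hmem : run O (par I) I.1 (I.2.map (·.2)) (2 ^ s) (sz I.1) ∈ outs O I := by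
    simp only [outs, List.mem_filter, List.mem_map, List.mem_range]
    exact ⟨⟨s, hs, rfl⟩, hok⟩
  have hA : alg O I ∈ outs O I := by
    rcases amin_mem (costB I.1.length I.1) (outs O I) ((outs O I).headD []) with h | h
    · unfold alg
      rw [h]
      cases ho : outs O I with
      | nil => rw [ho] at hmem; simp at hmem
      | cons a l => simp
    · exact h
  have hle : costB I.1.length I.1 (alg O I) ≤ ∑ i ∈ Z, cq I.1 i :=
    (amin_le (costB I.1.length I.1) (outs O I) _ _ hmem).trans hc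
  simp only [outs, List.mem_filter, List.mem_map, List.mem_range] at hA
  obtain ⟨⟨s', -, hs'⟩, hok'⟩ := hA
  obtain ⟨hm, hb⟩ := run_base hP hO' I.1 (I.2.map (·.2)) (2 ^ s') (sz I.1)
  rw [hs'] at hm hb
  refine ⟨hm ▸ hb, ?_, ?_⟩
  · rw [hm]
    have h1 : ((∑ v ∈ bs (par I).n (alg O I), I.1.getD v 0 : ℤ) : ℚ) ≤
        ((∑ v ∈ Z, I.1.getD v 0 : ℤ) : ℚ) := by
      push_cast
      exact hle
    exact_mod_cast h1
  · intro e he
    obtain ⟨j, hj, rfl⟩ := List.getElem_of_mem he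
    simp only [okB, List.all_eq_true, List.mem_range, Bool.and_eq_true, decide_eq_true_eq] at hok'
    obtain ⟨h1, h2⟩ := hok' j (by rw [m_par]; exact hj)
    rw [row_par I _ hj, ← hm] at h1 h2
    rw [lo_par I hj] at h1
    rw [hi_par I hj] at h2
    exact ⟨by exact_mod_cast h1, by exact_mod_cast h2⟩

end Pool.Agent.P.MP_1639c2_lc.W
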