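import Pool.Agent.P.MP_1639c2_lc.W.Moves1
import Pool.Agent.P.MP_1639c2_lc.W.Amin

/-! Killing an almost integral element; choosing the movers and their partners. -/

namespace Pool.Agent.P.MP_1639c2_lc.W

open Finset

variable {M : Matroid ℕ} {O : List Bool → Bool} {P : Par} {Bs : Cp}

theorem moves2_mem_kc {a : ℕ × Bool} : a ∈ kc P Bs ↔ a.1 < P.n ∧
    ((a.2 = true ∧ 0 < cnt P.N Bs a.1 ∧ cnt P.N Bs a.1 < P.Kk) ∨
      (a.2 = false ∧ cnt P.N Bs a.1 < P.N ∧ P.N < cnt P.N Bs a.1 + P.Kk)) := by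
  obtain ⟨i, b⟩ := a
  simp only [kc, List.mem_flatMap, List.mem_range, List.mem_append]
  constructor
  · rintro ⟨j, hj, h | h⟩
    · split_ifs at h with hc
      · simp only [List.mem_singleton, Prod.mk.injEq] at h
        obtain ⟨rfl, rfl⟩ := h
        exact ⟨hj, Or.inl ⟨rfl, hc⟩⟩
      · simp at h
    · split_ifs at h with hc
      · simp only [List.mem_singleton, Prod.mk.injEq] at h
        obtain ⟨rfl, rfl⟩ := h
        exact ⟨hj, Or.inr ⟨rfl, hc⟩⟩
      · simp at h
  · rintro ⟨hi, ⟨rfl, hc⟩ | ⟨rfl, hc⟩⟩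
    · exact ⟨i, hi, Or.inl (by rw [if_pos hc]; exact List.mem_singleton_self _)⟩
    · exact ⟨i, hi, Or.inr (by rw [if_pos hc]; exact List.mem_singleton_self _)⟩

theorem moves2_headD {α : Type} {l : List α} (h : l ≠ []) (d : α) : l.headD d ∈ l := by
  cases l with
  | nil => exact absurd rfl h
  | cons a l => exact List.mem_cons_self

theorem moves2_false (N : ℕ) (Bs : Cp) (i : ℕ) :
    cnt N Bs i + ((range N).filter fun k => bit (Bs.getD k []) i = false).card = N := by
  have := Finset.card_filter_add_card_filter_not (s := range N)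
    (fun k => bit (Bs.getD k []) i = true)
  simp only [Bool.not_eq_true, card_range] at this
  exact this

theorem moves2_alv {n N : ℕ} {Bs : Cp} {v : ℕ} : v ∈ alv n N Bs ↔ v < n ∧
    (∃ k < N, bit (Bs.getD k []) v = true) ∧ ∃ k < N, bit (Bs.getD k []) v = false := by
  have h := moves2_false N Bs v
  have h1 : 0 < cnt N Bs v ↔ ∃ k < N, bit (Bs.getD k []) v = true := by
    rw [cnt, card_pos, filter_nonempty_iff]
    simp only [mem_range]
  have h2 : cnt N Bs v < N ↔ ∃ k < N, bit (Bs.getD k []) v = false := by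
    have h3 : 0 < ((range N).filter fun k => bit (Bs.getD k []) v = false).card ↔
        ∃ k < N, bit (Bs.getD k []) v = false := by
      rw [card_pos, filter_nonempty_iff]
      simp only [mem_range]
    rw [← h3]
    omega
  rw [alv, mem_filter, mem_range, h1, h2]

theorem kc_nil (h : (kc P Bs).isEmpty = true) {i : ℕ} (hi : i ∈ alv P.n P.N Bs) :
    P.Kk ≤ cnt P.N Bs i ∧ cnt P.N Bs i + P.Kk ≤ P.N := by
  rw [List.isEmpty_iff] at h
  rw [alv, mem_filter, mem_range] at hi
  have h1 : (i, true) ∉ kc P Bs := by rw [h]; simp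
  have h2 : (i, false) ∉ kc P Bs := by rw [h]; simp
  rw [moves2_mem_kc] at h1 h2
  simp only [true_and, Bool.true_eq_false, Bool.false_eq_true, false_and, or_false,
    false_or] at h1 h2
  constructor
  · by_contra hc
    exact h1 ⟨hi.1, hi.2.1, by omega⟩
  · by_contra hc
    exact h2 ⟨hi.1, hi.2.2, by omega⟩

theorem kc_head (h : ¬ (kc P Bs).isEmpty = true) :
    ((kc P Bs).headD (0, true)).1 < P.n ∧
      0 < ((range P.N).filter fun k => bit (Bs.getD k []) ((kc P Bs).headD (0, true)).1 =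
        ((kc P Bs).headD (0, true)).2).card ∧
      ((range P.N).filter fun k => bit (Bs.getD k []) ((kc P Bs).headD (0, true)).1 =
        ((kc P Bs).headD (0, true)).2).card < P.Kk := by
  rw [List.isEmpty_iff] at h
  have hm := moves2_headD h (0, true)
  generalize (kc P Bs).headD (0, true) = a at hm
  obtain ⟨i, b⟩ := a
  rw [moves2_mem_kc] at hm
  obtain ⟨hi, ⟨hb, hc⟩ | ⟨hb, hc⟩⟩ := hm
  · simp only at hb hi hc
    subst hb
    exact ⟨hi, hc.1, hc.2⟩
  · simp only at hb hi hc
    subst hb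
    have := moves2_false P.N Bs i
    refine ⟨hi, ?_, ?_⟩
    · change 0 < ((range P.N).filter fun k => bit (Bs.getD k []) i = false).card
      omega
    · change ((range P.N).filter fun k => bit (Bs.getD k []) i = false).card < P.Kk
      omega

theorem moves2_kill_getD (c : List ℤ) (i : ℕ) (b : Bool) {k : ℕ} (hk : k < P.N) :
    (kill P c Bs i b).getD k [] =
      Bs.getD (if bit (Bs.getD k []) i = b then cheap P c Bs i b else k) [] := by
  rw [kill, List.getD_eq_getElem _ _ (by simpa using hk)]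
  simp only [List.getElem_map, List.getElem_range]
  split_ifs <;> rfl

theorem moves2_cheap (c : List ℤ) {i : ℕ} {b : Bool}
    (h : ∃ k < P.N, bit (Bs.getD k []) i ≠ b) :
    cheap P c Bs i b < P.N ∧ bit (Bs.getD (cheap P c Bs i b) []) i ≠ b ∧
      ∀ k < P.N, bit (Bs.getD k []) i ≠ b →
        costB P.n c (Bs.getD (cheap P c Bs i b) []) ≤ costB P.n c (Bs.getD k []) := by
  have hmem : ∀ k, k ∈ ((List.range P.N).filter fun k => bit (Bs.getD k []) i != b) ↔
      k < P.N ∧ bit (Bs.getD k []) i ≠ b := by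
    intro k
    rw [List.mem_filter, List.mem_range, bne_iff_ne]
  have hne : ((List.range P.N).filter fun k => bit (Bs.getD k []) i != b) ≠ [] := by
    obtain ⟨k, hk⟩ := h
    exact List.ne_nil_of_mem ((hmem k).2 hk)
  have h0 : cheap P c Bs i b ∈ ((List.range P.N).filter fun k => bit (Bs.getD k []) i != b) := by
    rcases amin_mem (fun k => costB P.n c (Bs.getD k []))
      ((List.range P.N).filter fun k => bit (Bs.getD k []) i != b)
      (((List.range P.N).filter fun k => bit (Bs.getD k []) i != b).headD 0) with h1 | h1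
    · rw [cheap, h1]
      exact moves2_headD hne 0
    · exact h1
  refine ⟨((hmem _).1 h0).1, ((hmem _).1 h0).2, fun k hk hk' => ?_⟩
  exact amin_le (fun k => costB P.n c (Bs.getD k [])) _ _ k ((hmem k).2 ⟨hk, hk'⟩)

theorem moves2_num {N K f E E' e : ℚ} (hN : 0 < N) (hK : 2 * K ≤ N) (hf0 : 0 ≤ f) (hf : f ≤ K)
    (he : 0 ≤ e) (h1 : (N - f) * e ≤ E) (h2 : E' ≤ E + f * e) :
    E' / N ≤ E / N * (1 + 2 * K / N) := by
  have h3 : N * e ≤ 2 * E := by nlinarith
  have hE : 0 ≤ E := by nlinarith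
  have h4 : e ≤ 2 * E / N := by
    rw [le_div_iff₀ hN]
    linarith
  have h5 : f * e ≤ K * (2 * E / N) := mul_le_mul hf h4 he (hf0.trans hf)
  have h6 : E / N * (1 + 2 * K / N) = (E + K * (2 * E / N)) / N := by
    field_simp
  rw [h6]
  exact div_le_div_of_nonneg_right (by linarith) hN.le

theorem kill_spec (c : List ℤ) (h : Bas M P.n P.N Bs) (hN : 2 * P.Kk ≤ P.N) {i : ℕ} {b : Bool}
    (hi : i < P.n) (h1 : 0 < ((range P.N).filter fun k => bit (Bs.getD k []) i = b).card)
    (h2 : ((range P.N).filter fun k => bit (Bs.getD k []) i = b).card < P.Kk) :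
    Bas M P.n P.N (kill P c Bs i b) ∧ i ∈ alv P.n P.N Bs ∧
      alv P.n P.N (kill P c Bs i b) ⊆ (alv P.n P.N Bs).erase i ∧
      (∀ v < P.n, v ∉ alv P.n P.N Bs → cnt P.N (kill P c Bs i b) v = cnt P.N Bs v) ∧
      (∀ v, |xq P.N (kill P c Bs i b) v - xq P.N Bs v| ≤ (P.Kk : ℚ) / P.N) ∧
      ∀ cm : ℚ, (∀ Z : Finset ℕ, M.IsBase (Z : Set ℕ) → cm ≤ ∑ v ∈ Z, cq c v) →
        costx P.n c (xq P.N (kill P c Bs i b)) - cm ≤
          (costx P.n c (xq P.N Bs) - cm) * (1 + 2 * (P.Kk : ℚ) / P.N) := by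
  set F := (range P.N).filter fun k => bit (Bs.getD k []) i = b with hF
  set G := (range P.N).filter fun k => ¬ bit (Bs.getD k []) i = b with hG
  have hFG : F.card + G.card = P.N := by
    rw [hF, hG, Finset.card_filter_add_card_filter_not, card_range]
  have hexF : ∃ k < P.N, bit (Bs.getD k []) i = b := by
    obtain ⟨k, hk⟩ := card_pos.1 h1
    rw [hF, mem_filter, mem_range] at hk
    exact ⟨k, hk⟩
  have hexG : ∃ k < P.N, bit (Bs.getD k []) i ≠ b := by
    obtain ⟨k, hk⟩ := card_pos.1 (show 0 < G.card by omega)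
    rw [hG, mem_filter, mem_range] at hk
    exact ⟨k, hk⟩
  obtain ⟨hc1, hc2, hc3⟩ := moves2_cheap (P := P) (Bs := Bs) c hexG
  set k0 := cheap P c Bs i b with hk0
  let σ : ℕ → ℕ := fun k => if bit (Bs.getD k []) i = b then k0 else k
  have hget : ∀ k < P.N, (kill P c Bs i b).getD k [] = Bs.getD (σ k) [] :=
    fun k hk => moves2_kill_getD c i b hk
  have hσ : ∀ k < P.N, σ k < P.N := by
    intro k hk
    simp only [σ]
    split_ifs
    · exact hc1
    · exact hk
  have hσb : ∀ k, bit (Bs.getD (σ k) []) i ≠ b := by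
    intro k
    simp only [σ]
    split_ifs with hb
    · exact hc2
    · exact hb
  have hcs : ∀ k < P.N, cs P.n (kill P c Bs i b) k = cs P.n Bs (σ k) := by
    intro k hk
    rw [cs, hget k hk, cs]
  have hNpos : (0 : ℚ) < P.N := by
    have : 0 < P.N := by omega
    exact_mod_cast this
  refine ⟨fun k hk => ?_, ?_, ?_, ?_, ?_, ?_⟩
  · rw [hcs k hk]
    exact h _ (hσ k hk)
  · rw [moves2_alv]
    obtain ⟨k, hk, hb⟩ := hexF
    obtain ⟨k', hk', hb'⟩ := hexG
    cases b
    · exact ⟨hi, ⟨k', hk', by simpa using hb'⟩, ⟨k, hk, hb⟩⟩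
    · exact ⟨hi, ⟨k, hk, hb⟩, ⟨k', hk', by simpa using hb'⟩⟩
  · intro v hv
    rw [moves2_alv] at hv
    obtain ⟨hv, ⟨k, hk, hb⟩, ⟨k', hk', hb'⟩⟩ := hv
    rw [hget k hk] at hb
    rw [hget k' hk'] at hb'
    rw [mem_erase, moves2_alv]
    refine ⟨?_, hv, ⟨_, hσ k hk, hb⟩, ⟨_, hσ k' hk', hb'⟩⟩
    rintro rfl
    have e1 := hσb k
    have e2 := hσb k'
    rw [hb] at e1
    rw [hb'] at e2
    cases b
    · exact e2 rfl
    · exact e1 rfl
  · intro v hv hv'
    rw [moves2_alv] at hv'
    rw [cnt, cnt]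
    congr 1
    refine filter_congr fun k hk => ?_
    rw [mem_range] at hk
    rw [hget k hk]
    constructor
    · intro e
      by_contra e'
      exact hv' ⟨hv, ⟨_, hσ k hk, e⟩, ⟨k, hk, by simpa using e'⟩⟩
    · intro e
      by_contra e'
      exact hv' ⟨hv, ⟨k, hk, e⟩, ⟨_, hσ k hk, by simpa using e'⟩⟩
  · intro v
    have e1 : cnt P.N (kill P c Bs i b) v ≤ cnt P.N Bs v + F.card := by
      rw [cnt, cnt]
      refine le_trans (card_le_card ?_) (card_union_le _ _)
      intro k hk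
      rw [mem_filter, mem_range] at hk
      rw [mem_union, mem_filter, hF, mem_filter, mem_range]
      by_cases hb : bit (Bs.getD k []) i = b
      · exact Or.inr ⟨hk.1, hb⟩
      · refine Or.inl ⟨hk.1, ?_⟩
        have := hk.2
        rw [hget k hk.1] at this
        simpa only [σ, if_neg hb] using this
    have e2 : cnt P.N Bs v ≤ cnt P.N (kill P c Bs i b) v + F.card := by
      rw [cnt, cnt]
      refine le_trans (card_le_card ?_) (card_union_le _ _)
      intro k hk
      rw [mem_filter, mem_range] at hk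
      rw [mem_union, mem_filter, hF, mem_filter, mem_range]
      by_cases hb : bit (Bs.getD k []) i = b
      · exact Or.inr ⟨hk.1, hb⟩
      · refine Or.inl ⟨hk.1, ?_⟩
        rw [hget k hk.1]
        simpa only [σ, if_neg hb] using hk.2
    rw [xq, xq, ← sub_div, abs_div, abs_of_pos hNpos]
    refine div_le_div_of_nonneg_right ?_ hNpos.le
    have e3 : (cnt P.N (kill P c Bs i b) v : ℚ) ≤ cnt P.N Bs v + P.Kk := by
      exact_mod_cast (show cnt P.N (kill P c Bs i b) v ≤ cnt P.N Bs v + P.Kk by omega)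
    have e4 : (cnt P.N Bs v : ℚ) ≤ cnt P.N (kill P c Bs i b) v + P.Kk := by
      exact_mod_cast (show cnt P.N Bs v ≤ cnt P.N (kill P c Bs i b) v + P.Kk by omega)
    rw [abs_le]
    constructor <;> linarith
  · intro cm hcm
    let ex : ℕ → ℚ := fun k => (∑ v ∈ cs P.n Bs k, cq c v) - cm
    have hex : ∀ k < P.N, 0 ≤ ex k := fun k hk => sub_nonneg.2 (hcm _ (h k hk))
    have hA : ∀ Cs : Cp, costx P.n c (xq P.N Cs) - cm =
        (∑ k ∈ range P.N, ((∑ v ∈ cs P.n Cs k, cq c v) - cm)) / P.N := by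
      intro Cs
      rw [costx, wsum_xq, sum_sub_distrib, sum_const, card_range, nsmul_eq_mul, sub_div,
        mul_div_cancel_left₀ _ hNpos.ne']
    rw [hA, hA]
    have hsplit : ∀ f : ℕ → ℚ, ∑ k ∈ range P.N, f k = ∑ k ∈ F, f k + ∑ k ∈ G, f k := by
      intro f
      rw [hF, hG, sum_filter_add_sum_filter_not]
    have hFn : 0 ≤ ∑ k ∈ F, ex k :=
      sum_nonneg fun k hk => hex k (mem_range.1 (mem_filter.1 hk).1)
    have hGe : (G.card : ℚ) * ex k0 ≤ ∑ k ∈ G, ex k := by
      rw [← nsmul_eq_mul]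
      refine card_nsmul_le_sum _ _ _ fun k hk => ?_
      rw [hG, mem_filter, mem_range] at hk
      exact sub_le_sub_right (hc3 k hk.1 hk.2) cm
    have hE' : ∑ k ∈ range P.N, ((∑ v ∈ cs P.n (kill P c Bs i b) k, cq c v) - cm) =
        (F.card : ℚ) * ex k0 + ∑ k ∈ G, ex k := by
      rw [hsplit, ← nsmul_eq_mul, ← sum_const]
      congr 1
      · refine sum_congr rfl fun k hk => ?_
        rw [hF, mem_filter, mem_range] at hk
        rw [hcs k hk.1]
        simp only [σ, if_pos hk.2, ex]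
      · refine sum_congr rfl fun k hk => ?_
        rw [hG, mem_filter, mem_range] at hk
        rw [hcs k hk.1]
        simp only [σ, if_neg hk.2, ex]
    have hE : ∑ k ∈ range P.N, ((∑ v ∈ cs P.n Bs k, cq c v) - cm) =
        ∑ k ∈ F, ex k + ∑ k ∈ G, ex k := hsplit ex
    have hcard : (P.N : ℚ) - F.card = G.card := by
      have : ((F.card + G.card : ℕ) : ℚ) = P.N := by rw [hFG]
      push_cast at this
      linarith
    refine moves2_num (f := F.card) (e := ex k0) hNpos (by exact_mod_cast hN)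
      (Nat.cast_nonneg _) (by exact_mod_cast h2.le) (hex k0 hc1) ?_ ?_
    · rw [hcard, hE]
      linarith
    · rw [hE', hE]
      linarith

theorem moves2_rob_comm (A : List Cp) (i j : ℕ) : rob P A i j = rob P A j i := by
  rw [rob, rob, Bool.and_comm]

theorem moves2_rob_iff {A : List Cp} {i j : ℕ} :
    rob P A i j = true ↔ P.L ≤ acnt P.N A i j ∧ P.L ≤ acnt P.N A j i := by
  rw [rob, Bool.and_eq_true, decide_eq_true_iff, decide_eq_true_iff]

/-- The greedy set is a maximal independent set. -/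
theorem moves2_mis (A : List Cp) (S : Finset ℕ) (hirr : ∀ i, rob P A i i = false) (t : ℕ) :
    let D := (List.range t).foldl
      (fun D i => if i ∈ S ∧ (D.all fun d => !rob P A i d) = true then i :: D else D) []
    D.Nodup ∧ (∀ d ∈ D, d ∈ S ∧ d < t) ∧ (∀ a ∈ D, ∀ b ∈ D, rob P A a b = false) ∧
      ∀ i < t, i ∈ S → i ∉ D → ∃ d ∈ D, rob P A i d = true := by
  induction t with
  | zero => simp
  | succ t ih =>
    rw [List.range_succ, List.foldl_append]
    generalize (List.range t).foldl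
      (fun D i => if i ∈ S ∧ (D.all fun d => !rob P A i d) = true then i :: D else D) [] = D
      at ih ⊢
    obtain ⟨h1, h2, h3, h4⟩ := ih
    simp only [List.foldl_cons, List.foldl_nil]
    split_ifs with hc
    · obtain ⟨hS, hall⟩ := hc
      rw [List.all_eq_true] at hall
      have hall' : ∀ d ∈ D, rob P A t d = false := fun d hd => by simpa using hall d hd
      refine ⟨List.nodup_cons.2 ⟨fun hd => lt_irrefl _ (h2 t hd).2, h1⟩, ?_, ?_, ?_⟩
      · intro d hd
        rcases List.mem_cons.1 hd with rfl | hd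
        · exact ⟨hS, Nat.lt_succ_self _⟩
        · exact ⟨(h2 d hd).1, Nat.lt_succ_of_lt (h2 d hd).2⟩
      · intro a ha b hb
        rcases List.mem_cons.1 ha with ea | ha'
        · rcases List.mem_cons.1 hb with eb | hb'
          · rw [ea, eb]
            exact hirr _
          · rw [ea]
            exact hall' b hb'
        · rcases List.mem_cons.1 hb with eb | hb'
          · rw [eb, moves2_rob_comm]
            exact hall' a ha'
          · exact h3 a ha' b hb'
      · intro i hi hiS hiD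
        rw [List.mem_cons, not_or] at hiD
        obtain ⟨d, hd, hr⟩ := h4 i (by omega) hiS hiD.2
        exact ⟨d, List.mem_cons_of_mem _ hd, hr⟩
    · refine ⟨h1, fun d hd => ⟨(h2 d hd).1, Nat.lt_succ_of_lt (h2 d hd).2⟩, h3, ?_⟩
      intro i hi hiS hiD
      rcases Nat.lt_succ_iff_lt_or_eq.1 hi with hi | rfl
      · exact h4 i hi hiS hiD
      · by_contra hn
        refine hc ⟨hiS, List.all_eq_true.2 fun d hd => ?_⟩
        cases e : rob P A i d
        · rfl
        · exact absurd ⟨d, hd, e⟩ hn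

theorem moves2_arc (hO : Orc M P.n O) (h : Bas M P.n P.N Bs) (hL : 1 ≤ P.L) {i j : ℕ}
    (ha : P.L ≤ acnt P.N (arcs O P.n P.N Bs) i j) :
    i < P.n ∧ j < P.n ∧ ∃ k < P.N, bit (Bs.getD k []) i = true ∧ bit (Bs.getD k []) j = false := by
  obtain ⟨k, hk⟩ := card_pos.1 (show 0 < acnt P.N (arcs O P.n P.N Bs) i j by omega)
  rw [mem_filter, mem_range] at hk
  obtain ⟨-, hi, hj⟩ := ar_lt hk.2
  obtain ⟨h1, h2, -⟩ := (ar_iff hO h hk.1).1 hk.2
  rw [mem_cs] at h1 h2
  exact ⟨hi, hj, k, hk.1, h1.2, by simpa [hj] using h2⟩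

theorem pick_spec (hO : Orc M P.n O) (h : Bas M P.n P.N Bs) (hL : 1 ≤ P.L)
    (hK : P.n * P.L ≤ P.Kk) (hkc : (kc P Bs).isEmpty = true) :
    II P (arcs O P.n P.N Bs) (alv P.n P.N Bs) ⊆ alv P.n P.N Bs ∧
      (alv P.n P.N Bs).card ≤ 2 * (II P (arcs O P.n P.N Bs) (alv P.n P.N Bs)).card ∧
      ∀ p ∈ II P (arcs O P.n P.N Bs) (alv P.n P.N Bs),
        pp P (arcs O P.n P.N Bs) (alv P.n P.N Bs) p ∈ alv P.n P.N Bs ∧
        pp P (arcs O P.n P.N Bs) (alv P.n P.N Bs) p ∉ II P (arcs O P.n P.N Bs) (alv P.n P.N Bs) ∧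
        rob P (arcs O P.n P.N Bs) p (pp P (arcs O P.n P.N Bs) (alv P.n P.N Bs) p) = true := by
  classical
  set A := arcs O P.n P.N Bs with hA
  set S := alv P.n P.N Bs with hS
  have hirr : ∀ i, rob P A i i = false := by
    intro i
    cases e : rob P A i i
    · rfl
    · obtain ⟨-, -, k, -, e1, e2⟩ := moves2_arc hO h hL (moves2_rob_iff.1 e).1
      rw [e1] at e2
      exact absurd e2 (by simp)
  have hrobS : ∀ i j, rob P A i j = true → j ∈ S := by
    intro i j e
    obtain ⟨-, hj, k, hk, -, e2⟩ := moves2_arc hO h hL (moves2_rob_iff.1 e).1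
    obtain ⟨-, -, k', hk', e3, -⟩ := moves2_arc hO h hL (moves2_rob_iff.1 e).2
    exact moves2_alv.2 ⟨hj, ⟨k', hk', e3⟩, ⟨k, hk, e2⟩⟩
  have hSn : ∀ i ∈ S, i < P.n := fun i hi => (moves2_alv.1 hi).1
  have hac : ∀ i j, acnt P.N A i j =
      ((range P.N).filter fun k => Arc M (cs P.n Bs k) i j).card := by
    intro i j
    rw [acnt]
    congr 1
    exact filter_congr fun k hk => ar_iff hO h (mem_range.1 hk)
  have hpart : ∀ i ∈ S, ∃ j < P.n, rob P A i j = true := by
    intro i hi
    obtain ⟨e1, e2⟩ := kc_nil hkc hi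
    have hin := hSn i hi
    have e3 := cnt_eq (N := P.N) Bs hin
    have e4 := Finset.card_filter_add_card_filter_not (s := range P.N)
      (fun k => i ∈ cs P.n Bs k)
    rw [card_range] at e4
    obtain ⟨j, hj, e5, e6⟩ := partner (N := P.N) hO.gr (cs P.n Bs) h hL hin (by omega) (by omega)
    refine ⟨j, hj, moves2_rob_iff.2 ⟨?_, ?_⟩⟩
    · rw [hac]
      exact e5
    · rw [hac]
      exact e6
  obtain ⟨m1, m2, m3, m4⟩ := moves2_mis (P := P) A S hirr P.n
  change (mis P A S).Nodup at m1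
  change ∀ d ∈ mis P A S, d ∈ S ∧ d < P.n at m2
  change ∀ a ∈ mis P A S, ∀ b ∈ mis P A S, rob P A a b = false at m3
  change ∀ i < P.n, i ∈ S → i ∉ mis P A S → ∃ d ∈ mis P A S, rob P A i d = true at m4
  have hcard : (S.filter fun i => i ∈ mis P A S).card = (mis P A S).length := by
    rw [← List.toFinset_card_of_nodup m1]
    congr 1
    ext i
    rw [mem_filter, List.mem_toFinset]
    exact ⟨fun e => e.2, fun e => ⟨(m2 i e).1, e⟩⟩
  have hex : ∀ p ∈ II P A S, ∃ j < P.n, j ∉ II P A S ∧ rob P A p j = true := by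
    intro p hp
    rw [II] at hp ⊢
    split_ifs at hp ⊢ with hc
    · rw [mem_filter] at hp
      obtain ⟨j, hj, e⟩ := hpart p hp.1
      refine ⟨j, hj, fun hj' => ?_, e⟩
      rw [m3 p hp.2 j (mem_filter.1 hj').2] at e
      exact absurd e (by simp)
    · rw [mem_filter] at hp
      obtain ⟨d, hd, e⟩ := m4 p (hSn p hp.1) hp.1 hp.2
      exact ⟨d, (m2 d hd).2, fun hd' => (mem_filter.1 hd').2 hd, e⟩
  refine ⟨?_, ?_, fun p hp => ?_⟩
  · rw [II]
    split_ifs <;> exact filter_subset _ _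
  · rw [II]
    split_ifs with hc
    · rw [hcard]
      exact hc
    · have e4 := Finset.card_filter_add_card_filter_not (s := S) (fun i => i ∈ mis P A S)
      omega
  · obtain ⟨j, hj, e1, e2⟩ := hex p hp
    have hne : ((List.range P.n).filter fun j => decide (j ∉ II P A S) && rob P A p j) ≠ [] :=
      List.ne_nil_of_mem (a := j) (by
        rw [List.mem_filter, List.mem_range, Bool.and_eq_true, decide_eq_true_iff]
        exact ⟨hj, e1, e2⟩)
    have hm := moves2_headD hne 0
    change pp P A S p ∈ _ at hm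
    rw [List.mem_filter, List.mem_range, Bool.and_eq_true, decide_eq_true_iff] at hm
    exact ⟨hrobS _ _ hm.2.2, hm.2.1, hm.2.2⟩

end Pool.Agent.P.MP_1639c2_lc.W
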