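import Pool.Agent.P.MP_1639c2_lc.W.Alg

/-! The second order form is a quadratic form; casts from the rationals to the reals. -/

namespace Pool.Agent.P.MP_1639c2_lc.W

open Finset

variable (P : Par) (S I : Finset ℕ) (pi : ℕ → ℕ)

theorem pol_symm {K : Type} [Field K] (f : (ℕ → K) → K) (p q : ℕ) : pol f p q = pol f q p := by
  simp only [pol, add_comm (un p _), sub_right_comm]

/-- Linear forms in the first `k` variables. -/
def QFL (k : ℕ) (f : (ℕ → ℝ) → ℝ) : Prop := ∃ c : ℕ → ℝ, ∀ xi, f xi = ∑ p ∈ range k, c p * xi p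

/-- Quadratic forms in the first `k` variables. -/
def QFQ (k : ℕ) (f : (ℕ → ℝ) → ℝ) : Prop := ∃ B : ℕ → ℕ → ℝ, ∀ xi, f xi = qf k B xi

section

variable {k : ℕ} {f g : (ℕ → ℝ) → ℝ}

theorem QFL.var {p : ℕ} (hp : p < k) : QFL k fun xi => xi p :=
  ⟨un p, fun xi => by simp [un, hp]⟩

theorem QFL.add (hf : QFL k f) (hg : QFL k g) : QFL k fun xi => f xi + g xi := by
  obtain ⟨c, hc⟩ := hf
  obtain ⟨d, hd⟩ := hg
  exact ⟨fun p => c p + d p, fun xi => by simp only [hc, hd, add_mul, sum_add_distrib]⟩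

theorem QFL.smul (a : ℝ) (hf : QFL k f) : QFL k fun xi => a * f xi := by
  obtain ⟨c, hc⟩ := hf
  exact ⟨fun p => a * c p, fun xi => by simp only [hc, mul_sum, mul_assoc]⟩

theorem QFL.sub (hf : QFL k f) (hg : QFL k g) : QFL k fun xi => f xi - g xi := by
  simpa only [neg_one_mul, ← sub_eq_add_neg] using hf.add (hg.smul (-1))

theorem QFL.ite (b : Prop) [Decidable b] (hf : b → QFL k f) :
    QFL k fun xi => if b then f xi else 0 := by
  split_ifs with h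
  · exact hf h
  · exact ⟨0, fun xi => by simp⟩

theorem QFL.sum (s : Finset ℕ) {F : ℕ → (ℕ → ℝ) → ℝ} (h : ∀ i ∈ s, QFL k (F i)) :
    QFL k fun xi => ∑ i ∈ s, F i xi := by
  choose! c hc using h
  refine ⟨fun p => ∑ i ∈ s, c i p, fun xi => ?_⟩
  simp only [sum_mul]
  rw [sum_comm]
  exact sum_congr rfl fun i hi => hc i hi xi

theorem QFL.mul (hf : QFL k f) (hg : QFL k g) : QFQ k fun xi => f xi * g xi := by
  obtain ⟨c, hc⟩ := hf
  obtain ⟨d, hd⟩ := hg
  refine ⟨fun p q => c p * d q, fun xi => ?_⟩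
  simp only [hc, hd, qf, sum_mul_sum]
  exact sum_congr rfl fun p _ => sum_congr rfl fun q _ => by ring

theorem QFL.sq (hf : QFL k f) : QFQ k fun xi => f xi ^ 2 := by
  simpa only [pow_two] using hf.mul hf

theorem QFQ.add (hf : QFQ k f) (hg : QFQ k g) : QFQ k fun xi => f xi + g xi := by
  obtain ⟨c, hc⟩ := hf
  obtain ⟨d, hd⟩ := hg
  exact ⟨fun p q => c p q + d p q, fun xi => by simp only [hc, hd, qf, add_mul, sum_add_distrib]⟩

theorem QFQ.smul (a : ℝ) (hf : QFQ k f) : QFQ k fun xi => a * f xi := by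
  obtain ⟨c, hc⟩ := hf
  exact ⟨fun p q => a * c p q, fun xi => by simp only [hc, qf, mul_sum, mul_assoc]⟩

theorem QFQ.sub (hf : QFQ k f) (hg : QFQ k g) : QFQ k fun xi => f xi - g xi := by
  simpa only [neg_one_mul, ← sub_eq_add_neg] using hf.add (hg.smul (-1))

theorem QFQ.sum (s : Finset ℕ) {F : ℕ → (ℕ → ℝ) → ℝ} (h : ∀ i ∈ s, QFQ k (F i)) :
    QFQ k fun xi => ∑ i ∈ s, F i xi := by
  choose! c hc using h
  refine ⟨fun p q => ∑ i ∈ s, c i p q, fun xi => ?_⟩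
  simp only [qf, sum_mul]
  rw [sum_congr rfl fun i hi => hc i hi xi]
  simp only [qf]
  rw [sum_comm]
  exact sum_congr rfl fun p _ => sum_comm

theorem QFQ.pol (hf : QFQ k f) (xi : ℕ → ℝ) : f xi = qf k (pol f) xi := by
  obtain ⟨B, hB⟩ := hf
  have e1 : ∀ p < k, ∀ q < k,
      ∑ i ∈ range k, ∑ j ∈ range k, B i j * un p i * un q j = B p q := by
    intro p hp q hq
    simp [un, hp, hq]
  have e2 : ∀ p < k, ∀ q < k, W.pol f p q = B p q / 2 + B q p / 2 := by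
    intro p hp q hq
    rw [← e1 p hp q hq, ← e1 q hq p hp, ← add_div, W.pol, hB, hB, hB]
    simp only [qf, ← sum_sub_distrib, ← sum_add_distrib]
    exact congrArg (· / 2) (sum_congr rfl fun i _ => sum_congr rfl fun j _ => by ring)
  have e3 : qf k (W.pol f) xi = qf k B xi / 2 + qf k (fun p q => B q p) xi / 2 := by
    simp only [qf, sum_div, ← sum_add_distrib]
    refine sum_congr rfl fun p hp => sum_congr rfl fun q hq => ?_
    rw [e2 p (mem_range.1 hp) q (mem_range.1 hq)]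
    ring
  have e4 : qf k (fun p q => B q p) xi = qf k B xi :=
    sum_comm.trans (sum_congr rfl fun p _ => sum_congr rfl fun q _ => by ring)
  rw [e3, e4, hB, add_halves]

theorem QF_Sf (hS : ∀ i ∈ S, P.n + i < k) (hI : ∀ p ∈ I, p < k) (x y0 q : ℕ → ℝ) :
    QFQ k (P.Sf S x y0 q I pi) := by
  have d : ∀ i, QFL k fun xi => dv I pi xi i := fun i =>
    (QFL.sum I fun p hp => QFL.ite _ fun _ => .var (hI p hp)).sub
      (QFL.ite _ fun h => .var (hI i h))
  have w : ∀ i ∈ S, QFL k fun xi => xi (P.n + i) := fun i hi => .var (hS i hi)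
  have a : ∀ j, QFL k fun xi => P.aa S (dv I pi xi) j := fun j => QFL.sum _ fun i _ => d i
  have h : ∀ j, QFL k fun xi => P.hh S x (dv I pi xi) j := fun j =>
    QFL.sum _ fun i _ => (d i).smul _
  have v : ∀ i, QFL k fun xi => P.v1 S x y0 q (dv I pi xi) i := fun i =>
    QFL.sum _ fun j _ => QFL.ite _ fun _ => (((a j).smul _).add ((h j).smul _)).smul _
  have m : ∀ p, QFL k fun xi => P.Mv S x y0 (fun i => xi (P.n + i)) p := fun p =>
    QFL.sum _ fun i hi => (w i hi).smul _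
  exact ((((QFQ.sum _ fun j _ => ((((a j).sq.smul _).add ((h j).sq.smul _)).sub
    ((QFQ.sum _ fun i _ => (d i).sq).smul _)).smul _).add
    (((QFQ.sum _ fun i hi => (w i hi).sq).sub (QFQ.sum _ fun i hi => (w i hi).mul (m i))).smul _)).add
    ((QFQ.sum _ fun i hi => ((v i).sub ((w i hi).sub (m i))).sq).smul _)).add
    ((QFQ.sum _ fun j _ => (a j).sq).smul _)).sub (QFQ.sum _ fun i _ => (d i).sq)

end

theorem Sf_qf (hS : S ⊆ range P.n) (hI : I ⊆ range P.n) (x y0 q xi : ℕ → ℝ) :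
    P.Sf S x y0 q I pi xi = qf (2 * P.n) (pol (P.Sf S x y0 q I pi)) xi :=
  (QF_Sf P S I pi (fun i hi => by have := mem_range.1 (hS hi); omega)
    (fun p hp => by have := mem_range.1 (hI hp); omega) x y0 q).pol xi

theorem Sf_smul (x y0 q xi : ℕ → ℝ) (s : ℝ) :
    P.Sf S x y0 q I pi (fun p => s * xi p) = s ^ 2 * P.Sf S x y0 q I pi xi := by
  obtain ⟨B, hB⟩ := QF_Sf P S I pi (k := P.n + S.sup id + I.sup id + 1)
    (fun i hi => by have : i ≤ S.sup id := le_sup (f := id) hi; omega)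
    (fun p hp => by have : p ≤ I.sup id := le_sup (f := id) hp; omega) x y0 q
  simp only [hB, qf, mul_sum]
  exact sum_congr rfl fun p _ => sum_congr rfl fun q _ => by ring

theorem dv_smul {K : Type} [Field K] (xi : ℕ → K) (s : K) (i : ℕ) :
    dv I pi (fun p => s * xi p) i = s * dv I pi xi i := by
  simp only [dv, mul_sub, mul_sum, mul_ite, mul_zero]

theorem L1_smul {K : Type} [Field K] (x y0 q d : ℕ → K) (s : K) :
    P.L1 S x y0 q (fun i => s * d i) = s * P.L1 S x y0 q d := by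
  simp only [Par.L1, Par.ll, Par.aa, Par.hh, mul_add, mul_sum, mul_left_comm _ s]

theorem aa_cast (d : ℕ → ℚ) (j : ℕ) : ((P.aa S d j : ℚ) : ℝ) = P.aa S (rc d) j := by
  simp only [Par.aa, rc, Rat.cast_sum]

theorem dv_cast (xi : ℕ → ℚ) : rc (dv I pi xi) = dv I pi (rc xi) := by
  funext i
  simp only [dv, rc, Rat.cast_sum, Rat.cast_sub, apply_ite (Rat.cast : ℚ → ℝ), Rat.cast_zero]

theorem QF_yy (x y0 : ℕ → ℚ) (j : ℕ) : ((P.yy x y0 j : ℚ) : ℝ) = P.yy (rc x) (rc y0) j := by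
  simp only [Par.yy, Rat.cast_sub, aa_cast, rc]

theorem QF_zz (x y0 : ℕ → ℚ) (j : ℕ) :
    ((P.zz S x y0 j : ℚ) : ℝ) = P.zz S (rc x) (rc y0) j := by
  simp only [Par.zz, ← QF_yy, rc]
  push_cast
  rfl

theorem QF_phi (x y0 : ℕ → ℚ) (j : ℕ) :
    ((P.phi S x y0 j : ℚ) : ℝ) = P.phi S (rc x) (rc y0) j := by
  simp only [Par.phi, ← QF_zz]
  push_cast
  rfl

theorem QF_Mm (x y0 : ℕ → ℚ) (p q : ℕ) :
    ((P.Mm S x y0 p q : ℚ) : ℝ) = P.Mm S (rc x) (rc y0) p q := by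
  simp only [Par.Mm, Par.res, ← QF_phi]
  push_cast [apply_ite (Rat.cast : ℚ → ℝ)]
  rfl

theorem QF_itA (k : ℕ) (A : ℕ → ℕ → ℚ) (b v : ℕ → ℚ) (t : ℕ) :
    rc (itA k A b v t) = itA k (fun p q => (A p q : ℝ)) (rc b) (rc v) t := by
  induction t with
  | zero => rfl
  | succ t ih =>
    funext p
    simp only [itA, ← ih, rc]
    push_cast
    rfl

theorem QF_hh (x d : ℕ → ℚ) (j : ℕ) : ((P.hh S x d j : ℚ) : ℝ) = P.hh S (rc x) (rc d) j := by
  simp only [Par.hh, rc]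
  push_cast
  rfl

theorem QF_ll (x y0 d : ℕ → ℚ) (j : ℕ) :
    ((P.ll S x y0 d j : ℚ) : ℝ) = P.ll S (rc x) (rc y0) (rc d) j := by
  simp only [Par.ll, ← QF_yy, ← aa_cast, ← QF_hh]
  push_cast
  rfl

theorem QF_cf (x y0 : ℕ → ℚ) (j : ℕ) :
    ((P.cf S x y0 j : ℚ) : ℝ) = P.cf S (rc x) (rc y0) j := by
  simp only [Par.cf, ← QF_phi, ← QF_zz]
  push_cast
  rfl

theorem QF_S2 (x y0 q d w : ℕ → ℚ) :
    ((P.S2 S x y0 q d w : ℚ) : ℝ) = P.S2 S (rc x) (rc y0) (rc q) (rc d) (rc w) := by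
  simp only [Par.S2, Par.om, Par.ee, Par.Mq, Par.Mv, Par.v1, ← QF_cf, ← aa_cast, ← QF_hh,
    ← QF_ll, ← QF_Mm, rc]
  push_cast [apply_ite (Rat.cast : ℚ → ℝ)]
  rfl

theorem qv_cast (x y0 : ℕ → ℚ) : rc (P.qv S x y0) = P.qv S (rc x) (rc y0) := by
  rw [Par.qv, QF_itA, Par.qv]
  simp only [apply_ite (Rat.cast : ℚ → ℝ), QF_Mm, Rat.cast_zero]
  congr 1 <;> funext p <;> simp [rc]

theorem L1_cast (x y0 q d : ℕ → ℚ) :
    ((P.L1 S x y0 q d : ℚ) : ℝ) = P.L1 S (rc x) (rc y0) (rc q) (rc d) := by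
  simp only [Par.L1, Par.om, ← QF_cf, ← aa_cast, ← QF_ll, ← QF_yy, rc]
  push_cast
  rfl

theorem pol_cast (x y0 q : ℕ → ℚ) (p p' : ℕ) :
    ((pol (P.Sf S x y0 q I pi) p p' : ℚ) : ℝ) = pol (P.Sf S (rc x) (rc y0) (rc q) I pi) p p' :=
  by
  have e : ∀ xi, ((P.Sf S x y0 q I pi xi : ℚ) : ℝ) =
      P.Sf S (rc x) (rc y0) (rc q) I pi (rc xi) := fun xi => by
    rw [Par.Sf, QF_S2, dv_cast]
    rfl
  have u : ∀ i, rc (un i) = un i := fun i => funext fun s => by simp [rc, un, apply_ite]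
  have u2 : rc (fun s => un p s + un p' s) = fun s => un p s + un p' s := by
    funext s
    rw [← u, ← u]
    exact Rat.cast_add _ _
  simp only [pol]
  push_cast
  rw [e, e, e, u, u, u2]

end Pool.Agent.P.MP_1639c2_lc.W
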