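import Pool.Agent.P.MP_1639c2_lc.W.Pot2
import Pool.Agent.P.MP_1639c2_lc.W.QF
import Pool.Agent.P.MP_1639c2_lc.W.Moves2

/-! The invariant of the second phase. -/

namespace Pool.Agent.P.MP_1639c2_lc.W

open Finset

/-- The scaled excess cost. -/
noncomputable def ex (P : Par) (c : List ℤ) (g cm : ℚ) (Bs : Cp) : ℝ :=
  (P.u : ℝ) ^ 6 * (((costx P.n c (xq P.N Bs) - cm) / g : ℚ) : ℝ)

structure Inv (M : Matroid ℕ) (P : Par) (c : List ℤ) (g cm : ℚ) (Bs0 Bs : Cp) (V : ℝ) : Prop where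
  bas : Bas M P.n P.N Bs
  pot : P.Pot (alv P.n P.N Bs) (rc (xq P.N Bs)) (rc (yz P Bs0)) (V - ex P c g cm Bs)
  small : ∀ j < P.m, (P.row (alv P.n P.N Bs) j).card ^ 2 ≤ 1024 * P.D →
    ∃ W : Finset ℕ, P.row (alv P.n P.N Bs) j ⊆ W ∧ W ⊆ P.row (range P.n) j ∧
      W.card ^ 2 ≤ 1024 * P.D ∧
      -√(P.T : ℝ) - W.card ≤ ∑ i ∈ P.row (range P.n) j \ W, rc (xq P.N Bs) i - rc (yz P Bs0) j ∧
      ∑ i ∈ P.row (range P.n) j \ W, rc (xq P.N Bs) i - rc (yz P Bs0) j ≤ √(P.T : ℝ)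

variable {M : Matroid ℕ} {P : Par} {c : List ℤ} {g cm : ℚ} {Bs0 Bs : Cp} {V : ℝ}

theorem inv_unit (N : ℕ) (Bs : Cp) (i : ℕ) : 0 ≤ rc (xq N Bs) i ∧ rc (xq N Bs) i ≤ 1 := by
  obtain ⟨h1, h2⟩ := xq_unit N Bs i
  unfold rc
  exact ⟨by exact_mod_cast h1, by exact_mod_cast h2⟩

theorem inv_row {S S' : Finset ℕ} (h : S ⊆ S') (j : ℕ) : P.row S j ⊆ P.row S' j :=
  filter_subset_filter _ h

theorem inv_pot {S : Finset ℕ} {x y0 : ℕ → ℝ} {V V' : ℝ} (h : P.Pot S x y0 V) (hV : V ≤ V') :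
    P.Pot S x y0 V' := fun v => (h v).trans hV

theorem inv_bound {W : Finset ℕ} {x y0 : ℕ → ℝ} {j : ℕ} (hW : W ⊆ P.row (range P.n) j)
    (hx : ∀ i, 0 ≤ x i ∧ x i ≤ 1) (hy : P.yy x y0 j ^ 2 ≤ P.T) :
    -√(P.T : ℝ) - W.card ≤ ∑ i ∈ P.row (range P.n) j \ W, x i - y0 j ∧
      ∑ i ∈ P.row (range P.n) j \ W, x i - y0 j ≤ √(P.T : ℝ) := by
  have e1 := sum_sdiff hW (f := x)
  have e2 : 0 ≤ ∑ i ∈ W, x i := sum_nonneg fun i _ => (hx i).1
  have e3 : ∑ i ∈ W, x i ≤ W.card := by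
    simpa using sum_le_card_nsmul W x 1 fun i _ => (hx i).2
  have e4 := abs_le.1 (Real.abs_le_sqrt hy)
  simp only [Par.yy, Par.aa] at e4
  constructor <;> linarith [e4.1, e4.2]

theorem ex_nonneg (hP : P.WF) (hg : 0 < g)
    (hcm : ∀ Z : Finset ℕ, M.IsBase (Z : Set ℕ) → cm ≤ ∑ v ∈ Z, cq c v)
    (h : Bas M P.n P.N Bs) : 0 ≤ ex P c g cm Bs := by
  have hu : 0 < P.u := lt_of_lt_of_le (by norm_num) hP.u16
  have hN : (0 : ℚ) < P.N := Nat.cast_pos.2 (pow_pos hu 75)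
  have e : cm ≤ costx P.n c (xq P.N Bs) := by
    rw [costx, wsum_xq, le_div_iff₀ hN]
    have := card_nsmul_le_sum (range P.N) (fun k => ∑ i ∈ cs P.n Bs k, cq c i) cm
      fun k hk => hcm _ (h k (mem_range.1 hk))
    rwa [card_range, nsmul_eq_mul, mul_comm] at this
  exact mul_nonneg (by positivity) (Rat.cast_nonneg.2 (div_nonneg (sub_nonneg.2 e) hg.le))

theorem Inv.ok (hP : P.WF) (hg : 0 < g)
    (hcm : ∀ Z : Finset ℕ, M.IsBase (Z : Set ℕ) → cm ≤ ∑ v ∈ Z, cq c v)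
    (h : Inv M P c g cm Bs0 Bs V) (hV : V ≤ (P.u : ℝ) ^ 7) :
    P.Ok (alv P.n P.N Bs) (rc (xq P.N Bs)) (rc (yz P Bs0)) (V - ex P c g cm Bs) := 
  ⟨filter_subset _ _, fun i _ => inv_unit _ _ i, h.pot,
    by linarith [ex_nonneg hP hg hcm h.bas]⟩

theorem inv_init (hP : P.WF) (h : Bas M P.n P.N Bs0) :
    Inv M P c g cm Bs0 Bs0 (4 * P.n + ex P c g cm Bs0) := by
  have e : rc (yz P Bs0) = P.aa (range P.n) (rc (xq P.N Bs0)) := funext fun j => aa_cast P _ _ j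
  refine ⟨h, ?_, fun j _ hj => ⟨_, Subset.rfl, inv_row (filter_subset _ _) j, hj,
    inv_bound (inv_row (filter_subset _ _) j) (inv_unit _ _) ?_⟩⟩
  · rw [e, add_sub_cancel_right]
    exact Par.pot_init hP (filter_subset _ _) fun i _ => inv_unit _ _ i
  · rw [e, Par.yy, sub_self]
    simp

/-- Passage to the next state. -/
theorem Inv.next (hP : P.WF) (hg : 0 < g)
    (hcm : ∀ Z : Finset ℕ, M.IsBase (Z : Set ℕ) → cm ≤ ∑ v ∈ Z, cq c v)
    (h : Inv M P c g cm Bs0 Bs V) {Cs : Cp} {V' : ℝ} (hB : Bas M P.n P.N Cs)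
    (hoff : ∀ v < P.n, v ∉ alv P.n P.N Bs → cnt P.N Cs v = cnt P.N Bs v)
    (hpot : P.Pot (alv P.n P.N Bs) (rc (xq P.N Cs)) (rc (yz P Bs0)) (V' - ex P c g cm Cs))
    (hV : V' ≤ (P.u : ℝ) ^ 7) :
    Inv M P c g cm Bs0 Cs
      (V' - (((alv P.n P.N Bs).card : ℝ) - (alv P.n P.N Cs).card)) := by
  have hs : alv P.n P.N Cs ⊆ alv P.n P.N Bs := fun v hv => by
    by_contra h1
    have h2 := mem_filter.1 hv
    rw [hoff v (mem_range.1 h2.1) h1] at h2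
    exact h1 (mem_filter.2 h2)
  have hok : P.Ok (alv P.n P.N Bs) (rc (xq P.N Cs)) (rc (yz P Bs0)) (V' - ex P c g cm Cs) :=
    ⟨filter_subset _ _, fun i _ => inv_unit _ _ i, hpot, by linarith [ex_nonneg hP hg hcm hB]⟩
  refine ⟨hB, inv_pot (hok.shrink hP hs) (le_of_eq (by ring)), fun j hj hc => ?_⟩
  by_cases h1 : (P.row (alv P.n P.N Bs) j).card ^ 2 ≤ 1024 * P.D
  · obtain ⟨W, w1, w2, w3, w4⟩ := h.small j hj h1
    refine ⟨W, (inv_row hs j).trans w1, w2, w3, ?_⟩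
    have e : ∑ i ∈ P.row (range P.n) j \ W, rc (xq P.N Cs) i =
        ∑ i ∈ P.row (range P.n) j \ W, rc (xq P.N Bs) i := by
      refine sum_congr rfl fun i hi => ?_
      obtain ⟨i1, i2⟩ := mem_sdiff.1 hi
      obtain ⟨i3, i4⟩ := mem_filter.1 i1
      simp only [rc, xq, hoff i (mem_range.1 i3) fun i5 => i2 (w1 (mem_filter.2 ⟨i5, i4⟩))]
    rwa [e]
  · refine ⟨_, Subset.rfl, inv_row (filter_subset _ _) j, hc,
      inv_bound (inv_row (filter_subset _ _) j) (inv_unit _ _) ?_⟩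
    by_cases h2 : (P.row (alv P.n P.N Bs) j).card ≤ 16 * P.D
    · exact hok.row_med hP (mem_filter.2 ⟨mem_range.2 hj, not_le.1 h1, h2⟩)
    · refine (hok.row_lrg hP (mem_filter.2 ⟨mem_range.2 hj, not_le.1 h1, not_le.1 h2⟩)).trans ?_
      exact Nat.one_le_cast.2 (Nat.cast_pos.1 P.T_pos)

theorem Inv.mono (h : Inv M P c g cm Bs0 Bs V) {V' : ℝ} (hV : V ≤ V') :
    Inv M P c g cm Bs0 Bs V' := 
  ⟨h.bas, inv_pot h.pot (by linarith), h.small⟩

/-- A step that kills an element. -/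
theorem Inv.kill_step {O : List Bool → Bool} (hP : P.WF) (hg : 0 < g)
    (hcm : ∀ Z : Finset ℕ, M.IsBase (Z : Set ℕ) → cm ≤ ∑ v ∈ Z, cq c v)
    (h : Inv M P c g cm Bs0 Bs V) (hV : V + 1 ≤ (P.u : ℝ) ^ 7)
    (hk : ¬ (kc P Bs).isEmpty = true) :
    Inv M P c g cm Bs0 (rdStep O P c g Bs0 Bs) (V - 1 / 2) := by
  have hu : (16 : ℝ) ≤ P.u := by exact_mod_cast hP.u16
  have hu0 : (0 : ℝ) < P.u := by linarith
  have hN : 2 * P.Kk ≤ P.N := by
    have e : P.N = P.u ^ 19 * P.Kk := by rw [Par.N, Par.Kk, ← pow_add]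
    rw [e]
    exact Nat.mul_le_mul_right _ ((le_trans (by norm_num) hP.u16).trans
      (Nat.le_self_pow (by norm_num) _))
  have hK : (((P.Kk : ℚ) / P.N : ℚ) : ℝ) = 1 / (P.u : ℝ) ^ 19 := by
    simp only [Par.N, Par.Kk]
    push_cast
    field_simp
  obtain ⟨k1, k2, k3⟩ := kc_head hk
  obtain ⟨s1, s2, s3, s4, s5, s6⟩ := kill_spec c h.bas hN k1 k2 k3
  simp only [rdStep, if_neg hk, exec, List.foldl_nil]
  generalize kill P c Bs ((kc P Bs).headD (0, true)).1 ((kc P Bs).headD (0, true)).2 = Ks at *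
  have e1 : alv P.n P.N (nrm P.n P.N Ks) = alv P.n P.N Ks :=
    filter_congr fun i hi => by rw [cnt_nrm _ (mem_range.1 hi)]
  have e2 : ∀ v < P.n, xq P.N (nrm P.n P.N Ks) v = xq P.N Ks v := fun v hv => by
    rw [xq, xq, cnt_nrm _ hv]
  have e3 : costx P.n c (xq P.N (nrm P.n P.N Ks)) = costx P.n c (xq P.N Ks) :=
    sum_congr rfl fun i hi => by rw [e2 i (mem_range.1 hi)]
  have hok := h.ok hP hg hcm (by linarith)
  have hoff : ∀ v < P.n, v ∉ alv P.n P.N Bs → cnt P.N (nrm P.n P.N Ks) v = cnt P.N Bs v :=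
    fun v hv hv' => by rw [cnt_nrm _ hv, s4 v hv hv']
  have hp := hok.perturb hP (rc (xq P.N (nrm P.n P.N Ks)))
    (fun i hi hi' => by simp only [rc, xq, hoff i hi hi']) (by
      have b1 := sum_le_card_nsmul (alv P.n P.N Bs)
        (fun i => |rc (xq P.N (nrm P.n P.N Ks)) i - rc (xq P.N Bs) i|) (1 / (P.u : ℝ) ^ 19)
        fun i hi => by
          rw [← hK, rc, rc, e2 i (mem_range.1 (hok.sub hi))]
          exact_mod_cast s5 i
      have b2 : ((alv P.n P.N Bs).card : ℝ) ≤ P.u := by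
        exact_mod_cast ((card_le_card hok.sub).trans (card_range _).le).trans hP.nu
      rw [nsmul_eq_mul] at b1
      refine b1.trans ((mul_le_mul_of_nonneg_right b2 (by positivity)).trans (le_of_eq ?_))
      field_simp)
  have x0 := ex_nonneg hP hg hcm h.bas
  have x1 : ex P c g cm Bs ≤ (P.u : ℝ) ^ 7 := by
    have b1 := hok.rest_le
    have b2 := Par.card_le_rest (P := P) (y0 := rc (yz P Bs0)) hok.unit
    have b3 : (0 : ℝ) ≤ (alv P.n P.N Bs).card := Nat.cast_nonneg _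
    linarith
  have x2 : ex P c g cm (nrm P.n P.N Ks) ≤ ex P c g cm Bs * (1 + 2 * (1 / (P.u : ℝ) ^ 19)) := by
    have b1 := div_le_div_of_nonneg_right (s6 cm hcm) hg.le
    rw [mul_div_right_comm, mul_div_assoc (2 : ℚ)] at b1
    rw [ex, ex, e3, mul_assoc, ← hK]
    exact mul_le_mul_of_nonneg_left (by exact_mod_cast b1) (by positivity)
  have x3 : ex P c g cm Bs * (2 * (1 / (P.u : ℝ) ^ 19)) ≤ 1 / 8 := by
    refine (mul_le_mul_of_nonneg_right x1 (by positivity)).trans ?_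
    have b1 : (P.u : ℝ) ≤ (P.u : ℝ) ^ 12 := le_self_pow₀ (by linarith) (by norm_num)
    have b2 : (P.u : ℝ) ^ 7 * (2 * (1 / (P.u : ℝ) ^ 19)) = 2 / (P.u : ℝ) ^ 12 := by field_simp
    rw [b2, div_le_div_iff₀ (by positivity) (by norm_num)]
    linarith
  refine (h.next hP hg hcm (V' := V + 1 / 2) (bas_nrm s1) hoff (inv_pot hp (by linarith))
    (by linarith)).mono ?_
  have b1 : (alv P.n P.N Ks).card + 1 ≤ (alv P.n P.N Bs).card :=
    (Nat.succ_le_succ (card_le_card s3)).trans (card_erase_add_one s2).le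
  have b2 : ((alv P.n P.N Ks).card : ℝ) + 1 ≤ (alv P.n P.N Bs).card := by exact_mod_cast b1
  rw [e1]
  linarith

end Pool.Agent.P.MP_1639c2_lc.W
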