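import Pool.Agent.P.MP_1639c2_lc.W.FPT

/-! The affine iteration and the power method run in polynomial time. -/

namespace Pool.Agent.P.MP_1639c2_lc.W

open Finset Pool.Agent.Lib.NP

variable {α : Type} [Enc α]

theorem itpt_abs {x : ℚ} {B : ℕ} (h : sz x ≤ B) : |x| ≤ 2 ^ B := by
  have h1 : (x.num.natAbs : ℚ) ≤ 2 ^ B := by
    exact_mod_cast ((num_lt_sz x).trans_le (Nat.pow_le_pow_right two_pos h)).le
  have h2 : (1 : ℚ) ≤ x.den := by exact_mod_cast x.pos
  have h3 : |x| * x.den = x.num.natAbs := by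
    rw [Nat.cast_natAbs, Int.cast_abs, ← Rat.mul_den_eq_num, abs_mul, Nat.abs_cast]
  nlinarith [abs_nonneg x]

theorem itpt_int {x : ℚ} {D : ℕ} (h : x.den ∣ D) : ∃ z : ℤ, (D : ℚ) * x = z := by
  obtain ⟨c, rfl⟩ := h
  exact ⟨c * x.num, by push_cast; rw [← Rat.mul_den_eq_num]; ring⟩

theorem itpt_sz {x : ℚ} {D m n : ℕ} (h0 : 0 < D) (hD : D ≤ 2 ^ m) (h : ∃ z : ℤ, (D : ℚ) * x = z)
    (hx : |x| ≤ 2 ^ n) : sz x ≤ 5 * (m + n + 1) + 3 := by
  obtain ⟨z, hz⟩ := h
  have hD0 : (D : ℚ) ≠ 0 := by exact_mod_cast h0.ne'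
  have h1 : x.den ≤ 2 ^ m := by
    have e : x = (z : ℚ) / (D : ℤ) := by rw [← hz]; push_cast; field_simp
    have := Rat.den_dvd z D
    rw [Rat.divInt_eq_div, ← e] at this
    exact (Nat.le_of_dvd h0 (by exact_mod_cast this)).trans hD
  have h3 : |x| * x.den = x.num.natAbs := by
    rw [Nat.cast_natAbs, Int.cast_abs, ← Rat.mul_den_eq_num, abs_mul, Nat.abs_cast]
  have h4 : x.num.natAbs ≤ 2 ^ (m + n) := by
    have h5 : (x.den : ℚ) ≤ 2 ^ m := by exact_mod_cast h1
    have : (x.num.natAbs : ℚ) ≤ 2 ^ (m + n) := by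
      rw [← h3, pow_add, mul_comm]
      exact mul_le_mul h5 hx (abs_nonneg _) (by positivity)
    exact_mod_cast this
  refine sz_rat_le (h4.trans_lt (Nat.pow_lt_pow_right one_lt_two (by omega)))
    (h1.trans_lt (Nat.pow_lt_pow_right one_lt_two (by omega)))

theorem itpt_height {k B : ℕ} {A : ℕ → ℕ → ℚ} {b v : ℕ → ℚ}
    (hA : ∀ p < k, ∀ q < k, sz (A p q) ≤ B) (hb : ∀ p < k, sz (b p) ≤ B)
    (hv : ∀ p < k, sz (v p) ≤ B) (t : ℕ) {p : ℕ} (hp : p < k) :
    sz (itA k A b v t p) ≤ 5 * ((B + B + B * k) * k * (t + 1) + (k + B) * (t + 1) + 1) + 3 := by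
  set D : ℕ := ∏ p ∈ range k, (b p).den * (v p).den * ∏ q ∈ range k, (A p q).den with hD
  have hden : ∀ x : ℚ, sz x ≤ B → x.den ≤ 2 ^ B := fun x h =>
    ((den_lt_sz x).trans_le (Nat.pow_le_pow_right two_pos h)).le
  have h0 : 0 < D := prod_pos fun p _ =>
    mul_pos (mul_pos (b p).pos (v p).pos) (prod_pos fun q _ => (A p q).pos)
  have h1 : D ≤ 2 ^ ((B + B + B * k) * k) := by
    rw [pow_mul]
    refine (prod_le_pow_card _ _ _ fun p hp => ?_).trans (by rw [card_range])
    have hp := mem_range.1 hp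
    rw [pow_add, pow_add, pow_mul]
    refine Nat.mul_le_mul (Nat.mul_le_mul (hden _ (hb p hp)) (hden _ (hv p hp))) ?_
    exact (prod_le_pow_card _ _ _ fun q hq => hden _ (hA p hp q (mem_range.1 hq))).trans
      (by rw [card_range])
  have hdv : ∀ p < k, (b p).den * (v p).den * ∏ q ∈ range k, (A p q).den ∣ D := fun p hp =>
    dvd_prod_of_mem (fun p => (b p).den * (v p).den * ∏ q ∈ range k, (A p q).den) (mem_range.2 hp)
  have key : ∀ t, ∀ p < k, (∃ z : ℤ, ((D ^ (t + 1) : ℕ) : ℚ) * itA k A b v t p = z) ∧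
      |itA k A b v t p| ≤ 2 ^ ((k + B) * (t + 1)) := by
    intro t
    induction t with
    | zero =>
      intro p hp
      refine ⟨itpt_int ?_, (itpt_abs (hv p hp)).trans (pow_le_pow_right₀ one_le_two (by omega))⟩
      rw [zero_add, pow_one]
      exact ((Dvd.intro_left _ rfl).mul_right _).trans (hdv p hp)
    | succ t ih =>
      intro p hp
      constructor
      · obtain ⟨z, hz⟩ := itpt_int (((Dvd.intro _ rfl).mul_right _).trans (hdv p hp))
        choose! y hy using fun q hq => (ih q hq).1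
        choose! w hw using fun q (hq : q < k) => itpt_int
          (((dvd_prod_of_mem (fun q => (A p q).den) (mem_range.2 hq)).mul_left _).trans (hdv p hp))
        refine ⟨D ^ (t + 1) * z + ∑ q ∈ range k, w q * y q, ?_⟩
        push_cast at hy ⊢
        rw [itA, mul_add, mul_sum, ← hz, pow_succ _ (t + 1), mul_assoc]
        congr 1
        refine sum_congr rfl fun q hq => ?_
        rw [← hy q (mem_range.1 hq), ← hw q (mem_range.1 hq)]
        ring
      · have hM : (1 : ℚ) ≤ 2 ^ ((k + B) * (t + 1)) := one_le_pow₀ one_le_two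
        have hk : (k : ℚ) + 1 ≤ 2 ^ k := by exact_mod_cast Nat.lt_two_pow_self
        have h2 : |∑ q ∈ range k, A p q * itA k A b v t q| ≤
            k * (2 ^ B * 2 ^ ((k + B) * (t + 1))) := by
          refine (abs_sum_le_sum_abs _ _).trans ((sum_le_card_nsmul _ _ _ fun q hq => ?_).trans
            (by rw [card_range, nsmul_eq_mul]))
          rw [abs_mul]
          exact mul_le_mul (itpt_abs (hA p hp q (mem_range.1 hq))) (ih q (mem_range.1 hq)).2
            (abs_nonneg _) (by positivity)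
        have h3 : |b p| ≤ 2 ^ B * 2 ^ ((k + B) * (t + 1)) :=
          (itpt_abs (hb p hp)).trans (le_mul_of_one_le_right (by positivity) hM)
        have h4 := mul_le_mul_of_nonneg_right hk
          (show (0 : ℚ) ≤ 2 ^ B * 2 ^ ((k + B) * (t + 1)) by positivity)
        rw [itA, mul_add _ (t + 1), mul_one, pow_add, pow_add _ k B]
        refine (abs_add_le _ _).trans ?_
        linarith
  refine itpt_sz (pow_pos h0 _) ?_ (key t p hp).1 (key t p hp).2
  rw [pow_mul]
  exact Nat.pow_le_pow_left h1 _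

theorem itpt_list {β : Type} [Enc β] {n : ℕ} (f : ℕ → β) (k : ℕ) (h : ∀ p < k, sz (f p) ≤ n) :
    sz ((List.range k).map f) ≤ k * (2 * n + 1) := by
  induction k with
  | zero => simp
  | succ k ih =>
    have h1 := h k k.lt_succ_self
    have h2 := ih fun p hp => h p (hp.trans k.lt_succ_self)
    rw [List.range_succ, List.map_append, sz_append, Nat.add_mul k, List.map_singleton, sz_cons,
      sz_nil]
    omega

theorem itpt_step {k p : α → ℕ} {A : α → ℕ → ℕ → ℚ} {b : α → ℕ → ℚ} {L : α → List ℚ} (hk : PT k)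
    (hA : PT fun z : α × ℕ × ℕ => A z.1 z.2.1 z.2.2) (hb : PT fun z : α × ℕ => b z.1 z.2)
    (hL : PT L) (hp : PT p) :
    PT fun a => b a (p a) + ∑ q ∈ range (k a), A a (p a) q * (L a).getD q 0 :=
  pt_qadd (hb.comp (g := fun a => (a, p a)) (by fun_prop))
    (pt_fsum (f := fun a q => A a (p a) q * (L a).getD q 0)
      (pt_qmul (hA.comp (g := fun z : α × ℕ => (z.1, p z.1, z.2)) (by fun_prop)) (by fun_prop))
      (pt_frange hk))

theorem itpt_tab (k : ℕ) (A : ℕ → ℕ → ℚ) (b v : ℕ → ℚ) (t p : ℕ) :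
    b p + ∑ q ∈ range k, A p q * ((List.range k).map (itA k A b v t)).getD q 0 =
      itA k A b v (t + 1) p := by
  rw [itA]
  congr 1
  refine sum_congr rfl fun q hq => ?_
  simp [mem_range.1 hq]

theorem itpt_table {k t : α → ℕ} {A : α → ℕ → ℕ → ℚ} {b v : α → ℕ → ℚ} (hk : PT k)
    (hA : PT fun z : α × ℕ × ℕ => A z.1 z.2.1 z.2.2) (hb : PT fun z : α × ℕ => b z.1 z.2)
    (hv : PT fun z : α × ℕ => v z.1 z.2) (ht : PT t) :
    PT fun a => (List.range (k a)).map (itA (k a) (A a) (b a) (v a) (t a)) := by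
  let g : α × List ℚ → α × List ℚ := fun s => (s.1, (List.range (k s.1)).map fun p =>
    b s.1 p + ∑ q ∈ range (k s.1), A s.1 p q * s.2.getD q 0)
  have hg : PT g := by
    refine PT.mk (by fun_prop) (PT.map (f := fun (s : α × List ℚ) p =>
      b s.1 p + ∑ q ∈ range (k s.1), A s.1 p q * s.2.getD q 0) ?_ (by fun_prop))
    exact itpt_step (α := (α × List ℚ) × ℕ) (k := fun z => k z.1.1) (p := fun z => z.2)
      (A := fun z => A z.1.1) (b := fun z => b z.1.1) (L := fun z => z.1.2) (by fun_prop)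
      (hA.comp (g := fun z : ((α × List ℚ) × ℕ) × ℕ × ℕ => (z.1.1.1, z.2)) (by fun_prop))
      (hb.comp (g := fun z : ((α × List ℚ) × ℕ) × ℕ => (z.1.1.1, z.2)) (by fun_prop))
      (by fun_prop) (by fun_prop)
  have key : ∀ a i, g^[i] (a, (List.range (k a)).map (v a)) =
      (a, (List.range (k a)).map (itA (k a) (A a) (b a) (v a) i)) := by
    intro a i
    induction i with
    | zero => rfl
    | succ i ih =>
      rw [Function.iterate_succ_apply', ih]
      exact Prod.ext rfl (List.map_congr_left fun p _ => itpt_tab _ _ _ _ _ _)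
  obtain ⟨B, hB, hm⟩ : ∃ B : α → ℕ, PT B ∧ ∀ a, ∀ p < k a,
      sz (b a p, v a p, (List.range (k a)).map (A a p)) ≤ B a := by
    refine ⟨_, pt_sz (PT.map (f := fun a p => (b a p, v a p, (List.range (k a)).map (A a p)))
      (hb.mk (hv.mk (PT.map (f := fun z : α × ℕ => A z.1 z.2) ?_ (hk.comp (PT.fst PT.id')).range)))
      hk.range), fun a p hp => sz_le_of_mem (List.mem_map_of_mem (List.mem_range.2 hp))⟩
    exact hA.comp (g := fun z : (α × ℕ) × ℕ => (z.1.1, z.1.2, z.2)) (by fun_prop)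
  obtain ⟨r, hr⟩ := PT.size (f := fun a => 2 * sz a + 1 + k a * (2 * (5 *
    ((B a + B a + B a * k a) * k a * (t a + 1) + (k a + B a) * (t a + 1) + 1) + 3) + 1))
    (by fun_prop)
  refine (PT.iterate (s0 := fun a => (a, (List.range (k a)).map (v a))) hg ht
    (PT.id'.mk (PT.map hv hk.range)) r fun a i hi => ?_).snd.congr fun a => by rw [key]
  refine le_trans ?_ (hr a)
  rw [key, sz_prod, sz_nat]
  refine Nat.add_le_add_left (itpt_list _ _ fun p hp => ?_) _
  refine (itpt_height (B := B a) (fun p hp q hq => ?_) (fun p hp => ?_) (fun p hp => ?_) i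
    hp).trans (by gcongr)
  · have h1 := hm a p hp
    have h2 : sz (A a p q) ≤ sz ((List.range (k a)).map (A a p)) :=
      sz_le_of_mem (List.mem_map_of_mem (List.mem_range.2 hq))
    simp only [sz_prod] at h1
    omega
  · have h1 := hm a p hp
    simp only [sz_prod] at h1
    omega
  · have h1 := hm a p hp
    simp only [sz_prod] at h1
    omega

theorem pt_itA {k t p : α → ℕ} {A : α → ℕ → ℕ → ℚ} {b v : α → ℕ → ℚ} (hk : PT k)
    (hA : PT fun z : α × ℕ × ℕ => A z.1 z.2.1 z.2.2) (hb : PT fun z : α × ℕ => b z.1 z.2)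
    (hv : PT fun z : α × ℕ => v z.1 z.2) (ht : PT t) (hp : PT p) :
    PT fun a => itA (k a) (A a) (b a) (v a) (t a) (p a) := by
  refine (PT.ite (c := fun a => t a = 0) (by fun_prop)
    (hv.comp (g := fun a => (a, p a)) (by fun_prop))
    (itpt_step hk hA hb (itpt_table (t := fun a => t a - 1) hk hA hb hv (by fun_prop)) hp)).congr
    fun a => ?_
  split_ifs with h
  · rw [h]; rfl
  · rw [itpt_tab, Nat.sub_add_cancel (Nat.pos_of_ne_zero h)]

theorem itpt_lam {k : α → ℕ} {A : α → ℕ → ℕ → ℚ} (hk : PT k)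
    (hA : PT fun z : α × ℕ × ℕ => A z.1 z.2.1 z.2.2) : PT fun a => lam (k a) (A a) :=
  pt_fsum (f := fun a p => ∑ q ∈ range (k a), |A a p q|)
    (pt_fsum (f := fun (z : α × ℕ) q => |A z.1 z.2 q|)
      (pt_qabs (hA.comp (g := fun z : (α × ℕ) × ℕ => (z.1.1, z.1.2, z.2)) (by fun_prop)))
      (by fun_prop)) (pt_frange hk)

theorem itpt_col {k t i p : α → ℕ} {A : α → ℕ → ℕ → ℚ} (hk : PT k)
    (hA : PT fun z : α × ℕ × ℕ => A z.1 z.2.1 z.2.2) (ht : PT t) (hi : PT i) (hp : PT p) :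
    PT fun a => col (k a) (A a) (t a) (i a) (p a) := by
  have hl := itpt_lam hk hA
  exact pt_itA (A := fun a p q => (if p = q then lam (k a) (A a) else 0) - A a p q)
    (b := fun _ _ => 0) (v := fun a => un (i a)) hk
    (pt_qsub (PT.ite (by fun_prop) (hl.comp (PT.fst PT.id')) (PT.const _)) hA) (PT.const _)
    (PT.ite (c := fun z : α × ℕ => z.2 = i z.1) (by fun_prop) (PT.const _) (PT.const _)) ht hp

theorem itpt_ray {k : α → ℕ} {A : α → ℕ → ℕ → ℚ} {v : α → ℕ → ℚ} (hk : PT k)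
    (hA : PT fun z : α × ℕ × ℕ => A z.1 z.2.1 z.2.2) (hv : PT fun z : α × ℕ => v z.1 z.2) :
    PT fun a => ray (k a) (A a) (v a) :=
  pt_qdiv (pt_fsum (f := fun a p => ∑ q ∈ range (k a), A a p q * v a p * v a q)
    (pt_fsum (f := fun (z : α × ℕ) q => A z.1 z.2 q * v z.1 z.2 * v z.1 q)
      (pt_qmul (pt_qmul (hA.comp (g := fun z : (α × ℕ) × ℕ => (z.1.1, z.1.2, z.2)) (by fun_prop))
        (hv.comp (PT.fst PT.id'))) (hv.comp (g := fun z : (α × ℕ) × ℕ => (z.1.1, z.2)) (by fun_prop)))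
      (by fun_prop)) (pt_frange hk))
    (pt_fsum (f := fun a p => v a p ^ 2) (pt_qpow hv (PT.const 2)) (pt_frange hk))

theorem itpt_best {k t : α → ℕ} {A : α → ℕ → ℕ → ℚ} (hk : PT k)
    (hA : PT fun z : α × ℕ × ℕ => A z.1 z.2.1 z.2.2) (ht : PT t) :
    PT fun a => best (k a) (A a) (t a) :=
  pt_amin (f := fun a i => ray (k a) (A a) (col (k a) (A a) (t a) i))
    (itpt_ray (α := α × ℕ) (k := fun z => k z.1) (A := fun z => A z.1)
      (v := fun z => col (k z.1) (A z.1) (t z.1) z.2) (by fun_prop)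
      (hA.comp (g := fun z : (α × ℕ) × ℕ × ℕ => (z.1.1, z.2)) (by fun_prop))
      (itpt_col (α := (α × ℕ) × ℕ) (A := fun z => A z.1.1) (by fun_prop)
        (hA.comp (g := fun z : ((α × ℕ) × ℕ) × ℕ × ℕ => (z.1.1.1, z.2)) (by fun_prop))
        (by fun_prop) (by fun_prop) (by fun_prop))) (PT.const 0) hk.range

theorem itpt_supn {k : α → ℕ} {v : α → ℕ → ℚ} (hk : PT k) (hv : PT fun z : α × ℕ => v z.1 z.2) :
    PT fun a => supn (k a) (v a) :=
  pt_qabs (f := fun a => v a (amin (fun p => -|v a p|) 0 (List.range (k a))))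
    (hv.comp (g := fun a => (a, amin (fun p => -|v a p|) 0 (List.range (k a)))) (PT.id'.mk
      (pt_amin (f := fun a p => -|v a p|) (pt_qneg (pt_qabs hv)) (PT.const 0) hk.range)))

theorem pt_neg {k t R p : α → ℕ} {A : α → ℕ → ℕ → ℚ} (hk : PT k)
    (hA : PT fun z : α × ℕ × ℕ => A z.1 z.2.1 z.2.2) (ht : PT t) (hR : PT R) (hp : PT p) :
    PT fun a => neg (k a) (A a) (t a) (R a) (p a) := by
  have hb := itpt_best hk hA ht
  refine pt_qfloor (pt_qdiv (pt_qmul (pt_natCast hR) (itpt_col hk hA ht hb hp)) (itpt_supn hk ?_))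
  exact itpt_col (α := α × ℕ) (A := fun z => A z.1) (by fun_prop)
    (hA.comp (g := fun z : (α × ℕ) × ℕ × ℕ => (z.1.1, z.2)) (by fun_prop)) (by fun_prop)
    (hb.comp (PT.fst PT.id')) (by fun_prop)

end Pool.Agent.P.MP_1639c2_lc.W
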