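import Pool.Agent.P.MP_1639c2_lc.W.Moves1
import Pool.Agent.P.MP_1639c2_lc.W.Amin

/-! The first phase. -/

namespace Pool.Agent.P.MP_1639c2_lc.W

open Finset

variable {M : Matroid ℕ} {O : List Bool → Bool} {P : Par}

theorem lp_cands {n N : ℕ} {A : List Cp} {Bs Cs : Cp} : Cs ∈ cands n N A Bs ↔
    ∃ k < N, ∃ i < n, ∃ j < n, ar A k i j = true ∧ put N Bs k (sw n (Bs.getD k []) i j) = Cs := by
  simp only [cands, List.mem_flatMap, List.mem_range, List.mem_map, List.mem_filter, and_assoc]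

theorem lp_bas_step (hO : Orc M P.n O) {Bs : Cp} (h : Bas M P.n P.N Bs) (c : List ℤ)
    (bd : List (ℤ × ℤ)) (g : ℚ) : Bas M P.n P.N (lpStep P c bd g (arcs O P.n P.N Bs) Bs) := by
  refine bas_nrm ?_
  rcases amin_mem (fun Cs => FL P c bd g (xq P.N Cs)) (cands P.n P.N (arcs O P.n P.N Bs) Bs) Bs
    with e | e
  · rw [e]
    exact h
  · obtain ⟨k, hk, i, -, j, hj, ha, e'⟩ := lp_cands.1 e
    rw [← e']
    exact bas_put_sw h hj ((ar_iff hO h hk).1 ha)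

theorem lp_bas_iter (hO : Orc M P.n O) (c : List ℤ) (bd : List (ℤ × ℤ)) (g : ℚ) (t : ℕ) :
    Bas M P.n P.N ((fun Bs => lpStep P c bd g (arcs O P.n P.N Bs) Bs)^[t]
      (List.replicate P.N (greedy O P.n))) := by
  induction t with
  | zero =>
    intro k hk
    simpa [cs, List.getD_eq_getElem?_getD, hk] using greedy_base hO
  | succ t ih =>
    rw [Function.iterate_succ_apply']
    exact lp_bas_step hO ih c bd g

theorem bas_lp (hO : Orc M P.n O) (c : List ℤ) (bd : List (ℤ × ℤ)) (g : ℚ) (b : ℕ) :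
    Bas M P.n P.N (lp O P c bd g b) := lp_bas_iter hO c bd g _

theorem lp_congr (c : List ℤ) (bd : List (ℤ × ℤ)) (g : ℚ) {x x' : ℕ → ℚ}
    (h : ∀ i < P.n, x i = x' i) : FL P c bd g x = FL P c bd g x' := by
  have h1 : ∀ j, P.aa (range P.n) x j = P.aa (range P.n) x' j := fun j =>
    sum_congr rfl fun i hi => h i (mem_range.1 (mem_filter.1 hi).1)
  have h2 : costx P.n c x = costx P.n c x' :=
    sum_congr rfl fun i hi => by rw [h i (mem_range.1 hi)]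
  simp only [FL, h1, h2]

theorem lp_max (s t : ℚ) : max s 0 ^ 2 + 2 * max s 0 * t ≤ max (s + t) 0 ^ 2 ∧
    max (s + t) 0 ^ 2 ≤ max s 0 ^ 2 + 2 * max s 0 * t + t ^ 2 := by
  rcases le_total s 0 with h | h <;> rcases le_total (s + t) 0 with h' | h'
  · rw [max_eq_right h, max_eq_right h']
    constructor <;> nlinarith [sq_nonneg t]
  · rw [max_eq_right h, max_eq_left h']
    constructor <;> nlinarith [sq_nonneg (s + t), sq_nonneg s, mul_nonneg (neg_nonneg.2 h) h']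
  · rw [max_eq_left h, max_eq_right h']
    constructor <;> nlinarith [sq_nonneg (s + t), sq_nonneg s, mul_nonneg h (neg_nonneg.2 h')]
  · rw [max_eq_left h, max_eq_left h']
    constructor <;> nlinarith [sq_nonneg t]

theorem lp_row (l h a e : ℚ) :
    max (l - a) 0 ^ 2 + max (a - h) 0 ^ 2 + 2 * ((max (a - h) 0 - max (l - a) 0) * e) ≤
      max (l - (a + e)) 0 ^ 2 + max (a + e - h) 0 ^ 2 ∧
    max (l - (a + e)) 0 ^ 2 + max (a + e - h) 0 ^ 2 ≤ max (l - a) 0 ^ 2 + max (a - h) 0 ^ 2 +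
      2 * ((max (a - h) 0 - max (l - a) 0) * e) + 2 * e ^ 2 := by
  have h1 := lp_max (l - a) (-e)
  have h2 := lp_max (a - h) e
  rw [show l - (a + e) = l - a + -e by ring, show a + e - h = a - h + e by ring]
  constructor <;> linarith [h1.1, h1.2, h2.1, h2.2]

/-- The gradient of `FL`. -/
def lpW (P : Par) (c : List ℤ) (bd : List (ℤ × ℤ)) (g : ℚ) (x : ℕ → ℚ) (i : ℕ) : ℚ :=
  cq c i / g + 8 * ∑ j ∈ range P.m, if P.inc j i = true then
    max (P.aa (range P.n) x j - hi bd j) 0 - max (lo bd j - P.aa (range P.n) x j) 0 else 0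

theorem lp_aa (S : Finset ℕ) (d : ℕ → ℚ) (j : ℕ) (a : ℚ) :
    a * P.aa S d j = ∑ i ∈ S, (if P.inc j i = true then a else 0) * d i := by
  rw [Par.aa, Par.row, sum_filter, mul_sum]
  refine sum_congr rfl fun i _ => ?_
  split_ifs <;> simp

theorem lp_grad (c : List ℤ) (bd : List (ℤ × ℤ)) (g : ℚ) (x d : ℕ → ℚ) :
    FL P c bd g x + ∑ i ∈ range P.n, lpW P c bd g x i * d i ≤ FL P c bd g (fun i => x i + d i) ∧
    FL P c bd g (fun i => x i + d i) ≤ FL P c bd g x + ∑ i ∈ range P.n, lpW P c bd g x i * d i +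
      8 * ∑ j ∈ range P.m, P.aa (range P.n) d j ^ 2 := by
  have h0 : ∑ i ∈ range P.n, lpW P c bd g x i * d i = costx P.n c d / g +
      8 * ∑ j ∈ range P.m, (max (P.aa (range P.n) x j - hi bd j) 0 -
        max (lo bd j - P.aa (range P.n) x j) 0) * P.aa (range P.n) d j := by
    rw [sum_congr rfl fun j _ => lp_aa (range P.n) d j _, sum_comm, costx, sum_div, mul_sum,
      ← sum_add_distrib]
    refine sum_congr rfl fun i _ => ?_
    rw [lpW, ← sum_mul]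
    ring
  have ha : ∀ j, P.aa (range P.n) (fun i => x i + d i) j =
      P.aa (range P.n) x j + P.aa (range P.n) d j := fun j => sum_add_distrib
  have hc : costx P.n c (fun i => x i + d i) = costx P.n c x + costx P.n c d := by
    simp only [costx, mul_add, sum_add_distrib]
  have h1 := sum_le_sum (s := range P.m) fun j _ =>
    (lp_row (lo bd j) (hi bd j) (P.aa (range P.n) x j) (P.aa (range P.n) d j)).1
  have h2 := sum_le_sum (s := range P.m) fun j _ =>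
    (lp_row (lo bd j) (hi bd j) (P.aa (range P.n) x j) (P.aa (range P.n) d j)).2
  rw [sum_add_distrib, ← mul_sum] at h1
  rw [sum_add_distrib (g := fun j => 2 * P.aa (range P.n) d j ^ 2), ← mul_sum,
    sum_add_distrib (g := fun j => 2 * _), ← mul_sum] at h2
  rw [h0]
  simp only [FL, ha, hc, add_div]
  constructor <;> linarith

theorem lp_step (hP : P.WF) (hO : Orc M P.n O) {Bs : Cp} (h : Bas M P.n P.N Bs) (c : List ℤ)
    (bd : List (ℤ × ℤ)) (g : ℚ) {z : ℕ → ℚ} (hz : ∀ w : ℕ → ℚ, ∃ X : Finset ℕ,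
      M.IsBase (X : Set ℕ) ∧ ∑ i ∈ X, w i ≤ ∑ i ∈ range P.n, w i * z i) :
    FL P c bd g (xq P.N (lpStep P c bd g (arcs O P.n P.N Bs) Bs)) - FL P c bd g z ≤
      max (FL P c bd g (xq P.N Bs) - FL P c bd g z) 0 * (1 - 1 / (2 * P.u * P.N)) +
        8 * P.u / (P.N : ℚ) ^ 2 := by
  have hu : 0 < P.u := lt_of_lt_of_le (by norm_num) hP.u16
  have hU : (0 : ℚ) < P.u := by exact_mod_cast hu
  have hN' : 0 < P.N := pow_pos hu _
  have hN : (0 : ℚ) < P.N := by exact_mod_cast hN'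
  rw [lp_congr c bd g (x' := xq P.N (amin (fun Cs => FL P c bd g (xq P.N Cs)) Bs
    (cands P.n P.N (arcs O P.n P.N Bs) Bs))) fun i hi => by rw [lpStep, xq, xq, cnt_nrm _ hi]]
  rcases le_or_gt (FL P c bd g (xq P.N Bs) - FL P c bd g z) 0 with hg | hg
  · have h1 := amin_le_def (fun Cs => FL P c bd g (xq P.N Cs))
      (cands P.n P.N (arcs O P.n P.N Bs) Bs) Bs
    have h2 : 0 ≤ 8 * P.u / (P.N : ℚ) ^ 2 := by positivity
    rw [max_eq_right hg]
    linarith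
  rw [max_eq_left hg.le]
  obtain ⟨w, hw⟩ : ∃ w, w = lpW P c bd g (xq P.N Bs) := ⟨_, rfl⟩
  obtain ⟨X, hX, hX'⟩ := hz w
  have h1 := (lp_grad (P := P) c bd g (xq P.N Bs) fun i => z i - xq P.N Bs i).1
  simp only [add_sub_cancel, mul_sub, sum_sub_distrib, ← hw] at h1
  rw [wsum_xq] at h1
  obtain ⟨k, hk, h2⟩ : ∃ k ∈ range P.N,
      (∑ k ∈ range P.N, ∑ i ∈ cs P.n Bs k, w i) / P.N ≤ ∑ i ∈ cs P.n Bs k, w i := by
    refine exists_le_of_sum_le ⟨0, mem_range.2 hN'⟩ (le_of_eq ?_)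
    rw [sum_const, card_range, nsmul_eq_mul, mul_div_cancel₀ _ hN.ne']
  rw [mem_range] at hk
  obtain ⟨G, hG⟩ : ∃ G, G = FL P c bd g (xq P.N Bs) - FL P c bd g z := ⟨_, rfl⟩
  rw [← hG] at hg
  obtain ⟨i, j, ha, h3⟩ : ∃ i j, Arc M (cs P.n Bs k) i j ∧ G / (2 * P.u) < w i - w j := by
    by_contra hn
    push Not at hn
    have h3 := loc_opt (h k hk) hX w _ hn
    have h4 : ((X \ cs P.n Bs k).card : ℚ) ≤ P.u := by
      have := card_le_card (sdiff_subset.trans (base_sub hO.gr hX) : X \ cs P.n Bs k ⊆ _)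
      rw [card_range] at this
      exact_mod_cast this.trans hP.nu
    have h5 : (P.u : ℚ) * (G / (2 * P.u)) = G / 2 := by field_simp
    have h6 := mul_le_mul_of_nonneg_right h4 (show 0 ≤ G / (2 * P.u) by positivity)
    have h7 : FL P c bd g (fun i => z i) = FL P c bd g z := rfl
    linarith
  have hi : i < P.n := (mem_cs.1 ha.1).1
  have hj : j < P.n := mem_range.1 (base_sub hO.gr ha.2.2 (mem_insert_self _ _))
  have h4 := amin_le (fun Cs => FL P c bd g (xq P.N Cs)) _ Bs _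
    ((lp_cands (Bs := Bs)).2 ⟨k, hk, i, hi, j, hj, (ar_iff hO h hk).2 ha, rfl⟩)
  obtain ⟨d, hd⟩ : ∃ d : ℕ → ℚ,
      d = fun v => ((if j = v then 1 else 0) - (if i = v then 1 else 0)) / (P.N : ℚ) := ⟨_, rfl⟩
  have e1 : FL P c bd g (xq P.N (put P.N Bs k (sw P.n (Bs.getD k []) i j))) =
      FL P c bd g fun v => xq P.N Bs v + d v := lp_congr c bd g fun v hv => by
    have h5 : (cnt P.N (put P.N Bs k (sw P.n (Bs.getD k []) i j)) v : ℚ) =
        cnt P.N Bs v + (if j = v then 1 else 0) - (if i = v then 1 else 0) := by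
      exact_mod_cast cnt_put_sw hk hj hv ha.1 ha.2.1
    rw [xq, xq, h5, hd]
    ring
  have h5 := (lp_grad (P := P) c bd g (xq P.N Bs) d).2
  rw [← hw] at h5
  have e2 : ∑ v ∈ range P.n, w v * d v = (w j - w i) / P.N := by
    simp [hd, ← mul_div_assoc, ← sum_div, mul_sub, sum_sub_distrib, hi, hj]
  have e3 : ∑ s ∈ range P.m, P.aa (range P.n) d s ^ 2 ≤ P.u / (P.N : ℚ) ^ 2 := by
    have h6 : ∀ s ∈ range P.m, P.aa (range P.n) d s ^ 2 ≤ 1 / (P.N : ℚ) ^ 2 := fun s _ => by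
      simp only [hd, Par.aa, ← sum_div, sum_sub_distrib, sum_ite_eq, div_pow]
      refine div_le_div_of_nonneg_right ?_ (by positivity)
      split_ifs <;> norm_num
    refine (sum_le_card_nsmul _ _ _ h6).trans ?_
    rw [card_range, nsmul_eq_mul, mul_one_div]
    exact div_le_div_of_nonneg_right (by exact_mod_cast hP.mu) (by positivity)
  have e4 : (w j - w i) / P.N ≤ -(G / (2 * P.u)) / P.N :=
    div_le_div_of_nonneg_right (by linarith) hN.le
  have e5 : G * (1 - 1 / (2 * P.u * P.N)) = G + -(G / (2 * P.u)) / P.N := by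
    field_simp
    ring
  rw [← hG, e5, mul_div_assoc]
  simp only [e1] at h4
  linarith

theorem lp_ind {n : ℕ} {X : Finset ℕ} (hX : X ⊆ range n) (w : ℕ → ℚ) :
    ∑ i ∈ range n, w i * (if i ∈ X then 1 else 0) = ∑ i ∈ X, w i := by
  simp only [mul_ite, mul_one, mul_zero]
  rw [sum_ite_mem, inter_eq_right.2 hX]

theorem lp_cost {n : ℕ} (c : List ℤ) {g B : ℚ} (hg : 1 ≤ g) (hb : ∑ i ∈ range n, |cq c i| ≤ B)
    {x : ℕ → ℚ} (hx : ∀ i, 0 ≤ x i ∧ x i ≤ 1) : |costx n c x / g| ≤ B := by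
  rw [abs_div, abs_of_pos (one_pos.trans_le hg)]
  refine (div_le_self (abs_nonneg _) hg).trans ((abs_sum_le_sum_abs _ _).trans
    ((sum_le_sum fun i _ => ?_).trans hb))
  rw [abs_mul, abs_of_nonneg (hx i).1]
  exact mul_le_of_le_one_right (abs_nonneg _) (hx i).2

theorem lp_pen (hP : P.WF) (c : List ℤ) (bd : List (ℤ × ℤ)) (g : ℚ) {x : ℕ → ℚ} {e : ℚ}
    (he : 0 ≤ e) (h : ∀ j < P.m, lo bd j - P.aa (range P.n) x j ≤ e ∧
      P.aa (range P.n) x j - hi bd j ≤ e) :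
    costx P.n c x / g ≤ FL P c bd g x ∧ FL P c bd g x ≤ costx P.n c x / g + 8 * P.u * e ^ 2 := by
  have h1 : ∀ s : ℚ, s ≤ e → max s 0 ^ 2 ≤ e ^ 2 := fun s hs =>
    pow_le_pow_left₀ (le_max_right _ _) (max_le hs he) 2
  have h2 := sum_le_card_nsmul (range P.m) _ _ fun j hj =>
    add_le_add (h1 _ (h j (mem_range.1 hj)).1) (h1 _ (h j (mem_range.1 hj)).2)
  rw [card_range, nsmul_eq_mul] at h2
  have h3 : (P.m : ℚ) * (e ^ 2 + e ^ 2) ≤ P.u * (e ^ 2 + e ^ 2) :=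
    mul_le_mul_of_nonneg_right (by exact_mod_cast hP.mu) (by positivity)
  refine ⟨le_add_of_nonneg_right (by positivity), ?_⟩
  rw [FL]
  linarith

theorem lp_half {K : ℕ} (hK : 0 < K) : (1 - 1 / (K : ℚ)) ^ K ≤ 1 / 2 := by
  have h0 : (1 : ℚ) ≤ K := by exact_mod_cast hK
  have h1 : 0 ≤ 1 / (K : ℚ) := by positivity
  have h2 : 1 / (K : ℚ) ≤ 1 := (div_le_one (by positivity)).2 h0
  have h3 := one_add_mul_le_pow (a := 1 / (K : ℚ)) (by linarith) K
  rw [mul_one_div_cancel (by positivity)] at h3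
  have h4 : (1 - 1 / (K : ℚ)) ^ K * (1 + 1 / (K : ℚ)) ^ K ≤ 1 := by
    rw [← mul_pow]
    exact pow_le_one₀ (mul_nonneg (by linarith) (by linarith)) (by nlinarith)
  have h5 : 0 ≤ (1 - 1 / (K : ℚ)) ^ K := pow_nonneg (by linarith) _
  nlinarith

theorem lp_num {u : ℕ} (hu : 16 ≤ u) (b : ℕ) :
    (2 * 2 ^ b + 8 * (u : ℚ) ^ 3) * (1 / 2) ^ (b + 10 * u) + 16 * (u : ℚ) ^ 2 / (u : ℚ) ^ 75 ≤
      1 / (4 * (u : ℚ) ^ 4) := by
  have hU : (16 : ℚ) ≤ u := by exact_mod_cast hu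
  have h0 : (0 : ℚ) < u := by linarith
  have h1 : (u : ℚ) ≤ 2 ^ u := by exact_mod_cast (Nat.lt_two_pow_self (n := u)).le
  have h2 : (1 / 2 : ℚ) ^ (10 * u) ≤ 1 / (u : ℚ) ^ 10 := by
    rw [one_div_pow, mul_comm, pow_mul]
    exact one_div_le_one_div_of_le (by positivity) (pow_le_pow_left₀ h0.le h1 _)
  have h3 : (2 * 2 ^ b + 8 * (u : ℚ) ^ 3) * (1 / 2) ^ b ≤ 2 + 8 * (u : ℚ) ^ 3 := by
    have e1 : (2 : ℚ) ^ b * (1 / 2) ^ b = 1 := by
      rw [← mul_pow]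
      norm_num
    have e2 : (1 / 2 : ℚ) ^ b ≤ 1 := pow_le_one₀ (by norm_num) (by norm_num)
    have e3 := mul_le_mul_of_nonneg_left e2 (show 0 ≤ 8 * (u : ℚ) ^ 3 by positivity)
    nlinarith
  have h4 : (16 : ℚ) ^ 3 ≤ (u : ℚ) ^ 3 := pow_le_pow_left₀ (by norm_num) hU 3
  have h5 : (2 + 8 * (u : ℚ) ^ 3) * (1 / (u : ℚ) ^ 10) ≤ 1 / (8 * (u : ℚ) ^ 4) := by
    rw [mul_one_div, div_le_div_iff₀ (by positivity) (by positivity)]
    have e1 : (2 + 8 * (u : ℚ) ^ 3) * 8 ≤ (u : ℚ) ^ 3 * (u : ℚ) ^ 3 := by nlinarith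
    have e2 := mul_le_mul_of_nonneg_right e1 (show 0 ≤ (u : ℚ) ^ 4 by positivity)
    linarith [show (u : ℚ) ^ 3 * (u : ℚ) ^ 3 * (u : ℚ) ^ 4 = (u : ℚ) ^ 10 by ring]
  have h6 : 16 * (u : ℚ) ^ 2 / (u : ℚ) ^ 75 ≤ 1 / (8 * (u : ℚ) ^ 4) := by
    rw [div_le_div_iff₀ (by positivity) (by positivity)]
    have e1 : (u : ℚ) ^ 9 ≤ (u : ℚ) ^ 75 := pow_le_pow_right₀ (by linarith) (by norm_num)
    have e2 := mul_le_mul_of_nonneg_right h4 (show 0 ≤ (u : ℚ) ^ 6 by positivity)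
    have e3 : 0 ≤ (u : ℚ) ^ 6 := by positivity
    linarith [show (u : ℚ) ^ 3 * (u : ℚ) ^ 6 = (u : ℚ) ^ 9 by ring,
      show 16 * (u : ℚ) ^ 2 * (8 * (u : ℚ) ^ 4) = 128 * (u : ℚ) ^ 6 by ring]
  have h7 := mul_le_mul h3 h2 (by positivity) (by positivity)
  rw [pow_add, ← mul_assoc]
  linarith [show 1 / (4 * (u : ℚ) ^ 4) = 1 / (8 * (u : ℚ) ^ 4) + 1 / (8 * (u : ℚ) ^ 4) by
    field_simp; norm_num]

theorem lp_spec (hP : P.WF) (hO : Orc M P.n O) (c : List ℤ) (bd : List (ℤ × ℤ)) {g : ℚ} {b : ℕ}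
    (hg : 1 ≤ g) (hb : ∑ i ∈ range P.n, |cq c i| ≤ 2 ^ b) {Z Y : Finset ℕ}
    (hZ : M.IsBase (Z : Set ℕ)) (hY : M.IsBase (Y : Set ℕ))
    (hf : ∀ j < P.m, lo bd j ≤ ((P.row Z j).card : ℚ) ∧ ((P.row Z j).card : ℚ) ≤ hi bd j) :
    FL P c bd g (xq P.N (lp O P c bd g b)) ≤
      (1 - 1 / (P.u : ℚ) ^ 4) * ((∑ i ∈ Z, cq c i) / g) +
        1 / (P.u : ℚ) ^ 4 * ((∑ i ∈ Y, cq c i) / g) + 3 / (4 * (P.u : ℚ) ^ 4) := by
  have hU : (16 : ℚ) ≤ P.u := by exact_mod_cast hP.u16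
  have hU0 : (0 : ℚ) < P.u := by linarith
  have hu : 0 < P.u := by exact_mod_cast hU0
  have hN' : 0 < P.N := pow_pos hu _
  have hN : (0 : ℚ) < P.N := by exact_mod_cast hN'
  obtain ⟨o, ho⟩ : ∃ o : ℚ, o = 1 / (P.u : ℚ) ^ 4 := ⟨_, rfl⟩
  have o0 : 0 ≤ o := by rw [ho]; positivity
  have o1 : o ≤ 1 := by
    rw [ho]
    exact (div_le_one (by positivity)).2 (one_le_pow₀ (by linarith))
  obtain ⟨z, hz⟩ : ∃ z : ℕ → ℚ, z = fun i =>
      (1 - o) * (if i ∈ Z then 1 else 0) + o * (if i ∈ Y then 1 else 0) := ⟨_, rfl⟩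
  have sZ := base_sub hO.gr hZ
  have sY := base_sub hO.gr hY
  have z1 : ∀ w : ℕ → ℚ, ∑ i ∈ range P.n, w i * z i = (1 - o) * ∑ i ∈ Z, w i + o * ∑ i ∈ Y, w i :=
    fun w => by
      rw [← lp_ind sZ, ← lp_ind sY, mul_sum, mul_sum, ← sum_add_distrib, hz]
      exact sum_congr rfl fun i _ => by ring
  have z2 : ∀ w : ℕ → ℚ, ∃ X : Finset ℕ,
      M.IsBase (X : Set ℕ) ∧ ∑ i ∈ X, w i ≤ ∑ i ∈ range P.n, w i * z i := fun w => by
    rw [z1]
    rcases le_total (∑ i ∈ Z, w i) (∑ i ∈ Y, w i) with e | e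
    · exact ⟨Z, hZ, by nlinarith⟩
    · exact ⟨Y, hY, by nlinarith⟩
  have z3 : ∀ i, 0 ≤ z i ∧ z i ≤ 1 := fun i => by
    rw [hz]
    beta_reduce
    split_ifs <;> constructor <;> linarith
  have r1 : ∀ X : Finset ℕ, X ⊆ range P.n → ∀ j, 0 ≤ ((P.row X j).card : ℚ) ∧
      ((P.row X j).card : ℚ) ≤ P.u := fun X hX j => by
    have := card_le_card ((filter_subset _ _).trans hX : P.row X j ⊆ _)
    rw [card_range] at this
    exact ⟨by positivity, by exact_mod_cast this.trans hP.nu⟩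
  have z4 : ∀ j, P.aa (range P.n) z j = (1 - o) * (P.row Z j).card + o * (P.row Y j).card :=
    fun j => by
      rw [← one_mul (P.aa (range P.n) z j), lp_aa, z1, sum_boole, sum_boole]
      rfl
  have z5 := lp_pen hP c bd g (x := z) (e := o * P.u) (by positivity) fun j hj => by
    have a1 := r1 Z sZ j
    have a2 := r1 Y sY j
    have a3 := hf j hj
    rw [z4]
    constructor <;> nlinarith [mul_nonneg o0 a1.1, mul_nonneg o0 a2.1,
      mul_le_mul_of_nonneg_left a1.2 o0, mul_le_mul_of_nonneg_left a2.2 o0]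
  have z6 : 8 * P.u * (o * P.u) ^ 2 ≤ 1 / (2 * (P.u : ℚ) ^ 4) := by
    rw [ho, show 8 * P.u * (1 / (P.u : ℚ) ^ 4 * P.u) ^ 2 = 8 / (P.u * (P.u : ℚ) ^ 4) by field_simp,
      div_le_div_iff₀ (by positivity) (by positivity)]
    nlinarith [show 0 ≤ (P.u : ℚ) ^ 4 by positivity]
  have z7 := abs_le.1 (lp_cost c hg hb z3)
  obtain ⟨q, hq⟩ : ∃ q : ℚ, q = 1 - 1 / (2 * P.u * P.N) := ⟨_, rfl⟩
  have q1 : q ^ (2 * P.u * P.N) ≤ 1 / 2 := by
    have := lp_half (K := 2 * P.u * P.N) (by positivity)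
    rw [hq]
    exact_mod_cast this
  have q0 : 0 ≤ q := by
    have h1 : (1 : ℚ) ≤ P.N := by exact_mod_cast hN'
    rw [hq, sub_nonneg]
    exact (div_le_one (by positivity)).2 (by nlinarith)
  have key : ∀ t, FL P c bd g (xq P.N ((fun Bs => lpStep P c bd g (arcs O P.n P.N Bs) Bs)^[t]
      (List.replicate P.N (greedy O P.n)))) - FL P c bd g z ≤
      (2 * 2 ^ b + 8 * (P.u : ℚ) ^ 3) * q ^ t + 16 * (P.u : ℚ) ^ 2 / P.N := fun t => by
    induction t with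
    | zero =>
      have x1 := xq_unit P.N (List.replicate P.N (greedy O P.n))
      have x2 := abs_le.1 (lp_cost c hg hb x1)
      have x3 := (lp_pen hP c bd g (x := xq P.N (List.replicate P.N (greedy O P.n))) hU0.le
        fun j hj => by
          have a1 := r1 Z sZ j
          have a3 := hf j hj
          have a4 : 0 ≤ P.aa (range P.n) (xq P.N (List.replicate P.N (greedy O P.n))) j :=
            sum_nonneg fun i _ => (x1 i).1
          have a5 := sum_le_card_nsmul (P.row (range P.n) j) _ _ fun i _ => (x1 i).2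
          rw [nsmul_eq_mul, mul_one] at a5
          have a6 := r1 _ Subset.rfl j
          rw [Par.aa] at a4 ⊢
          constructor <;> linarith).2
      have x4 : 0 ≤ 16 * (P.u : ℚ) ^ 2 / P.N := by positivity
      rw [Function.iterate_zero_apply, pow_zero]
      linarith [z5.1, show 8 * P.u * (P.u : ℚ) ^ 2 = 8 * (P.u : ℚ) ^ 3 by ring]
    | succ t ih =>
      rw [Function.iterate_succ_apply']
      refine (lp_step hP hO (lp_bas_iter hO c bd g t) c bd g z2).trans ?_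
      have a1 := mul_le_mul_of_nonneg_right (max_le ih (by positivity)) q0
      have a2 : 8 * P.u / (P.N : ℚ) ^ 2 = 16 * (P.u : ℚ) ^ 2 / P.N * (1 - q) := by
        rw [hq]
        field_simp
        ring
      rw [← hq, a2, pow_succ q]
      linarith
  have k1 := key (2 * P.u * P.N * (b + 10 * P.u))
  have k2 := mul_le_mul_of_nonneg_left (pow_le_pow_left₀ (pow_nonneg q0 _) q1 (b + 10 * P.u))
    (show 0 ≤ 2 * 2 ^ b + 8 * (P.u : ℚ) ^ 3 by positivity)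
  have k3 := lp_num hP.u16 b
  have k4 : (P.N : ℚ) = (P.u : ℚ) ^ 75 := by rw [Par.N, Nat.cast_pow]
  have k5 : costx P.n c z / g = (1 - o) * ((∑ i ∈ Z, cq c i) / g) + o * ((∑ i ∈ Y, cq c i) / g) := by
    rw [costx, z1]
    ring
  rw [← pow_mul] at k2
  rw [← k4] at k3
  rw [lp, ← ho]
  linarith [z5.2, show 3 / (4 * (P.u : ℚ) ^ 4) = 1 / (4 * (P.u : ℚ) ^ 4) + 1 / (2 * (P.u : ℚ) ^ 4) by
    field_simp; norm_num]

end Pool.Agent.P.MP_1639c2_lc.W
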