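import Pool.Agent.P.MP_1639c2_lc.W.Alg

/-! Exchange properties of matroid bases. -/

namespace Pool.Agent.P.MP_1639c2_lc.W

open Finset

variable {M : Matroid ℕ}

/-- Symmetric exchange. -/
theorem symm_exch {B Z : Finset ℕ} (hB : M.IsBase (B : Set ℕ)) (hZ : M.IsBase (Z : Set ℕ))
    {i : ℕ} (hi : i ∈ B) (hi' : i ∉ Z) : ∃ j, Arc M B i j ∧ Arc M Z j i := by
  have hiE : i ∈ M.E := hB.subset_ground (by exact_mod_cast hi)
  have hiB : i ∈ (B : Set ℕ) := by exact_mod_cast hi
  have hiZ : i ∉ (Z : Set ℕ) := by exact_mod_cast hi'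
  have hC := hZ.fundCircuit_isCircuit hiE hiZ
  have hK := hB.compl_closure_sdiff_singleton_isCocircuit hiB
  have hicl : i ∉ M.closure ((B : Set ℕ) \ {i}) := hB.indep.notMem_closure_sdiff_of_mem hiB
  have hmem : i ∈ M.fundCircuit i (Z : Set ℕ) ∩ (M.E \ M.closure ((B : Set ℕ) \ {i})) :=
    ⟨M.mem_fundCircuit i _, hiE, hicl⟩
  obtain ⟨j, ⟨hjC, hjE, hjcl⟩, hji⟩ :=
    (hC.isCocircuit_inter_nontrivial hK ⟨i, hmem⟩).exists_ne i
  have hjZ : j ∈ (Z : Set ℕ) := by
    rcases M.fundCircuit_subset_insert i _ hjC with h | h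
    · exact absurd h hji
    · exact h
  have hjB : j ∉ (B : Set ℕ) := fun h =>
    hjcl (M.subset_closure _ (Set.sdiff_subset.trans hB.subset_ground) ⟨h, hji⟩)
  have h1 := hB.exchange_base_of_notMem_closure hiB hjcl hjE
  have h2 : M.Indep (insert i (Z : Set ℕ) \ {j}) :=
    (hZ.indep.mem_fundCircuit_iff (by rwa [hZ.closure_eq]) hiZ).1 hjC
  rw [← Set.insert_sdiff_singleton_comm hji.symm] at h2
  have h3 := hZ.exchange_isBase_of_indep hiZ h2
  refine ⟨j, ⟨hi, by exact_mod_cast hjB, ?_⟩, ⟨by exact_mod_cast hjZ, hi', ?_⟩⟩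
  · simpa [Finset.coe_insert, Finset.coe_erase] using h1
  · simpa [Finset.coe_insert, Finset.coe_erase] using h3

theorem mat_loc {B : Finset ℕ} (hB : M.IsBase (B : Set ℕ))
    (w : ℕ → ℚ) (eta : ℚ) (h : ∀ i j, Arc M B i j → w i - w j ≤ eta) (k : ℕ) :
    ∀ Z : Finset ℕ, M.IsBase (Z : Set ℕ) → (Z \ B).card = k →
      ∑ i ∈ B, w i - ∑ i ∈ Z, w i ≤ (k : ℚ) * eta := by
  induction k with
  | zero =>
    intro Z hZ hk
    have hs : Z ⊆ B := Finset.sdiff_eq_empty_iff_subset.1 (Finset.card_eq_zero.1 hk)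
    have he : (Z : Set ℕ) = (B : Set ℕ) := hZ.eq_of_subset_isBase hB (by exact_mod_cast hs)
    have he' : Z = B := by exact_mod_cast he
    subst he'
    simp
  | succ k ih =>
    intro Z hZ hk
    have hns : ¬ B ⊆ Z := by
      intro hs
      have he : (B : Set ℕ) = (Z : Set ℕ) := hB.eq_of_subset_isBase hZ (by exact_mod_cast hs)
      have he' : B = Z := by exact_mod_cast he
      subst he'
      simp at hk
    obtain ⟨i, hi, hi'⟩ := Finset.not_subset.1 hns
    obtain ⟨j, hA, hA'⟩ := symm_exch hB hZ hi hi'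
    have hjZ : j ∈ Z := hA'.1
    have hjB : j ∉ B := hA.2.1
    have hset : insert i (Z.erase j) \ B = (Z \ B).erase j := by
      ext x
      simp only [Finset.mem_sdiff, Finset.mem_insert, Finset.mem_erase]
      constructor
      · rintro ⟨rfl | ⟨h1, h2⟩, h3⟩
        · exact absurd hi h3
        · exact ⟨h1, h2, h3⟩
      · rintro ⟨h1, h2, h3⟩
        exact ⟨Or.inr ⟨h1, h2⟩, h3⟩
    have hcard : (insert i (Z.erase j) \ B).card = k := by
      rw [hset, Finset.card_erase_of_mem (Finset.mem_sdiff.2 ⟨hjZ, hjB⟩), hk]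
      rfl
    have h1 := ih _ hA'.2.2 hcard
    rw [Finset.sum_insert (fun hh => hi' (Finset.mem_of_mem_erase hh))] at h1
    have h2 := Finset.add_sum_erase Z w hjZ
    have h3 := h i j hA
    push_cast
    linarith

/-- A base without a good exchange is nearly optimal. -/
theorem loc_opt {B Z : Finset ℕ} (hB : M.IsBase (B : Set ℕ)) (hZ : M.IsBase (Z : Set ℕ))
    (w : ℕ → ℚ) (eta : ℚ) (h : ∀ i j, Arc M B i j → w i - w j ≤ eta) :
    ∑ i ∈ B, w i - ∑ i ∈ Z, w i ≤ ((Z \ B).card : ℚ) * eta :=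
  mat_loc hB w eta h _ Z hZ rfl

theorem mat_sub {n : ℕ} (hE : M.E = Set.Iio n) {B : Finset ℕ} (hB : M.IsBase (B : Set ℕ)) :
    B ⊆ range n := by
  intro x hx
  have h := hB.subset_ground (show x ∈ (B : Set ℕ) by exact_mod_cast hx)
  rw [hE] at h
  exact Finset.mem_range.2 h

open Classical in
theorem mat_surv {n N L : ℕ} (hn : 1 ≤ n) (hL : 1 ≤ L) (S : Finset ℕ) (hS : S ⊆ range N)
    (p : ℕ → ℕ → Prop) (h : n * L ≤ S.card) :
    ∃ k ∈ S, ∀ j < n, p k j → L ≤ ((range N).filter fun k => p k j).card := by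
  by_contra hc
  push Not at hc
  have hsub : S ⊆ ((range n).filter fun j => ((range N).filter fun k => p k j).card < L).biUnion
      (fun j => (range N).filter fun k => p k j) := by
    intro k hk
    obtain ⟨j, hj, hp, hlt⟩ := hc k hk
    exact Finset.mem_biUnion.2 ⟨j, Finset.mem_filter.2 ⟨Finset.mem_range.2 hj, hlt⟩,
      Finset.mem_filter.2 ⟨hS hk, hp⟩⟩
  have h1 := (Finset.card_le_card hsub).trans
    (Finset.card_biUnion_le_card_mul _ _ (L - 1) (fun j hj => by
      have := (Finset.mem_filter.1 hj).2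
      omega))
  have h2 : ((range n).filter fun j => ((range N).filter fun k => p k j).card < L).card ≤ n := by
    simpa using Finset.card_filter_le (range n)
      (fun j => ((range N).filter fun k => p k j).card < L)
  have h3 := Nat.mul_le_mul_right (L - 1) h2
  obtain ⟨l, rfl⟩ : ∃ l, L = l + 1 := ⟨L - 1, by omega⟩
  simp only [Nat.add_sub_cancel] at h1 h3
  have h4 : n * (l + 1) = n * l + n := by ring
  omega

open Classical in
/-- An element with many copies on both sides has a partner with many exchanges both ways. -/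
theorem partner {n N L : ℕ} (hE : M.E = Set.Iio n) (C : ℕ → Finset ℕ)
    (hC : ∀ k < N, M.IsBase (C k : Set ℕ)) (hL : 1 ≤ L) {i : ℕ} (hi : i < n)
    (h1 : n * L ≤ ((range N).filter fun k => i ∈ C k).card)
    (h2 : n * L ≤ ((range N).filter fun k => i ∉ C k).card) :
    ∃ j < n, L ≤ ((range N).filter fun k => Arc M (C k) i j).card ∧
      L ≤ ((range N).filter fun k => Arc M (C k) j i).card := by
  have hn : 1 ≤ n := by omega
  obtain ⟨k, hk, hk'⟩ := mat_surv hn hL _ (Finset.filter_subset _ (range N))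
    (fun k j => Arc M (C k) i j) h1
  obtain ⟨l, hl, hl'⟩ := mat_surv hn hL _ (Finset.filter_subset _ (range N))
    (fun k j => Arc M (C k) j i) h2
  obtain ⟨hkN, hki⟩ := Finset.mem_filter.1 hk
  obtain ⟨hlN, hli⟩ := Finset.mem_filter.1 hl
  obtain ⟨j, hA, hA'⟩ := symm_exch (hC k (Finset.mem_range.1 hkN)) (hC l (Finset.mem_range.1 hlN))
    hki hli
  have hj : j < n := Finset.mem_range.1 (mat_sub hE (hC l (Finset.mem_range.1 hlN)) hA'.1)
  exact ⟨j, hj, hk' j hj hA, hl' j hj hA'⟩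

/-- There is a base of least cost. -/
theorem exists_min_base {n : ℕ} (hE : M.E = Set.Iio n) (w : ℕ → ℚ) :
    ∃ B : Finset ℕ, M.IsBase (B : Set ℕ) ∧
      ∀ Z : Finset ℕ, M.IsBase (Z : Set ℕ) → ∑ i ∈ B, w i ≤ ∑ i ∈ Z, w i := by
  classical
  obtain ⟨B0, hB0⟩ := M.exists_isBase
  have hfin : B0.Finite := by
    refine (Set.finite_Iio n).subset ?_
    rw [← hE]
    exact hB0.subset_ground
  have hB1 : M.IsBase (hfin.toFinset : Set ℕ) := by simpa using hB0
  obtain ⟨B, hB, hmin⟩ := Finset.exists_min_image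
    ((range n).powerset.filter fun Z : Finset ℕ => M.IsBase (Z : Set ℕ))
    (fun Z => ∑ i ∈ Z, w i)
    ⟨hfin.toFinset, Finset.mem_filter.2 ⟨Finset.mem_powerset.2 (mat_sub hE hB1), hB1⟩⟩
  exact ⟨B, (Finset.mem_filter.1 hB).2, fun Z hZ =>
    hmin Z (Finset.mem_filter.2 ⟨Finset.mem_powerset.2 (mat_sub hE hZ), hZ⟩)⟩

theorem base_sub {n : ℕ} (hE : M.E = Set.Iio n) {B : Finset ℕ} (hB : M.IsBase (B : Set ℕ)) :
    B ⊆ range n :=
  mat_sub hE hB

end Pool.Agent.P.MP_1639c2_lc.W
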