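import Pool.Agent.P.MP_1639c2_lc.W.Mat

/-! Copies, the table of exchanges, the greedy base. -/

namespace Pool.Agent.P.MP_1639c2_lc.W

open Finset

variable {M : Matroid ℕ} {n N : ℕ} {O : List Bool → Bool} {Bs : Cp}

theorem moves1_getD {β : Type} (n : ℕ) (f : ℕ → β) (d : β) (i : ℕ) :
    ((List.range n).map f).getD i d = if i < n then f i else d := by
  rw [List.getD_eq_getElem?_getD, List.getElem?_map]
  split_ifs with h
  · rw [List.getElem?_range h]; rfl
  · rw [List.getElem?_eq_none (by simpa using h)]; rfl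

theorem moves1_bit (n : ℕ) (f : ℕ → Bool) (i : ℕ) :
    bit ((List.range n).map f) i = if i < n then f i else false := moves1_getD n f false i

theorem mem_bs {B : List Bool} {i : ℕ} : i ∈ bs n B ↔ i < n ∧ bit B i = true := by
  simp [bs]

theorem mem_cs {k i : ℕ} : i ∈ cs n Bs k ↔ i < n ∧ bit (Bs.getD k []) i = true := mem_bs

theorem mask_map (n : ℕ) (f : ℕ → Bool) :
    mask ((List.range n).map f) = (range n).filter (fun i => f i = true) := by
  unfold mask
  rw [List.length_map, List.length_range]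
  refine filter_congr fun i hi => ?_
  rw [moves1_bit, if_pos (mem_range.1 hi)]

theorem bs_map (n : ℕ) (f : ℕ → Bool) :
    bs n ((List.range n).map f) = (range n).filter (fun i => f i = true) := by
  unfold bs
  refine filter_congr fun i hi => ?_
  rw [moves1_bit, if_pos (mem_range.1 hi)]

theorem bs_sw (B : List Bool) (i : ℕ) {j : ℕ} (hj : j < n) :
    bs n (sw n B i j) = insert j ((bs n B).erase i) := by
  unfold sw
  rw [bs_map]
  ext v
  simp only [mem_filter, mem_range, mem_insert, mem_erase, mem_bs]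
  by_cases h1 : v = j
  · subst h1; simp [hj]
  · by_cases h2 : v = i
    · subst h2; simp [h1]
    · simp [h1, h2]

theorem mask_sw (n : ℕ) (B : List Bool) (i j : ℕ) : mask (sw n B i j) = bs n (sw n B i j) := by
  unfold sw
  rw [bs_map, mask_map]

theorem moves1_put (Bs : Cp) (k : ℕ) (B : List Bool) {s : ℕ} (hs : s < N) :
    (put N Bs k B).getD s [] = if s = k then B else Bs.getD s [] := by
  unfold put
  rw [moves1_getD, if_pos hs]

theorem moves1_nrm (Bs : Cp) {k : ℕ} (hk : k < N) :
    (nrm n N Bs).getD k [] = (List.range n).map fun i => bit (Bs.getD k []) i := by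
  unfold nrm
  rw [moves1_getD, if_pos hk]

theorem cs_put (Bs : Cp) (k : ℕ) (B : List Bool) {s : ℕ} (hs : s < N) :
    cs n (put N Bs k B) s = if s = k then bs n B else cs n Bs s := by
  unfold cs
  rw [moves1_put Bs k B hs]
  split_ifs <;> rfl

theorem cs_nrm (Bs : Cp) {k : ℕ} (hk : k < N) : cs n (nrm n N Bs) k = cs n Bs k := by
  unfold cs
  rw [moves1_nrm Bs hk, bs_map]
  rfl

theorem cnt_eq (Bs : Cp) {i : ℕ} (hi : i < n) :
    cnt N Bs i = ((range N).filter fun k => i ∈ cs n Bs k).card := by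
  unfold cnt
  congr 1
  refine filter_congr fun k _ => ?_
  rw [mem_cs]
  exact ⟨fun h => ⟨hi, h⟩, fun h => h.2⟩

theorem cnt_le (N : ℕ) (Bs : Cp) (i : ℕ) : cnt N Bs i ≤ N := by
  unfold cnt
  exact (card_filter_le _ _).trans (card_range N).le

theorem cnt_nrm (Bs : Cp) {i : ℕ} (hi : i < n) : cnt N (nrm n N Bs) i = cnt N Bs i := by
  rw [cnt_eq _ hi, cnt_eq _ hi]
  congr 1
  refine filter_congr fun k hk => ?_
  rw [cs_nrm Bs (mem_range.1 hk)]

theorem xq_unit (N : ℕ) (Bs : Cp) (i : ℕ) : 0 ≤ xq N Bs i ∧ xq N Bs i ≤ 1 := by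
  unfold xq
  refine ⟨by positivity, div_le_one_of_le₀ ?_ (by positivity)⟩
  exact_mod_cast cnt_le N Bs i

theorem bas_nrm (h : Bas M n N Bs) : Bas M n N (nrm n N Bs) := by
  intro k hk
  rw [cs_nrm Bs hk]
  exact h k hk

/-- Weighted sums of the average are averages of the weights of the copies. -/
theorem wsum_xq (n N : ℕ) (Bs : Cp) (w : ℕ → ℚ) :
    ∑ i ∈ range n, w i * xq N Bs i = (∑ k ∈ range N, ∑ i ∈ cs n Bs k, w i) / N := by
  have h1 : ∀ k, ∑ i ∈ cs n Bs k, w i =
      ∑ i ∈ range n, if bit (Bs.getD k []) i = true then w i else 0 := by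
    intro k
    unfold cs bs
    rw [sum_filter]
  simp only [h1]
  rw [sum_comm, sum_div]
  refine sum_congr rfl fun i _ => ?_
  unfold xq cnt
  rw [← sum_filter, sum_const, nsmul_eq_mul]
  ring

theorem moves1_ar (k i j : ℕ) : ar (arcs O n N Bs) k i j =
    if k < N ∧ i < n ∧ j < n then
      (bit (Bs.getD k []) i && !bit (Bs.getD k []) j && O (sw n (Bs.getD k []) i j))
    else false := by
  unfold ar arcs
  rw [moves1_getD]
  by_cases hk : k < N
  · rw [if_pos hk, moves1_getD]
    by_cases hi : i < n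
    · rw [if_pos hi, moves1_bit]
      by_cases hj : j < n
      · rw [if_pos hj, if_pos ⟨hk, hi, hj⟩]
      · rw [if_neg hj, if_neg fun h => hj h.2.2]
    · rw [if_neg hi, if_neg fun h => hi h.2.1]; rfl
  · rw [if_neg hk, if_neg fun h => hk h.1]; rfl

theorem ar_lt {k i j : ℕ} (h : ar (arcs O n N Bs) k i j = true) : k < N ∧ i < n ∧ j < n := by
  rw [moves1_ar] at h
  by_contra hc
  rw [if_neg hc] at h
  exact Bool.false_ne_true h

theorem ar_iff (hO : Orc M n O) (h : Bas M n N Bs) {k i j : ℕ} (hk : k < N) :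
    ar (arcs O n N Bs) k i j = true ↔ Arc M (cs n Bs k) i j := by
  constructor
  · intro ha
    obtain ⟨-, hi, hj⟩ := ar_lt ha
    rw [moves1_ar, if_pos ⟨hk, hi, hj⟩, Bool.and_eq_true, Bool.and_eq_true, hO.ind, mask_sw,
      bs_sw _ _ hj] at ha
    obtain ⟨⟨h1, h2⟩, h3⟩ := ha
    have hjn : j ∉ cs n Bs k := by
      rw [mem_cs]
      rintro ⟨-, h4⟩
      rw [h4] at h2
      exact Bool.false_ne_true h2
    refine ⟨mem_cs.2 ⟨hi, h1⟩, hjn, ?_⟩
    rw [coe_insert, coe_erase] at h3 ⊢
    exact (h k hk).exchange_isBase_of_indep (by exact_mod_cast hjn) h3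
  · rintro ⟨h1, h2, h3⟩
    have hi : i < n := (mem_cs.1 h1).1
    have hj : j < n := by
      have := h3.subset_ground
      rw [hO.gr] at this
      exact this (by simp)
    rw [moves1_ar, if_pos ⟨hk, hi, hj⟩, Bool.and_eq_true, Bool.and_eq_true, hO.ind, mask_sw,
      bs_sw _ _ hj]
    refine ⟨⟨(mem_cs.1 h1).2, ?_⟩, h3.indep⟩
    rw [mem_cs] at h2
    cases hb : bit (Bs.getD k []) j
    · rfl
    · exact absurd ⟨hj, hb⟩ h2

/-- Effect of one exchange in one copy. -/
theorem cnt_put_sw {k i j v : ℕ} (hk : k < N) (hj : j < n) (hv : v < n) (h1 : i ∈ cs n Bs k)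
    (h2 : j ∉ cs n Bs k) :
    (cnt N (put N Bs k (sw n (Bs.getD k []) i j)) v : ℤ) =
      cnt N Bs v + (if j = v then 1 else 0) - (if i = v then 1 else 0) := by
  rw [cnt_eq _ hv, cnt_eq _ hv, card_filter, card_filter]
  push_cast
  have hk' : k ∈ range N := mem_range.2 hk
  rw [← add_sum_erase _ _ hk', ← add_sum_erase _ _ hk']
  have e1 : ∑ s ∈ (range N).erase k,
      (if v ∈ cs n (put N Bs k (sw n (Bs.getD k []) i j)) s then (1 : ℤ) else 0) =
      ∑ s ∈ (range N).erase k, (if v ∈ cs n Bs s then (1 : ℤ) else 0) := by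
    refine sum_congr rfl fun s hs => ?_
    rw [mem_erase, mem_range] at hs
    rw [cs_put _ _ _ hs.2, if_neg hs.1]
  rw [e1, cs_put _ _ _ hk, if_pos rfl, bs_sw _ _ hj]
  have hij : i ≠ j := fun h => h2 (h ▸ h1)
  change (if v ∈ insert j ((cs n Bs k).erase i) then (1 : ℤ) else 0) + _ = _
  by_cases a1 : j = v
  · subst a1
    simp [h2, hij]
    ring
  · by_cases a2 : i = v
    · subst a2
      simp [h1, hij, a1]
    · have a1' : v ≠ j := fun h => a1 h.symm
      have a2' : v ≠ i := fun h => a2 h.symm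
      simp [a1, a2, a1', a2']

theorem bas_put_sw (h : Bas M n N Bs) {k i j : ℕ} (hj : j < n) (ha : Arc M (cs n Bs k) i j) :
    Bas M n N (put N Bs k (sw n (Bs.getD k []) i j)) := by
  intro s hs
  rw [cs_put _ _ _ hs]
  split_ifs with hsk
  · rw [bs_sw _ _ hj]
    exact ha.2.2
  · exact h s hs

theorem moves1_greedy (hO : Orc M n O) (k : ℕ) (hk : k ≤ n) :
    M.Indep (bs n ((List.range k).foldl
      (fun B i => if O (sw n B i i) = true then sw n B i i else B) []) : Set ℕ) ∧
    ∀ i < k, i ∉ bs n ((List.range k).foldl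
      (fun B i => if O (sw n B i i) = true then sw n B i i else B) []) →
      ¬ M.Indep (insert i (bs n ((List.range k).foldl
        (fun B i => if O (sw n B i i) = true then sw n B i i else B) []) : Set ℕ)) := by
  induction k with
  | zero =>
    refine ⟨?_, fun i hi => absurd hi (Nat.not_lt_zero i)⟩
    have : bs n [] = ∅ := by
      ext v
      simp [mem_bs, bit]
    rw [List.range_zero, List.foldl_nil, this, coe_empty]
    exact M.empty_indep
  | succ k ih =>
    obtain ⟨i1, i2⟩ := ih (by omega)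
    rw [List.range_succ, List.foldl_append, List.foldl_cons, List.foldl_nil]
    generalize (List.range k).foldl
      (fun B i => if O (sw n B i i) = true then sw n B i i else B) [] = G at i1 i2 ⊢
    have hkn : k < n := hk
    have e : bs n (sw n G k k) = insert k (bs n G) := by
      rw [bs_sw _ _ hkn]
      ext v
      simp only [mem_insert, mem_erase]
      tauto
    have e2 := hO.ind (sw n G k k)
    rw [mask_sw, e] at e2
    split_ifs with hq
    · rw [e]
      refine ⟨e2.1 hq, fun i hi hn hI => ?_⟩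
      rw [mem_insert, not_or] at hn
      refine i2 i (by omega) hn.2 (hI.subset ?_)
      rw [coe_insert]
      exact Set.insert_subset_insert (Set.subset_insert _ _)
    · refine ⟨i1, fun i hi hn hI => ?_⟩
      rcases Nat.lt_succ_iff_lt_or_eq.1 hi with hi | rfl
      · exact i2 i hi hn hI
      · exact hq (e2.2 (by rwa [coe_insert]))

theorem greedy_base (hO : Orc M n O) : M.IsBase (bs n (greedy O n) : Set ℕ) := by
  obtain ⟨h1, h2⟩ := moves1_greedy hO n le_rfl
  refine h1.isBase_of_forall_insert fun e he => h2 e ?_ ?_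
  · have := he.1
    rw [hO.gr] at this
    exact this
  · exact fun h => he.2 (by exact_mod_cast h)

end Pool.Agent.P.MP_1639c2_lc.W
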