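import Pool.Agent.P.MP_1639c2_lc.W.Amin

/-! The power method finds an integral direction of negative curvature. -/

namespace Pool.Agent.P.MP_1639c2_lc.W

open Finset

theorem neg_abs (k : ℕ) (A g : ℕ → ℕ → ℝ) (s : ℝ) (h : ∀ p < k, ∀ q < k, |g p q| ≤ s) :
    |∑ p ∈ range k, ∑ q ∈ range k, A p q * g p q| ≤
      (∑ p ∈ range k, ∑ q ∈ range k, |A p q|) * s := by
  rw [sum_mul]
  refine (abs_sum_le_sum_abs _ _).trans (sum_le_sum fun p hp => ?_)
  rw [sum_mul]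
  refine (abs_sum_le_sum_abs _ _).trans (sum_le_sum fun q hq => ?_)
  rw [abs_mul]
  exact mul_le_mul_of_nonneg_left (h p (mem_range.1 hp) q (mem_range.1 hq)) (abs_nonneg _)

theorem neg_qf (k : ℕ) (A : ℕ → ℕ → ℝ) (v : ℕ → ℝ) :
    |qf k A v| ≤ (∑ p ∈ range k, ∑ q ∈ range k, |A p q|) * ∑ p ∈ range k, v p ^ 2 := by
  simp only [qf, mul_assoc]
  refine neg_abs k A (fun p q => v p * v q) _ fun p hp q hq => ?_
  have h : ∀ p < k, v p ^ 2 ≤ ∑ p ∈ range k, v p ^ 2 := fun p hp =>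
    single_le_sum (f := fun p => v p ^ 2) (fun i _ => sq_nonneg _) (mem_range.2 hp)
  have h1 := h p hp
  have h2 := h q hq
  rw [abs_le]
  constructor <;> nlinarith [sq_nonneg (v p + v q), sq_nonneg (v p - v q)]

theorem neg_entry (k : ℕ) (A : ℕ → ℕ → ℝ) (hs : ∀ p q, A p q = A q p) (La : ℝ)
    (hb : ∀ v : ℕ → ℝ, |qf k A v| ≤ La * ∑ p ∈ range k, v p ^ 2) {p q : ℕ} (hp : p < k)
    (hq : q < k) : |A p q| ≤ La := by
  have e1 : ∀ p < k, ∀ q < k,
      ∑ i ∈ range k, ∑ j ∈ range k, A i j * un p i * un q j = A p q := by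
    intro p hp q hq
    simp [un, hp, hq]
  have e2 : qf k A (fun i => un p i + un q i) - qf k A (fun i => un p i - un q i) =
      2 * ∑ i ∈ range k, ∑ j ∈ range k, A i j * un p i * un q j +
        2 * ∑ i ∈ range k, ∑ j ∈ range k, A i j * un q i * un p j := by
    simp only [qf, mul_sum, ← sum_add_distrib, ← sum_sub_distrib]
    exact sum_congr rfl fun i _ => sum_congr rfl fun j _ => by ring
  have e3 : ∀ p < k, ∑ i ∈ range k, (un p i : ℝ) ^ 2 = 1 := by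
    intro p hp
    simp [un, hp]
  have e4 : La * ∑ i ∈ range k, (un p i + un q i : ℝ) ^ 2 +
      La * ∑ i ∈ range k, (un p i - un q i : ℝ) ^ 2 =
      2 * La * ∑ i ∈ range k, (un p i : ℝ) ^ 2 + 2 * La * ∑ i ∈ range k, (un q i : ℝ) ^ 2 := by
    simp only [mul_sum, ← sum_add_distrib]
    exact sum_congr rfl fun i _ => by ring
  rw [e1 p hp q hq, e1 q hq p hp, hs q p] at e2
  rw [e3 p hp, e3 q hq] at e4
  have h1 := abs_le.1 (hb fun i => un p i + un q i)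
  have h2 := abs_le.1 (hb fun i => un p i - un q i)
  rw [abs_le]
  constructor <;> linarith [h1.1, h1.2, h2.1, h2.2]

open Matrix in
theorem neg_spectral {k : ℕ} (B : Matrix (Fin k) (Fin k) ℝ) (hB : B.IsHermitian) :
    ∃ (U : Matrix (Fin k) (Fin k) ℝ) (μ : Fin k → ℝ), Uᵀ * U = 1 ∧
      ∀ j : ℕ, B ^ j = U * diagonal (fun i => μ i ^ j) * Uᵀ := by
  refine ⟨hB.eigenvectorUnitary, hB.eigenvalues, hB.eigenvectorUnitary.2.1, fun j => ?_⟩
  conv_lhs => rw [hB.spectral_theorem]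
  rw [← map_pow, diagonal_pow, Unitary.conjStarAlgAut_apply]
  rfl

open Matrix in
theorem neg_power {k : ℕ} (B : Matrix (Fin k) (Fin k) ℝ) (hB : B.IsHermitian)
    (h0 : ∀ v, 0 ≤ v ⬝ᵥ B *ᵥ v) {c d : ℝ} (hc : 0 ≤ c) (hcd : c ≤ d) {v : Fin k → ℝ}
    (hv : 0 < v ⬝ᵥ v) (hd : d * (v ⬝ᵥ v) ≤ v ⬝ᵥ B *ᵥ v) (t : ℕ)
    (ht : k * (c ^ (2 * t) * c) < d ^ (2 * t) * (d - c)) :
    ∃ i, c * ((B ^ t).col i ⬝ᵥ (B ^ t).col i) < (B ^ t).col i ⬝ᵥ B *ᵥ (B ^ t).col i := by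
  obtain ⟨U, μ, hU, hp⟩ := neg_spectral B hB
  have q : ∀ (j : ℕ) (w : Fin k → ℝ), w ⬝ᵥ (B ^ j) *ᵥ w = ∑ i, μ i ^ j * (Uᵀ *ᵥ w) i ^ 2 := by
    intro j w
    rw [hp, ← mulVec_mulVec, ← mulVec_mulVec, dotProduct_mulVec, ← mulVec_transpose]
    exact sum_congr rfl fun i _ => by rw [mulVec_diagonal]; ring
  have tr : ∀ j : ℕ, (B ^ j).trace = ∑ i, μ i ^ j := fun j => by
    rw [hp, trace_mul_cycle, hU, Matrix.one_mul, trace_diagonal]
  have m0 : ∀ i, 0 ≤ μ i := fun i => by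
    have h := q 1 (U *ᵥ Pi.single i 1)
    rw [mulVec_mulVec _ Uᵀ, hU, one_mulVec, pow_one, sum_eq_single i (fun j _ hj => by simp [hj])
      (by simp)] at h
    have h1 := h0 (U *ᵥ Pi.single i 1)
    rw [h] at h1
    simpa using h1
  obtain ⟨l, hl⟩ : ∃ l, d ≤ μ l := by
    by_contra hn
    push Not at hn
    have h1 := q 1 v
    have h2 := q 0 v
    simp only [pow_one, pow_zero, one_mulVec, one_mul] at h1 h2
    rw [h2] at hv
    rw [h1, h2, mul_sum] at hd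
    obtain ⟨i, -, hi⟩ := (sum_pos_iff_of_nonneg fun i _ => sq_nonneg _).1 hv
    exact absurd hd (not_le.2 (sum_lt_sum
      (fun j _ => mul_le_mul_of_nonneg_right (hn j).le (sq_nonneg _))
      ⟨i, mem_univ _, mul_lt_mul_of_pos_right (hn i) hi⟩))
  by_contra hn
  push Not at hn
  have hT : (B ^ t)ᵀ = B ^ t := (hB.pow t).eq
  have e : ∀ M : Matrix (Fin k) (Fin k) ℝ, ∑ i, (B ^ t).col i ⬝ᵥ M *ᵥ (B ^ t).col i =
      (B ^ t * M * B ^ t).trace := fun M => by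
    conv_rhs => rw [Matrix.mul_assoc, ← hT]
    rw [hT]
    refine sum_congr rfl fun i _ => ?_
    conv_rhs => rw [diag_apply, Matrix.mul_apply]
    refine sum_congr rfl fun j _ => ?_
    rw [← congrFun (congrFun hT i) j]
    rfl
  have h1 := sum_le_sum fun i (_ : i ∈ univ) => hn i
  have e1 := e 1
  simp only [one_mulVec] at e1
  rw [← mul_sum, e, e1, Matrix.mul_one, ← pow_succ, ← pow_add, ← pow_add, tr, tr, mul_sum,
    ← sub_nonpos, ← sum_sub_distrib] at h1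
  have h2 : ∀ i, 0 ≤ μ i ^ (t + 1 + t) - c * μ i ^ (t + t) + c ^ (2 * t) * c := fun i => by
    rw [show t + 1 + t = 2 * t + 1 by ring, ← two_mul, pow_succ]
    have a1 : 0 ≤ μ i ^ (2 * t) := pow_nonneg (m0 i) _
    rcases le_total c (μ i) with h | h
    · nlinarith [mul_nonneg a1 (sub_nonneg.2 h), mul_nonneg (pow_nonneg hc (2 * t)) hc]
    · nlinarith [mul_nonneg a1 (m0 i),
        mul_le_mul_of_nonneg_right (pow_le_pow_left₀ (m0 i) h (2 * t)) hc]
  have h3 := single_le_sum (fun i _ => h2 i) (mem_univ l)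
  rw [sum_add_distrib, sum_const, card_univ, Fintype.card_fin, nsmul_eq_mul,
    show t + 1 + t = 2 * t + 1 by ring, ← two_mul, pow_succ] at h3
  rw [show t + 1 + t = 2 * t + 1 by ring, ← two_mul] at h1
  have h4 : d ^ (2 * t) * (d - c) ≤ μ l ^ (2 * t) * (μ l - c) :=
    mul_le_mul (pow_le_pow_left₀ (hc.trans hcd) hl _) (by linarith) (by linarith)
      (pow_nonneg (m0 l) _)
  nlinarith [mul_nonneg (pow_nonneg hc (2 * t)) hc]

theorem neg_num {k La nu a : ℝ} {t : ℕ} (hk : 0 ≤ k) (hnu : 0 < nu) (h1 : nu ≤ La)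
    (h2 : La ≤ a * nu) (ht : 5 * k * a ^ 2 ≤ t) :
    k * ((La + nu / 2) ^ (2 * t) * (La + nu / 2)) <
      (La + nu) ^ (2 * t) * (La + nu - (La + nu / 2)) := by
  obtain ⟨c, hc⟩ : ∃ c, c = La + nu / 2 := ⟨_, rfl⟩
  have c0 : 0 < c := by linarith
  have c1 : c ≤ 3 / 2 * (a * nu) := by linarith
  have e : La + nu = c * (1 + nu / 2 / c) := by
    field_simp
    linarith
  have b := one_add_mul_le_pow (a := nu / 2 / c) (by
    have : 0 < nu / 2 / c := by positivity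
    linarith) (2 * t)
  rw [show La + nu - (La + nu / 2) = nu / 2 by ring, e, ← hc, mul_pow, mul_left_comm, mul_assoc]
  refine mul_lt_mul_of_pos_left (lt_of_lt_of_le ?_
    (mul_le_mul_of_nonneg_right b (by positivity))) (by positivity)
  refine lt_of_mul_lt_mul_left ?_ c0.le
  have e2 : c * ((1 + ((2 * t : ℕ) : ℝ) * (nu / 2 / c)) * (nu / 2)) = (c + t * nu) * (nu / 2) := by
    push_cast
    field_simp
  rw [e2]
  have a1 : k * c ^ 2 ≤ k * (3 / 2 * (a * nu)) ^ 2 :=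
    mul_le_mul_of_nonneg_left (pow_le_pow_left₀ c0.le c1 2) hk
  have a2 := mul_le_mul_of_nonneg_right ht (sq_nonneg nu)
  have a3 : 0 ≤ k * a ^ 2 * nu ^ 2 := by positivity
  nlinarith [mul_pos c0 hnu]

open Matrix in
theorem neg_col (k : ℕ) (A : ℕ → ℕ → ℚ) (B : Matrix (Fin k) (Fin k) ℝ)
    (hB : ∀ p q, B p q = (if p = q then (lam k A : ℝ) else 0) - A p q) (i : Fin k) (t : ℕ) :
    (fun p : Fin k => (col k A t i p : ℝ)) = (B ^ t).col i := by
  induction t with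
  | zero =>
    funext p
    simp [col, itA, un, one_apply, Fin.ext_iff, apply_ite]
  | succ t ih =>
    funext p
    rw [pow_succ', col_apply, Matrix.mul_apply, col, itA]
    beta_reduce
    rw [zero_add, sum_range, Rat.cast_sum]
    refine sum_congr rfl fun q _ => ?_
    rw [hB, ← col_apply (B ^ t), ← ih]
    simp [col, Fin.ext_iff, apply_ite]

theorem neg_ex (k : ℕ) (A : ℕ → ℕ → ℚ) (hs : ∀ p q, A p q = A q p) {nu a : ℝ} {t : ℕ}
    (hnu : 0 < nu) (hex : ∃ v : ℕ → ℝ, 0 < ∑ p ∈ range k, v p ^ 2 ∧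
      qf k (fun p q => (A p q : ℝ)) v ≤ -nu * ∑ p ∈ range k, v p ^ 2)
    (ha : (lam k A : ℝ) ≤ a * nu) (ht : 5 * k * a ^ 2 ≤ t) :
    ∃ i < k, (ray k A (col k A t i) : ℝ) < -(nu / 2) := by
  obtain ⟨v, hv, hq⟩ := hex
  have hl : (lam k A : ℝ) = ∑ p ∈ range k, ∑ q ∈ range k, |(A p q : ℝ)| := by
    simp [lam]
  obtain ⟨B, hB⟩ : ∃ B : Matrix (Fin k) (Fin k) ℝ,
      ∀ p q, B p q = (if p = q then (lam k A : ℝ) else 0) - A p q := ⟨Matrix.of _, fun _ _ => rfl⟩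
  have n2 : ∀ w : ℕ → ℝ, (fun p : Fin k => w p) ⬝ᵥ (fun p : Fin k => w p) =
      ∑ p ∈ range k, w p ^ 2 := fun w => by
    simp only [dotProduct, sum_range, sq]
  have qB : ∀ w : ℕ → ℝ, (fun p : Fin k => w p) ⬝ᵥ B.mulVec (fun p : Fin k => w p) =
      lam k A * ∑ p ∈ range k, w p ^ 2 - qf k (fun p q => (A p q : ℝ)) w := fun w => by
    simp only [dotProduct, Matrix.mulVec, hB, qf, sum_range, sub_mul, ite_mul, zero_mul,
      sum_sub_distrib, sum_ite_eq, mem_univ, if_true, mul_sub, mul_sum]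
    congr 1
    · exact sum_congr rfl fun p _ => by ring
    · exact sum_congr rfl fun p _ => sum_congr rfl fun q _ => by ring
  have hH : B.IsHermitian := by
    ext p q
    simp [hB, hs p q, eq_comm]
  have h1 : nu ≤ lam k A := by
    have := (abs_le.1 (neg_qf k (fun p q => (A p q : ℝ)) v)).1
    rw [← hl] at this
    exact le_of_mul_le_mul_right (by linarith) hv
  have h0 : ∀ w, 0 ≤ w ⬝ᵥ B.mulVec w := fun w => by
    obtain ⟨w', rfl⟩ : ∃ w' : ℕ → ℝ, w = fun p : Fin k => w' p :=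
      ⟨fun p => if h : p < k then w ⟨p, h⟩ else 0, funext fun p => by simp⟩
    have := (abs_le.1 (neg_qf k (fun p q => (A p q : ℝ)) w')).2
    rw [qB, hl]
    linarith
  obtain ⟨i, hi⟩ := neg_power B hH (c := lam k A + nu / 2) (d := lam k A + nu)
    (v := fun p : Fin k => v p) h0 (by linarith) (by linarith) (by rwa [n2])
    (by rw [n2, qB]; linarith) t (neg_num (Nat.cast_nonneg k) hnu h1 ha ht)
  refine ⟨i, i.2, ?_⟩
  rw [← neg_col k A B hB, n2 fun p => (col k A t i p : ℝ), qB fun p => (col k A t i p : ℝ)] at hi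
  have h2 := (abs_le.1 (neg_qf k (fun p q => (A p q : ℝ)) fun p => (col k A t i p : ℝ))).1
  have h3 : 0 < ∑ p ∈ range k, (col k A t i p : ℝ) ^ 2 := by
    refine (sum_nonneg fun p _ => sq_nonneg _).lt_of_ne fun h => ?_
    rw [← h] at hi h2
    linarith
  simp only [ray, qf] at hi ⊢
  push_cast
  rw [div_lt_iff₀ h3]
  linarith

theorem neg_spec (k : ℕ) (A : ℕ → ℕ → ℚ) (hs : ∀ p q, A p q = A q p) (La nu a : ℝ) (t R : ℕ)
    (hnu : 0 < nu)
    (hb : ∀ v : ℕ → ℝ, |qf k (fun p q => (A p q : ℝ)) v| ≤ La * ∑ p ∈ range k, v p ^ 2)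
    (hex : ∃ v : ℕ → ℝ, 0 < ∑ p ∈ range k, v p ^ 2 ∧
      qf k (fun p q => (A p q : ℝ)) v ≤ -nu * ∑ p ∈ range k, v p ^ 2)
    (ha : (k : ℝ) ^ 2 * La ≤ a * nu) (ht : 5 * k * a ^ 2 ≤ t) (hR : 12 * a ≤ R) :
    (∀ p < k, |neg k A t R p| ≤ R) ∧
      qf k (fun p q => (A p q : ℝ)) (fun p => (neg k A t R p : ℝ)) ≤ -(nu * R ^ 2 / 4) := by
  have hl : (lam k A : ℝ) = ∑ p ∈ range k, ∑ q ∈ range k, |(A p q : ℝ)| := by
    simp [lam]
  have hla : (lam k A : ℝ) ≤ a * nu := by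
    refine le_trans ?_ ha
    rw [hl]
    refine (sum_le_card_nsmul _ _ (k * La) fun p hp => ?_).trans_eq (by simp; ring)
    refine (sum_le_card_nsmul _ _ La fun q hq => ?_).trans_eq (by simp)
    exact neg_entry k (fun p q => (A p q : ℝ)) (fun p q => by rw [hs]) La hb (mem_range.1 hp)
      (mem_range.1 hq)
  obtain ⟨i, hi, hr⟩ := neg_ex k A hs hnu hex hla ht
  have hr' : (ray k A (col k A t (best k A t)) : ℝ) < -(nu / 2) := by
    refine lt_of_le_of_lt ?_ hr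
    exact_mod_cast amin_le (fun i => ray k A (col k A t i)) _ 0 i (List.mem_range.2 hi)
  unfold neg
  generalize col k A t (best k A t) = c at hr' ⊢
  obtain ⟨j, hj, hjs, hm⟩ : ∃ j < k, supn k c = |c j| ∧ ∀ p < k, |c p| ≤ |c j| := by
    refine ⟨_, ?_, rfl, fun p hp => neg_le_neg_iff.1
      (amin_le (fun p => -|c p|) _ 0 p (List.mem_range.2 hp))⟩
    rcases amin_mem (fun p => -|c p|) (List.range k) 0 with h | h
    · rw [h]
      omega
    · exact List.mem_range.1 h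
  rw [hjs]
  have hN : 0 < ∑ p ∈ range k, (c p : ℝ) ^ 2 := by
    refine (sum_nonneg fun p _ => sq_nonneg _).lt_of_ne fun h => ?_
    simp only [ray] at hr'
    push_cast at hr'
    rw [← h, div_zero] at hr'
    linarith
  have hs0 : 0 < |c j| := by
    obtain ⟨p, hp, h⟩ := (sum_pos_iff_of_nonneg fun i _ => sq_nonneg _).1 hN
    refine lt_of_lt_of_le (abs_pos.2 fun h0 => ?_) (hm p (mem_range.1 hp))
    simp [h0] at h
  have hv : ∀ p < k, |(R : ℚ) * c p / abs (c j)| ≤ R := fun p hp => by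
    rw [abs_div, abs_abs, div_le_iff₀ hs0, abs_mul, Nat.abs_cast]
    exact mul_le_mul_of_nonneg_left (hm p hp) (Nat.cast_nonneg R)
  have hf : ∀ p < k, |⌊(R : ℚ) * c p / abs (c j)⌋| ≤ R := fun p hp => by
    have h := abs_le.1 (hv p hp)
    refine abs_le.2 ⟨Int.le_floor.2 (by exact_mod_cast h.1), ?_⟩
    exact_mod_cast (Int.floor_le _).trans h.2
  refine ⟨hf, ?_⟩
  obtain ⟨v, hv'⟩ : ∃ v : ℕ → ℚ, ∀ p, v p = (R : ℚ) * c p / abs (c j) := ⟨_, fun _ => rfl⟩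
  simp only [← hv'] at hv hf ⊢
  have d1 := neg_abs k (fun p q => (A p q : ℝ))
    (fun p q => (⌊v p⌋ : ℝ) * ⌊v q⌋ - v p * v q) (2 * R) fun p hp q hq => by
      have f1 : ∀ p, |(⌊v p⌋ : ℝ) - v p| ≤ 1 := fun p => by
        have a1 : (⌊v p⌋ : ℝ) ≤ v p := by exact_mod_cast Int.floor_le (v p)
        have a2 : (v p : ℝ) < ⌊v p⌋ + 1 := by exact_mod_cast Int.lt_floor_add_one (v p)
        rw [abs_le]
        constructor <;> linarith
      have f2 : |(⌊v p⌋ : ℝ)| ≤ R := by exact_mod_cast hf p hp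
      have f3 : |(v q : ℝ)| ≤ R := by exact_mod_cast hv q hq
      rw [show (⌊v p⌋ : ℝ) * ⌊v q⌋ - v p * v q =
        ⌊v p⌋ * (⌊v q⌋ - v q) + (⌊v p⌋ - v p) * v q by ring]
      refine (abs_add_le _ _).trans ?_
      rw [abs_mul, abs_mul]
      have g1 := mul_le_mul f2 (f1 q) (abs_nonneg _) (Nat.cast_nonneg R)
      have g2 := mul_le_mul (f1 p) f3 (abs_nonneg _) zero_le_one
      linarith
  have d2 : ∑ p ∈ range k, ∑ q ∈ range k, (A p q : ℝ) * ((⌊v p⌋ : ℝ) * ⌊v q⌋ - v p * v q) =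
      qf k (fun p q => (A p q : ℝ)) (fun p => (⌊v p⌋ : ℝ)) -
        (R / |(c j : ℝ)|) ^ 2 * qf k (fun p q => (A p q : ℝ)) fun p => (c p : ℝ) := by
    simp only [qf, mul_sum, ← sum_sub_distrib]
    refine sum_congr rfl fun p _ => sum_congr rfl fun q _ => ?_
    have g : ∀ p, (v p : ℝ) = R / |(c j : ℝ)| * c p := fun p => by
      rw [hv']
      push_cast
      ring
    rw [g p, g q]
    ring
  have d3 : qf k (fun p q => (A p q : ℝ)) (fun p => (c p : ℝ)) ≤ -(nu / 2) * |(c j : ℝ)| ^ 2 := by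
    simp only [ray, qf] at hr' ⊢
    push_cast at hr'
    rw [div_lt_iff₀ hN] at hr'
    have := single_le_sum (f := fun p => (c p : ℝ) ^ 2) (fun i _ => sq_nonneg _) (mem_range.2 hj)
    rw [sq_abs]
    nlinarith
  have hs1 : (0 : ℝ) < |(c j : ℝ)| := by exact_mod_cast hs0
  have d4 := mul_le_mul_of_nonneg_left d3 (sq_nonneg (R / |(c j : ℝ)|))
  rw [show (R / |(c j : ℝ)|) ^ 2 * (-(nu / 2) * |(c j : ℝ)| ^ 2) = -(nu / 2) * R ^ 2 by
    field_simp] at d4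
  rw [d2, ← hl] at d1
  have d5 := mul_le_mul_of_nonneg_right hla (Nat.cast_nonneg (α := ℝ) R)
  have d6 := mul_le_mul_of_nonneg_right hR (mul_nonneg hnu.le (Nat.cast_nonneg (α := ℝ) R))
  have d7 : 0 ≤ nu * (R : ℝ) ^ 2 := by positivity
  nlinarith [(abs_le.1 d1).2]

end Pool.Agent.P.MP_1639c2_lc.W
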