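import Pool.Agent.P.MP_1639c2_lc.W.Pot1

/-! The truncated Neumann series. -/

namespace Pool.Agent.P.MP_1639c2_lc.W

open Finset

namespace Par

variable {P : Par} {S : Finset ℕ} {x y0 : ℕ → ℝ} {V : ℝ}

theorem Ok.qv_spec (hP : P.WF) (h : P.Ok S x y0 V) :
    ∑ i ∈ S, P.qv S x y0 i ^ 2 ≤ (P.u : ℝ) ^ 15 ∧
      ∑ i ∈ S, (1 - P.qv S x y0 i + P.Mv S x y0 (P.qv S x y0) i) ^ 2 ≤
        1 / (64 * (P.u : ℝ) ^ 69) := by
  let q := itA P.n (fun p q => if q ∈ S then P.Mm S x y0 p q else 0) (fun _ => (1 : ℝ)) fun _ => 0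
  have hq : ∀ t p, q (t + 1) p = 1 + P.Mv S x y0 (q t) p := fun t p => by
    simp only [q, itA, ite_mul, zero_mul, sum_ite_mem, inter_eq_right.2 h.sub, Mv]
  have hU : (16 : ℝ) ≤ P.u := by exact_mod_cast hP.u16
  have hc : (S.card : ℝ) ≤ P.u := by
    exact_mod_cast ((card_le_card h.sub).trans_eq (card_range _)).trans hP.nu
  have hG : (1 : ℝ) < P.u ^ 7 := one_lt_pow₀ (by linarith) (by norm_num)
  have ha : 0 < 1 - 1 / (P.u : ℝ) ^ 7 := sub_pos.2 ((div_lt_one (by positivity)).2 hG)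
  have h1 : ∀ t, ∑ i ∈ S, q t i ^ 2 ≤ S.card * ((P.u : ℝ) ^ 7) ^ 2 := fun t => by
    induction t with
    | zero => exact (sum_eq_zero fun _ _ => zero_pow two_ne_zero).trans_le (by positivity)
    | succ t ih =>
      have h2 := h.Mv_sq_le hP (q t)
      generalize (P.u : ℝ) ^ 7 = G at *
      refine le_of_mul_le_mul_left ?_ ha
      calc _ ≤ ∑ i ∈ S, ((1 - 1 / G) * G + P.Mv S x y0 (q t) i ^ 2) := by
            rw [mul_sum]
            refine sum_le_sum fun i _ => sub_nonneg.1 ?_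
            rw [hq, show ∀ b : ℝ, (1 - 1 / G) * G + b ^ 2 - (1 - 1 / G) * (1 + b) ^ 2 =
              (b - (G - 1)) ^ 2 / G from fun b => by field_simp; ring]
            positivity
        _ ≤ S.card * ((1 - 1 / G) * G) + (1 - 1 / G) ^ 2 * (S.card * G ^ 2) := by
            rw [sum_add_distrib, sum_const, nsmul_eq_mul]
            exact add_le_add_right (h2.trans (by gcongr)) _
        _ = _ := by field_simp; ring
  have h2 : ∀ t, ∑ i ∈ S, (1 - q t i + P.Mv S x y0 (q t) i) ^ 2 ≤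
      (1 - 1 / (P.u : ℝ) ^ 7) ^ (2 * t) * S.card := fun t => by
    induction t with
    | zero => simp [q, itA, Mv]
    | succ t ih =>
      refine (sum_congr rfl fun i _ => ?_).trans_le
        ((h.Mv_sq_le hP fun i => 1 - q t i + P.Mv S x y0 (q t) i).trans ?_)
      · rw [hq, Mv, Mv, Mv, sub_add_cancel_left, neg_add_eq_sub, ← sum_sub_distrib]
        congr 1
        refine sum_congr rfl fun j _ => ?_
        rw [hq]
        ring
      · rw [mul_add, pow_add, mul_comm (_ ^ (2 * t)), mul_assoc]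
        gcongr
  refine ⟨(h1 _).trans ?_, (h2 _).trans ?_⟩
  · calc _ ≤ P.u * ((P.u : ℝ) ^ 7) ^ 2 := by gcongr
      _ = _ := by ring
  · have h3 : (1 - 1 / (P.u : ℝ) ^ 7) ^ P.u ^ 7 ≤ 1 / 2 := by
      have := Real.one_sub_div_pow_le_exp_neg (n := P.u ^ 7) (t := 1) (by exact_mod_cast hG.le)
      rw [Nat.cast_pow] at this
      exact this.trans (Real.exp_neg_one_lt_d9.le.trans (by norm_num))
    have h4 : (P.u : ℝ) ≤ 2 ^ P.u := by exact_mod_cast Nat.lt_two_pow_self.le
    calc _ = ((1 - 1 / (P.u : ℝ) ^ 7) ^ P.u ^ 7) ^ (P.u * 80) * S.card := by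
          rw [← pow_mul]
          congr 2
          ring
      _ ≤ (1 / 2) ^ (P.u * 80) * P.u := by gcongr
      _ ≤ _ := by
          rw [one_div_pow, div_mul_eq_mul_div, div_le_div_iff₀ (by positivity) (by positivity),
            pow_mul]
          calc _ = 64 * (P.u : ℝ) ^ 70 := by ring
            _ ≤ (P.u : ℝ) ^ 10 * P.u ^ 70 := by
              gcongr
              exact le_trans (by norm_num) (pow_le_pow_left₀ (by norm_num) hU 10)
            _ = (P.u : ℝ) ^ 80 := by ring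
            _ ≤ _ := by rw [one_mul]; gcongr

end Par

end Pool.Agent.P.MP_1639c2_lc.W
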