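import Pool.Agent.P.MP_1639c2_lc.W.QPT
import Pool.Agent.P.MP_1639c2_lc.W.Alg

/-! The parameters computed from an instance. -/

namespace Pool.Agent.P.MP_1639c2_lc.W

open Finset Pool.Agent.Lib.NP

theorem parok_count (k t : ℕ) : ((List.range t).countP fun s => decide (s < k)) = min k t := by
  induction t with
  | zero => simp
  | succ t ih =>
    rw [List.range_succ, List.countP_append, ih, List.countP_singleton]
    by_cases h : t < k
    · simp only [h, decide_true, if_true]
      omega
    · simp only [h, decide_false, Bool.false_eq_true, if_false]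
      omega

theorem parok_isq (t : ℕ) : isq t = Nat.sqrt t := by
  have h : (fun s : ℕ => decide ((s + 1) ^ 2 ≤ t)) = fun s => decide (s < Nat.sqrt t) :=
    funext fun s => decide_eq_decide.2 (by rw [← Nat.le_sqrt', Nat.succ_le_iff])
  rw [isq, h, parok_count, min_eq_left (Nat.sqrt_le_self t)]

theorem parok_le_foldl (l : List ℕ) : ∀ a, a ≤ l.foldl max a ∧ ∀ x ∈ l, x ≤ l.foldl max a := by
  induction l with
  | nil => intro a; simp
  | cons b l ih =>
    intro a
    rw [List.foldl_cons]
    refine ⟨(le_max_left a b).trans (ih _).1, fun x hx => ?_⟩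
    rcases List.mem_cons.1 hx with rfl | hx
    · exact (le_max_right a x).trans (ih _).1
    · exact (ih _).2 x hx

theorem parok_foldl_le {D : ℕ} (l : List ℕ) :
    ∀ a, a ≤ D → (∀ x ∈ l, x ≤ D) → l.foldl max a ≤ D := by
  induction l with
  | nil => intro a h _; exact h
  | cons b l ih =>
    intro a h h'
    rw [List.foldl_cons]
    exact ih _ (max_le h (h' b List.mem_cons_self)) fun x hx => h' x (List.mem_cons_of_mem _ hx)

theorem parok_card (H : List (List Bool)) (p : List Bool → Bool) :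
    ((range H.length).filter fun j => p (H.getD j []) = true).card = H.countP p := by
  induction H with
  | nil => simp
  | cons e H ih =>
    rw [Finset.card_filter] at ih ⊢
    rw [List.length_cons, Finset.sum_range_succ', List.countP_cons]
    simp only [List.getD_cons_succ, List.getD_cons_zero]
    rw [ih]

theorem parok_mem_mask (B : List Bool) (i : ℕ) : decide (i ∈ mask B) = bit B i := by
  rw [Bool.eq_iff_iff, decide_eq_true_iff, mask, Finset.mem_filter, Finset.mem_range]
  refine ⟨fun h => h.2, fun h => ⟨?_, h⟩⟩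
  by_contra h'
  rw [bit, List.getD_eq_default _ _ (not_lt.1 h')] at h
  exact Bool.false_ne_true h

theorem parok_logb {D : ℝ} (hD : 100000 ≤ D) :
    16 ≤ Real.logb 2 D ∧ Real.logb 2 D ≤ D / 5120 := by
  have h0 : 0 < D := by linarith
  constructor
  · rw [Real.le_logb_iff_rpow_le (by norm_num) h0]
    norm_num
    linarith
  · have h2 := Real.log_two_gt_d9
    have h1 : Real.logb 2 D * Real.log 2 = Real.log D := by
      rw [Real.logb, div_mul_cancel₀]
      linarith
    have h3 : Real.log (D / 2 ^ 17) ≤ D / 2 ^ 17 - 1 := Real.log_le_sub_one_of_pos (by positivity)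
    rw [Real.log_div h0.ne' (by positivity), Real.log_pow] at h3
    by_cases h : Real.logb 2 D ≤ 17
    · linarith
    · have h4 : (Real.logb 2 D - 17) * (69 / 100) ≤ (Real.logb 2 D - 17) * Real.log 2 :=
        mul_le_mul_of_nonneg_left (by linarith) (by linarith)
      push_cast at h3
      nlinarith

theorem parok_num {D L d k : ℝ} (hD : 100000 ≤ D) (h1 : 16 ≤ L) (h2 : L ≤ D / 5120) (hd0 : 0 ≤ d)
    (hd : d ≤ D) (hk0 : 0 ≤ k) (hk : k ≤ 241 * L) :
    √(4 * (1 + 4 * k * d + k ^ 2)) + √(1024 * d) + 3 ≤ min (D - 1) (75 * √(D * L)) := by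
  have hDL : 1600000 ≤ D * L := by nlinarith
  have hs0 : 0 ≤ √(D * L) := Real.sqrt_nonneg _
  have hs : √(D * L) ^ 2 = D * L := Real.sq_sqrt (by linarith)
  have hs1 : 1000 ≤ √(D * L) := Real.le_sqrt_of_sq_le (by linarith)
  have hkd : k * d ≤ 241 * L * D := mul_le_mul hk hd hd0 (by linarith)
  have hLL : L * L ≤ D / 5120 * L := mul_le_mul_of_nonneg_right h2 (by linarith)
  have hkk : k ^ 2 ≤ (241 * L) ^ 2 := pow_le_pow_left₀ hk0 hk 2
  have a1 : √(4 * (1 + 4 * k * d + k ^ 2)) ≤ 313 / 5 * √(D * L) :=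
    Real.sqrt_le_iff.2 ⟨by positivity, by rw [mul_pow, hs]; nlinarith⟩
  have a2 : √(1024 * d) ≤ 8 * √(D * L) :=
    Real.sqrt_le_iff.2 ⟨by positivity, by rw [mul_pow, hs]; nlinarith⟩
  have a3 : √(D * L) ≤ (D - 1) / 71 := by
    have hDD : D * L ≤ D * (D / 5120) := mul_le_mul_of_nonneg_left h2 (by linarith)
    exact Real.sqrt_le_iff.2 ⟨by linarith, by nlinarith⟩
  exact le_min (by linarith) (by linarith)

theorem isq_le (t : ℕ) : (isq t : ℝ) ≤ √(t : ℝ) := by
  rw [parok_isq]
  exact Real.nat_sqrt_le_real_sqrt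

theorem sqrt_lt_isq (t : ℕ) : √(t : ℝ) < isq t + 1 := by
  rw [parok_isq]
  exact Real.real_sqrt_lt_nat_sqrt_succ

theorem par_WF (I : Inst) : (par I).WF := by
  refine ⟨?_, ?_, ?_, ?_, ?_, ?_, fun i hi => ?_⟩
  · simp only [par]; omega
  · simp only [par]; omega
  · simp only [par, Par.m, List.length_map]; omega
  · simp only [par, Par.kap]; omega
  · simp only [par]; omega
  · have h := lt_blen (toBN (deg I.1.length (I.2.map (·.1))))
    rw [toBN_v] at h
    simp only [par]
    rw [pow_add]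
    omega
  · refine (parok_card (par I).H fun e => bit e i).le.trans ?_
    exact (parok_le_foldl _ 0).2 _ (List.mem_map.2 ⟨i, List.mem_range.2 hi, rfl⟩)

theorem cost_bits (c : List ℤ) : ∑ i ∈ range c.length, |cq c i| ≤ 2 ^ sz c := by
  induction c with
  | nil => simp
  | cons a c ih =>
    rw [List.length_cons, Finset.sum_range_succ', sz_cons]
    have e1 : ∀ i, cq (a :: c) (i + 1) = cq c i := fun i => rfl
    have e2 : cq (a :: c) 0 = a := rfl
    simp only [e1, e2]
    have h1 : |(a : ℚ)| ≤ 2 ^ sz a := by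
      have h := (natAbs_lt_sz a).le
      rw [← Int.cast_abs, Int.abs_eq_natAbs]
      exact_mod_cast h
    have h2 : (2 : ℚ) ^ sz a ≤ 2 ^ (2 * sz a + sz c) := pow_le_pow_right₀ (by norm_num) (by omega)
    have h3 : (2 : ℚ) ^ sz c ≤ 2 ^ (2 * sz a + sz c) := pow_le_pow_right₀ (by norm_num) (by omega)
    rw [show 2 * sz a + 1 + sz c = 2 * sz a + sz c + 1 by omega, pow_succ]
    linarith

theorem par_V_le (I : Inst) {D : ℕ} (hD : 100000 ≤ D)
    (h : ∀ v < I.1.length, (I.2.countP fun e => decide (v ∈ mask e.1)) ≤ D) :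
    ((par I).V : ℝ) ≤ min ((D : ℝ) - 1) (75 * √((D : ℝ) * Real.logb 2 D)) := by
  have hd : (par I).D ≤ D := by
    refine parok_foldl_le _ 0 (Nat.zero_le _) fun x hx => ?_
    obtain ⟨i, hi, rfl⟩ := List.mem_map.1 hx
    have h1 := h i (List.mem_range.1 hi)
    simp only [parok_mem_mask] at h1
    rwa [List.countP_map]
  have hr : (par I).r ≤ Nat.log 2 D + 4 := by
    have h1 : blen (toBN (par I).D) ≤ Nat.log 2 D + 1 :=
      length_nb_le _ _ (hd.trans_lt (Nat.lt_pow_succ_log_self (by norm_num) D))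
    show blen (toBN (par I).D) + 3 ≤ _
    omega
  have hD' : (100000 : ℝ) ≤ D := by exact_mod_cast hD
  obtain ⟨l1, l2⟩ := parok_logb hD'
  have l3 : (Nat.log 2 D : ℝ) ≤ Real.logb 2 D := by exact_mod_cast Real.natLog_le_logb D 2
  have hk : ((par I).kap : ℝ) ≤ 241 * Real.logb 2 D := by
    have h1 : ((par I).r : ℝ) ≤ Nat.log 2 D + 4 := by exact_mod_cast hr
    rw [Par.kap]
    push_cast
    linarith
  refine le_trans ?_ (parok_num hD' l1 l2 (Nat.cast_nonneg (par I).D) (by exact_mod_cast hd)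
    (Nat.cast_nonneg _) hk)
  have a1 := isq_le (par I).T
  have a2 := isq_le (1024 * (par I).D)
  rw [Par.V]
  rw [Par.T, Par.zb] at a1
  rw [Par.T, Par.zb]
  push_cast at a1 a2 ⊢
  linarith

end Pool.Agent.P.MP_1639c2_lc.W
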