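import Pool.Agent.P.MP_1639c2_lc.W.Core

/-! Basic properties of the potential. -/

namespace Pool.Agent.P.MP_1639c2_lc.W

open Finset

namespace Par

variable {P : Par} {S : Finset ℕ} {x y0 : ℕ → ℝ} {V : ℝ}

theorem Mm_symm {K : Type} [Field K] (P : Par) (S : Finset ℕ) (x y0 : ℕ → K) (p q : ℕ) :
    P.Mm S x y0 p q = P.Mm S x y0 q p := by
  unfold Mm
  congr 1
  · exact sum_congr rfl fun j _ => by simp only [and_comm]
  · by_cases h : p = q
    · rw [h]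
    · rw [if_neg h, if_neg (Ne.symm h)]

theorem pot1_Mv {K : Type} [Field K] (P : Par) (S : Finset ℕ) (x y0 b : ℕ → K) {p : ℕ}
    (hp : p ∈ S) : P.Mv S x y0 b p =
      ∑ j ∈ P.med S, (if P.inc j p = true then P.phi S x y0 j * P.aa S b j else 0) +
        ∑ j ∈ P.lrg S, (if P.inc j p = true then P.res K * b p else 0) := by
  unfold Mv Mm
  simp only [add_mul, sum_add_distrib]
  congr 1
  · simp only [sum_mul]
    rw [sum_comm]
    refine sum_congr rfl fun j _ => ?_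
    by_cases h : P.inc j p = true
    · simp only [h, true_and, if_true, aa, row, sum_filter, mul_sum]
      exact sum_congr rfl fun q _ => by split_ifs <;> simp
    · simp [h]
  · rw [sum_eq_single p]
    · rw [if_pos rfl, sum_mul]
      exact sum_congr rfl fun j _ => by split_ifs <;> simp
    · intro q _ hq
      rw [if_neg (Ne.symm hq), zero_mul]
    · intro h
      exact absurd hp h

theorem dot_Mv {K : Type} [Field K] (P : Par) (S : Finset ℕ) (x y0 a b : ℕ → K) :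
    ∑ p ∈ S, a p * P.Mv S x y0 b p =
      ∑ j ∈ P.med S, P.phi S x y0 j * (P.aa S a j * P.aa S b j) +
        ∑ j ∈ P.lrg S, P.res K * ∑ i ∈ P.row S j, a i * b i := by
  rw [sum_congr rfl fun p hp => by rw [pot1_Mv P S x y0 b hp]]
  simp only [mul_add, sum_add_distrib]
  congr 1
  · rw [sum_congr rfl fun p _ => mul_sum _ _ (a p), sum_comm]
    refine sum_congr rfl fun j _ => ?_
    rw [show P.aa S a j = ∑ p ∈ S, if P.inc j p = true then a p else 0 from sum_filter _ _,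
      sum_mul, mul_sum]
    exact sum_congr rfl fun p _ => by split_ifs <;> ring
  · rw [sum_congr rfl fun p _ => mul_sum _ _ (a p), sum_comm]
    refine sum_congr rfl fun j _ => ?_
    rw [row, sum_filter, mul_sum]
    exact sum_congr rfl fun p _ => by split_ifs <;> ring

theorem Mq_eq {K : Type} [Field K] (P : Par) (S : Finset ℕ) (x y0 v : ℕ → K) :
    P.Mq S x y0 v = ∑ j ∈ P.med S, P.phi S x y0 j * P.aa S v j ^ 2 +
      ∑ j ∈ P.lrg S, P.res K * P.ee S v j := by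
  unfold Mq ee
  rw [dot_Mv]
  simp only [pow_two]

theorem dot_Mv_symm {K : Type} [Field K] (P : Par) (S : Finset ℕ) (x y0 a b : ℕ → K) :
    ∑ p ∈ S, a p * P.Mv S x y0 b p = ∑ p ∈ S, b p * P.Mv S x y0 a p := by
  rw [dot_Mv, dot_Mv]
  simp only [mul_comm]

/-- Expansion of the quadratic form along `a + s b`. -/
theorem Mq_add {K : Type} [Field K] (P : Par) (S : Finset ℕ) (x y0 a b : ℕ → K) (s : K) :
    P.Mq S x y0 (fun i => a i + s * b i) =
      P.Mq S x y0 a + 2 * s * ∑ p ∈ S, b p * P.Mv S x y0 a p + s ^ 2 * P.Mq S x y0 b := by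
  have h1 : ∀ p, P.Mv S x y0 (fun i => a i + s * b i) p =
      P.Mv S x y0 a p + s * P.Mv S x y0 b p := by
    intro p
    unfold Mv
    rw [mul_sum, ← sum_add_distrib]
    exact sum_congr rfl fun q _ => by ring
  have h2 : P.Mq S x y0 (fun i => a i + s * b i) =
      P.Mq S x y0 a + s * ∑ p ∈ S, a p * P.Mv S x y0 b p + s * ∑ p ∈ S, b p * P.Mv S x y0 a p +
        s ^ 2 * P.Mq S x y0 b := by
    unfold Mq
    simp only [h1, mul_sum, ← sum_add_distrib]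
    exact sum_congr rfl fun p _ => by ring
  rw [h2, dot_Mv_symm P S x y0 a b]
  ring

theorem T_pos (P : Par) : (0 : ℝ) < P.T := by
  have : 0 < P.T := by
    unfold T zb
    positivity
  exact_mod_cast this

theorem res_nonneg (P : Par) : 0 ≤ P.res ℝ := by
  unfold res
  positivity

theorem en_nonneg (hu : ∀ i ∈ S, 0 ≤ x i ∧ x i ≤ 1) (j : ℕ) :
    0 ≤ ∑ i ∈ P.row S j, x i * (1 - x i) := by
  refine sum_nonneg fun i hi => ?_
  have := hu i (mem_filter.1 hi).1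
  exact mul_nonneg this.1 (sub_nonneg.2 this.2)

theorem zz_ge (hu : ∀ i ∈ S, 0 ≤ x i ∧ x i ≤ 1) (j : ℕ) :
    P.yy x y0 j ^ 2 + (P.kap : ℝ) ^ 2 ≤ P.zz S x y0 j := by
  have := mul_nonneg (Nat.cast_nonneg (α := ℝ) P.kap) (en_nonneg (P := P) hu j)
  unfold zz
  linarith

theorem one_le_zz (hu : ∀ i ∈ S, 0 ≤ x i ∧ x i ≤ 1) (j : ℕ) : 1 ≤ P.zz S x y0 j := by
  have h1 := zz_ge (P := P) (y0 := y0) hu j
  have h2 : (1 : ℝ) ≤ P.kap := by
    have : 1 ≤ P.kap := by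
      unfold kap
      omega
    exact_mod_cast this
  nlinarith [sq_nonneg (P.yy x y0 j)]

theorem phi_nonneg (hu : ∀ i ∈ S, 0 ≤ x i ∧ x i ≤ 1) (j : ℕ) : 0 ≤ P.phi S x y0 j := by
  exact pow_nonneg (div_nonneg (zero_le_one.trans (one_le_zz hu j)) P.T_pos.le) _

theorem Mq_nonneg (hu : ∀ i ∈ S, 0 ≤ x i ∧ x i ≤ 1) (v : ℕ → ℝ) : 0 ≤ P.Mq S x y0 v := by
  rw [Mq_eq]
  exact add_nonneg (sum_nonneg fun j _ => mul_nonneg (phi_nonneg hu j) (sq_nonneg _))
    (sum_nonneg fun j _ => mul_nonneg P.res_nonneg (sum_nonneg fun i _ => sq_nonneg _))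

/-- Double counting with the degree bound. -/
theorem deg_sum (hP : P.WF) (hS : S ⊆ range P.n) (J : Finset ℕ) (hJ : J ⊆ range P.m)
    (f : ℕ → ℝ) (hf : ∀ i ∈ S, 0 ≤ f i) :
    ∑ j ∈ J, ∑ i ∈ P.row S j, f i ≤ P.D * ∑ i ∈ S, f i := by
  simp only [row, sum_filter]
  rw [sum_comm, mul_sum]
  refine sum_le_sum fun i hi => ?_
  rw [← sum_filter, sum_const, nsmul_eq_mul]
  refine mul_le_mul_of_nonneg_right ?_ (hf i hi)
  exact_mod_cast (card_le_card (filter_subset_filter _ hJ)).trans (hP.deg i (mem_range.1 (hS hi)))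

theorem res_le (hP : P.WF) (hS : S ⊆ range P.n) (J : Finset ℕ) (hJ : J ⊆ range P.m)
    (v : ℕ → ℝ) : ∑ j ∈ J, P.res ℝ * P.ee S v j ≤ (∑ i ∈ S, v i ^ 2) / 4 := by
  have h1 := deg_sum hP hS J hJ (fun i => v i ^ 2) fun i _ => sq_nonneg _
  have h2 : P.res ℝ * P.D ≤ 1 / 4 := by
    have h3 : (8 : ℝ) * P.D ≤ 2 ^ P.r := by exact_mod_cast hP.rD
    have h4 : ((8 : ℝ) * P.D) ^ 2 ≤ (2 ^ P.r) ^ 2 := pow_le_pow_left₀ (by positivity) h3 2
    have h5 : ((2 : ℝ) ^ P.r) ^ 2 * (1 / 4) ^ P.r = 1 := by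
      rw [← pow_mul, mul_comm P.r, pow_mul, ← mul_pow]
      norm_num
    have h6 : (0 : ℝ) ≤ (1 / 4) ^ P.r := by positivity
    have h7 := mul_le_mul_of_nonneg_right h4 h6
    unfold res
    linarith
  have h8 : 0 ≤ ∑ i ∈ S, v i ^ 2 := sum_nonneg fun i _ => sq_nonneg _
  rw [← mul_sum]
  calc _ ≤ P.res ℝ * (P.D * ∑ i ∈ S, v i ^ 2) := mul_le_mul_of_nonneg_left h1 P.res_nonneg
    _ = P.res ℝ * P.D * ∑ i ∈ S, v i ^ 2 := by ring
    _ ≤ 1 / 4 * ∑ i ∈ S, v i ^ 2 := mul_le_mul_of_nonneg_right h2 h8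
    _ = _ := by ring

theorem card_le_rest (hu : ∀ i ∈ S, 0 ≤ x i ∧ x i ≤ 1) : (S.card : ℝ) ≤ P.rest S x y0 := by
  have h1 : 0 ≤ (P.u : ℝ) ^ 7 * ∑ j ∈ P.lrg S, P.yy x y0 j ^ 2 :=
    mul_nonneg (by positivity) (sum_nonneg fun j _ => sq_nonneg _)
  have h2 : 0 ≤ ∑ i ∈ S, x i * (1 - x i) :=
    sum_nonneg fun i hi => mul_nonneg (hu i hi).1 (sub_nonneg.2 (hu i hi).2)
  unfold rest
  linarith

theorem Ok.rest_le (h : P.Ok S x y0 V) : P.rest S x y0 ≤ V := by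
  have := h.pot fun _ => 0
  simpa [Ff, Mq] using this

/-- The spectral gap. -/
theorem Ok.gap (hP : P.WF) (h : P.Ok S x y0 V) (v : ℕ → ℝ) :
    ∑ i ∈ S, v i ^ 2 ≤ (P.u : ℝ) ^ 7 * (∑ i ∈ S, v i ^ 2 - P.Mq S x y0 v) := by
  have hU : (0 : ℝ) < (P.u : ℝ) ^ 7 := by
    have : 0 < P.u := lt_of_lt_of_le (by norm_num) hP.u16
    positivity
  have h1 : P.Mq S x y0 v ≤ P.Mq S x y0 fun i => |v i| := by
    rw [Mq_eq, Mq_eq]
    refine add_le_add (sum_le_sum fun j _ => mul_le_mul_of_nonneg_left ?_ (phi_nonneg h.unit j))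
      (le_of_eq (sum_congr rfl fun j _ => by simp only [ee, sq_abs]))
    rw [← sq_abs]
    exact pow_le_pow_left₀ (abs_nonneg _) (abs_sum_le_sum_abs _ _) 2
  have h2 : ∑ i ∈ S, v i ^ 2 ≤ (∑ i ∈ S, |v i|) ^ 2 := by
    have := sum_sq_le_sq_sum_of_nonneg (s := S) (f := fun i => |v i|) fun i _ => abs_nonneg _
    simpa only [sq_abs] using this
  have hr : 0 ≤ P.rest S x y0 := (Nat.cast_nonneg _).trans (card_le_rest h.unit)
  have h3 : ∀ t : ℝ, 2 * t * ∑ i ∈ S, |v i| -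
      t ^ 2 * (∑ i ∈ S, v i ^ 2 - P.Mq S x y0 fun i => |v i|) ≤ (P.u : ℝ) ^ 7 := by
    intro t
    have e1 := h.pot fun i => 0 + t * |v i|
    have e2 : P.Mq S x y0 (fun i => 0 + t * |v i|) = t ^ 2 * P.Mq S x y0 fun i => |v i| := by
      rw [Mq_add P S x y0 (fun _ => 0) (fun i => |v i|) t]
      simp [Mq, Mv]
    have e3 : ∑ i ∈ S, (0 + t * |v i|) = t * ∑ i ∈ S, |v i| := by
      simp only [zero_add, mul_sum]
    have e4 : ∑ i ∈ S, (0 + t * |v i|) ^ 2 = t ^ 2 * ∑ i ∈ S, v i ^ 2 := by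
      simp only [zero_add, mul_sum, mul_pow, sq_abs]
    unfold Ff at e1
    rw [e2, e3, e4] at e1
    have := h.le
    linarith
  have hs : 0 ≤ ∑ i ∈ S, |v i| := sum_nonneg fun i _ => abs_nonneg _
  rcases hs.eq_or_lt with h0 | h0
  · have h4 : ∀ i ∈ S, v i = 0 := fun i hi =>
      abs_eq_zero.1 ((sum_eq_zero_iff_of_nonneg fun i _ => abs_nonneg _).1 h0.symm i hi)
    have h5 : ∑ i ∈ S, v i ^ 2 = 0 := sum_eq_zero fun i hi => by rw [h4 i hi]; norm_num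
    have h6 : P.Mq S x y0 v = 0 := sum_eq_zero fun i hi => by rw [h4 i hi, zero_mul]
    rw [h5, h6]
    simp
  · generalize ∑ i ∈ S, |v i| = s at *
    generalize (P.u : ℝ) ^ 7 = U at *
    have h4 := h3 (U / s)
    have h5 : s ^ 2 ≤ U * (∑ i ∈ S, v i ^ 2 - P.Mq S x y0 fun i => |v i|) := by
      generalize (∑ i ∈ S, v i ^ 2 - P.Mq S x y0 fun i => |v i|) = A at *
      have e : 2 * (U / s) * s - (U / s) ^ 2 * A = 2 * U - U * (U * A / s ^ 2) := by
        field_simp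
      rw [e] at h4
      have h6 : U * 1 ≤ U * (U * A / s ^ 2) := by linarith
      exact (one_le_div (by positivity)).1 (le_of_mul_le_mul_left h6 hU)
    exact h2.trans (h5.trans (mul_le_mul_of_nonneg_left (by linarith) hU.le))

theorem Ok.Mq_le (hP : P.WF) (h : P.Ok S x y0 V) (v : ℕ → ℝ) :
    P.Mq S x y0 v ≤ ∑ i ∈ S, v i ^ 2 := by
  have hU : (0 : ℝ) < (P.u : ℝ) ^ 7 := by
    have : 0 < P.u := lt_of_lt_of_le (by norm_num) hP.u16
    positivity
  have h1 : 0 ≤ ∑ i ∈ S, v i ^ 2 := sum_nonneg fun i _ => sq_nonneg _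
  exact sub_nonneg.1 ((mul_nonneg_iff_of_pos_left hU).1 (h1.trans (h.gap hP v)))

theorem Ok.phi_sum_le (hP : P.WF) (h : P.Ok S x y0 V) (v : ℕ → ℝ) :
    ∑ j ∈ P.med S, P.phi S x y0 j * P.aa S v j ^ 2 ≤ ∑ i ∈ S, v i ^ 2 := by
  have h1 := h.Mq_le hP v
  have h2 : 0 ≤ ∑ j ∈ P.lrg S, P.res ℝ * P.ee S v j :=
    sum_nonneg fun j _ => mul_nonneg P.res_nonneg (sum_nonneg fun i _ => sq_nonneg _)
  rw [Mq_eq] at h1
  linarith

theorem Ok.Mv_sq_le (hP : P.WF) (h : P.Ok S x y0 V) (v : ℕ → ℝ) :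
    ∑ i ∈ S, P.Mv S x y0 v i ^ 2 ≤ (1 - 1 / (P.u : ℝ) ^ 7) ^ 2 * ∑ i ∈ S, v i ^ 2 := by
  have hU : (1 : ℝ) < (P.u : ℝ) ^ 7 := by
    have : (1 : ℝ) < P.u := by exact_mod_cast lt_of_lt_of_le (by norm_num) hP.u16
    exact one_lt_pow₀ this (by norm_num)
  have hc : 0 < 1 - 1 / (P.u : ℝ) ^ 7 := sub_pos.2 ((div_lt_one (by linarith)).2 hU)
  have h1 : ∀ w : ℕ → ℝ, P.Mq S x y0 w ≤ (1 - 1 / (P.u : ℝ) ^ 7) * ∑ i ∈ S, w i ^ 2 := by
    intro w
    have := (div_le_iff₀' (by linarith)).2 (h.gap hP w)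
    rw [sub_mul, one_mul, one_div, inv_mul_eq_div]
    linarith
  generalize 1 - 1 / (P.u : ℝ) ^ 7 = c at *
  have h2 := Mq_nonneg (P := P) (y0 := y0) h.unit fun i => v i + (-c⁻¹) * P.Mv S x y0 v i
  rw [Mq_add] at h2
  have h3 : ∑ p ∈ S, P.Mv S x y0 v p * P.Mv S x y0 v p = ∑ i ∈ S, P.Mv S x y0 v i ^ 2 := by
    simp only [pow_two]
  rw [h3] at h2
  have h4 := h1 v
  have h5 := mul_le_mul_of_nonneg_left (h1 (P.Mv S x y0 v)) (sq_nonneg (-c⁻¹))
  generalize ∑ i ∈ S, P.Mv S x y0 v i ^ 2 = N at *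
  have h6 : (-c⁻¹) ^ 2 * (c * N) = c⁻¹ * N := by field_simp
  have h7 : c⁻¹ * N ≤ c * ∑ i ∈ S, v i ^ 2 := by linarith
  rw [inv_mul_le_iff₀ hc] at h7
  linarith

theorem Ok.comb_le (hP : P.WF) (h : P.Ok S x y0 V) (c : ℕ → ℝ) :
    ∑ i ∈ S, (∑ j ∈ P.med S, if P.inc j i = true then P.phi S x y0 j * c j else 0) ^ 2 ≤
      ∑ j ∈ P.med S, P.phi S x y0 j * c j ^ 2 := by
  set w : ℕ → ℝ := fun i =>
    ∑ j ∈ P.med S, if P.inc j i = true then P.phi S x y0 j * c j else 0 with hw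
  have h1 : ∑ i ∈ S, w i ^ 2 = ∑ j ∈ P.med S, P.phi S x y0 j * (c j * P.aa S w j) := by
    have e : ∀ i, w i ^ 2 =
        ∑ j ∈ P.med S, if P.inc j i = true then P.phi S x y0 j * (c j * w i) else 0 := by
      intro i
      rw [pow_two]
      conv_lhs => rw [hw]
      rw [sum_mul]
      exact sum_congr rfl fun j _ => by split_ifs <;> ring
    rw [sum_congr rfl fun i _ => e i, sum_comm]
    refine sum_congr rfl fun j _ => ?_
    rw [aa, row, mul_sum, mul_sum, sum_filter]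
  have h2 := h.phi_sum_le hP w
  have h3 : 2 * ∑ j ∈ P.med S, P.phi S x y0 j * (c j * P.aa S w j) ≤
      ∑ j ∈ P.med S, P.phi S x y0 j * c j ^ 2 +
        ∑ j ∈ P.med S, P.phi S x y0 j * P.aa S w j ^ 2 := by
    rw [mul_sum, ← sum_add_distrib]
    refine sum_le_sum fun j _ => ?_
    nlinarith [mul_nonneg (phi_nonneg (P := P) (y0 := y0) h.unit j) (sq_nonneg (c j - P.aa S w j))]
  change ∑ i ∈ S, w i ^ 2 ≤ _
  linarith

theorem Ok.row_med (hP : P.WF) (h : P.Ok S x y0 V) {j : ℕ} (hj : j ∈ P.med S) :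
    P.yy x y0 j ^ 2 ≤ P.T := by
  have h1 := h.phi_sum_le hP fun i => if P.inc j i = true then 1 else 0
  have h2 : ∑ i ∈ S, (if P.inc j i = true then (1 : ℝ) else 0) ^ 2 = (P.row S j).card := by
    rw [row, card_filter]
    push_cast
    exact sum_congr rfl fun i _ => by split_ifs <;> norm_num
  have h3 : P.aa S (fun i => if P.inc j i = true then (1 : ℝ) else 0) j = (P.row S j).card := by
    rw [aa, card_eq_sum_ones]
    push_cast
    exact sum_congr rfl fun i hi => if_pos (mem_filter.1 hi).2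
  have h4 := single_le_sum (f := fun k => P.phi S x y0 k *
    P.aa S (fun i => if P.inc j i = true then (1 : ℝ) else 0) k ^ 2)
    (fun k _ => mul_nonneg (phi_nonneg h.unit k) (sq_nonneg _)) hj
  rw [h3] at h4
  rw [h2] at h1
  have h5 : (1 : ℝ) ≤ (P.row S j).card := by
    have h6 := (mem_filter.1 hj).2.1
    have : (P.row S j).card ≠ 0 := fun e => by
      rw [e] at h6
      omega
    exact_mod_cast Nat.one_le_iff_ne_zero.2 this
  have h7 : P.phi S x y0 j ≤ 1 := by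
    by_contra hc
    have h8 := not_le.1 hc
    have h10 := h4.trans h1
    generalize ((P.row S j).card : ℝ) = k at *
    have h11 : 1 * k ^ 2 < P.phi S x y0 j * k ^ 2 := mul_lt_mul_of_pos_right h8 (by positivity)
    nlinarith
  have h9 := (pow_le_one_iff_of_nonneg (div_nonneg (zero_le_one.trans (one_le_zz h.unit j))
    P.T_pos.le) (Nat.one_le_iff_ne_zero.1 hP.r1)).1 h7
  rw [div_le_one P.T_pos] at h9
  nlinarith [zz_ge (P := P) (y0 := y0) h.unit j, sq_nonneg (P.kap : ℝ)]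

theorem Ok.row_lrg (hP : P.WF) (h : P.Ok S x y0 V) {j : ℕ} (hj : j ∈ P.lrg S) :
    P.yy x y0 j ^ 2 ≤ 1 := by
  have hU : (0 : ℝ) < (P.u : ℝ) ^ 7 := by
    have : 0 < P.u := lt_of_lt_of_le (by norm_num) hP.u16
    positivity
  have h1 := single_le_sum (f := fun k => P.yy x y0 k ^ 2) (fun k _ => sq_nonneg _) hj
  have h2 : 0 ≤ ∑ i ∈ S, x i * (1 - x i) :=
    sum_nonneg fun i hi => mul_nonneg (h.unit i hi).1 (sub_nonneg.2 (h.unit i hi).2)
  have h3 := h.rest_le.trans h.le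
  have h4 : (0 : ℝ) ≤ S.card := Nat.cast_nonneg _
  unfold rest at h3
  have h5 := mul_le_mul_of_nonneg_left h1 hU.le
  exact le_of_mul_le_mul_left (by linarith) hU

end Par

end Pool.Agent.P.MP_1639c2_lc.W
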