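import Pool.Agent.P.MP_1639c2_lc.W.Pot1

/-! The potential at the start, under shrinking of the alive set, and under small perturbations. -/

namespace Pool.Agent.P.MP_1639c2_lc.W

open Finset

namespace Par

variable {P : Par} {S : Finset ℕ} {x y0 : ℕ → ℝ} {V : ℝ}

theorem pot2_en (R : Finset ℕ) (x : ℕ → ℝ) : ∑ i ∈ R, x i * (1 - x i) ≤ R.card / 4 := by
  have := sum_le_card_nsmul R (fun i => x i * (1 - x i)) (1 / 4) fun i _ => by
    nlinarith [sq_nonneg (x i - 1 / 2)]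
  rw [nsmul_eq_mul] at this
  linarith

theorem pot2_ee (S : Finset ℕ) (v : ℕ → ℝ) (j : ℕ) : 0 ≤ P.res ℝ * P.ee S v j :=
  mul_nonneg P.res_nonneg (sum_nonneg fun _ _ => sq_nonneg _)

theorem pot2_row (hu : ∀ i ∈ S, 0 ≤ x i ∧ x i ≤ 1) {j : ℕ} (hy : P.yy x y0 j ^ 2 ≤ 1)
    (hj : j ∈ P.med S) (v : ℕ → ℝ) :
    P.phi S x y0 j * P.aa S v j ^ 2 ≤ P.res ℝ * P.ee S v j := by
  have hc : ((P.row S j).card : ℝ) ≤ 16 * P.D := by exact_mod_cast (mem_filter.1 hj).2.2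
  have h1 : P.zz S x y0 j / P.T ≤ 1 / 4 := by
    rw [div_le_iff₀ P.T_pos]
    have := mul_le_mul_of_nonneg_left ((pot2_en (P.row S j) x).trans
      (by linarith : _ ≤ 4 * (P.D : ℝ))) (Nat.cast_nonneg (α := ℝ) P.kap)
    simp only [zz, T, zb]
    push_cast
    linarith
  have h2 : P.phi S x y0 j ≤ (1 / 4) ^ P.r :=
    pow_le_pow_left₀ (div_nonneg (zero_le_one.trans (one_le_zz hu j)) P.T_pos.le) h1 _
  have h3 : P.aa S v j ^ 2 ≤ 16 * P.D * P.ee S v j :=
    sq_sum_le_card_mul_sum_sq.trans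
      (mul_le_mul_of_nonneg_right hc (sum_nonneg fun _ _ => sq_nonneg _))
  rw [res, mul_assoc]
  exact mul_le_mul h2 h3 (sq_nonneg _) (by positivity)

theorem pot2_disj (S : Finset ℕ) : Disjoint (P.med S) (P.lrg S) :=
  disjoint_left.2 fun _ h1 h2 => (mem_filter.1 h1).2.2.not_gt (mem_filter.1 h2).2.2

theorem pot2_pow {t : ℝ} (ht : 0 ≤ t) (n : ℕ) (h : 2 * n * t ≤ 1) :
    (1 + t) ^ n ≤ 1 + 2 * n * t := by
  induction n with
  | zero => simp
  | succ n ih =>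
    push_cast at h ⊢
    have h1 : 2 * n * t ≤ 1 := by linarith
    rw [pow_succ]
    nlinarith [mul_le_mul_of_nonneg_right (ih h1) (by linarith : 0 ≤ 1 + t),
      mul_le_mul_of_nonneg_right h1 ht]

theorem pot2_smul (c : ℝ) (v : ℕ → ℝ) :
    P.Mq S x y0 (fun i => c * v i) = c ^ 2 * P.Mq S x y0 v := by
  simp only [Mq, Mv, mul_sum]
  exact sum_congr rfl fun p _ => sum_congr rfl fun q _ => by ring

theorem pot_init (hP : P.WF) (hS : S ⊆ range P.n) (hu : ∀ i ∈ S, 0 ≤ x i ∧ x i ≤ 1) :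
    P.Pot S x (P.aa (range P.n) x) (4 * P.n) := by
  intro v
  have y0 : ∀ j, P.yy x (P.aa (range P.n) x) j = 0 := fun j => sub_self _
  have h1 : P.Mq S x (P.aa (range P.n) x) v ≤ (∑ i ∈ S, v i ^ 2) / 4 := by
    refine le_trans ?_ (res_le hP hS (P.med S ∪ P.lrg S)
      (union_subset (filter_subset _ _) (filter_subset _ _)) v)
    rw [Mq_eq, sum_union (pot2_disj S)]
    exact add_le_add (sum_le_sum fun j hj => pot2_row hu (by simp [y0]) hj v) le_rfl
  have h2 := sum_le_card_nsmul S (fun i => 2 * v i - 3 / 4 * v i ^ 2) (4 / 3) fun i _ => by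
    nlinarith [sq_nonneg (v i - 4 / 3)]
  rw [nsmul_eq_mul, sum_sub_distrib, ← mul_sum, ← mul_sum] at h2
  have h3 := pot2_en S x
  have h4 : (S.card : ℝ) ≤ P.n := by exact_mod_cast (card_le_card hS).trans_eq (card_range _)
  have h5 : (0 : ℝ) ≤ S.card := Nat.cast_nonneg _
  simp only [Ff, rest, y0]
  simp only [ne_eq, OfNat.ofNat_ne_zero, not_false_eq_true, zero_pow, sum_const_zero, mul_zero]
  linarith

theorem Ok.shrink (hP : P.WF) (h : P.Ok S x y0 V) {S' : Finset ℕ} (hS : S' ⊆ S) :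
    P.Pot S' x y0 (V - ((S.card : ℝ) - S'.card)) := by
  intro v
  have hu' : ∀ i ∈ S', 0 ≤ x i ∧ x i ≤ 1 := fun i hi => h.unit i (hS hi)
  have hr : ∀ j, P.row S' j ⊆ P.row S j := fun j => filter_subset_filter _ hS
  have hc : ∀ j, (P.row S' j).card ≤ (P.row S j).card := fun j => card_le_card (hr j)
  have e0 : ∀ (f : ℝ → ℝ), f 0 = 0 → ∀ R R' : Finset ℕ, R' ⊆ R → (∀ i ∈ R, i ∈ S' ↔ i ∈ R') →
      ∑ i ∈ R, f (if i ∈ S' then v i else 0) = ∑ i ∈ R', f (v i) := fun f f0 R R' h1 h2 => by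
    rw [← sum_subset h1 fun i a b => by rw [if_neg fun c => b ((h2 i a).1 c), f0]]
    exact sum_congr rfl fun i a => by rw [if_pos ((h2 i (h1 a)).2 a)]
  have er : ∀ j, ∀ i ∈ P.row S j, i ∈ S' ↔ i ∈ P.row S' j := fun j i hi =>
    ⟨fun a => mem_filter.2 ⟨a, (mem_filter.1 hi).2⟩, fun a => (mem_filter.1 a).1⟩
  have e1 := e0 id rfl S S' hS fun _ _ => Iff.rfl
  have e2 := e0 (· ^ 2) (by simp) S S' hS fun _ _ => Iff.rfl
  have e3 : ∀ j, P.aa S (fun i => if i ∈ S' then v i else 0) j = P.aa S' v j := fun j =>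
    e0 id rfl _ _ (hr j) (er j)
  have e4 : ∀ j, P.ee S (fun i => if i ∈ S' then v i else 0) j = P.ee S' v j := fun j =>
    e0 (· ^ 2) (by simp) _ _ (hr j) (er j)
  have hl : P.lrg S' ⊆ P.lrg S := fun j hj => by
    obtain ⟨a, b, c⟩ := mem_filter.1 hj
    exact mem_filter.2 ⟨a, b.trans_le (Nat.pow_le_pow_left (hc j) 2), c.trans_le (hc j)⟩
  have hm : ∀ j ∈ P.med S', j ∉ P.med S → j ∈ P.lrg S := fun j hj hn => by
    obtain ⟨a, b, -⟩ := mem_filter.1 hj
    have b' := b.trans_le (Nat.pow_le_pow_left (hc j) 2)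
    exact mem_filter.2 ⟨a, b', not_le.1 fun c => hn (mem_filter.2 ⟨a, b', c⟩)⟩
  have en : ∀ R R' : Finset ℕ, R' ⊆ R → R ⊆ S →
      ∑ i ∈ R', x i * (1 - x i) ≤ ∑ i ∈ R, x i * (1 - x i) := fun R R' h1 h2 =>
    sum_le_sum_of_subset_of_nonneg h1 fun i a _ =>
      mul_nonneg (h.unit i (h2 a)).1 (sub_nonneg.2 (h.unit i (h2 a)).2)
  have hp : ∀ j, P.phi S' x y0 j ≤ P.phi S x y0 j := fun j =>
    pow_le_pow_left₀ (div_nonneg (zero_le_one.trans (one_le_zz hu' j)) P.T_pos.le)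
      (div_le_div_of_nonneg_right (add_le_add (add_le_add le_rfl (mul_le_mul_of_nonneg_left
        (en _ _ (hr j) (filter_subset _ _)) (Nat.cast_nonneg _))) le_rfl) P.T_pos.le) _
  have m1 : ∑ j ∈ (P.med S').filter (· ∈ P.med S), P.phi S' x y0 j * P.aa S' v j ^ 2 ≤
      ∑ j ∈ P.med S, P.phi S x y0 j * P.aa S' v j ^ 2 :=
    (sum_le_sum fun j _ => mul_le_mul_of_nonneg_right (hp j) (sq_nonneg _)).trans
      (sum_le_sum_of_subset_of_nonneg (fun j hj => (mem_filter.1 hj).2) fun j _ _ =>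
        mul_nonneg (phi_nonneg h.unit j) (sq_nonneg _))
  have m2 : ∑ j ∈ (P.med S').filter (· ∉ P.med S), P.phi S' x y0 j * P.aa S' v j ^ 2 ≤
      ∑ j ∈ (P.med S').filter (· ∉ P.med S), P.res ℝ * P.ee S' v j :=
    sum_le_sum fun j hj => pot2_row hu'
      (h.row_lrg hP (hm j (mem_filter.1 hj).1 (mem_filter.1 hj).2)) (mem_filter.1 hj).1 v
  have m3 : ∑ j ∈ (P.med S').filter (· ∉ P.med S) ∪ P.lrg S', P.res ℝ * P.ee S' v j ≤
      ∑ j ∈ P.lrg S, P.res ℝ * P.ee S' v j :=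
    sum_le_sum_of_subset_of_nonneg (union_subset
      (fun j hj => hm j (mem_filter.1 hj).1 (mem_filter.1 hj).2) hl) fun j _ _ => pot2_ee _ _ j
  rw [sum_union ((pot2_disj S').mono_left (filter_subset _ _))] at m3
  have m4 := sum_filter_add_sum_filter_not (P.med S') (· ∈ P.med S)
    fun j => P.phi S' x y0 j * P.aa S' v j ^ 2
  have r1 := mul_le_mul_of_nonneg_left (sum_le_sum_of_subset_of_nonneg
    (f := fun j => P.yy x y0 j ^ 2) hl fun _ _ _ => sq_nonneg _)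
    (by positivity : (0 : ℝ) ≤ (P.u : ℝ) ^ 7)
  have r2 := en S S' hS Subset.rfl
  have k := h.pot fun i => if i ∈ S' then v i else 0
  simp only [Ff, rest, Mq_eq, e3, e4, id] at k e1 e2 ⊢
  linarith

theorem Ok.perturb (hP : P.WF) (h : P.Ok S x y0 V) (x' : ℕ → ℝ)
    (hx : ∀ i < P.n, i ∉ S → x' i = x i)
    (hs : ∑ i ∈ S, |x' i - x i| ≤ 1 / (P.u : ℝ) ^ 18) : P.Pot S x' y0 (V + 3 / 8) := by
  intro v
  have hU : (16 : ℝ) ≤ P.u := by exact_mod_cast hP.u16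
  obtain ⟨e, he, e0, e15⟩ : ∃ e : ℝ, ∑ i ∈ S, |x' i - x i| ≤ e ∧ 0 ≤ e ∧
      (P.u : ℝ) ^ 15 * e ≤ 1 / 4096 := by
    refine ⟨_, hs, by positivity, ?_⟩
    have := pow_le_pow_left₀ (by norm_num) hU 3
    rw [show (P.u : ℝ) ^ 15 * (1 / P.u ^ 18) = 1 / P.u ^ 3 by field_simp]
    exact one_div_le_one_div_of_le (by norm_num) (by linarith)
  have ek : ∀ k, k ≤ 15 → (P.u : ℝ) ^ k * e ≤ 1 / 4096 := fun k hk =>
    (mul_le_mul_of_nonneg_right (pow_le_pow_right₀ (by linarith) hk) e0).trans e15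
  have e1 := ek 0 (by norm_num)
  have e2 := ek 1 (by norm_num)
  have e8 := ek 8 (by norm_num)
  rw [pow_zero, one_mul] at e1
  rw [pow_one] at e2
  have hy : ∀ j, |P.yy x' y0 j - P.yy x y0 j| ≤ e := fun j => by
    rw [yy, yy, sub_sub_sub_cancel_right, aa, aa, ← sum_sub_distrib]
    refine (abs_sum_le_sum_abs _ _).trans ((sum_le_sum_of_subset_of_nonneg (filter_subset _ _)
      fun _ _ _ => abs_nonneg _).trans (le_trans (le_of_eq ?_) he))
    exact (sum_subset h.sub fun i a b => by rw [hx i (mem_range.1 a) b, sub_self, abs_zero]).symm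
  have hen : ∀ R ⊆ S, |∑ i ∈ R, x' i * (1 - x' i) - ∑ i ∈ R, x i * (1 - x i)| ≤ 2 * e :=
    fun R hR => by
      rw [← sum_sub_distrib]
      refine (abs_sum_le_sum_abs _ _).trans (le_trans ?_ (mul_le_mul_of_nonneg_left
        ((sum_le_sum_of_subset_of_nonneg hR fun _ _ _ => abs_nonneg _).trans he) two_pos.le))
      rw [mul_sum]
      refine sum_le_sum fun i hi => ?_
      have a1 := abs_le.1 ((single_le_sum (f := fun i => |x' i - x i|) (fun _ _ => abs_nonneg _)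
        (hR hi)).trans he)
      have a2 := h.unit i (hR hi)
      rw [show x' i * (1 - x' i) - x i * (1 - x i) = (1 - x i - x' i) * (x' i - x i) by ring,
        abs_mul]
      exact mul_le_mul_of_nonneg_right (abs_le.2 ⟨by linarith, by linarith⟩) (abs_nonneg _)
  have hsq : ∀ j, P.yy x' y0 j ^ 2 ≤ P.yy x y0 j ^ 2 + (P.yy x y0 j ^ 2 + 2) * e := fun j => by
    have a1 := abs_le.1 (hy j)
    have a2 : (P.yy x' y0 j - P.yy x y0 j) ^ 2 ≤ e ^ 2 := sq_le_sq' a1.1 a1.2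
    have a3 : 2 * P.yy x y0 j * (P.yy x' y0 j - P.yy x y0 j) ≤ (P.yy x y0 j ^ 2 + 1) * e := by
      refine (le_abs_self _).trans ?_
      rw [abs_mul]
      exact mul_le_mul (abs_le.2 ⟨by nlinarith [sq_nonneg (P.yy x y0 j + 1)],
        by nlinarith [sq_nonneg (P.yy x y0 j - 1)]⟩) (hy j) (abs_nonneg _) (by positivity)
    nlinarith
  have k6 : (6 : ℝ) ≤ P.kap := by exact_mod_cast Nat.le_add_left 6 (192 * P.r)
  have ru : (P.r : ℝ) ≤ P.u := by
    exact_mod_cast (show P.r ≤ P.kap by unfold kap; omega).trans hP.ku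
  have hp : ∀ j, P.phi S x' y0 j ≤ (1 + 10 * (P.u * e)) * P.phi S x y0 j := fun j => by
    have a1 := abs_le.1 (hen (P.row S j) (filter_subset _ _))
    have a2 := zz_ge (P := P) (y0 := y0) h.unit j
    have a3 := en_nonneg (P := P) h.unit j
    have a4 : 0 ≤ P.zz S x' y0 j := by
      unfold zz
      nlinarith [sq_nonneg (P.yy x' y0 j)]
    have a5 : P.zz S x' y0 j ≤ (1 + 5 * e) * P.zz S x y0 j := by
      have b1 := mul_le_mul_of_nonneg_left a1.2 (by linarith : (0 : ℝ) ≤ P.kap)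
      have b2 := mul_le_mul_of_nonneg_right a2 e0
      have b3 : (2 + 2 * (P.kap : ℝ)) * e ≤ P.kap ^ 2 * e :=
        mul_le_mul_of_nonneg_right (by nlinarith) e0
      have b4 := mul_nonneg (zero_le_one.trans (one_le_zz (P := P) (y0 := y0) h.unit j)) e0
      have b5 := hsq j
      have b6 : P.zz S x' y0 j - P.zz S x y0 j = P.yy x' y0 j ^ 2 - P.yy x y0 j ^ 2 + P.kap *
          (∑ i ∈ P.row S j, x' i * (1 - x' i) - ∑ i ∈ P.row S j, x i * (1 - x i)) := by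
        unfold zz
        ring
      linarith
    have a6 := mul_le_mul_of_nonneg_right ru e0
    refine (pow_le_pow_left₀ (div_nonneg a4 P.T_pos.le)
      (div_le_div_of_nonneg_right a5 P.T_pos.le) _).trans ?_
    rw [mul_div_assoc, mul_pow]
    exact mul_le_mul_of_nonneg_right ((pot2_pow (by positivity) _ (by linarith)).trans
      (by linarith)) (phi_nonneg h.unit j)
  have hM : P.Mq S x' y0 v ≤ (1 + 10 * (P.u * e)) * P.Mq S x y0 v := by
    rw [Mq_eq, Mq_eq, mul_add, mul_sum]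
    refine add_le_add (sum_le_sum fun j _ => ?_) (le_mul_of_one_le_left
      (sum_nonneg fun j _ => pot2_ee _ _ j) (by nlinarith))
    rw [← mul_assoc]
    exact mul_le_mul_of_nonneg_right (hp j) (sq_nonneg _)
  have hR : P.rest S x' y0 ≤ P.rest S x y0 + 1 / 4 := by
    have a1 := (abs_le.1 (hen S Subset.rfl)).2
    have a2 : ∑ j ∈ P.lrg S, P.yy x' y0 j ^ 2 ≤ ∑ j ∈ P.lrg S, (P.yy x y0 j ^ 2 + 3 * e) :=
      sum_le_sum fun j hj => (hsq j).trans (by nlinarith [h.row_lrg hP hj])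
    have a3 : ((P.lrg S).card : ℝ) ≤ P.u := by
      exact_mod_cast ((card_filter_le _ _).trans_eq (card_range _)).trans hP.mu
    rw [sum_add_distrib, sum_const, nsmul_eq_mul] at a2
    have a4 := mul_le_mul_of_nonneg_left (a2.trans (add_le_add le_rfl
      (mul_le_mul_of_nonneg_right a3 (by positivity)))) (by positivity : (0 : ℝ) ≤ (P.u : ℝ) ^ 7)
    unfold rest
    nlinarith
  have g1 := (h.Mq_le hP v).trans (h.gap hP v)
  have g2 := mul_le_mul_of_nonneg_left g1 (by positivity : 0 ≤ 10 * (P.u * e))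
  have g3 := h.pot fun i => (1 - 10 * (P.u ^ 8 * e)) * v i
  have w0 := h.rest_le
  have w1 := (Nat.cast_nonneg (α := ℝ) S.card).trans (card_le_rest (P := P) (y0 := y0) h.unit)
  have w2 := h.le
  simp only [Ff, pot2_smul, mul_pow, ← mul_sum] at g3 ⊢
  obtain ⟨X, hX⟩ : ∃ X, X = 2 * ∑ p ∈ S, v p -
      (1 - 10 * (P.u ^ 8 * e)) * (∑ p ∈ S, v p ^ 2 - P.Mq S x y0 v) := ⟨_, rfl⟩
  have g4 : (1 - 10 * (P.u ^ 8 * e)) * X ≤ V - P.rest S x y0 := by
    rw [hX]
    linarith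
  have g5 : X ≤ 2 * (P.u : ℝ) ^ 7 := by
    by_contra hc
    have : (0 : ℝ) ≤ (P.u : ℝ) ^ 7 := by positivity
    nlinarith
  have g6 := mul_le_mul_of_nonneg_left g5 (by positivity : 0 ≤ 10 * ((P.u : ℝ) ^ 8 * e))
  nlinarith

end Par

end Pool.Agent.P.MP_1639c2_lc.W
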