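import Pool.Agent.P.MP_1639c2_lc.W.Amin
import Pool.Agent.Lib.NP.Bin2

/-! Polynomial time arithmetic on integers and rationals. -/

namespace Pool.Agent.P.MP_1639c2_lc.W

open Finset Pool.Agent.Lib.NP

variable {α β : Type} [Enc α] [Enc β]

theorem qpt_sz_int (z : ℤ) : sz z = 2 * sz (ipos z) + 1 + sz (ineg z) := sz_prod (ipos z) (ineg z)

theorem qpt_sz_rat (q : ℚ) : sz q = 2 * sz q.num + 1 + sz (toBN q.den) :=
  sz_prod q.num (toBN q.den)

theorem qpt_sz_int_le {z : ℤ} {k : ℕ} (h : z.natAbs < 2 ^ k) : sz z ≤ 2 * k + 1 := by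
  rw [qpt_sz_int]
  rcases le_total 0 z with h0 | h0
  · have h1 : sz (ipos z) ≤ k := sz_le_of_lt (by change z.toNat < _; omega)
    have h2 : sz (ineg z) ≤ 0 := sz_le_of_lt (by change (-z).toNat < _; omega)
    omega
  · have h1 : sz (ipos z) ≤ 0 := sz_le_of_lt (by change z.toNat < _; omega)
    have h2 : sz (ineg z) ≤ k := sz_le_of_lt (by change (-z).toNat < _; omega)
    omega

theorem qpt_natAbs_lt (z : ℤ) : z.natAbs < 2 ^ sz z := by
  have h1 : z.toNat < 2 ^ sz (ipos z) := lt_blen (ipos z)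
  have h2 : (-z).toNat < 2 ^ sz (ineg z) := lt_blen (ineg z)
  have h3 : 2 ^ sz (ipos z) ≤ 2 ^ sz z :=
    Nat.pow_le_pow_right (by norm_num) (by rw [qpt_sz_int]; omega)
  have h4 : 2 ^ sz (ineg z) ≤ 2 ^ sz z :=
    Nat.pow_le_pow_right (by norm_num) (by rw [qpt_sz_int]; omega)
  omega

theorem sz_rat_le {q : ℚ} {k : ℕ} (h1 : q.num.natAbs < 2 ^ k) (h2 : q.den < 2 ^ k) :
    sz q ≤ 5 * k + 3 := by
  have h3 := qpt_sz_int_le h1
  have h4 : sz (toBN q.den) ≤ k := sz_le_of_lt h2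
  rw [qpt_sz_rat]
  omega

theorem num_lt_sz (q : ℚ) : q.num.natAbs < 2 ^ sz q :=
  (qpt_natAbs_lt q.num).trans_le
    (Nat.pow_le_pow_right (by norm_num) (by rw [qpt_sz_rat]; omega))

theorem den_lt_sz (q : ℚ) : q.den < 2 ^ sz q :=
  (lt_blen (toBN q.den)).trans_le (Nat.pow_le_pow_right (by norm_num) (by
    rw [qpt_sz_rat]
    exact Nat.le_add_left _ _))

theorem natAbs_lt_sz (z : ℤ) : z.natAbs < 2 ^ sz z := qpt_natAbs_lt z

@[fun_prop] theorem pt_sz {f : α → β} (hf : PT f) : PT fun a => sz (f a) := hf.enc'.length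

theorem qpt_pos_neg (z : ℤ) : (((ipos z).v : ℕ) : ℤ) - (ineg z).v = z := Int.toNat_sub_toNat_neg z

@[fun_prop] theorem pt_zadd {f g : α → ℤ} (hf : PT f) (hg : PT g) : PT fun a => f a + g a := by
  refine PT.congr (f := fun a => zsub (badd (ipos (f a)) (ipos (g a)))
    (badd (ineg (f a)) (ineg (g a)))) (by fun_prop) fun a => ?_
  have h1 := qpt_pos_neg (f a)
  have h2 := qpt_pos_neg (g a)
  simp only [zsub, badd_v]
  omega

@[fun_prop] theorem pt_zneg {f : α → ℤ} (hf : PT f) : PT fun a => -f a := by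
  refine PT.congr (f := fun a => zsub (ineg (f a)) (ipos (f a))) (by fun_prop) fun a => ?_
  have h1 := qpt_pos_neg (f a)
  simp only [zsub]
  omega

@[fun_prop] theorem pt_zmul {f g : α → ℤ} (hf : PT f) (hg : PT g) : PT fun a => f a * g a := by
  refine PT.congr (f := fun a => zsub
    (badd (bmul (ipos (f a)) (ipos (g a))) (bmul (ineg (f a)) (ineg (g a))))
    (badd (bmul (ipos (f a)) (ineg (g a))) (bmul (ineg (f a)) (ipos (g a))))) (by fun_prop)
    fun a => ?_
  conv_rhs => rw [← qpt_pos_neg (f a), ← qpt_pos_neg (g a)]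
  simp only [zsub, badd_v, bmul_v]
  push_cast
  ring

@[fun_prop] theorem pt_zle {f g : α → ℤ} [∀ a, Decidable (f a ≤ g a)] (hf : PT f) (hg : PT g) :
    PT fun a => decide (f a ≤ g a) := by
  refine PT.congr (f := fun a => ble (badd (ipos (f a)) (ineg (g a)))
    (badd (ipos (g a)) (ineg (f a)))) (by fun_prop) fun a => ?_
  have h1 := qpt_pos_neg (f a)
  have h2 := qpt_pos_neg (g a)
  rw [Bool.eq_iff_iff, ble_iff, decide_eq_true_eq, badd_v, badd_v]
  omega

/-- The absolute value of an integer, in binary. -/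
def qptAbs (z : ℤ) : BN := badd (ipos z) (ineg z)

theorem qptAbs_v (z : ℤ) : (qptAbs z).v = z.natAbs := by
  change z.toNat + (-z).toNat = _
  omega

@[fun_prop] theorem qpt_abs {f : α → ℤ} (hf : PT f) : PT fun a => qptAbs (f a) := by
  unfold qptAbs
  fun_prop

/-- A binary natural number as an integer. -/
def qptZ (b : BN) : ℤ := b.v

@[fun_prop] theorem qpt_z {f : α → BN} (hf : PT f) : PT fun a => qptZ (f a) :=
  PT.congr (f := fun a => zsub (f a) (toBN 0)) (by fun_prop) fun a => by simp [zsub, qptZ]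

/-- Division of an integer by a binary natural number, rounding down. -/
def qptDiv (z : ℤ) (d : BN) : ℤ :=
  zsub (bdiv (ipos z) d) (bdiv (bsub (badd (ineg z) d) (toBN 1)) d)

@[fun_prop] theorem qpt_div {f : α → ℤ} {g : α → BN} (hf : PT f) (hg : PT g) :
    PT fun a => qptDiv (f a) (g a) := by
  unfold qptDiv
  fun_prop

theorem qptDiv_eq (z : ℤ) {d : BN} (hd : 0 < d.v) : qptDiv z d = z / (d.v : ℤ) := by
  have hd' : (0 : ℤ) < d.v := by exact_mod_cast hd
  change ((z.toNat / d.v : ℕ) : ℤ) - ((((-z).toNat + d.v - 1) / d.v : ℕ) : ℤ) = _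
  rcases le_total 0 z with h0 | h0
  · rw [show (-z).toNat = 0 by omega, Nat.div_eq_of_lt (show 0 + d.v - 1 < d.v by omega),
      Int.natCast_div, Int.toNat_of_nonneg h0]
    simp
  · rw [show z.toNat = 0 by omega, Nat.zero_div]
    symm
    rw [Int.ediv_eq_iff_of_pos hd']
    have h1 := Nat.div_add_mod ((-z).toNat + d.v - 1) d.v
    have h2 := Nat.mod_lt ((-z).toNat + d.v - 1) hd
    generalize ((-z).toNat + d.v - 1) / d.v = q at h1
    have h3 : (((0 : ℕ) : ℤ) - (q : ℤ)) * (d.v : ℤ) = -((d.v * q : ℕ) : ℤ) := by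
      push_cast
      ring
    rw [h3]
    omega

/-- One step of the Euclidean algorithm. -/
def qptStep (s : BN × BN) : BN × BN :=
  bif ble s.2 (toBN 0) then s else (s.2, bsub s.1 (bmul s.2 (bdiv s.1 s.2)))

theorem qptStep_iter (a b : BN) (h : b.v ≤ a.v) (i : ℕ) :
    (qptStep^[i] (a, b)).2.v ≤ (qptStep^[i] (a, b)).1.v ∧ (qptStep^[i] (a, b)).1.v ≤ a.v ∧
    Nat.gcd (qptStep^[i] (a, b)).2.v (qptStep^[i] (a, b)).1.v = Nat.gcd b.v a.v ∧
    (qptStep^[i] (a, b)).1.v * (qptStep^[i] (a, b)).2.v * 2 ^ i ≤ a.v * b.v := by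
  induction i with
  | zero => simpa using h
  | succ i ih =>
    rw [Function.iterate_succ_apply']
    generalize qptStep^[i] (a, b) = s at ih
    obtain ⟨x, y⟩ := s
    obtain ⟨h1, h2, h3, h4⟩ := ih
    simp only at h1 h2 h3 h4
    cases hy : ble y (toBN 0)
    · have h0 : 0 < y.v := by simpa [ble, Nat.pos_iff_ne_zero] using hy
      have e : qptStep (x, y) = (y, ⟨x.v % y.v⟩) := by
        unfold qptStep
        rw [hy]
        exact Prod.ext rfl (BN.ext (Nat.mod_def _ _).symm)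
      rw [e]
      have h5 := Nat.mod_lt x.v h0
      have h6 : x.v % y.v ≤ x.v - y.v := by
        rw [Nat.mod_eq_sub_mod h1]
        exact Nat.mod_le _ _
      refine ⟨h5.le, h1.trans h2, (Nat.gcd_rec _ _).symm.trans h3, le_trans ?_ h4⟩
      have h7 : x.v % y.v * 2 ≤ x.v := by omega
      calc y.v * (x.v % y.v) * 2 ^ (i + 1) = (x.v % y.v * 2) * (y.v * 2 ^ i) := by ring
        _ ≤ x.v * (y.v * 2 ^ i) := Nat.mul_le_mul_right _ h7
        _ = _ := by ring
    · have h0 : y.v = 0 := by simpa using hy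
      have e : qptStep (x, y) = (x, y) := by
        unfold qptStep
        rw [hy]
        rfl
      rw [e]
      exact ⟨h1, h2, h3, by simp [h0]⟩

/-- The greatest common divisor, in binary. -/
def qptGcd (a b : BN) : BN := ⟨Nat.gcd a.v b.v⟩

theorem qpt_gcd0 : PT fun p : BN × BN => qptGcd p.1 p.2 := by
  have hg : PT qptStep := by unfold qptStep; fun_prop
  refine (PT.iterate (s0 := fun p : BN × BN => (badd p.1 p.2, p.1))
    (n := fun p => blen (badd p.1 p.2) + blen p.1) hg (by fun_prop) (by fun_prop)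
    (3 * Polynomial.X + 4) fun p i _ => ?_).fst.congr fun p => ?_
  · obtain ⟨a, b⟩ := p
    obtain ⟨h1, h2, -⟩ := qptStep_iter (badd a b) a (by simp) i
    generalize qptStep^[i] (badd a b, a) = s at h1 h2
    obtain ⟨x, y⟩ := s
    have k1 : sz x ≤ sz (badd a b) := sz_le_of_lt (h2.trans_lt (lt_blen _))
    have k2 : sz y ≤ sz (badd a b) := sz_le_of_lt ((h1.trans h2).trans_lt (lt_blen _))
    have k3 := sz_badd a b
    simp; omega
  · obtain ⟨a, b⟩ := p
    obtain ⟨h1, -, h3, h4⟩ := qptStep_iter (badd a b) a (by simp) (blen (badd a b) + blen a)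
    generalize qptStep^[blen (badd a b) + blen a] (badd a b, a) = s at h1 h3 h4
    have h5 : (badd a b).v * a.v < 2 ^ (blen (badd a b) + blen a) := by
      rw [pow_add]
      exact Nat.mul_lt_mul'' (lt_blen _) (lt_blen _)
    have h6 : s.2.v = 0 := by
      by_contra h0
      have h7 : 1 ≤ s.1.v * s.2.v := Nat.mul_pos (by omega) (by omega)
      have h8 := Nat.mul_le_mul_right (2 ^ (blen (badd a b) + blen a)) h7
      omega
    rw [h6, Nat.gcd_zero_left, badd_v, Nat.gcd_self_add_right] at h3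
    exact BN.ext h3

@[fun_prop] theorem qpt_gcd {f g : α → BN} (hf : PT f) (hg : PT g) :
    PT fun a => qptGcd (f a) (g a) := qpt_gcd0.comp (hf.mk hg)

theorem qpt_ofPair {f : α → ℚ} (h1 : PT fun a => (f a).num) (h2 : PT fun a => toBN (f a).den) :
    PT f := PTe.reindex (h1.mk h2) fun a => ⟨a, rfl, rfl⟩

theorem qpt_mkRat {f : α → ℤ} {g : α → BN} (hf : PT f) (hg : PT g) :
    PT fun a => mkRat (f a) (g a).v := by
  refine qpt_ofPair (PT.congr (f := fun a => bif ble (g a) (toBN 0) then 0 else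
      qptDiv (f a) (qptGcd (g a) (qptAbs (f a)))) (by fun_prop) fun a => ?_)
    (PT.congr (f := fun a => bif ble (g a) (toBN 0) then toBN 1 else
      bdiv (g a) (qptGcd (g a) (qptAbs (f a)))) (by fun_prop) fun a => ?_)
  · rw [Rat.num_mkRat]
    cases h : ble (g a) (toBN 0)
    · have h0 : 0 < (g a).v := by simpa [ble, Nat.pos_iff_ne_zero] using h
      rw [if_neg h0.ne', ← qptAbs_v]
      exact qptDiv_eq _ (Nat.gcd_pos_of_pos_left _ h0)
    · have h0 : (g a).v = 0 := by simpa using h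
      rw [if_pos h0]
      rfl
  · rw [Rat.den_mkRat]
    cases h : ble (g a) (toBN 0)
    · have h0 : 0 < (g a).v := by simpa [ble, Nat.pos_iff_ne_zero] using h
      rw [if_neg h0.ne', ← qptAbs_v]
      rfl
    · have h0 : (g a).v = 0 := by simpa using h
      rw [if_pos h0]
      rfl

@[fun_prop] theorem pt_minAbs {R : α → ℕ} {f : α → ℤ} (hR : PT R) (hf : PT f) :
    PT fun a => min (R a) (f a).natAbs := by
  refine PT.congr (f := fun a => (List.range (R a)).countP
    fun s => !ble (qptAbs (f a)) (toBN s)) (by fun_prop) fun a => ?_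
  generalize R a = n
  induction n with
  | zero => simp
  | succ n ih =>
    rw [List.range_succ, List.countP_append, ih]
    by_cases h : (f a).natAbs ≤ n
    · simp [ble, qptAbs_v, h]; omega
    · simp [ble, qptAbs_v, h]; omega

@[fun_prop] theorem pt_intCast {f : α → ℤ} (hf : PT f) : PT fun a => ((f a : ℤ) : ℚ) :=
  qpt_ofPair hf (PT.const (toBN 1))

@[fun_prop] theorem pt_natCast {f : α → ℕ} (hf : PT f) : PT fun a => ((f a : ℕ) : ℚ) :=
  hf.toBN'.bq'

@[fun_prop] theorem pt_qadd {f g : α → ℚ} (hf : PT f) (hg : PT g) : PT fun a => f a + g a :=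
  (qpt_mkRat (pt_zadd (pt_zmul hf.qnum (qpt_z hg.qden)) (pt_zmul hg.qnum (qpt_z hf.qden)))
    (hf.qden.bmul' hg.qden)).congr fun a => (Rat.add_def' (f a) (g a)).symm

@[fun_prop] theorem pt_qneg {f : α → ℚ} (hf : PT f) : PT fun a => -f a :=
  qpt_ofPair ((pt_zneg hf.qnum).congr fun a => (Rat.neg_num (f a)).symm)
    (hf.qden.congr fun a => congrArg toBN (Rat.neg_den (f a)).symm)

@[fun_prop] theorem pt_qsub {f g : α → ℚ} (hf : PT f) (hg : PT g) : PT fun a => f a - g a :=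
  (pt_qadd hf (pt_qneg hg)).congr fun _ => (sub_eq_add_neg _ _).symm

@[fun_prop] theorem pt_qmul {f g : α → ℚ} (hf : PT f) (hg : PT g) : PT fun a => f a * g a :=
  (qpt_mkRat (pt_zmul hf.qnum hg.qnum) (hf.qden.bmul' hg.qden)).congr
    fun a => (Rat.mul_def' (f a) (g a)).symm

@[fun_prop] theorem pt_qinv {f : α → ℚ} (hf : PT f) : PT fun a => (f a)⁻¹ := by
  refine (qpt_mkRat (PT.ite (c := fun a => (f a).num ≤ 0) (pt_zle hf.qnum (PT.const 0))
    (pt_zneg (qpt_z hf.qden)) (qpt_z hf.qden)) (qpt_abs hf.qnum)).congr fun a => ?_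
  rw [Rat.mkRat_eq_div, qptAbs_v, Nat.cast_natAbs]
  conv_rhs => rw [← Rat.num_div_den (f a), inv_div]
  split_ifs with h
  · rw [abs_of_nonpos h, Int.cast_neg, Int.cast_neg, neg_div_neg_eq]
    simp [qptZ]
  · rw [abs_of_nonneg (by omega)]
    simp [qptZ]

@[fun_prop] theorem pt_qdiv {f g : α → ℚ} (hf : PT f) (hg : PT g) : PT fun a => f a / g a :=
  (pt_qmul hf (pt_qinv hg)).congr fun _ => (div_eq_mul_inv _ _).symm

@[fun_prop] theorem pt_qle {f g : α → ℚ} [∀ a, Decidable (f a ≤ g a)] (hf : PT f) (hg : PT g) :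
    PT fun a => decide (f a ≤ g a) :=
  (pt_zle (pt_zmul hf.qnum (qpt_z hg.qden)) (pt_zmul hg.qnum (qpt_z hf.qden))).congr fun a => by
    rw [Bool.eq_iff_iff, decide_eq_true_eq, decide_eq_true_eq]
    exact (Rat.le_iff _ _).symm

@[fun_prop] theorem pt_qlt {f g : α → ℚ} [∀ a, Decidable (f a < g a)] (hf : PT f) (hg : PT g) :
    PT fun a => decide (f a < g a) :=
  (pt_qle hg hf).not.congr fun a => by
    rw [Bool.eq_iff_iff]; simp

@[fun_prop] theorem pt_qabs {f : α → ℚ} (hf : PT f) : PT fun a => |f a| := by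
  refine (PT.ite (c := fun a => 0 ≤ f a) (pt_qle (PT.const 0) hf) hf (pt_qneg hf)).congr
    fun a => ?_
  split_ifs with h
  · exact (abs_of_nonneg h).symm
  · exact (abs_of_neg (not_le.1 h)).symm

@[fun_prop] theorem pt_qmax {f g : α → ℚ} (hf : PT f) (hg : PT g) :
    PT fun a => max (f a) (g a) :=
  (PT.ite (c := fun a => f a ≤ g a) (pt_qle hf hg) hg hf).congr fun a => by rw [max_def]

@[fun_prop] theorem pt_qfloor {f : α → ℚ} (hf : PT f) : PT fun a => ⌊f a⌋ :=
  (qpt_div hf.qnum hf.qden).congr fun a => by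
    rw [Rat.floor_def']
    exact qptDiv_eq _ (f a).den_pos

theorem qpt_sz_pow (x : ℚ) (i : ℕ) : sz (x ^ i) ≤ 5 * (sz x * i + 1) + 3 := by
  have key : ∀ n : ℕ, n < 2 ^ sz x → n ^ i < 2 ^ (sz x * i + 1) := fun n hn => by
    refine (Nat.pow_le_pow_left hn.le i).trans_lt ?_
    rw [← pow_mul]
    exact Nat.pow_lt_pow_right (by norm_num) (Nat.lt_succ_self _)
  refine sz_rat_le ?_ ?_
  · rw [Rat.num_pow, Int.natAbs_pow]
    exact key _ (num_lt_sz x)
  · rw [Rat.den_pow]
    exact key _ (den_lt_sz x)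

theorem qpt_pow0 : PT fun p : ℚ × ℕ => p.1 ^ p.2 := by
  have key : ∀ (x : ℚ) (i : ℕ), (fun s : ℚ × ℚ => (s.1, s.2 * s.1))^[i] (x, 1) = (x, x ^ i) := by
    intro x i
    induction i with
    | zero => simp
    | succ i ih => rw [Function.iterate_succ_apply', ih, pow_succ]
  refine (PT.iterate (g := fun s : ℚ × ℚ => (s.1, s.2 * s.1))
    (s0 := fun p : ℚ × ℕ => (p.1, 1)) (by fun_prop) (PT.snd PT.id') (by fun_prop)
    (5 * (Polynomial.X * Polynomial.X) + 2 * Polynomial.X + 9) fun p i hi => ?_).snd.congr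
    fun p => by rw [key]
  rw [key]
  have h1 := qpt_sz_pow p.1 i
  have h2 := sz_fst_le p
  have h3 : i ≤ sz p := hi.trans (by simpa using sz_snd_le p)
  have h4 := Nat.mul_le_mul h2 h3
  simp
  omega

@[fun_prop] theorem pt_qpow {f : α → ℚ} {k : α → ℕ} (hf : PT f) (hk : PT k) :
    PT fun a => f a ^ k a :=
  (PT.comp (f := fun p : ℚ × ℕ => p.1 ^ p.2) (g := fun a => (f a, k a)) qpt_pow0 (hf.mk hk)).congr
    fun _ => by dsimp only

theorem qpt_abs_le (q : ℚ) : |q| ≤ 2 ^ sz q := by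
  have h1 : ((q.num.natAbs : ℕ) : ℚ) ≤ 2 ^ sz q := by exact_mod_cast (num_lt_sz q).le
  have h2 : (1 : ℚ) ≤ q.den := by exact_mod_cast q.den_pos
  rw [Nat.cast_natAbs, Int.cast_abs, ← Rat.mul_den_eq_num, abs_mul, Nat.abs_cast] at h1
  exact (le_mul_of_one_le_right (abs_nonneg _) h2).trans h1

theorem qpt_sum_bound (l : List ℚ) : l.sum.den ≤ 2 ^ sz l ∧ |l.sum| ≤ 2 ^ sz l := by
  induction l with
  | nil => simp
  | cons a l ih =>
    rw [List.sum_cons, sz_cons]
    constructor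
    · refine (Nat.le_of_dvd (Nat.mul_pos a.den_pos l.sum.den_pos) (Rat.add_den_dvd _ _)).trans ?_
      refine (Nat.mul_le_mul (den_lt_sz a).le ih.1).trans ?_
      rw [← pow_add]
      exact Nat.pow_le_pow_right (by norm_num) (by omega)
    · have h1 : (2 : ℚ) ^ sz a ≤ 2 ^ (2 * sz a + sz l) :=
        pow_le_pow_right₀ (by norm_num) (by omega)
      have h2 : (2 : ℚ) ^ sz l ≤ 2 ^ (2 * sz a + sz l) :=
        pow_le_pow_right₀ (by norm_num) (by omega)
      have h3 := abs_add_le a l.sum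
      have h4 := qpt_abs_le a
      rw [show 2 * sz a + 1 + sz l = (2 * sz a + sz l) + 1 by ring, pow_succ]
      linarith [ih.2]

theorem qpt_sz_sum (l : List ℚ) : sz l.sum ≤ 10 * sz l + 8 := by
  obtain ⟨h1, h2⟩ := qpt_sum_bound l
  have h3 : 2 ^ sz l * 2 ^ sz l < 2 ^ (2 * sz l + 1) := by
    rw [← pow_add]
    exact Nat.pow_lt_pow_right (by norm_num) (by omega)
  have h4 : l.sum.num.natAbs ≤ 2 ^ sz l * 2 ^ sz l := by
    have h5 : ((l.sum.den : ℕ) : ℚ) ≤ 2 ^ sz l := by exact_mod_cast h1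
    have h6 : ((l.sum.num.natAbs : ℕ) : ℚ) ≤ 2 ^ sz l * 2 ^ sz l := by
      rw [Nat.cast_natAbs, Int.cast_abs, ← Rat.mul_den_eq_num, abs_mul, Nat.abs_cast]
      exact mul_le_mul h2 h5 (Nat.cast_nonneg _) (by positivity)
    exact_mod_cast h6
  have h7 := sz_rat_le (h4.trans_lt h3)
    (h1.trans_lt (Nat.pow_lt_pow_right (by norm_num) (by omega)))
  omega

@[fun_prop] theorem pt_qsum {l : α → List ℚ} (hl : PT l) : PT fun a => (l a).sum := by
  obtain ⟨r, hr⟩ := hl.size
  refine (PT.foldl (f := fun _ s b => s + b) (s0 := fun _ => (0 : ℚ)) (by fun_prop) hl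
    (PT.const _) (10 * r + 8) fun a i => ?_).congr fun a => List.sum_eq_foldl.symm
  rw [← List.sum_eq_foldl]
  have h1 := qpt_sz_sum ((l a).take i)
  have h2 := (PT.sz_take_le (l a) i).trans (hr a)
  simp
  omega

end Pool.Agent.P.MP_1639c2_lc.W
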