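import Pool.Agent.P.MP_1639c2_lc.W.Walk

/-! The second phase. -/

namespace Pool.Agent.P.MP_1639c2_lc.W

open Finset

variable {M : Matroid ℕ} {P : Par} {c : List ℤ} {g cm : ℚ} {Bs0 : Cp} {O : List Bool → Bool}

theorem round_kk (hP : P.WF) : 2 * P.Kk ≤ P.N := by
  have h := hP.u16
  calc 2 * P.Kk ≤ P.u * P.u ^ 56 := Nat.mul_le_mul_right _ (by omega)
    _ = P.u ^ 57 := by ring
    _ ≤ P.u ^ 75 := Nat.pow_le_pow_right (by omega) (by norm_num)

theorem round_pos (hP : P.WF) : 0 < P.N := pow_pos (by have := hP.u16; omega) _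

theorem round_bas (hP : P.WF) (hO : Orc M P.n O) (c : List ℤ) (g : ℚ) {Bs : Cp}
    (h : Bas M P.n P.N Bs) : Bas M P.n P.N (rdStep O P c g Bs0 Bs) := by
  refine bas_exec hO _ (bas_nrm ?_)
  split_ifs with hk
  · exact h
  · exact (kill_spec c h (round_kk hP) (kc_head hk).1 (kc_head hk).2.1 (kc_head hk).2.2).1

theorem bas_rd (hP : P.WF) (hO : Orc M P.n O) (c : List ℤ) (g : ℚ) (h : Bas M P.n P.N Bs0) :
    Bas M P.n P.N (rd O P c g Bs0) :=
  Function.Iterate.rec (Bas M P.n P.N) h (fun _ => round_bas hP hO c g) _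

theorem round_stay (hP : P.WF) {Bs : Cp} (h : Bas M P.n P.N Bs) (ha : alv P.n P.N Bs = ∅) :
    rdStep O P c g Bs0 Bs = nrm P.n P.N Bs := by
  have hk : (kc P Bs).isEmpty = true := by
    by_contra hk
    have := (kill_spec c h (round_kk hP) (kc_head hk).1 (kc_head hk).2.1 (kc_head hk).2.2).2.1
    rw [ha] at this
    exact notMem_empty _ this
  have hp : plan P c g Bs0 (arcs O P.n P.N Bs) Bs = [] := by
    refine List.eq_nil_iff_forall_not_mem.2 fun a h => ?_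
    obtain ⟨p, hp, -⟩ := planOf_mem h
    rw [ha, II] at hp
    split_ifs at hp <;> exact notMem_empty _ hp
  rw [rdStep, if_pos hk, if_pos hk, hp]
  rfl

theorem round_xq (hP : P.WF) {Bs : Cp} (ha : alv P.n P.N Bs = ∅) {i : ℕ} (hi : i < P.n) :
    xq P.N Bs i = if i ∈ cs P.n Bs 0 then 1 else 0 := by
  have hN := round_pos hP
  have h1 : ¬ (0 < cnt P.N Bs i ∧ cnt P.N Bs i < P.N) := fun h =>
    notMem_empty i (ha ▸ mem_filter.2 ⟨mem_range.2 hi, h⟩)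
  have h2 := cnt_le P.N Bs i
  have h3 := cnt_eq (N := P.N) Bs hi
  split_ifs with h
  · have : 0 < cnt P.N Bs i := h3 ▸ card_pos.2 ⟨0, mem_filter.2 ⟨mem_range.2 hN, h⟩⟩
    rw [xq, show cnt P.N Bs i = P.N by omega, div_self (Nat.cast_ne_zero.2 hN.ne')]
  · have : cnt P.N Bs i < P.N := by
      rw [h3]
      refine (card_lt_card (filter_ssubset.2 ⟨0, mem_range.2 hN, h⟩)).trans_eq (card_range _)
    rw [xq, show cnt P.N Bs i = 0 by omega, Nat.cast_zero, zero_div]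

theorem round_ex_le (hP : P.WF) (hg : 0 < g)
    (hcm : ∀ Z : Finset ℕ, M.IsBase (Z : Set ℕ) → cm ≤ ∑ v ∈ Z, cq c v) {Bs : Cp} {V : ℝ}
    (h : Inv M P c g cm Bs0 Bs V) (hV : V ≤ (P.u : ℝ) ^ 7) : ex P c g cm Bs ≤ V := by
  have ho := h.ok hP hg hcm hV
  have h1 := ho.rest_le
  have h2 := Par.card_le_rest (P := P) (y0 := rc (yz P Bs0)) ho.unit
  have h3 : (0 : ℝ) ≤ (alv P.n P.N Bs).card := Nat.cast_nonneg _
  linarith

theorem round_done (hP : P.WF) (hg : 0 < g)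
    (hcm : ∀ Z : Finset ℕ, M.IsBase (Z : Set ℕ) → cm ≤ ∑ v ∈ Z, cq c v) {Bs : Cp} {V : ℝ}
    (h : Inv M P c g cm Bs0 Bs V) (hV : V ≤ (P.u : ℝ) ^ 7)
    (hV' : V ≤ 4 * P.n + ex P c g cm Bs0) (ha : alv P.n P.N Bs = ∅) :
    (∑ i ∈ cs P.n Bs 0, cq c i - cm) / g ≤
        (costx P.n c (xq P.N Bs0) - cm) / g + 1 / (4 * (P.u : ℚ) ^ 4) ∧
      ∀ j < P.m, |((P.row (cs P.n Bs 0) j).card : ℝ) - (yz P Bs0 j : ℝ)| ≤
        √(P.T : ℝ) + √(1024 * (P.D : ℝ)) := by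
  have hs : cs P.n Bs 0 ⊆ range P.n := filter_subset _ _
  constructor
  · have e : costx P.n c (xq P.N Bs) = ∑ i ∈ cs P.n Bs 0, cq c i := by
      rw [costx, sum_congr rfl fun i hi => by rw [round_xq hP ha (mem_range.1 hi)]]
      simp only [mul_ite, mul_one, mul_zero]
      rw [sum_ite_mem, inter_eq_right.2 hs]
    have h1 := (round_ex_le hP hg hcm h hV).trans hV'
    rw [ex, ex, e] at h1
    have h2 : (P.u : ℚ) ^ 6 * ((∑ i ∈ cs P.n Bs 0, cq c i - cm) / g) ≤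
        4 * P.n + (P.u : ℚ) ^ 6 * ((costx P.n c (xq P.N Bs0) - cm) / g) := by
      exact_mod_cast h1
    have hU : (16 : ℚ) ≤ P.u := by exact_mod_cast hP.u16
    have hn : (P.n : ℚ) ≤ P.u := by exact_mod_cast hP.nu
    have h0 : (0 : ℚ) < P.u := by linarith
    refine le_of_mul_le_mul_left (h2.trans ?_) (pow_pos h0 6)
    have e' : (P.u : ℚ) ^ 6 * (1 / (4 * (P.u : ℚ) ^ 4)) = P.u * P.u / 4 := by
      field_simp
    rw [mul_add, e']
    nlinarith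
  · intro j hj
    obtain ⟨W, -, hW, hc, h1, h2⟩ := h.small j hj (by rw [ha]; simp [Par.row])
    have e : ((P.row (cs P.n Bs 0) j).card : ℝ) =
        ∑ i ∈ P.row (range P.n) j, rc (xq P.N Bs) i := by
      rw [sum_congr rfl fun i hi => by
        rw [rc, round_xq hP ha (mem_range.1 (mem_filter.1 hi).1), apply_ite ((↑) : ℚ → ℝ),
          Rat.cast_one, Rat.cast_zero], sum_boole, Par.row, Par.row, filter_comm,
        filter_mem_eq_inter, inter_eq_right.2 hs]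
    have h3 : 0 ≤ ∑ i ∈ W, rc (xq P.N Bs) i :=
      sum_nonneg fun i _ => Rat.cast_nonneg.2 (xq_unit _ _ _).1
    have h4 : ∑ i ∈ W, rc (xq P.N Bs) i ≤ W.card := by
      rw [card_eq_sum_ones, Nat.cast_sum]
      exact sum_le_sum fun i _ => by
        rw [rc]
        exact_mod_cast (xq_unit P.N Bs i).2
    have h5 : (W.card : ℝ) ≤ √(1024 * (P.D : ℝ)) := Real.le_sqrt_of_sq_le (by exact_mod_cast hc)
    rw [e, ← sum_sdiff hW, abs_le]
    rw [rc] at h1 h2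
    constructor <;> linarith

theorem rd_spec (hP : P.WF) (hO : Orc M P.n O) (hg : 0 < g)
    (hcm : ∀ Z : Finset ℕ, M.IsBase (Z : Set ℕ) → cm ≤ ∑ v ∈ Z, cq c v)
    (h : Bas M P.n P.N Bs0) (h3 : (costx P.n c (xq P.N Bs0) - cm) / g ≤ 3) :
    (∑ i ∈ cs P.n (rd O P c g Bs0) 0, cq c i - cm) / g ≤
        (costx P.n c (xq P.N Bs0) - cm) / g + 1 / (4 * (P.u : ℚ) ^ 4) ∧
      ∀ j < P.m, |((P.row (cs P.n (rd O P c g Bs0) 0) j).card : ℝ) - (yz P Bs0 j : ℝ)| ≤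
        √(P.T : ℝ) + √(1024 * (P.D : ℝ)) := by
  have hU : (16 : ℝ) ≤ P.u := by exact_mod_cast hP.u16
  have hn : (P.n : ℝ) ≤ P.u := by exact_mod_cast hP.nu
  have h0 : (0 : ℝ) < P.u := by linarith
  have h1 : (1 : ℝ) ≤ P.u := by linarith
  have hV : 4 * P.n + ex P c g cm Bs0 + 1 ≤ (P.u : ℝ) ^ 7 := by
    have a1 : (((costx P.n c (xq P.N Bs0) - cm) / g : ℚ) : ℝ) ≤ 3 := by exact_mod_cast h3
    have a2 := mul_le_mul_of_nonneg_left a1 (pow_pos h0 6).le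
    have a3 : (P.u : ℝ) ≤ (P.u : ℝ) ^ 6 := le_self_pow₀ h1 (by norm_num)
    have a4 := mul_le_mul_of_nonneg_left hU (pow_pos h0 6).le
    rw [ex, pow_succ _ 6]
    linarith
  obtain ⟨Q, hQ⟩ : ∃ Q : Finset ℕ → Prop, ∀ Z, Q Z ↔ (∑ i ∈ Z, cq c i - cm) / g ≤
        (costx P.n c (xq P.N Bs0) - cm) / g + 1 / (4 * (P.u : ℚ) ^ 4) ∧
      ∀ j < P.m, |((P.row Z j).card : ℝ) - (yz P Bs0 j : ℝ)| ≤
        √(P.T : ℝ) + √(1024 * (P.D : ℝ)) := ⟨_, fun _ => Iff.rfl⟩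
  have stay : ∀ Bs, Bas M P.n P.N Bs ∧ alv P.n P.N Bs = ∅ ∧ Q (cs P.n Bs 0) →
      Bas M P.n P.N (rdStep O P c g Bs0 Bs) ∧ alv P.n P.N (rdStep O P c g Bs0 Bs) = ∅ ∧
        Q (cs P.n (rdStep O P c g Bs0 Bs) 0) := by
    rintro Bs ⟨a1, a2, a3⟩
    rw [round_stay hP a1 a2, cs_nrm _ (round_pos hP)]
    refine ⟨bas_nrm a1, Eq.trans (filter_congr fun i hi => ?_) a2, a3⟩
    rw [cnt_nrm _ (mem_range.1 hi)]
  have key : ∀ t : ℕ, (Bas M P.n P.N ((rdStep O P c g Bs0)^[t] Bs0) ∧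
      alv P.n P.N ((rdStep O P c g Bs0)^[t] Bs0) = ∅ ∧
        Q (cs P.n ((rdStep O P c g Bs0)^[t] Bs0) 0)) ∨
      Inv M P c g cm Bs0 ((rdStep O P c g Bs0)^[t] Bs0)
        (4 * P.n + ex P c g cm Bs0 - t / (P.u : ℝ) ^ 63) := by
    intro t
    induction t with
    | zero => exact Or.inr ((inv_init hP h).mono (by simp))
    | succ t ih =>
      rw [Function.iterate_succ_apply']
      generalize (rdStep O P c g Bs0)^[t] Bs0 = Bs at ih ⊢
      have ht : 0 ≤ (t : ℝ) / (P.u : ℝ) ^ 63 := by positivity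
      rcases ih with ih | ih
      · exact Or.inl (stay _ ih)
      rcases (alv P.n P.N Bs).eq_empty_or_nonempty with ha | ha
      · exact Or.inl (stay _ ⟨ih.bas, ha,
          (hQ _).2 (round_done hP hg hcm ih (by linarith) (by linarith) ha)⟩)
      refine Or.inr ?_
      rw [Nat.cast_succ, add_div, ← sub_sub]
      by_cases hk : (kc P Bs).isEmpty = true
      · exact ih.walk_step hP hO hg hcm (by linarith) hk ha
      · refine (ih.kill_step hP hg hcm (by linarith) hk).mono (sub_le_sub_left ?_ _)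
        exact one_div_le_one_div_of_le two_pos
          (le_trans (by linarith) (le_self_pow₀ h1 (by norm_num)))
  rcases key (P.u ^ 71) with a | a
  · exact (hQ _).1 a.2.2
  · exfalso
    have e : ((P.u ^ 71 : ℕ) : ℝ) / (P.u : ℝ) ^ 63 = (P.u : ℝ) ^ 8 := by
      rw [Nat.cast_pow]
      field_simp
    rw [e] at a
    have a1 : (P.u : ℝ) ^ 7 ≤ (P.u : ℝ) ^ 8 := pow_le_pow_right₀ h1 (by norm_num)
    have a2 := round_ex_le hP hg hcm a (by linarith [pow_pos h0 7])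
    have a3 := ex_nonneg hP hg hcm a.bas
    linarith

end Pool.Agent.P.MP_1639c2_lc.W
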