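import Pool.Agent.P.MP_1639c2_lc.W.Round
import Pool.Agent.P.MP_1639c2_lc.W.LP
import Pool.Agent.P.MP_1639c2_lc.W.ParOk

/-! One run, and the choice among the runs. -/

namespace Pool.Agent.P.MP_1639c2_lc.W

open Finset Pool.Agent.Lib.NP

variable {M : Matroid ℕ} {P : Par} {O : List Bool → Bool}

theorem run_aux_N (hP : P.WF) : 0 < P.N := pow_pos (lt_of_lt_of_le (by norm_num) hP.u16) _

theorem run_aux_bs (O : List Bool → Bool) (P : Par) (c : List ℤ) (bd : List (ℤ × ℤ)) (g : ℚ)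
    (b : ℕ) : bs P.n (run O P c bd g b) = cs P.n (rd O P c g (lp O P c bd g b)) 0 :=
  bs_map _ _

theorem run_base (hP : P.WF) (hO : Orc M P.n O) (c : List ℤ) (bd : List (ℤ × ℤ)) (g : ℚ) (b : ℕ) :
    mask (run O P c bd g b) = bs P.n (run O P c bd g b) ∧
      M.IsBase (bs P.n (run O P c bd g b) : Set ℕ) := by
  refine ⟨(mask_map _ _).trans (bs_map _ _).symm, ?_⟩
  rw [run_aux_bs]
  exact bas_rd hP hO c g (bas_lp hO c bd g b) 0 (run_aux_N hP)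

theorem run_aux_int (c : List ℤ) (S : Finset ℕ) : ∃ z : ℤ, ∑ i ∈ S, cq c i = z :=
  ⟨∑ i ∈ S, c.getD i 0, by simp only [cq, Int.cast_sum]⟩

theorem run_aux_diff {n : ℕ} (w : ℕ → ℚ) {Z Y : Finset ℕ} (hZ : Z ⊆ range n) (hY : Y ⊆ range n) :
    ∑ i ∈ Z, w i - ∑ i ∈ Y, w i ≤ ∑ i ∈ range n, |w i| := by
  have e : ∀ S : Finset ℕ, S ⊆ range n →
      ∑ i ∈ S, w i = ∑ i ∈ range n, if i ∈ S then w i else 0 := fun S hS => by
    rw [sum_ite_mem, inter_eq_right.2 hS]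
  rw [e Z hZ, e Y hY, ← sum_sub_distrib]
  refine sum_le_sum fun i _ => ?_
  have h1 := le_abs_self (w i)
  have h2 := neg_abs_le (w i)
  have h3 := abs_nonneg (w i)
  split_ifs <;> linarith

theorem run_aux_cost {n N : ℕ} (hN : 0 < N) {Bs : Cp} (h : Bas M n N Bs) (c : List ℤ) {cm : ℚ}
    (hcm : ∀ Z : Finset ℕ, M.IsBase (Z : Set ℕ) → cm ≤ ∑ v ∈ Z, cq c v) :
    cm ≤ costx n c (xq N Bs) := by
  have hN' : (0 : ℚ) < N := Nat.cast_pos.2 hN
  rw [costx, wsum_xq, le_div_iff₀ hN']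
  have := card_nsmul_le_sum (range N) (fun k => ∑ i ∈ cs n Bs k, cq c i) cm
    fun k hk => hcm _ (h k (mem_range.1 hk))
  rwa [card_range, nsmul_eq_mul, mul_comm] at this

theorem run_aux_guess {G : ℤ} {b : ℕ} (h0 : 0 ≤ G) (h : (G : ℚ) ≤ 2 ^ b) :
    ∃ s < b + 1, (G : ℚ) ≤ 2 * 2 ^ s ∧ ((2 : ℚ) ^ s ≤ G ∨ (G = 0 ∧ s = 0)) := by
  obtain ⟨k, rfl⟩ := Int.eq_ofNat_of_zero_le h0
  rcases Nat.eq_zero_or_pos k with rfl | hk
  · exact ⟨0, Nat.succ_pos _, by norm_num, Or.inr ⟨rfl, rfl⟩⟩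
  have h1 : k ≤ 2 ^ b := by exact_mod_cast h
  have h2 := Nat.pow_log_le_self 2 hk.ne'
  have h3 := Nat.lt_pow_succ_log_self (b := 2) (by norm_num) k
  refine ⟨Nat.log 2 k, ?_, ?_, Or.inl (by exact_mod_cast h2)⟩
  · exact Nat.lt_succ_of_le ((Nat.pow_le_pow_iff_right (by norm_num)).1 (h2.trans h1))
  · rw [pow_succ, mul_comm] at h3
    exact_mod_cast h3.le

theorem run_aux_viol {a : ℚ} (h : max a 0 ^ 2 ≤ 1) : a ≤ 1 := by
  by_contra h1
  rw [not_le] at h1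
  rw [max_eq_left (by linarith)] at h
  nlinarith

/-- For the right guess the run succeeds. -/
theorem run_good (hP : P.WF) (hO : Orc M P.n O) (c : List ℤ) (bd : List (ℤ × ℤ)) {b : ℕ}
    (hb : ∑ i ∈ range P.n, |cq c i| ≤ 2 ^ b) {Z : Finset ℕ} (hZ : M.IsBase (Z : Set ℕ))
    (hf : ∀ j < P.m, lo bd j ≤ ((P.row Z j).card : ℚ) ∧ ((P.row Z j).card : ℚ) ≤ hi bd j) :
    ∃ s < b + 1, okB P bd (run O P c bd (2 ^ s) b) = true ∧
      costB P.n c (run O P c bd (2 ^ s) b) ≤ ∑ i ∈ Z, cq c i := by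
  obtain ⟨Y, hY, hcm⟩ := exists_min_base hO.gr (cq c)
  obtain ⟨zZ, hzZ⟩ := run_aux_int c Z
  obtain ⟨zY, hzY⟩ := run_aux_int c Y
  have hd := (run_aux_diff (cq c) (base_sub hO.gr hZ) (base_sub hO.gr hY)).trans hb
  have hYZ := hcm Z hZ
  rw [hzZ, hzY] at hd hYZ
  rw [hzY] at hcm
  obtain ⟨s, hs, hG1, hG2⟩ := run_aux_guess (G := zZ - zY) (b := b)
    (sub_nonneg.2 (by exact_mod_cast hYZ)) (by push_cast; exact hd)
  refine ⟨s, hs, ?_⟩
  have hg1 : (1 : ℚ) ≤ 2 ^ s := one_le_pow₀ (by norm_num)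
  have hlp := lp_spec hP hO c bd hg1 hb hZ hY hf
  have hbas := bas_lp hO c bd (2 ^ s) b
  have hbs := run_aux_bs O P c bd (2 ^ s) b
  have hspec := fun h3 => rd_spec (c := c) (cm := (zY : ℚ)) hP hO (lt_of_lt_of_le one_pos hg1)
    hcm hbas h3
  have hc0 := run_aux_cost (run_aux_N hP) hbas c hcm
  rw [hzZ, hzY, FL] at hlp
  push_cast at hG1 hG2
  generalize lp O P c bd (2 ^ s) b = Bs0 at hlp hbas hbs hspec hc0
  have hs0 : s = 0 → (2 : ℚ) ^ s = 1 := fun h => by rw [h, pow_zero]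
  generalize (2 : ℚ) ^ s = g at *
  have hg : 0 < g := lt_of_lt_of_le one_pos hg1
  have hu : (16 : ℚ) ≤ P.u := by exact_mod_cast hP.u16
  have hu4 : (16 : ℚ) ^ 4 ≤ (P.u : ℚ) ^ 4 := pow_le_pow_left₀ (by norm_num) hu 4
  have hu0 : (0 : ℚ) < (P.u : ℚ) ^ 4 := lt_of_lt_of_le (by norm_num) hu4
  obtain ⟨om, hom⟩ : ∃ om : ℚ, om = 1 / (P.u : ℚ) ^ 4 := ⟨_, rfl⟩
  have hom0 : 0 < om := hom ▸ one_div_pos.2 hu0
  have hom1 : om ≤ 1 / 2 := hom ▸ one_div_le_one_div_of_le (by norm_num) (by linarith)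
  have e1 : 3 / (4 * (P.u : ℚ) ^ 4) = 3 / 4 * om := by
    rw [hom]
    field_simp
  have e2 : 1 / (4 * (P.u : ℚ) ^ 4) = 1 / 4 * om := by
    rw [hom]
    field_simp
  rw [e1, ← hom] at hlp
  rw [e2] at hspec
  obtain ⟨pen, hpen⟩ : ∃ pen : ℚ, pen = ∑ j ∈ range P.m,
      (max (lo bd j - P.aa (range P.n) (xq P.N Bs0) j) 0 ^ 2 +
        max (P.aa (range P.n) (xq P.N Bs0) j - hi bd j) 0 ^ 2) := ⟨_, rfl⟩
  rw [← hpen] at hlp
  have hpen0 : 0 ≤ pen := hpen ▸ sum_nonneg fun j _ => by positivity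
  have hA0 : 0 ≤ (costx P.n c (xq P.N Bs0) - zY) / g := div_nonneg (sub_nonneg.2 hc0) hg.le
  have hB0 : 0 ≤ ((zZ : ℚ) - zY) / g := div_nonneg (sub_nonneg.2 hYZ) hg.le
  have hB2 : ((zZ : ℚ) - zY) / g ≤ 2 := (div_le_iff₀ hg).2 hG1
  have hmain : (costx P.n c (xq P.N Bs0) - zY) / g + 4 * pen ≤
      (1 - om) * (((zZ : ℚ) - zY) / g) + 3 / 4 * om := by
    rw [sub_div, sub_div]
    linarith
  have hom2 : 0 ≤ om * (((zZ : ℚ) - zY) / g) := mul_nonneg hom0.le hB0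
  obtain ⟨hcost, hrow⟩ := hspec (by linarith)
  have hpen1 : pen ≤ 1 := by linarith
  constructor
  · rw [okB, List.all_eq_true]
    intro j hj
    rw [List.mem_range] at hj
    have h1 : max (lo bd j - P.aa (range P.n) (xq P.N Bs0) j) 0 ^ 2 +
        max (P.aa (range P.n) (xq P.N Bs0) j - hi bd j) 0 ^ 2 ≤ 1 := by
      refine le_trans ?_ hpen1
      rw [hpen]
      exact single_le_sum (f := fun j => max (lo bd j - P.aa (range P.n) (xq P.N Bs0) j) 0 ^ 2 +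
        max (P.aa (range P.n) (xq P.N Bs0) j - hi bd j) 0 ^ 2) (fun j _ => by positivity)
        (mem_range.2 hj)
    have h2 : lo bd j - yz P Bs0 j ≤ 1 := run_aux_viol (le_trans (le_add_of_nonneg_right
      (sq_nonneg _)) h1)
    have h3 : yz P Bs0 j - hi bd j ≤ 1 := run_aux_viol (le_trans (le_add_of_nonneg_left
      (sq_nonneg _)) h1)
    have h4 := abs_le.1 (hrow j hj)
    have h5 := sqrt_lt_isq P.T
    have h6 := sqrt_lt_isq (1024 * P.D)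
    have h2' : (lo bd j : ℝ) - yz P Bs0 j ≤ 1 := by exact_mod_cast h2
    have h3' : (yz P Bs0 j : ℝ) - hi bd j ≤ 1 := by exact_mod_cast h3
    have hV : (P.V : ℝ) = isq P.T + isq (1024 * P.D) + 3 := by
      rw [Par.V]
      push_cast
      rfl
    push_cast at h6
    rw [hbs, Bool.and_eq_true, decide_eq_true_eq, decide_eq_true_eq]
    constructor
    · have h : (lo bd j : ℝ) - P.V ≤ (P.row (cs P.n (rd O P c g Bs0) 0) j).card := by linarith
      exact_mod_cast h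
    · have h : ((P.row (cs P.n (rd O P c g Bs0) 0) j).card : ℝ) ≤ hi bd j + P.V := by linarith
      exact_mod_cast h
  · rw [costB, hbs, hzZ]
    obtain ⟨zB, hzB⟩ := run_aux_int c (cs P.n (rd O P c g Bs0) 0)
    rw [hzB] at hcost ⊢
    rcases hG2 with h | ⟨h, h'⟩
    · have h1 : 1 ≤ ((zZ : ℚ) - zY) / g := (one_le_div hg).2 h
      have h2 : om * 1 ≤ om * (((zZ : ℚ) - zY) / g) := mul_le_mul_of_nonneg_left h1 hom0.le
      have h3 : ((zB : ℚ) - zY) / g ≤ ((zZ : ℚ) - zY) / g := by linarith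
      rw [div_le_div_iff_of_pos_right hg] at h3
      linarith
    · have h1 : zZ = zY := by omega
      have h2 : (zB : ℚ) < zZ + 1 := by
        rw [hs0 h', ← h1] at hmain hcost
        simp only [sub_self, div_one, mul_zero] at hmain hcost
        linarith
      have h3 : zB < zZ + 1 := by exact_mod_cast h2
      exact_mod_cast Int.lt_add_one_iff.1 h3

end Pool.Agent.P.MP_1639c2_lc.W
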