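import Pool.Agent.P.MP_1639c2_lc.W.Pot1

/-! The change of the potential in one step of the walk. -/

namespace Pool.Agent.P.MP_1639c2_lc.W

open Finset

theorem step_pow_le (t : ℝ) (r : ℕ) (h : r * |t| ≤ 1) (h1 : 0 ≤ 1 + t) :
    (1 + t) ^ r ≤ 1 + r * t + (r : ℝ) ^ 2 * t ^ 2 := by
  induction r with
  | zero => simp
  | succ k ih =>
    have hk : (0 : ℝ) ≤ k := Nat.cast_nonneg k
    have ht := abs_nonneg t
    push_cast at h ⊢
    have h2 : k * |t| ≤ 1 := by nlinarith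
    have h3 : k * t ≤ 1 := le_trans (mul_le_mul_of_nonneg_left (le_abs_self t) hk) h2
    have h4 := mul_le_mul_of_nonneg_right (ih h2) h1
    have h5 : (k * t) * (k * t ^ 2) ≤ 1 * (k * t ^ 2) :=
      mul_le_mul_of_nonneg_right h3 (by positivity)
    rw [pow_succ]
    nlinarith [sq_nonneg t]

theorem step_num {U ε : ℝ} (hU : 16 ≤ U) (hε : ε = 1 / U ^ 12) :
    0 < ε ∧ ε ≤ 1 ∧ 5 * U * ε ≤ 1 ∧ 4 * U ^ 3 * ε ^ 2 ≤ 1 ∧ 10 * U * ε ≤ 1 / (8 * U ^ 7) ∧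
      3872 * U ^ 12 * ε ^ 2 ≤ 1 := by
  have h0 : 0 < U := by linarith
  have h1 : (1 : ℝ) ≤ U := by linarith
  have hp : ∀ k : ℕ, (16 : ℝ) ^ k ≤ U ^ k := fun k => pow_le_pow_left₀ (by norm_num) hU k
  subst hε
  refine ⟨by positivity, ?_, ?_, ?_, ?_, ?_⟩
  · rw [div_le_one (by positivity)]
    exact one_le_pow₀ h1
  · have h2 : 5 * U * (1 / U ^ 12) = 5 / U ^ 11 := by field_simp
    rw [h2, div_le_one (by positivity)]
    exact le_trans (by norm_num) (hp 11)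
  · have h2 : 4 * U ^ 3 * (1 / U ^ 12) ^ 2 = 4 / U ^ 21 := by field_simp
    rw [h2, div_le_one (by positivity)]
    exact le_trans (by norm_num) (hp 21)
  · have h2 : 10 * U * (1 / U ^ 12) = (80 / U ^ 4) * (1 / (8 * U ^ 7)) := by
      field_simp
      norm_num
    rw [h2]
    refine mul_le_of_le_one_left (by positivity) ?_
    rw [div_le_one (by positivity)]
    exact le_trans (by norm_num) (hp 4)
  · have h2 : 3872 * U ^ 12 * (1 / U ^ 12) ^ 2 = 3872 / U ^ 12 := by field_simp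
    rw [h2, div_le_one (by positivity)]
    exact le_trans (by norm_num) (hp 12)

theorem step_D {κ z y a h e ε : ℝ} (hκ : 1 ≤ κ) (hz : y ^ 2 + κ ^ 2 ≤ z) (hε0 : 0 < ε)
    (hε1 : ε ≤ 1) (ha : |a| ≤ ε) (hh : |h| ≤ ε) (he0 : 0 ≤ e) (he : e ≤ ε ^ 2) :
    |2 * y * a + κ * h + a ^ 2 - κ * e| ≤ 5 * ε * z := by
  have hy : |y| ≤ z := by
    have h1 : |y| ^ 2 = y ^ 2 := sq_abs y
    nlinarith [sq_nonneg (|y| - 1), sq_nonneg y]
  have hκz : κ ≤ z := by nlinarith [sq_nonneg y]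
  have hz1 : 1 ≤ z := hκ.trans hκz
  have h1 : |2 * y * a| ≤ 2 * z * ε := by
    rw [abs_mul, abs_mul, abs_two]
    exact mul_le_mul (by linarith) ha (abs_nonneg _) (by linarith)
  have h2 : |κ * h| ≤ z * ε := by
    rw [abs_mul, abs_of_nonneg (by linarith : 0 ≤ κ)]
    exact mul_le_mul hκz hh (abs_nonneg _) (by linarith)
  have h3 : a ^ 2 ≤ ε ^ 2 := sq_le_sq' (abs_le.1 ha).1 (abs_le.1 ha).2
  have h4 : ε ^ 2 ≤ ε := by nlinarith
  have h5 : ε ≤ z * ε := by nlinarith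
  have h6 : κ * e ≤ z * ε := mul_le_mul hκz (he.trans h4) he0 (by linarith)
  have h7 : 0 ≤ κ * e := by positivity
  rw [abs_le] at h1 h2 ⊢
  constructor <;> nlinarith [sq_nonneg a]

theorem step_E {U r κ z y a h e ε : ℝ} (hU : 1 ≤ U) (hr0 : 0 ≤ r) (hr : r ≤ U) (hκ : 1 ≤ κ)
    (hκU : κ ≤ U) (hz : y ^ 2 + κ ^ 2 ≤ z) (ha : |a| ≤ ε) (he0 : 0 ≤ e) (he : e ≤ ε ^ 2)
    (hae : a ^ 2 ≤ U * e) (hn : 4 * U ^ 3 * ε ^ 2 ≤ 1) :
    r * (2 * y * a + κ * h + a ^ 2 - κ * e) ^ 2 ≤ z * (16 * r * a ^ 2 + 4 * r * h ^ 2 + e) := by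
  have hz1 : 1 ≤ z := by nlinarith [sq_nonneg y]
  have h3 : a ^ 2 ≤ ε ^ 2 := sq_le_sq' (abs_le.1 ha).1 (abs_le.1 ha).2
  have h1 : (2 * y * a + κ * h) ^ 2 ≤ z * (8 * a ^ 2 + 2 * h ^ 2) := by
    have h11 : (2 * y * a + κ * h) ^ 2 ≤ (y ^ 2 + κ ^ 2) * (4 * a ^ 2 + h ^ 2) := by
      nlinarith [sq_nonneg (y * h - 2 * κ * a)]
    have h12 : (y ^ 2 + κ ^ 2) * (4 * a ^ 2 + h ^ 2) ≤ z * (4 * a ^ 2 + h ^ 2) :=
      mul_le_mul_of_nonneg_right hz (by positivity)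
    have h13 : 0 ≤ z * (4 * a ^ 2 + h ^ 2) := by positivity
    linarith
  have h2 : (a ^ 2 - κ * e) ^ 2 ≤ 2 * U ^ 2 * ε ^ 2 * e := by
    have h21 : a ^ 2 * a ^ 2 ≤ (U * e) * ε ^ 2 := mul_le_mul hae h3 (by positivity) (by positivity)
    have h22 : (κ * e) * (κ * e) ≤ (U * e) * (U * ε ^ 2) :=
      mul_le_mul (mul_le_mul_of_nonneg_right hκU he0) (mul_le_mul hκU he he0 (by linarith))
        (by positivity) (by positivity)
    have h23 : 0 ≤ a ^ 2 * (κ * e) := by positivity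
    have h24 : (U * e) * ε ^ 2 * 1 ≤ (U * e) * ε ^ 2 * U :=
      mul_le_mul_of_nonneg_left hU (by positivity)
    nlinarith
  have h4 : (2 * y * a + κ * h + a ^ 2 - κ * e) ^ 2 ≤
      2 * (2 * y * a + κ * h) ^ 2 + 2 * (a ^ 2 - κ * e) ^ 2 := by
    nlinarith [sq_nonneg (2 * y * a + κ * h - (a ^ 2 - κ * e))]
  have h5 : r * (2 * U ^ 2 * ε ^ 2 * e) ≤ U * (2 * U ^ 2 * ε ^ 2 * e) :=
    mul_le_mul_of_nonneg_right hr (by positivity)
  have h6 : (4 * U ^ 3 * ε ^ 2) * e ≤ 1 * e := mul_le_mul_of_nonneg_right hn he0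
  have h7 : 1 * e ≤ z * e := mul_le_mul_of_nonneg_right hz1 he0
  have h8 := mul_le_mul_of_nonneg_left h4 hr0
  have h9 := mul_le_mul_of_nonneg_left h1 hr0
  have h10 := mul_le_mul_of_nonneg_left h2 hr0
  nlinarith

theorem step_fin {U c l G e B β aq ak ε : ℝ} (hU : 0 < U) (hc0 : 0 ≤ c) (hc : c ≤ U)
    (hβ : β = c * (l + G)) (hG1 : G ≤ B - e) (hG2 : |G| ≤ 22 * U ^ 2 * e) (he0 : 0 ≤ e)
    (he : e ≤ ε ^ 2) (hn : 3872 * U ^ 12 * ε ^ 2 ≤ 1) (hβ2 : β ≤ 1 / (8 * U ^ 7)) :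
    β * (aq + ak) ^ 2 ≤ c * aq ^ 2 * l + c * aq ^ 2 * B + 2 * (c * aq * l) * ak +
      ak ^ 2 / (4 * U ^ 7) := by
  have h7 : 0 < 8 * U ^ 7 := by positivity
  have h1 : G ^ 2 ≤ (22 * U ^ 2 * e) ^ 2 := sq_le_sq' (abs_le.1 hG2).1 (abs_le.1 hG2).2
  have h2 : 8 * U ^ 7 * c * G ^ 2 ≤ e := by
    calc 8 * U ^ 7 * c * G ^ 2 ≤ 8 * U ^ 7 * U * (22 * U ^ 2 * e) ^ 2 := by gcongr
      _ = 3872 * U ^ 12 * e * e := by ring
      _ ≤ 3872 * U ^ 12 * ε ^ 2 * e := by gcongr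
      _ ≤ 1 * e := mul_le_mul_of_nonneg_right hn he0
      _ = e := one_mul e
  have h3 : 2 * (c * G * aq) * ak ≤ ak ^ 2 / (8 * U ^ 7) + 8 * U ^ 7 * (c * G * aq) ^ 2 := by
    have h4 : ak ^ 2 / (8 * U ^ 7) + 8 * U ^ 7 * (c * G * aq) ^ 2 - 2 * (c * G * aq) * ak =
        (ak - 8 * U ^ 7 * (c * G * aq)) ^ 2 / (8 * U ^ 7) := by
      field_simp
      ring
    have h5 : 0 ≤ (ak - 8 * U ^ 7 * (c * G * aq)) ^ 2 / (8 * U ^ 7) := by positivity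
    linarith
  have h6 : (c * aq ^ 2) * (8 * U ^ 7 * c * G ^ 2) ≤ (c * aq ^ 2) * e :=
    mul_le_mul_of_nonneg_left h2 (by positivity)
  have h8 : (c * aq ^ 2) * G ≤ (c * aq ^ 2) * (B - e) :=
    mul_le_mul_of_nonneg_left hG1 (by positivity)
  have h9 : β * ak ^ 2 ≤ 1 / (8 * U ^ 7) * ak ^ 2 := mul_le_mul_of_nonneg_right hβ2 (sq_nonneg _)
  have h10 : ak ^ 2 / (4 * U ^ 7) = ak ^ 2 / (8 * U ^ 7) + 1 / (8 * U ^ 7) * ak ^ 2 := by
    field_simp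
    ring
  have h11 : β * (aq + ak) ^ 2 = c * aq ^ 2 * l + (c * aq ^ 2) * G + 2 * (c * aq * l) * ak +
      2 * (c * G * aq) * ak + β * ak ^ 2 := by
    rw [hβ]
    ring
  have h12 : 8 * U ^ 7 * (c * G * aq) ^ 2 = (c * aq ^ 2) * (8 * U ^ 7 * c * G ^ 2) := by ring
  rw [h10, h11]
  linarith

theorem step_row {U κ z y a h e T : ℝ} (r : ℕ) (hU : 16 ≤ U) (hr1 : 1 ≤ r) (hr : (r : ℝ) ≤ U)
    (hκ : 1 ≤ κ) (hκU : κ ≤ U) (hz : y ^ 2 + κ ^ 2 ≤ z) (ha : |a| ≤ 1 / U ^ 12)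
    (hh : |h| ≤ 1 / U ^ 12) (he0 : 0 ≤ e) (he : e ≤ (1 / U ^ 12) ^ 2) (hae : a ^ 2 ≤ U * e)
    (hhe : h ^ 2 ≤ U * e) (hT : 0 < T) (aq ak : ℝ) :
    (((z + (2 * y * a + κ * h + a ^ 2 - κ * e)) / T) ^ r - (z / T) ^ r) * (aq + ak) ^ 2 ≤
      r * (z / T) ^ r / z * aq ^ 2 * (2 * y * a + κ * h) +
      r * (z / T) ^ r / z * aq ^ 2 * ((1 + 16 * r) * a ^ 2 + 4 * r * h ^ 2 - (κ - 2) * e) +
      2 * (r * (z / T) ^ r / z * aq * (2 * y * a + κ * h)) * ak +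
      (z / T) ^ r * ak ^ 2 / (4 * U ^ 7) := by
  obtain ⟨ε, hε⟩ : ∃ ε, ε = 1 / U ^ 12 := ⟨_, rfl⟩
  obtain ⟨n0, n1, n2, n3, n4, n5⟩ := step_num hU hε
  rw [← hε] at ha hh he
  have hr0 : (1 : ℝ) ≤ r := by exact_mod_cast hr1
  have hz1 : 1 ≤ z := by nlinarith [sq_nonneg y]
  have hz0 : 0 < z := by linarith
  have hD := step_D hκ hz n0 n1 ha hh he0 he
  have hE := step_E (h := h) (by linarith) (by linarith) hr hκ hκU hz ha he0 he hae n3
  obtain ⟨D, hDe⟩ : ∃ D, D = 2 * y * a + κ * h + a ^ 2 - κ * e := ⟨_, rfl⟩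
  rw [← hDe] at hD hE ⊢
  have ht : |D / z| ≤ 5 * ε := by
    rw [abs_div, abs_of_pos hz0, div_le_iff₀ hz0]
    exact hD
  have ht2 : r * |D / z| ≤ 5 * U * ε := by
    calc r * |D / z| ≤ U * (5 * ε) := mul_le_mul hr ht (abs_nonneg _) (by linarith)
      _ = 5 * U * ε := by ring
  have ht3 : |D / z| ≤ 1 := by nlinarith [abs_nonneg (D / z)]
  have hlo : 1 + r * (D / z) ≤ (1 + D / z) ^ r :=
    one_add_mul_le_pow (by linarith [(abs_le.1 ht3).1]) r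
  have hhi := step_pow_le (D / z) r (ht2.trans n2) (by linarith [(abs_le.1 ht3).1])
  have hc0 : 0 < r / z := by positivity
  have hc : r / z ≤ U := (div_le_self (by linarith) hz1).trans hr
  obtain ⟨β, hβ⟩ : ∃ β, β = (1 + D / z) ^ r - 1 := ⟨_, rfl⟩
  have hG0 : D ≤ β / (r / z) := by
    rw [le_div_iff₀ hc0, hβ]
    have h1 : D * (r / z) = r * (D / z) := by ring
    linarith
  have hG1 : β / (r / z) ≤ D + (16 * r * a ^ 2 + 4 * r * h ^ 2 + e) := by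
    rw [div_le_iff₀ hc0, hβ]
    have h1 : (r : ℝ) ^ 2 * (D / z) ^ 2 = (r * D ^ 2) * (r / z ^ 2) := by ring
    have h2 : (z * (16 * r * a ^ 2 + 4 * r * h ^ 2 + e)) * (r / z ^ 2) =
        (16 * r * a ^ 2 + 4 * r * h ^ 2 + e) * (r / z) := by field_simp
    have h3 := mul_le_mul_of_nonneg_right hE (by positivity : 0 ≤ r / z ^ 2)
    have h4 : D * (r / z) = r * (D / z) := by ring
    rw [add_mul]
    linarith
  have hβ2 : β ≤ 1 / (8 * U ^ 7) := by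
    have h1 : (r : ℝ) ^ 2 * (D / z) ^ 2 = (r * |D / z|) * (r * |D / z|) := by
      rw [← sq_abs (D / z)]
      ring
    have h2 : (r * |D / z|) * (r * |D / z|) ≤ (r * |D / z|) * 1 :=
      mul_le_mul_of_nonneg_left (ht2.trans n2) (by positivity)
    have h3 : r * (D / z) ≤ r * |D / z| := mul_le_mul_of_nonneg_left (le_abs_self _) (by linarith)
    rw [hβ]
    linarith
  have hfin := step_fin (U := U) (c := r / z) (l := 2 * y * a + κ * h)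
    (G := β / (r / z) - (2 * y * a + κ * h)) (e := e)
    (B := (1 + 16 * r) * a ^ 2 + 4 * r * h ^ 2 - (κ - 2) * e) (β := β) (aq := aq) (ak := ak)
    (ε := ε) (by linarith) hc0.le hc (by field_simp; ring) (by rw [hDe] at hG1; linarith) (by
      rw [hDe] at hG0 hG1
      have h1 : κ * e ≤ U * e := mul_le_mul_of_nonneg_right hκU he0
      have h2 : r * a ^ 2 ≤ U * (U * e) := mul_le_mul hr hae (sq_nonneg _) (by linarith)
      have h3 : r * h ^ 2 ≤ U * (U * e) := mul_le_mul hr hhe (sq_nonneg _) (by linarith)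
      have h4 : 1 * e ≤ U * e := mul_le_mul_of_nonneg_right (by linarith) he0
      have h5 : 1 * (U * e) ≤ U * (U * e) :=
        mul_le_mul_of_nonneg_right (by linarith) (by positivity)
      have h6 : 0 ≤ κ * e := by positivity
      rw [abs_le]
      constructor <;> nlinarith [sq_nonneg a]) he0 he n5 hβ2
  have hφ : 0 ≤ (z / T) ^ r := by positivity
  have h1 : ((z + D) / T) ^ r - (z / T) ^ r = (z / T) ^ r * β := by
    have h2 : (z + D) / T = (z / T) * (1 + D / z) := by field_simp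
    rw [h2, mul_pow, hβ]
    ring
  have h3 := mul_le_mul_of_nonneg_left hfin hφ
  rw [h1]
  refine le_trans (le_of_eq (by ring)) (h3.trans (le_of_eq (by ring)))

theorem step_dot {S : Finset ℕ} {c : ℝ} (hc : 0 < c) (k b : ℕ → ℝ) :
    2 * ∑ i ∈ S, k i * b i ≤ (∑ i ∈ S, k i ^ 2) / c + c * ∑ i ∈ S, b i ^ 2 := by
  rw [mul_sum, mul_sum, sum_div, ← sum_add_distrib]
  refine sum_le_sum fun i _ => ?_
  have h4 : k i ^ 2 / c + c * b i ^ 2 - 2 * (k i * b i) = (k i - c * b i) ^ 2 / c := by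
    field_simp
    ring
  have h5 : 0 ≤ (k i - c * b i) ^ 2 / c := by positivity
  linarith

namespace Par

variable {P : Par} {S : Finset ℕ} {x y0 : ℕ → ℝ} {V : ℝ}

theorem step_yy (hS : S ⊆ range P.n) {x' d : ℕ → ℝ} (hx : ∀ i < P.n, x' i = x i + d i)
    (hd : ∀ i, i ∉ S → d i = 0) (j : ℕ) : P.yy x' y0 j = P.yy x y0 j + P.aa S d j := by
  have h1 : P.aa (range P.n) x' j = P.aa (range P.n) x j + P.aa (range P.n) d j := by
    unfold aa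
    rw [← sum_add_distrib]
    exact sum_congr rfl fun i hi => hx i (mem_range.1 (mem_filter.1 hi).1)
  have h2 : P.aa S d j = P.aa (range P.n) d j := by
    unfold aa
    refine sum_subset (filter_subset_filter _ hS) fun i hi hi2 => hd i fun h => hi2 ?_
    exact mem_filter.2 ⟨h, (mem_filter.1 hi).2⟩
  unfold yy
  rw [h1, h2]
  ring

theorem step_en (hS : S ⊆ range P.n) {x' d : ℕ → ℝ} (hx : ∀ i < P.n, x' i = x i + d i)
    (R : Finset ℕ) (hR : R ⊆ S) : ∑ i ∈ R, x' i * (1 - x' i) =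
      ∑ i ∈ R, x i * (1 - x i) + ∑ i ∈ R, (1 - 2 * x i) * d i - ∑ i ∈ R, d i ^ 2 := by
  rw [← sum_add_distrib, ← sum_sub_distrib]
  refine sum_congr rfl fun i hi => ?_
  rw [hx i (mem_range.1 (hS (hR hi)))]
  ring

theorem step_zz (hS : S ⊆ range P.n) {x' d : ℕ → ℝ} (hx : ∀ i < P.n, x' i = x i + d i)
    (hd : ∀ i, i ∉ S → d i = 0) (j : ℕ) : P.zz S x' y0 j = P.zz S x y0 j +
      (2 * P.yy x y0 j * P.aa S d j + P.kap * P.hh S x d j + P.aa S d j ^ 2 -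
        P.kap * P.ee S d j) := by
  unfold zz hh ee
  rw [step_yy hS hx hd, step_en hS hx (P.row S j) (filter_subset _ _)]
  ring

theorem step_rest (hS : S ⊆ range P.n) {x' d : ℕ → ℝ} (hx : ∀ i < P.n, x' i = x i + d i)
    (hd : ∀ i, i ∉ S → d i = 0) : P.rest S x' y0 = P.rest S x y0 +
      2 * (P.u : ℝ) ^ 7 * ∑ j ∈ P.lrg S, P.yy x y0 j * P.aa S d j +
      (P.u : ℝ) ^ 7 * ∑ j ∈ P.lrg S, P.aa S d j ^ 2 + ∑ i ∈ S, (1 - 2 * x i) * d i -
      ∑ i ∈ S, d i ^ 2 := by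
  have h1 : ∑ j ∈ P.lrg S, P.yy x' y0 j ^ 2 = ∑ j ∈ P.lrg S, P.yy x y0 j ^ 2 +
      2 * ∑ j ∈ P.lrg S, P.yy x y0 j * P.aa S d j + ∑ j ∈ P.lrg S, P.aa S d j ^ 2 := by
    rw [mul_sum, ← sum_add_distrib, ← sum_add_distrib]
    refine sum_congr rfl fun j _ => ?_
    rw [step_yy hS hx hd]
    ring
  unfold rest
  rw [h1, step_en hS hx S Subset.rfl]
  ring

theorem step_v1 (q d k : ℕ → ℝ) : ∑ i ∈ S, k i * P.v1 S x y0 q d i =
    ∑ j ∈ P.med S, P.cf S x y0 j * P.aa S q j * P.ll S x y0 d j * P.aa S k j := by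
  unfold v1
  simp only [mul_sum]
  rw [sum_comm]
  refine sum_congr rfl fun j _ => ?_
  rw [show P.aa S k j = ∑ i ∈ S, if P.inc j i = true then k i else 0 from sum_filter _ _, mul_sum]
  refine sum_congr rfl fun i _ => ?_
  split_ifs
  · ring
  · simp

theorem step_med (hP : P.WF) (h : P.Ok S x y0 V) {x' d : ℕ → ℝ}
    (hx : ∀ i < P.n, x' i = x i + d i) (hd : ∀ i, i ∉ S → d i = 0)
    (hs : ∑ i ∈ S, |d i| ≤ 1 / (P.u : ℝ) ^ 12) (q k : ℕ → ℝ) (j : ℕ) :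
    (P.phi S x' y0 j - P.phi S x y0 j) * (P.aa S q j + P.aa S k j) ^ 2 ≤
      P.om S x y0 q j * P.ll S x y0 d j +
      P.om S x y0 q j * ((1 + 16 * (P.r : ℝ)) * P.aa S d j ^ 2 +
        4 * (P.r : ℝ) * P.hh S x d j ^ 2 - ((P.kap : ℝ) - 2) * P.ee S d j) +
      2 * (P.cf S x y0 j * P.aa S q j * P.ll S x y0 d j * P.aa S k j) +
      P.phi S x y0 j * P.aa S k j ^ 2 / (4 * (P.u : ℝ) ^ 7) := by
  have hU : (16 : ℝ) ≤ P.u := by exact_mod_cast hP.u16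
  have hκU : (P.kap : ℝ) ≤ P.u := by exact_mod_cast hP.ku
  have hκ : (1 : ℝ) ≤ P.kap := by exact_mod_cast (by unfold kap; omega : 1 ≤ P.kap)
  have hr : (P.r : ℝ) ≤ P.u := by
    exact_mod_cast (by have := hP.ku; unfold kap at this; omega : P.r ≤ P.u)
  have hrow : ∑ i ∈ P.row S j, |d i| ≤ 1 / (P.u : ℝ) ^ 12 :=
    (sum_le_sum_of_subset_of_nonneg (filter_subset _ _) fun _ _ _ => abs_nonneg _).trans hs
  have hcard : ((P.row S j).card : ℝ) ≤ P.u := by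
    have h1 : (P.row S j).card ≤ P.n :=
      (card_le_card ((filter_subset _ _).trans h.sub : P.row S j ⊆ range P.n)).trans
        (card_range _).le
    exact_mod_cast h1.trans hP.nu
  have h12 : ∀ i ∈ P.row S j, |1 - 2 * x i| ≤ 1 := fun i hi => by
    have h1 := h.unit i (mem_filter.1 hi).1
    rw [abs_le]
    constructor <;> linarith [h1.1, h1.2]
  have he0 : 0 ≤ P.ee S d j := sum_nonneg fun _ _ => sq_nonneg _
  have ha : |P.aa S d j| ≤ 1 / (P.u : ℝ) ^ 12 := (abs_sum_le_sum_abs _ _).trans hrow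
  have hh : |P.hh S x d j| ≤ 1 / (P.u : ℝ) ^ 12 := by
    refine (abs_sum_le_sum_abs _ _).trans (le_trans (sum_le_sum fun i hi => ?_) hrow)
    rw [abs_mul]
    exact mul_le_of_le_one_left (abs_nonneg _) (h12 i hi)
  have he : P.ee S d j ≤ (1 / (P.u : ℝ) ^ 12) ^ 2 := by
    have h1 : P.ee S d j = ∑ i ∈ P.row S j, |d i| ^ 2 := sum_congr rfl fun i _ => (sq_abs _).symm
    rw [h1]
    exact (sum_sq_le_sq_sum_of_nonneg fun _ _ => abs_nonneg _).trans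
      (pow_le_pow_left₀ (sum_nonneg fun _ _ => abs_nonneg _) hrow 2)
  have hae : P.aa S d j ^ 2 ≤ P.u * P.ee S d j :=
    (sq_sum_le_card_mul_sum_sq (s := P.row S j) (f := d)).trans
      (mul_le_mul_of_nonneg_right hcard he0)
  have hhe : P.hh S x d j ^ 2 ≤ P.u * P.ee S d j := by
    refine (sq_sum_le_card_mul_sum_sq (s := P.row S j)
      (f := fun i => (1 - 2 * x i) * d i)).trans (mul_le_mul hcard (sum_le_sum fun i hi => ?_)
        (sum_nonneg fun _ _ => sq_nonneg _) (by linarith))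
    rw [mul_pow]
    refine mul_le_of_le_one_left (sq_nonneg _) ?_
    rw [← sq_abs]
    exact pow_le_one₀ (abs_nonneg _) (h12 i hi)
  have h1 := step_row P.r hU hP.r1 hr hκ hκU (zz_ge (P := P) (y0 := y0) h.unit j) ha hh he0 he hae
    hhe P.T_pos (P.aa S q j) (P.aa S k j)
  rw [← step_zz h.sub hx hd] at h1
  unfold om cf ll phi
  refine h1.trans (le_of_eq (by ring))

theorem Ok.step (hP : P.WF) (h : P.Ok S x y0 V) (x' d q w : ℕ → ℝ)
    (hx : ∀ i < P.n, x' i = x i + d i) (hd : ∀ i, i ∉ S → d i = 0)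
    (hs : ∑ i ∈ S, |d i| ≤ 1 / (P.u : ℝ) ^ 12) :
    P.Pot S x' y0 (V + P.L1 S x y0 q d + P.S2 S x y0 q d w +
      8 * (P.u : ℝ) ^ 7 * ∑ i ∈ S, (1 - q i + P.Mv S x y0 q i) ^ 2) := by
  intro v
  obtain ⟨k, rfl⟩ : ∃ k : ℕ → ℝ, v = fun i => q i + 1 * k i :=
    ⟨fun i => v i - q i, funext fun i => by ring⟩
  have hU : (16 : ℝ) ≤ P.u := by exact_mod_cast hP.u16
  have hU7 : (0 : ℝ) < (P.u : ℝ) ^ 7 := by positivity
  have haa : ∀ j, P.aa S (fun i => q i + 1 * k i) j = P.aa S q j + P.aa S k j := fun j => by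
    unfold aa
    simp only [one_mul, sum_add_distrib]
  have h1 : P.Mq S x' y0 (fun i => q i + 1 * k i) = P.Mq S x y0 (fun i => q i + 1 * k i) +
      ∑ j ∈ P.med S, (P.phi S x' y0 j - P.phi S x y0 j) * (P.aa S q j + P.aa S k j) ^ 2 := by
    rw [Mq_eq, Mq_eq]
    simp only [haa, sub_mul, sum_sub_distrib]
    ring
  have h2 := sum_le_sum (s := P.med S) fun j _ => step_med hP h hx hd hs q k j
  rw [sum_add_distrib, sum_add_distrib, sum_add_distrib, ← mul_sum, ← sum_div, ← step_v1] at h2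
  have h3 := P.Mq_add S x y0 q k 1
  have h4 := h.pot q
  have h5 := step_rest (y0 := y0) h.sub hx hd
  have h6 : (∑ i ∈ S, k i ^ 2) / (P.u : ℝ) ^ 7 ≤ ∑ i ∈ S, k i ^ 2 - P.Mq S x y0 k := by
    rw [div_le_iff₀' hU7]
    exact h.gap hP k
  have h7 : (∑ j ∈ P.med S, P.phi S x y0 j * P.aa S k j ^ 2) / (4 * (P.u : ℝ) ^ 7) ≤
      (∑ i ∈ S, k i ^ 2) / (P.u : ℝ) ^ 7 / 4 := by
    rw [div_div, mul_comm _ (4 : ℝ)]
    exact div_le_div_of_nonneg_right (h.phi_sum_le hP k) (by positivity)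
  have h8 := step_dot (S := S) (c := 8 * (P.u : ℝ) ^ 7) (by positivity) k
    fun i => 1 - q i + P.Mv S x y0 q i
  have h9 := step_dot (S := S) (c := 8 * (P.u : ℝ) ^ 7) (by positivity) k
    fun i => P.v1 S x y0 q d i - (w i - P.Mv S x y0 w i)
  have h10 : (∑ i ∈ S, k i ^ 2) / (8 * (P.u : ℝ) ^ 7) = (∑ i ∈ S, k i ^ 2) / (P.u : ℝ) ^ 7 / 8 := by
    rw [div_div, mul_comm]
  have h11 := h.Mq_le hP fun i => w i + (-1 / 2) * k i
  rw [Mq_add] at h11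
  have h12 : ∑ i ∈ S, (w i + (-1 / 2) * k i) ^ 2 =
      ∑ i ∈ S, w i ^ 2 - ∑ i ∈ S, k i * w i + (∑ i ∈ S, k i ^ 2) / 4 := by
    rw [sum_div, ← sum_sub_distrib, ← sum_add_distrib]
    exact sum_congr rfl fun i _ => by ring
  have h13 : ∑ i ∈ S, k i * (1 - q i + P.Mv S x y0 q i) =
      ∑ i ∈ S, k i - ∑ i ∈ S, k i * q i + ∑ i ∈ S, k i * P.Mv S x y0 q i := by
    rw [← sum_sub_distrib, ← sum_add_distrib]
    exact sum_congr rfl fun i _ => by ring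
  have h14 : ∑ i ∈ S, k i * (P.v1 S x y0 q d i - (w i - P.Mv S x y0 w i)) =
      ∑ i ∈ S, k i * P.v1 S x y0 q d i - ∑ i ∈ S, k i * w i +
        ∑ i ∈ S, k i * P.Mv S x y0 w i := by
    rw [← sum_sub_distrib, ← sum_add_distrib]
    exact sum_congr rfl fun i _ => by ring
  have h15 : ∑ i ∈ S, (q i + 1 * k i) = ∑ i ∈ S, q i + ∑ i ∈ S, k i := by
    simp only [one_mul, sum_add_distrib]
  have h16 : ∑ i ∈ S, (q i + 1 * k i) ^ 2 =
      ∑ i ∈ S, q i ^ 2 + 2 * ∑ i ∈ S, k i * q i + ∑ i ∈ S, k i ^ 2 := by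
    rw [mul_sum, ← sum_add_distrib, ← sum_add_distrib]
    exact sum_congr rfl fun i _ => by ring
  unfold Ff at h4 ⊢
  unfold L1 S2
  rw [h1, h3, h5, h15, h16]
  rw [h10, h13] at h8
  rw [h10, h14] at h9
  rw [h12] at h11
  linarith

end Par

end Pool.Agent.P.MP_1639c2_lc.W
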