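import Mathlib

/-! Definitions used in the statement: instances, bit masks, transcripts of oracle queries. -/

namespace Pool.Agent.P.MP_1639c2_lc.W

/-- An instance: the list of costs of the elements `0, ..., n-1`, and the list of hyperedges, each
given as a bit mask together with its lower and upper bound. -/
abbrev Inst := List ℤ × List (List Bool × ℤ × ℤ)

/-- Bit number `i` of a list of bits (false beyond its end). -/
def bit (B : List Bool) (i : ℕ) : Bool := B.getD i false

/-- The finite set of natural numbers coded by a list of bits. -/
def mask (B : List Bool) : Finset ℕ := (Finset.range B.length).filter (fun i => bit B i = true)

/-- The first `k` answers of the oracle `O`, when the next query is computed by `q` from the input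
and the list of the answers received so far. -/
def transcript {α : Type} (q : α × List Bool → List Bool) (O : List Bool → Bool) (a : α) :
    ℕ → List Bool
  | 0 => []
  | k + 1 => transcript q O a k ++ [O (q (a, transcript q O a k))]

end Pool.Agent.P.MP_1639c2_lc.W
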