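import Pool.Agent.P.MP_1639c2_lc.W.Inv
import Pool.Agent.P.MP_1639c2_lc.W.Exec
import Pool.Agent.P.MP_1639c2_lc.W.Step
import Pool.Agent.P.MP_1639c2_lc.W.Exist
import Pool.Agent.P.MP_1639c2_lc.W.Neg
import Pool.Agent.P.MP_1639c2_lc.W.Neu

/-! A step of the walk. -/

namespace Pool.Agent.P.MP_1639c2_lc.W

open Finset

variable {M : Matroid ℕ} {P : Par} {c : List ℤ} {g cm : ℚ} {Bs0 Bs : Cp} {V : ℝ}
  {O : List Bool → Bool}

theorem walk_pow {U c : ℝ} (hU : 16 ≤ U) (hc : c ≤ 256) (k : ℕ) : c * U ^ k ≤ U ^ (k + 2) := by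
  have h0 : 0 < U ^ k := by positivity
  have h1 : (256 : ℝ) ≤ U ^ 2 := by nlinarith
  rw [pow_add]
  nlinarith

/-- The integral direction is short and has negative curvature. -/
theorem walk_dir (hP : P.WF) {S I : Finset ℕ} {pi : ℕ → ℕ} {x y : ℕ → ℚ}
    (h : P.Ok S (rc x) (rc y) V) (hI : I ⊆ S) (hne : S.Nonempty) (hc : S.card ≤ 2 * I.card)
    (hpi : ∀ p ∈ I, pi p ∈ S ∧ pi p ∉ I) :
    (∀ p < 2 * P.n, |neg (2 * P.n) (pol (P.Sf S x y (P.qv S x y) I pi)) (P.u ^ 107) P.R p| ≤ P.R) ∧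
      P.Sf S (rc x) (rc y) (P.qv S (rc x) (rc y)) I pi (fun p =>
        (neg (2 * P.n) (pol (P.Sf S x y (P.qv S x y) I pi)) (P.u ^ 107) P.R p : ℝ)) ≤
          -((P.u : ℝ) ^ 88 / 4) := by
  have hU : (16 : ℝ) ≤ P.u := by exact_mod_cast hP.u16
  have hn : (P.n : ℝ) ≤ P.u := by exact_mod_cast hP.nu
  have hn0 : (0 : ℝ) ≤ P.n := by positivity
  have hq := (h.qv_spec hP).1
  have hA : (fun p q => ((pol (P.Sf S x y (P.qv S x y) I pi) p q : ℚ) : ℝ)) =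
      pol (P.Sf S (rc x) (rc y) (P.qv S (rc x) (rc y)) I pi) := by
    funext p q
    rw [pol_cast, qv_cast]
  have hI' : I ⊆ range P.n := hI.trans h.sub
  have key := neg_spec (2 * P.n) (pol (P.Sf S x y (P.qv S x y) I pi)) (pol_symm _)
    ((P.u : ℝ) ^ 30) (1 / (P.u : ℝ) ^ 20) (4 * (P.u : ℝ) ^ 52) (P.u ^ 107) P.R (by positivity)
    (by
      intro v
      rw [hA, ← Sf_qf P S I pi h.sub hI']
      exact h.bound hP hq pi hI v)
    (by
      obtain ⟨xi, h1, h2⟩ := h.exist hP hq hI hne hc hpi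
      refine ⟨xi, h1, ?_⟩
      rw [hA, ← Sf_qf P S I pi h.sub hI']
      exact h2)
    (by
      have e : 4 * (P.u : ℝ) ^ 52 * (1 / (P.u : ℝ) ^ 20) = (2 * P.u) ^ 2 * (P.u : ℝ) ^ 30 := by
        field_simp
        ring
      rw [e]
      push_cast
      gcongr)
    (by
      push_cast
      calc 5 * (2 * (P.n : ℝ)) * (4 * (P.u : ℝ) ^ 52) ^ 2
          ≤ 5 * (2 * (P.u : ℝ)) * (4 * (P.u : ℝ) ^ 52) ^ 2 := by gcongr
        _ = 160 * (P.u : ℝ) ^ 105 := by ring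
        _ ≤ _ := walk_pow hU (by norm_num) 105)
    (by
      simp only [Par.R]
      push_cast
      calc 12 * (4 * (P.u : ℝ) ^ 52) = 48 * (P.u : ℝ) ^ 52 := by ring
        _ ≤ _ := walk_pow hU (by norm_num) 52)
  refine ⟨key.1, ?_⟩
  have h2 := key.2
  rw [hA, ← Sf_qf P S I pi h.sub hI'] at h2
  refine h2.trans (le_of_eq ?_)
  simp only [Par.R]
  push_cast
  field_simp

theorem walk_dv_off {S I : Finset ℕ} {pi : ℕ → ℕ} (hI : I ⊆ S) (hpi : ∀ p ∈ I, pi p ∈ S)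
    {K : Type} [Field K] (xi : ℕ → K) {i : ℕ} (hi : i ∉ S) : dv I pi xi i = 0 := by
  unfold dv
  rw [if_neg (fun h => hi (hI h)), sub_zero]
  refine sum_eq_zero fun p hp => if_neg ?_
  rintro rfl
  exact hi (hpi p hp)

/-- The counts after the execution of the plan. -/
theorem walk_cnt (hP : P.WF) (hO : Orc M P.n O) (h : Bas M P.n P.N Bs) {I : Finset ℕ}
    {pi : ℕ → ℕ} {t : ℕ → ℤ} (hI : I ⊆ range P.n) (ht : ∀ p ∈ I, |t p| ≤ P.R)
    (hr : ∀ p ∈ I, rob P (arcs O P.n P.N Bs) p (pi p) = true) {v : ℕ} (hv : v < P.n) :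
    (cnt P.N (exec O P.n P.N (planOf P.n P.R I pi t) (nrm P.n P.N Bs)) v : ℚ) =
      cnt P.N Bs v + dv I pi (fun p => (t p : ℚ)) v := by
  have hl : (planOf P.n P.R I pi t).length ≤ P.L := by
    refine (planOf_length _ _ _ _ _).trans ?_
    simp only [Par.R, Par.L]
    calc P.n * P.u ^ 54 ≤ P.u * P.u ^ 54 := Nat.mul_le_mul_right _ hP.nu
      _ = P.u ^ 55 := by ring
  have h1 := exec_cnt hO (planOf P.n P.R I pi t) (bas_nrm h) (by
    intro a ha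
    rw [acnt_nrm hO h]
    obtain ⟨p, hp, h2⟩ := planOf_mem ha
    have h3 := hr p hp
    simp only [rob, Bool.and_eq_true, decide_eq_true_eq] at h3
    rcases h2 with rfl | rfl
    · exact hl.trans h3.1
    · exact hl.trans h3.2) hv
  rw [cnt_nrm Bs hv] at h1
  rw [← planOf_count pi hI ht v]
  have h2 := congrArg (Int.cast : ℤ → ℚ) h1
  push_cast at h2
  rw [h2]
  ring

theorem Inv.walk_step (hP : P.WF) (hO : Orc M P.n O) (hg : 0 < g)
    (hcm : ∀ Z : Finset ℕ, M.IsBase (Z : Set ℕ) → cm ≤ ∑ v ∈ Z, cq c v)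
    (h : Inv M P c g cm Bs0 Bs V) (hV : V ≤ (P.u : ℝ) ^ 7)
    (hk : (kc P Bs).isEmpty = true) (hne : (alv P.n P.N Bs).Nonempty) :
    Inv M P c g cm Bs0 (rdStep O P c g Bs0 Bs) (V - 1 / (P.u : ℝ) ^ 63) := by
  have hU : (16 : ℝ) ≤ P.u := by exact_mod_cast hP.u16
  have hU0 : (0 : ℝ) < P.u := by linarith
  have hu0 : 0 < P.u := by have := hP.u16; omega
  have hn : (P.n : ℝ) ≤ P.u := by exact_mod_cast hP.nu
  have hOk := h.ok hP hg hcm hV
  obtain ⟨hI, hc, hpp⟩ := pick_spec hO h.bas (Nat.pow_pos hu0) (by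
    simp only [Par.L, Par.Kk]
    calc P.n * P.u ^ 55 ≤ P.u * P.u ^ 55 := Nat.mul_le_mul_right _ hP.nu
      _ = P.u ^ 56 := by ring) hk
  obtain ⟨hx1, hx2⟩ := walk_dir hP hOk hI hne hc (fun p hp => ⟨(hpp p hp).1, (hpp p hp).2.1⟩)
  have hq2 := (hOk.qv_spec hP).2
  have hCs : rdStep O P c g Bs0 Bs = exec O P.n P.N (planOf P.n P.R
      (II P (arcs O P.n P.N Bs) (alv P.n P.N Bs)) (pp P (arcs O P.n P.N Bs) (alv P.n P.N Bs))
      (tt P c g Bs0 (arcs O P.n P.N Bs) Bs)) (nrm P.n P.N Bs) := by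
    simp only [rdStep, hk, if_true, plan]
  obtain ⟨s, hs1, hs2, hs3⟩ : ∃ s : ℤ, |s| = 1 ∧
      (∀ p, tt P c g Bs0 (arcs O P.n P.N Bs) Bs p = s * xi0 P Bs0 (arcs O P.n P.N Bs) Bs p) ∧
      (s : ℚ) * sg P c g Bs0 (arcs O P.n P.N Bs) Bs ≤ 0 := by
    by_cases hs : sg P c g Bs0 (arcs O P.n P.N Bs) Bs ≤ 0
    · exact ⟨1, rfl, fun p => by simp [tt, hs], by simpa using hs⟩
    · exact ⟨-1, rfl, fun p => by simp [tt, hs], by simpa using (not_le.1 hs).le⟩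
  have hsg : sg P c g Bs0 (arcs O P.n P.N Bs) Bs = P.L1 (alv P.n P.N Bs) (xq P.N Bs) (yz P Bs0)
      (P.qv (alv P.n P.N Bs) (xq P.N Bs) (yz P Bs0)) (d0 P Bs0 (arcs O P.n P.N Bs) Bs) +
      (P.u : ℚ) ^ 6 * (costx P.n c (d0 P Bs0 (arcs O P.n P.N Bs) Bs) / g) := rfl
  have hd0 : d0 P Bs0 (arcs O P.n P.N Bs) Bs = dv (II P (arcs O P.n P.N Bs) (alv P.n P.N Bs))
      (pp P (arcs O P.n P.N Bs) (alv P.n P.N Bs))
      (fun p => (xi0 P Bs0 (arcs O P.n P.N Bs) Bs p : ℚ)) := rfl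
  change ∀ p < 2 * P.n, |xi0 P Bs0 (arcs O P.n P.N Bs) Bs p| ≤ P.R at hx1
  change P.Sf _ _ _ _ _ _ (fun p => (xi0 P Bs0 (arcs O P.n P.N Bs) Bs p : ℝ)) ≤ _ at hx2
  generalize xi0 P Bs0 (arcs O P.n P.N Bs) Bs = X at hx1 hx2 hs2 hd0
  generalize d0 P Bs0 (arcs O P.n P.N Bs) Bs = d at hsg hd0
  generalize sg P c g Bs0 (arcs O P.n P.N Bs) Bs = sgn at hsg hs3
  generalize tt P c g Bs0 (arcs O P.n P.N Bs) Bs = t at hCs hs2
  generalize II P (arcs O P.n P.N Bs) (alv P.n P.N Bs) = I at hI hc hpp hx2 hCs hd0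
  generalize pp P (arcs O P.n P.N Bs) (alv P.n P.N Bs) = pi at hpp hx2 hCs hd0
  have hI' : I ⊆ range P.n := hI.trans hOk.sub
  have hXI : ∀ p ∈ I, |X p| ≤ P.R := fun p hp => hx1 p (by
    have := mem_range.1 (hI' hp)
    omega)
  have hcnt : ∀ v < P.n, (cnt P.N (rdStep O P c g Bs0 Bs) v : ℚ) = cnt P.N Bs v + s * d v := by
    intro v hv
    rw [hCs, walk_cnt hP hO h.bas hI' (fun p hp => by
      rw [hs2, abs_mul, hs1, one_mul]
      exact hXI p hp) (fun p hp => (hpp p hp).2.2) hv, hd0, ← dv_smul]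
    simp only [hs2, Int.cast_mul]
  have hB : Bas M P.n P.N (rdStep O P c g Bs0 Bs) := hCs ▸ bas_exec hO _ (bas_nrm h.bas)
  generalize rdStep O P c g Bs0 Bs = Cs at hcnt hB
  have hdz : ∀ v, v ∉ alv P.n P.N Bs → d v = 0 := fun v hv =>
    hd0 ▸ walk_dv_off hI (fun p hp => (hpp p hp).1) _ hv
  have hoff : ∀ v < P.n, v ∉ alv P.n P.N Bs → cnt P.N Cs v = cnt P.N Bs v := by
    intro v hv hv'
    have h1 := hcnt v hv
    rw [hdz v hv', mul_zero, add_zero] at h1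
    exact_mod_cast h1
  have hxq : ∀ v < P.n, xq P.N Cs v = xq P.N Bs v + s / P.N * d v := by
    intro v hv
    simp only [xq]
    rw [hcnt v hv]
    ring
  have hN : (P.N : ℝ) = (P.u : ℝ) ^ 75 := by simp [Par.N]
  have hs4 : |(s : ℝ)| = 1 := by exact_mod_cast hs1
  have hs5 : (s : ℝ) ^ 2 = 1 := by rw [← sq_abs, hs4, one_pow]
  have hrd : rc d = dv I pi (fun p => (X p : ℝ)) := by
    rw [hd0, dv_cast]
    refine congrArg (dv I pi) (funext fun p => ?_)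
    simp [rc]
  have hdd : dv I pi (fun p => (s : ℝ) / P.N * (X p : ℝ)) = fun i => (s : ℝ) / P.N * rc d i := by
    funext i
    rw [dv_smul, hrd]
  have hstep := hOk.step hP (rc (xq P.N Cs)) (dv I pi (fun p => (s : ℝ) / P.N * (X p : ℝ)))
    (P.qv (alv P.n P.N Bs) (rc (xq P.N Bs)) (rc (yz P Bs0)))
    (fun i => (s : ℝ) / P.N * (X (P.n + i) : ℝ))
    (by
      intro i hi
      rw [hdd]
      simp only [rc]
      rw [hxq i hi]
      push_cast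
      rfl)
    (fun i hi => walk_dv_off hI (fun p hp => (hpp p hp).1) _ hi)
    (by
      refine (Par.dv_abs_sum _ _ _ _).trans ?_
      have h1 : ∑ p ∈ I, |(s : ℝ) / P.N * (X p : ℝ)| ≤ I.card • (1 / (P.u : ℝ) ^ 21) := by
        refine sum_le_card_nsmul _ _ _ fun p hp => ?_
        have h2 : |(X p : ℝ)| ≤ (P.u : ℝ) ^ 54 := by
          have h3 := hXI p hp
          simp only [Par.R] at h3
          exact_mod_cast h3
        rw [abs_mul, abs_div, hs4, hN, abs_of_pos (by positivity)]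
        calc 1 / (P.u : ℝ) ^ 75 * |(X p : ℝ)| ≤ 1 / (P.u : ℝ) ^ 75 * (P.u : ℝ) ^ 54 := by gcongr
          _ = 1 / (P.u : ℝ) ^ 21 := by field_simp
      have h4 : (I.card : ℝ) ≤ P.u := by
        have h5 := card_le_card hI'
        rw [card_range] at h5
        exact_mod_cast h5.trans hP.nu
      rw [nsmul_eq_mul] at h1
      calc 2 * ∑ p ∈ I, |(s : ℝ) / P.N * (X p : ℝ)| ≤ 2 * (P.u * (1 / (P.u : ℝ) ^ 21)) := by
            gcongr
            exact h1.trans (by gcongr)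
        _ = 2 / (P.u : ℝ) ^ 20 := by field_simp
        _ ≤ 1 / (P.u : ℝ) ^ 12 := by
            rw [div_le_div_iff₀ (by positivity) (by positivity), one_mul]
            calc 2 * (P.u : ℝ) ^ 12 ≤ (P.u : ℝ) ^ 14 := walk_pow hU (by norm_num) 12
              _ ≤ (P.u : ℝ) ^ 20 := pow_le_pow_right₀ (by linarith) (by norm_num))
  have hS2 : P.S2 (alv P.n P.N Bs) (rc (xq P.N Bs)) (rc (yz P Bs0))
      (P.qv (alv P.n P.N Bs) (rc (xq P.N Bs)) (rc (yz P Bs0)))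
      (dv I pi (fun p => (s : ℝ) / P.N * (X p : ℝ)))
      (fun i => (s : ℝ) / P.N * (X (P.n + i) : ℝ)) ≤ -(1 / (4 * (P.u : ℝ) ^ 62)) := by
    change P.Sf _ _ _ _ I pi (fun p => (s : ℝ) / P.N * (X p : ℝ)) ≤ _
    rw [Sf_smul, div_pow, hs5, hN]
    calc 1 / ((P.u : ℝ) ^ 75) ^ 2 * P.Sf (alv P.n P.N Bs) (rc (xq P.N Bs)) (rc (yz P Bs0))
          (P.qv (alv P.n P.N Bs) (rc (xq P.N Bs)) (rc (yz P Bs0))) I pi (fun p => (X p : ℝ))
        ≤ 1 / ((P.u : ℝ) ^ 75) ^ 2 * -((P.u : ℝ) ^ 88 / 4) := by gcongr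
      _ = _ := by field_simp
  have hex : ex P c g cm Cs = ex P c g cm Bs +
      (s : ℝ) / P.N * (((P.u : ℚ) ^ 6 * (costx P.n c d / g) : ℚ) : ℝ) := by
    have h1 : costx P.n c (xq P.N Cs) = costx P.n c (xq P.N Bs) + s / P.N * costx P.n c d := by
      simp only [costx]
      rw [mul_sum, ← sum_add_distrib]
      refine sum_congr rfl fun i hi => ?_
      rw [hxq i (mem_range.1 hi)]
      ring
    simp only [ex]
    rw [h1]
    push_cast
    ring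
  have hL1 : P.L1 (alv P.n P.N Bs) (rc (xq P.N Bs)) (rc (yz P Bs0))
      (P.qv (alv P.n P.N Bs) (rc (xq P.N Bs)) (rc (yz P Bs0)))
      (dv I pi (fun p => (s : ℝ) / P.N * (X p : ℝ))) +
      (s : ℝ) / P.N * (((P.u : ℚ) ^ 6 * (costx P.n c d / g) : ℚ) : ℝ) ≤ 0 := by
    rw [hdd, L1_smul, ← qv_cast, ← L1_cast, ← mul_add, ← Rat.cast_add, ← hsg]
    have h1 : (s : ℝ) * (sgn : ℝ) ≤ 0 := by exact_mod_cast hs3
    have h2 : (s : ℝ) / P.N * (sgn : ℝ) = (s : ℝ) * (sgn : ℝ) / P.N := by ring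
    rw [h2]
    exact div_nonpos_of_nonpos_of_nonneg h1 (by positivity)
  have hrho : 8 * (P.u : ℝ) ^ 7 * ∑ i ∈ alv P.n P.N Bs,
      (1 - P.qv (alv P.n P.N Bs) (rc (xq P.N Bs)) (rc (yz P Bs0)) i +
        P.Mv (alv P.n P.N Bs) (rc (xq P.N Bs)) (rc (yz P Bs0))
          (P.qv (alv P.n P.N Bs) (rc (xq P.N Bs)) (rc (yz P Bs0))) i) ^ 2 ≤
      1 / (8 * (P.u : ℝ) ^ 62) := by
    calc _ ≤ 8 * (P.u : ℝ) ^ 7 * (1 / (64 * (P.u : ℝ) ^ 69)) := by gcongr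
      _ = _ := by field_simp; norm_num
  have h63 : 1 / (P.u : ℝ) ^ 63 ≤ 1 / (8 * (P.u : ℝ) ^ 62) := by
    refine one_div_le_one_div_of_le (by positivity) ?_
    have h0 : 0 < (P.u : ℝ) ^ 62 := by positivity
    rw [pow_succ _ 62]
    nlinarith
  have h48 : 1 / (4 * (P.u : ℝ) ^ 62) = 2 * (1 / (8 * (P.u : ℝ) ^ 62)) := by
    field_simp
    norm_num
  have h630 : 0 ≤ 1 / (P.u : ℝ) ^ 63 := by positivity
  have hnext := h.next hP hg hcm hB hoff (V' := V - 1 / (P.u : ℝ) ^ 63)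
    (fun v => (hstep v).trans (by linarith)) (by linarith)
  refine hnext.mono ?_
  have hsub : alv P.n P.N Cs ⊆ alv P.n P.N Bs := by
    intro v hv
    by_contra hv'
    have h1 := hv
    simp only [alv, mem_filter, mem_range] at h1
    refine hv' ?_
    simp only [alv, mem_filter, mem_range]
    rwa [hoff v h1.1 hv'] at h1
  have h1 : ((alv P.n P.N Cs).card : ℝ) ≤ (alv P.n P.N Bs).card := by
    exact_mod_cast card_le_card hsub
  linarith

end Pool.Agent.P.MP_1639c2_lc.W
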